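import Mathlib

set_option autoImplicit false

/-!
Basic definitions for the cover-time speedup theorem (MP_12e6b8_pr).
`C x y` are symmetric nonnegative conductances (the diagonal is allowed and harmless).
-/

open Finset Matrix

namespace Pool.Agent.Speedup

variable {V : Type} [Fintype V] [DecidableEq V]

/-- Dirichlet energy of `f` for the conductances `C`. -/
noncomputable def energy (C : V → V → ℝ) (f : V → ℝ) : ℝ :=
  (1 / 2) * ∑ x, ∑ y, C x y * (f x - f y) ^ 2

/-- (positive) graph Laplacian. -/
noncomputable def lapl (C : V → V → ℝ) (f : V → ℝ) (x : V) : ℝ :=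
  ∑ y, C x y * (f x - f y)

/-- The matrix `Laplacian + diag n`. -/
noncomputable def Lam (C : V → V → ℝ) (n : V → ℝ) : Matrix V V ℝ :=
  Matrix.diagonal (fun x => (∑ y, C x y) + n x) - Matrix.of C

/-- A connected finite network. -/
structure IsNet (C : V → V → ℝ) : Prop where
  symm : ∀ x y, C x y = C y x
  nonneg : ∀ x y, 0 ≤ C x y
  conn : ∀ f : V → ℝ, energy C f = 0 → ∀ x y, f x = f y

end Pool.Agent.Speedup
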