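import Mathlib
import Pool.Agent.Speedup.Defs

set_option autoImplicit false
set_option linter.unusedSectionVars false

/-!
Linear algebra of the matrices `diag D - K` (symmetric M-matrices).
-/

open Finset Matrix Filter Topology

namespace Pool.Agent.Speedup

variable {V : Type} [Fintype V] [DecidableEq V]

/-- `diag D - K`. -/
noncomputable def DK (D : V → ℝ) (K : V → V → ℝ) : Matrix V V ℝ :=
  Matrix.diagonal D - Matrix.of K

lemma Lam_eq_DK (C : V → V → ℝ) (n : V → ℝ) : Lam C n = DK (fun x => (∑ y, C x y) + n x) C := rfl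

lemma DK_apply (D : V → ℝ) (K : V → V → ℝ) (x y : V) :
    DK D K x y = (if x = y then D x else 0) - K x y := by
  simp [DK, Matrix.diagonal_apply]

lemma DK_mulVec (D : V → ℝ) (K : V → V → ℝ) (f : V → ℝ) (x : V) :
    (DK D K *ᵥ f) x = D x * f x - ∑ y, K x y * f y := by
  simp only [mulVec, dotProduct, DK_apply, sub_mul, sum_sub_distrib, ite_mul, zero_mul]
  simp

lemma Lam_mulVec (C : V → V → ℝ) (n f : V → ℝ) (x : V) :
    (Lam C n *ᵥ f) x = lapl C f x + n x * f x := by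
  rw [Lam_eq_DK, DK_mulVec, lapl]
  simp only [mul_sub, sum_sub_distrib, ← sum_mul]
  ring

lemma Lam_mulVec_one (C : V → V → ℝ) (n : V → ℝ) : Lam C n *ᵥ 1 = n := by
  ext x
  rw [Lam_mulVec]
  simp [lapl]

lemma DK_form (D : V → ℝ) (K : V → V → ℝ) (f : V → ℝ) :
    f ⬝ᵥ DK D K *ᵥ f = ∑ x, D x * f x ^ 2 - ∑ x, ∑ y, K x y * (f x * f y) := by
  simp only [dotProduct, DK_mulVec, mul_sub, sum_sub_distrib, mul_sum]
  congr 1
  · exact sum_congr rfl fun x _ => by ring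
  · exact sum_congr rfl fun x _ => sum_congr rfl fun y _ => by ring

lemma energy_eq {C : V → V → ℝ} (hs : ∀ x y, C x y = C y x) (f : V → ℝ) :
    energy C f = ∑ x, (∑ y, C x y) * f x ^ 2 - ∑ x, ∑ y, C x y * (f x * f y) := by
  have h1 : ∑ x, ∑ y, C x y * (f x - f y) ^ 2 =
      ∑ x, ∑ y, C x y * f x ^ 2 + ∑ x, ∑ y, C x y * f y ^ 2 - 2 * ∑ x, ∑ y, C x y * (f x * f y) := by
    simp only [mul_sum, ← sum_add_distrib, ← sum_sub_distrib]
    exact sum_congr rfl fun x _ => sum_congr rfl fun y _ => by ring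
  have h2 : ∑ x, ∑ y, C x y * f y ^ 2 = ∑ x, ∑ y, C x y * f x ^ 2 := by
    rw [sum_comm]
    exact sum_congr rfl fun x _ => sum_congr rfl fun y _ => by rw [hs]
  have h3 : ∑ x, (∑ y, C x y) * f x ^ 2 = ∑ x, ∑ y, C x y * f x ^ 2 :=
    sum_congr rfl fun x _ => by rw [sum_mul]
  rw [energy, h1, h2, h3]
  ring

lemma Lam_form {C : V → V → ℝ} (hs : ∀ x y, C x y = C y x) (n f : V → ℝ) :
    f ⬝ᵥ Lam C n *ᵥ f = energy C f + ∑ x, n x * f x ^ 2 := by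
  rw [Lam_eq_DK, DK_form, energy_eq hs]
  simp only [add_mul, sum_add_distrib]
  ring

lemma energy_nonneg {C : V → V → ℝ} (h0 : ∀ x y, 0 ≤ C x y) (f : V → ℝ) : 0 ≤ energy C f := by
  unfold energy
  have : 0 ≤ ∑ x, ∑ y, C x y * (f x - f y) ^ 2 :=
    sum_nonneg fun x _ => sum_nonneg fun y _ => mul_nonneg (h0 x y) (sq_nonneg _)
  linarith

lemma DK_isSymm {D : V → ℝ} {K : V → V → ℝ} (hs : ∀ x y, K x y = K y x) :
    (DK D K).IsSymm := by
  ext x y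
  rw [transpose_apply, DK_apply, DK_apply, hs y x]
  by_cases h : x = y
  · subst h; rfl
  · simp [h, Ne.symm h]

lemma DK_isHermitian {D : V → ℝ} {K : V → V → ℝ} (hs : ∀ x y, K x y = K y x) :
    (DK D K).IsHermitian := by
  rw [Matrix.IsHermitian, conjTranspose_eq_transpose_of_trivial]
  exact DK_isSymm hs

lemma Lam_posDef {C : V → V → ℝ} (hC : IsNet C) {n : V → ℝ} (hn : ∀ x, 0 ≤ n x)
    (hn0 : ∃ x, 0 < n x) : (Lam C n).PosDef := by
  refine PosDef.of_dotProduct_mulVec_pos (DK_isHermitian hC.symm) fun f hf => ?_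
  rw [star_trivial, Lam_form hC.symm]
  have h1 := energy_nonneg hC.nonneg f
  have h2 : 0 ≤ ∑ x, n x * f x ^ 2 := sum_nonneg fun x _ => mul_nonneg (hn x) (sq_nonneg _)
  rcases h1.lt_or_eq with h | h
  · linarith
  · have hc := hC.conn f h.symm
    obtain ⟨z, hz⟩ := hn0
    have hfz : f z ≠ 0 := by
      intro h0
      apply hf
      ext x
      rw [hc x z, h0]
      rfl
    have : 0 < ∑ x, n x * f x ^ 2 :=
      sum_pos' (fun x _ => mul_nonneg (hn x) (sq_nonneg _)) ⟨z, mem_univ _, by positivity⟩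
    linarith

lemma DK_posDef_of_le {D : V → ℝ} {K K' : V → V → ℝ} (h : (DK D K).PosDef)
    (hs : ∀ x y, K' x y = K' y x) (h0 : ∀ x y, 0 ≤ K' x y) (hle : ∀ x y, K' x y ≤ K x y) :
    (DK D K').PosDef := by
  refine PosDef.of_dotProduct_mulVec_pos (DK_isHermitian hs) fun f hf => ?_
  have hf' : (fun x => |f x|) ≠ 0 := by
    intro hh
    apply hf
    ext x
    have := congrFun hh x
    simpa using this
  have h1 := h.dotProduct_mulVec_pos hf'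
  rw [star_trivial] at h1 ⊢
  rw [DK_form] at h1 ⊢
  have h2 : ∑ x, ∑ y, K' x y * (f x * f y) ≤ ∑ x, ∑ y, K x y * (|f x| * |f y|) := by
    refine sum_le_sum fun x _ => sum_le_sum fun y _ => ?_
    rw [← abs_mul]
    have e1 : K' x y * (f x * f y) ≤ K' x y * |f x * f y| :=
      mul_le_mul_of_nonneg_left (le_abs_self _) (h0 x y)
    have e2 : K' x y * |f x * f y| ≤ K x y * |f x * f y| :=
      mul_le_mul_of_nonneg_right (hle x y) (abs_nonneg _)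
    linarith
  simp only [sq_abs] at h1
  linarith

section PosDef
variable {Λ : Matrix V V ℝ} (hΛ : Λ.PosDef)
include hΛ

lemma pd_isUnit_det : IsUnit Λ.det := (Matrix.isUnit_iff_isUnit_det _).mp hΛ.isUnit

lemma pd_mulVec_inv (b : V → ℝ) : Λ *ᵥ (Λ⁻¹ *ᵥ b) = b := by
  rw [mulVec_mulVec, mul_nonsing_inv _ (pd_isUnit_det hΛ), one_mulVec]

lemma pd_inv_mulVec (b : V → ℝ) : Λ⁻¹ *ᵥ (Λ *ᵥ b) = b := by
  rw [mulVec_mulVec, nonsing_inv_mul _ (pd_isUnit_det hΛ), one_mulVec]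

lemma pd_symm : Λᵀ = Λ := by
  have := hΛ.isHermitian
  rwa [Matrix.IsHermitian, conjTranspose_eq_transpose_of_trivial] at this

lemma pd_inv_symm : (Λ⁻¹)ᵀ = Λ⁻¹ := by
  rw [transpose_nonsing_inv, pd_symm hΛ]

lemma pd_inv_symm' (x y : V) : Λ⁻¹ x y = Λ⁻¹ y x := by
  conv_lhs => rw [← pd_inv_symm hΛ]
  rfl

lemma pd_pos {f : V → ℝ} (hf : f ≠ 0) : 0 < f ⬝ᵥ Λ *ᵥ f := by
  have := hΛ.dotProduct_mulVec_pos hf
  rwa [star_trivial] at this

lemma pd_nonneg (f : V → ℝ) : 0 ≤ f ⬝ᵥ Λ *ᵥ f := by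
  have := hΛ.posSemidef.dotProduct_mulVec_nonneg f
  rwa [star_trivial] at this

lemma pd_comm (f g : V → ℝ) : f ⬝ᵥ Λ *ᵥ g = g ⬝ᵥ Λ *ᵥ f := by
  rw [dotProduct_mulVec, ← mulVec_transpose, pd_symm hΛ, dotProduct_comm]

/-- positivity of the inverse of an M-matrix -/
lemma mmatrix_nonneg (hoff : ∀ x y, x ≠ y → Λ x y ≤ 0) {f : V → ℝ}
    (hf : ∀ x, 0 ≤ (Λ *ᵥ f) x) (x : V) : 0 ≤ f x := by
  set p : V → ℝ := fun x => max (f x) 0 with hp
  set m : V → ℝ := fun x => max (-f x) 0 with hm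
  have hfm : f = p - m := by
    ext x
    simp only [hp, hm, Pi.sub_apply]
    rcases le_total (f x) 0 with h | h
    · rw [max_eq_right h, max_eq_left (by linarith)]; ring
    · rw [max_eq_left h, max_eq_right (by linarith)]; ring
  have hm0 : ∀ x, 0 ≤ m x := fun x => le_max_right _ _
  have hp0 : ∀ x, 0 ≤ p x := fun x => le_max_right _ _
  have hpm : ∀ x, p x * m x = 0 := by
    intro x
    simp only [hp, hm]
    rcases le_total (f x) 0 with h | h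
    · rw [max_eq_right h]; ring
    · rw [max_eq_right (a := -f x) (by linarith)]; ring
  have h1 : 0 ≤ m ⬝ᵥ Λ *ᵥ f := sum_nonneg fun x _ => mul_nonneg (hm0 x) (hf x)
  have h2 : m ⬝ᵥ Λ *ᵥ p ≤ 0 := by
    simp only [dotProduct, mulVec, mul_sum]
    refine sum_nonpos fun x _ => sum_nonpos fun y _ => ?_
    by_cases hxy : x = y
    · subst hxy
      have : m x * (Λ x x * p x) = Λ x x * (p x * m x) := by ring
      rw [this, hpm, mul_zero]
    · have := mul_nonneg (hm0 x) (hp0 y)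
      have h3 := mul_nonpos_of_nonpos_of_nonneg (hoff x y hxy) this
      calc m x * (Λ x y * p y) = Λ x y * (m x * p y) := by ring
        _ ≤ 0 := h3
  have h3 : m ⬝ᵥ Λ *ᵥ m ≤ 0 := by
    rw [hfm, mulVec_sub, dotProduct_sub] at h1
    linarith
  have h4 : m = 0 := by
    by_contra hne
    have := pd_pos hΛ hne
    linarith
  have h5 := congrFun h4 x
  simp only [hm, Pi.zero_apply] at h5
  have : -f x ≤ 0 := h5 ▸ le_max_left _ _
  linarith

lemma mmatrix_mono (hoff : ∀ x y, x ≠ y → Λ x y ≤ 0) {f g : V → ℝ}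
    (hfg : ∀ x, (Λ *ᵥ f) x ≤ (Λ *ᵥ g) x) (x : V) : f x ≤ g x := by
  have := mmatrix_nonneg hΛ hoff (f := g - f) (fun x => by
    rw [mulVec_sub]; exact sub_nonneg.mpr (hfg x)) x
  simpa using this

lemma mmatrix_inv_mulVec_nonneg (hoff : ∀ x y, x ≠ y → Λ x y ≤ 0) {b : V → ℝ}
    (hb : ∀ x, 0 ≤ b x) (x : V) : 0 ≤ (Λ⁻¹ *ᵥ b) x :=
  mmatrix_nonneg hΛ hoff (fun x => by rw [pd_mulVec_inv hΛ]; exact hb x) x

lemma mmatrix_inv_nonneg (hoff : ∀ x y, x ≠ y → Λ x y ≤ 0) (x y : V) : 0 ≤ Λ⁻¹ x y := by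
  have := mmatrix_inv_mulVec_nonneg hΛ hoff (b := Pi.single y 1) (fun z => by
    by_cases h : z = y
    · subst h; simp
    · simp [h]) x
  simpa using this

/-- Cauchy–Schwarz -/
lemma pd_cauchy (ρ f : V → ℝ) : (ρ ⬝ᵥ f) ^ 2 ≤ (ρ ⬝ᵥ Λ⁻¹ *ᵥ ρ) * (f ⬝ᵥ Λ *ᵥ f) := by
  have key : ∀ t : ℝ, 0 ≤ (ρ ⬝ᵥ Λ⁻¹ *ᵥ ρ) * (t * t) + (-2 * (ρ ⬝ᵥ f)) * t + (f ⬝ᵥ Λ *ᵥ f) := by
    intro t
    have h := pd_nonneg hΛ (f - t • (Λ⁻¹ *ᵥ ρ))
    have e1 : Λ *ᵥ (f - t • (Λ⁻¹ *ᵥ ρ)) = Λ *ᵥ f - t • ρ := by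
      rw [mulVec_sub, mulVec_smul, pd_mulVec_inv hΛ]
    have e2 : (Λ⁻¹ *ᵥ ρ) ⬝ᵥ Λ *ᵥ f = ρ ⬝ᵥ f := by
      rw [pd_comm hΛ, pd_mulVec_inv hΛ, dotProduct_comm]
    rw [e1, sub_dotProduct, dotProduct_sub, dotProduct_sub, smul_dotProduct, smul_dotProduct,
      dotProduct_smul, dotProduct_smul, e2, dotProduct_comm f ρ,
      dotProduct_comm (Λ⁻¹ *ᵥ ρ) ρ] at h
    simp only [smul_eq_mul] at h
    linarith
  have := discrim_le_zero key
  rw [discrim] at this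
  nlinarith

end PosDef

lemma DK_off {D : V → ℝ} {K : V → V → ℝ} (h0 : ∀ x y, 0 ≤ K x y) (x y : V) (hxy : x ≠ y) :
    DK D K x y ≤ 0 := by
  rw [DK_apply, if_neg hxy]
  linarith [h0 x y]

lemma Lam_off {C : V → V → ℝ} (h0 : ∀ x y, 0 ≤ C x y) (n : V → ℝ) (x y : V) (hxy : x ≠ y) :
    Lam C n x y ≤ 0 := DK_off h0 x y hxy

/-- the inverse is antitone in the Loewner order -/
lemma inv_antitone {Λ₁ Λ₂ : Matrix V V ℝ} (h₁ : Λ₁.PosDef) (h₂ : Λ₂.PosDef)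
    (h : ∀ f : V → ℝ, f ⬝ᵥ Λ₁ *ᵥ f ≤ f ⬝ᵥ Λ₂ *ᵥ f) (ρ : V → ℝ) :
    ρ ⬝ᵥ Λ₂⁻¹ *ᵥ ρ ≤ ρ ⬝ᵥ Λ₁⁻¹ *ᵥ ρ := by
  set f := Λ₂⁻¹ *ᵥ ρ with hf
  have e1 : f ⬝ᵥ Λ₂ *ᵥ f = ρ ⬝ᵥ f := by
    rw [hf, pd_mulVec_inv h₂, dotProduct_comm]
  have h3 := pd_cauchy h₁ ρ f
  have h4 := h f
  rw [e1] at h4
  have h5 : 0 ≤ ρ ⬝ᵥ f := by rw [← e1]; exact pd_nonneg h₂ f
  have h6 : 0 ≤ ρ ⬝ᵥ Λ₁⁻¹ *ᵥ ρ := pd_nonneg h₁.inv ρ
  rcases h5.lt_or_eq with h7 | h7
  · have : (ρ ⬝ᵥ f) * (ρ ⬝ᵥ f) ≤ (ρ ⬝ᵥ Λ₁⁻¹ *ᵥ ρ) * (ρ ⬝ᵥ f) := by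
      calc (ρ ⬝ᵥ f) * (ρ ⬝ᵥ f) = (ρ ⬝ᵥ f) ^ 2 := by ring
        _ ≤ _ := h3
        _ ≤ _ := mul_le_mul_of_nonneg_left h4 h6
    exact le_of_mul_le_mul_right this h7
  · rw [← h7]; exact h6

section Neumann

variable {D : V → ℝ} {K : V → V → ℝ}

/-- partial Neumann sums of `(diag D - K)⁻¹` -/
noncomputable def neu (D : V → ℝ) (K : V → V → ℝ) : ℕ → V → V → ℝ
  | 0 => fun _ _ => 0
  | (l + 1) => fun x y => (D x)⁻¹ * ((if x = y then 1 else 0) + ∑ z, K x z * neu D K l z y)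

lemma inv_rec (h : (DK D K).PosDef) (x y : V) :
    D x * (DK D K)⁻¹ x y = (if x = y then 1 else 0) + ∑ z, K x z * (DK D K)⁻¹ z y := by
  have h1 := DK_mulVec D K ((DK D K)⁻¹ *ᵥ Pi.single y 1) x
  rw [pd_mulVec_inv h] at h1
  simp only [mulVec_single_one, col_apply] at h1
  have h2 : (Pi.single y (1 : ℝ) : V → ℝ) x = if x = y then 1 else 0 := by
    rw [Pi.single_apply]
  rw [h2] at h1
  linarith

lemma neu_nonneg (hD : ∀ x, 0 < D x) (h0 : ∀ x y, 0 ≤ K x y) (l : ℕ) (x y : V) :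
    0 ≤ neu D K l x y := by
  induction l generalizing x y with
  | zero => exact le_rfl
  | succ l ih =>
    rw [neu]
    refine mul_nonneg (inv_nonneg.mpr (hD x).le) (add_nonneg (by split_ifs <;> norm_num) ?_)
    exact sum_nonneg fun z _ => mul_nonneg (h0 x z) (ih z y)

lemma neu_mono (hD : ∀ x, 0 < D x) (h0 : ∀ x y, 0 ≤ K x y) (l : ℕ) (x y : V) :
    neu D K l x y ≤ neu D K (l + 1) x y := by
  induction l generalizing x y with
  | zero => exact neu_nonneg hD h0 1 x y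
  | succ l ih =>
    rw [neu, neu]
    refine mul_le_mul_of_nonneg_left ?_ (inv_nonneg.mpr (hD x).le)
    have : ∑ z, K x z * neu D K l z y ≤ ∑ z, K x z * neu D K (l + 1) z y :=
      sum_le_sum fun z _ => mul_le_mul_of_nonneg_left (ih z y) (h0 x z)
    linarith

lemma neu_le (h : (DK D K).PosDef) (hD : ∀ x, 0 < D x) (h0 : ∀ x y, 0 ≤ K x y) (l : ℕ) (x y : V) :
    neu D K l x y ≤ (DK D K)⁻¹ x y := by
  induction l generalizing x y with
  | zero => exact mmatrix_inv_nonneg h (DK_off h0) x y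
  | succ l ih =>
    rw [neu]
    have h1 : ∑ z, K x z * neu D K l z y ≤ ∑ z, K x z * (DK D K)⁻¹ z y :=
      sum_le_sum fun z _ => mul_le_mul_of_nonneg_left (ih z y) (h0 x z)
    have h2 := inv_rec h x y
    rw [inv_mul_le_iff₀ (hD x), h2]
    linarith

lemma neu_tendsto (h : (DK D K).PosDef) (hD : ∀ x, 0 < D x) (h0 : ∀ x y, 0 ≤ K x y) (x y : V) :
    Tendsto (fun l => neu D K l x y) atTop (𝓝 ((DK D K)⁻¹ x y)) := by
  have hconv : ∀ x y, ∃ L, Tendsto (fun l => neu D K l x y) atTop (𝓝 L) := by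
    intro x y
    refine ⟨_, tendsto_atTop_ciSup (monotone_nat_of_le_succ fun l => neu_mono hD h0 l x y) ?_⟩
    exact ⟨(DK D K)⁻¹ x y, by rintro _ ⟨l, rfl⟩; exact neu_le h hD h0 l x y⟩
  choose L hL using hconv
  have hrec : ∀ x y, D x * L x y = (if x = y then 1 else 0) + ∑ z, K x z * L z y := by
    intro x y
    have h1 : Tendsto (fun l => neu D K (l + 1) x y) atTop (𝓝 (L x y)) :=
      (tendsto_add_atTop_iff_nat 1).mpr (hL x y)
    have h2 : Tendsto (fun l => (D x)⁻¹ * ((if x = y then 1 else 0) + ∑ z, K x z * neu D K l z y)) atTop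
        (𝓝 ((D x)⁻¹ * ((if x = y then 1 else 0) + ∑ z, K x z * L z y))) := by
      refine Tendsto.const_mul _ (Tendsto.const_add _ ?_)
      exact tendsto_finsetSum _ fun z _ => (hL z y).const_mul _
    have h3 := tendsto_nhds_unique h1 h2
    rw [h3, ← mul_assoc, mul_inv_cancel₀ (hD x).ne', one_mul]
  have heq : ∀ y, (fun x => L x y) = (DK D K)⁻¹ *ᵥ Pi.single y 1 := by
    intro y
    have : DK D K *ᵥ (fun x => L x y) = Pi.single y 1 := by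
      ext x
      rw [DK_mulVec, hrec x y, Pi.single_apply]
      ring
    rw [← this, pd_inv_mulVec h]
  have := congrFun (heq y) x
  simp only [mulVec_single_one, col_apply] at this
  rw [← this]
  exact hL x y

end Neumann

end Pool.Agent.Speedup
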