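import Mathlib

set_option autoImplicit false

/-!
Path sums for MP_12e6b8_pr (same shape as in the frozen statement).
-/

open Finset

namespace Pool.Agent.Speedup

variable {V : Type} [Fintype V] [DecidableEq V]

/-- Probability weight of a path of `t` steps. -/
noncomputable def pathW (P : V → V → ℝ) (t : ℕ) (ω : Fin (t + 1) → V) : ℝ :=
  ∏ j : Fin t, P (ω j.castSucc) (ω j.succ)

/-- Probability that `N` independent walkers started at `u` have not covered `V` by time `t`. -/
noncomputable def ncov (P : V → V → ℝ) (N t : ℕ) (u : V) : ℝ :=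
  ∑ ω : Fin N → Fin (t + 1) → V,
    if (∀ i, ω i 0 = u) ∧ (∃ v : V, ∀ i j, ω i j ≠ v) then ∏ i, pathW P t (ω i) else 0

end Pool.Agent.Speedup
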