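import Mathlib
import Pool.Agent.Speedup.Defs
import Pool.Agent.Speedup.Paths
import Pool.Agent.Speedup.Basic

set_option autoImplicit false
set_option linter.unusedSectionVars false

/-!
Set-tracked path sums and the comparison of the cover time with killed paths.
-/

open Finset Matrix

namespace Pool.Agent.Speedup

variable {V : Type} [Fintype V] [DecidableEq V]

/-- indicator that a set of vertices is not everything -/
noncomputable def nf (R : Finset V) : ℝ := if R = univ then 0 else 1

lemma nf_nonneg (R : Finset V) : 0 ≤ nf R := by unfold nf; split_ifs <;> norm_num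

lemma nf_le_one (R : Finset V) : nf R ≤ 1 := by unfold nf; split_ifs <;> norm_num

lemma nf_anti {R S : Finset V} (h : R ⊆ S) : nf S ≤ nf R := by
  unfold nf
  by_cases h1 : R = univ
  · subst h1
    rw [if_pos (univ_subset_iff.mp h)]
    simp
  · rw [if_neg h1]
    split_ifs <;> norm_num

/-- sum of the weights of the paths of `t` steps from `x` which together with `R` miss a vertex -/
noncomputable def Fk (K : V → V → ℝ) : ℕ → V → Finset V → ℝ
  | 0, x, R => nf (insert x R)
  | (t + 1), x, R => ∑ y, K x y * Fk K t y (insert x R)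

/-- the same for paths from `x` to `u` -/
noncomputable def Gk (K : V → V → ℝ) (u : V) : ℕ → V → Finset V → ℝ
  | 0, x, R => if x = u then nf (insert x R) else 0
  | (t + 1), x, R => ∑ y, K x y * Gk K u t y (insert x R)

variable {K P : V → V → ℝ}

lemma Fk_nonneg (hK : ∀ x y, 0 ≤ K x y) (t : ℕ) (x : V) (R : Finset V) : 0 ≤ Fk K t x R := by
  induction t generalizing x R with
  | zero => exact nf_nonneg _
  | succ t ih => exact sum_nonneg fun y _ => mul_nonneg (hK x y) (ih y _)

lemma Gk_nonneg (hK : ∀ x y, 0 ≤ K x y) (u : V) (t : ℕ) (x : V) (R : Finset V) :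
    0 ≤ Gk K u t x R := by
  induction t generalizing x R with
  | zero =>
    rw [Gk]
    split_ifs
    · exact nf_nonneg _
    · exact le_rfl
  | succ t ih => exact sum_nonneg fun y _ => mul_nonneg (hK x y) (ih y _)

lemma Fk_anti (hK : ∀ x y, 0 ≤ K x y) (t : ℕ) (x : V) {R S : Finset V} (h : R ⊆ S) :
    Fk K t x S ≤ Fk K t x R := by
  induction t generalizing x R S with
  | zero => exact nf_anti (insert_subset_insert _ h)
  | succ t ih =>
    exact sum_le_sum fun y _ => mul_le_mul_of_nonneg_left (ih y (insert_subset_insert _ h)) (hK x y)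

lemma Fk_full (t : ℕ) (x : V) {R : Finset V} (h : insert x R = univ) : Fk K t x R = 0 := by
  induction t generalizing x R with
  | zero => rw [Fk, nf, if_pos h]
  | succ t ih =>
    rw [Fk]
    refine sum_eq_zero fun y _ => ?_
    rw [ih y (R := insert x R) (by rw [h]; exact insert_eq_self.mpr (mem_univ _)), mul_zero]

lemma Fk_le (hK : ∀ x y, 0 ≤ K x y) (t : ℕ) (x : V) (R : Finset V) :
    Fk K t x R ≤ nf (insert x R) * Fk K t x ∅ := by
  by_cases h : insert x R = univ
  · rw [Fk_full t x h, nf, if_pos h, zero_mul]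
  · rw [nf, if_neg h, one_mul]
    exact Fk_anti hK t x (empty_subset _)

/-- relation with the path sums -/
lemma Fk_eq_sum (P : V → V → ℝ) (t : ℕ) (x : V) (R : Finset V) :
    (∑ ω : Fin (t + 1) → V,
      if ω 0 = x ∧ (∃ v : V, v ∉ R ∧ ∀ j, ω j ≠ v) then pathW P t ω else 0) = Fk P t x R := by
  induction t generalizing x R with
  | zero =>
    rw [← (Equiv.funUnique (Fin 1) V).symm.sum_comp]
    rw [Fk]
    rw [Finset.sum_eq_single x]
    · have : (∃ v : V, v ∉ R ∧ ∀ j : Fin 1, (Equiv.funUnique (Fin 1) V).symm x j ≠ v) ↔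
          insert x R ≠ univ := by
        constructor
        · rintro ⟨v, hv, hj⟩ h
          have := mem_univ v
          rw [← h, mem_insert] at this
          rcases this with h1 | h1
          · exact hj 0 (by simp [h1])
          · exact hv h1
        · intro h
          by_contra hcon
          push Not at hcon
          apply h
          rw [eq_univ_iff_forall]
          intro v
          rw [mem_insert]
          by_cases hv : v ∈ R
          · exact Or.inr hv
          · obtain ⟨j, hj⟩ := hcon v hv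
            left
            rw [← hj]
            simp
      by_cases h : insert x R = univ
      · rw [if_neg, nf, if_pos h]
        rintro ⟨_, h2⟩
        exact this.mp h2 h
      · rw [if_pos, nf, if_neg h]
        · simp [pathW]
        · exact ⟨by simp, this.mpr h⟩
    · intro y _ hy
      rw [if_neg]
      rintro ⟨h1, _⟩
      exact hy (by simpa using h1)
    · intro h; exact absurd (mem_univ _) h
  | succ t ih =>
    rw [Fk]
    rw [← (Fin.consEquiv (fun _ => V)).sum_comp, Fintype.sum_prod_type]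
    rw [Finset.sum_eq_single x]
    · have : ∀ y, P x y * Fk P t y (insert x R) =
          ∑ ω : Fin (t + 1) → V, if ω 0 = y then
            (if (∃ v : V, v ∉ insert x R ∧ ∀ j, ω j ≠ v) then P x (ω 0) * pathW P t ω else 0) else 0 := by
        intro y
        rw [← ih y (insert x R), mul_sum]
        refine sum_congr rfl fun ω _ => ?_
        by_cases h1 : ω 0 = y
        · by_cases h2 : (∃ v : V, v ∉ insert x R ∧ ∀ j, ω j ≠ v)
          · rw [if_pos ⟨h1, h2⟩, if_pos h1, if_pos h2, h1]
          · rw [if_neg (fun h => h2 h.2), if_pos h1, if_neg h2, mul_zero]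
        · rw [if_neg (fun h => h1 h.1), if_neg h1, mul_zero]
      simp_rw [this]
      rw [sum_comm]
      refine sum_congr rfl fun ω _ => ?_
      rw [Finset.sum_ite_eq, if_pos (mem_univ _)]
      have e1 : (Fin.consEquiv (fun _ => V)) (x, ω) = (Fin.cons x ω : Fin (t + 2) → V) := rfl
      rw [e1]
      have e2 : ((Fin.cons x ω : Fin (t + 2) → V) 0 = x ∧
          ∃ v : V, v ∉ R ∧ ∀ j, (Fin.cons x ω : Fin (t + 2) → V) j ≠ v) ↔
          ∃ v : V, v ∉ insert x R ∧ ∀ j, ω j ≠ v := by
        constructor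
        · rintro ⟨_, v, hv, hj⟩
          refine ⟨v, ?_, fun j => ?_⟩
          · rw [mem_insert, not_or]
            exact ⟨fun h => hj 0 (by rw [Fin.cons_zero, h]), hv⟩
          · have := hj j.succ
            rwa [Fin.cons_succ] at this
        · rintro ⟨v, hv, hj⟩
          rw [mem_insert, not_or] at hv
          refine ⟨by rw [Fin.cons_zero], v, hv.2, fun j => ?_⟩
          refine Fin.cases ?_ (fun i => ?_) j
          · rw [Fin.cons_zero]; exact fun h => hv.1 h.symm
          · rw [Fin.cons_succ]; exact hj i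
      have e3 : pathW P (t + 1) (Fin.cons x ω : Fin (t + 2) → V) = P x (ω 0) * pathW P t ω := by
        rw [pathW, Fin.prod_univ_succ, pathW]
        congr 1
      by_cases h : ∃ v : V, v ∉ insert x R ∧ ∀ j, ω j ≠ v
      · rw [if_pos (e2.mpr h), if_pos h, e3]
      · rw [if_neg (fun hh => h (e2.mp hh)), if_neg h]
    · intro y _ hy
      refine sum_eq_zero fun ω _ => ?_
      rw [if_neg]
      rintro ⟨h1, _⟩
      exact hy h1
    · intro h; exact absurd (mem_univ _) h

lemma ncov_eq_Fk (P : V → V → ℝ) (t : ℕ) (u : V) : ncov P 1 t u = Fk P t u ∅ := by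
  rw [← Fk_eq_sum, ncov, ← (Equiv.funUnique (Fin 1) (Fin (t + 1) → V)).symm.sum_comp]
  refine sum_congr rfl fun ω _ => ?_
  have e : ∀ i : Fin 1, (Equiv.funUnique (Fin 1) (Fin (t + 1) → V)).symm ω i = ω := fun i => rfl
  simp only [e, Fin.forall_fin_one, prod_const, card_univ, Fintype.card_fin, pow_one, notMem_empty,
    not_false_eq_true, true_and]

/-- decomposition of the paths of the chain according to the killed chain -/
lemma Fk_split (hP : ∀ x y, 0 ≤ P x y) (hK : ∀ x y, 0 ≤ K x y) (u : V) (ρ : ℝ) (hρ : 0 ≤ ρ)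
    (hKP : ∀ x y, P x y = K x y + if x = u then ρ * P u y else 0) (s : ℕ) (x : V) (R : Finset V) :
    Fk P s x R ≤ Fk K s x R + ρ * ∑ j ∈ range s, Gk K u j x R * Fk P (s - j) u ∅ := by
  induction s generalizing x R with
  | zero => simp [Fk]
  | succ s ih =>
    have h1 : Fk P (s + 1) x R = ∑ y, K x y * Fk P s y (insert x R) +
        if x = u then ρ * Fk P (s + 1) u R else 0 := by
      rw [Fk]
      by_cases hx : x = u
      · subst hx
        rw [if_pos rfl]
        conv_rhs => rw [Fk, mul_sum, ← sum_add_distrib]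
        refine sum_congr rfl fun y _ => ?_
        conv_lhs => rw [hKP x y, if_pos rfl]
        ring
      · rw [if_neg hx, add_zero]
        refine sum_congr rfl fun y _ => ?_
        rw [hKP x y, if_neg hx, add_zero]
    have h2 : ∑ y, K x y * Fk P s y (insert x R) ≤
        ∑ y, K x y * (Fk K s y (insert x R) +
          ρ * ∑ j ∈ range s, Gk K u j y (insert x R) * Fk P (s - j) u ∅) :=
      sum_le_sum fun y _ => mul_le_mul_of_nonneg_left (ih y _) (hK x y)
    have h3 : ∑ y, K x y * (Fk K s y (insert x R) +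
          ρ * ∑ j ∈ range s, Gk K u j y (insert x R) * Fk P (s - j) u ∅) =
        Fk K (s + 1) x R + ρ * ∑ j ∈ range s, Gk K u (j + 1) x R * Fk P (s - j) u ∅ := by
      simp only [mul_add, sum_add_distrib]
      congr 1
      simp only [mul_sum, Gk, sum_mul]
      rw [sum_comm]
      refine sum_congr rfl fun j _ => sum_congr rfl fun y _ => ?_
      ring
    have h4 : (if x = u then ρ * Fk P (s + 1) u R else 0) ≤ ρ * (Gk K u 0 x R * Fk P (s + 1) u ∅) := by
      rw [Gk]
      by_cases hx : x = u
      · subst hx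
        rw [if_pos rfl, if_pos rfl]
        exact mul_le_mul_of_nonneg_left (Fk_le hP _ _ _) hρ
      · rw [if_neg hx, if_neg hx]
        simp
    have h5 : ∑ j ∈ range (s + 1), Gk K u j x R * Fk P (s + 1 - j) u ∅ =
        ∑ j ∈ range s, Gk K u (j + 1) x R * Fk P (s - j) u ∅ + Gk K u 0 x R * Fk P (s + 1) u ∅ := by
      rw [sum_range_succ']
      simp only [Nat.sub_zero, Nat.add_sub_add_right]
    rw [h5, mul_add]
    linarith

/-- summing the killed paths -/
lemma sum_Fk_le (hK : ∀ x y, 0 ≤ K x y) {w : V → ℝ} (hw : ∀ x, 0 ≤ w x)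
    (hw1 : ∀ x, w x = 1 + ∑ y, K x y * w y) (H : ℕ) (x : V) (R : Finset V) :
    ∑ s ∈ range H, Fk K s x R ≤ w x := by
  induction H generalizing x R with
  | zero => simpa using hw x
  | succ H ih =>
    rw [sum_range_succ']
    have h1 : ∑ s ∈ range H, Fk K (s + 1) x R = ∑ y, K x y * ∑ s ∈ range H, Fk K s y (insert x R) := by
      simp only [Fk, mul_sum]
      rw [sum_comm]
    have h2 : ∑ y, K x y * ∑ s ∈ range H, Fk K s y (insert x R) ≤ ∑ y, K x y * w y :=
      sum_le_sum fun y _ => mul_le_mul_of_nonneg_left (ih y _) (hK x y)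
    have h3 : Fk K 0 x R ≤ 1 := nf_le_one _
    rw [h1, hw1 x]
    linarith

/-- the deterministic part of the argument -/
lemma sum_ncov_le (hP : ∀ x y, 0 ≤ P x y) (hK : ∀ x y, 0 ≤ K x y) (u : V) (ρ : ℝ) (hρ : 0 ≤ ρ)
    (hKP : ∀ x y, P x y = K x y + if x = u then ρ * P u y else 0)
    {w : V → ℝ} (hw : ∀ x, 0 ≤ w x) (hw1 : ∀ x, w x = 1 + ∑ y, K x y * w y) (H : ℕ)
    (hG : ρ * ∑ j ∈ range H, Gk K u j u ∅ ≤ 1 / 2) :
    ∑ t ∈ range H, ncov P 1 t u ≤ 2 * w u := by
  simp only [ncov_eq_Fk]
  set S := ∑ t ∈ range H, Fk P t u ∅ with hS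
  have hS0 : 0 ≤ S := sum_nonneg fun t _ => Fk_nonneg hP t u ∅
  have h1 : S ≤ ∑ s ∈ range H, (Fk K s u ∅ + ρ * ∑ j ∈ range s, Gk K u j u ∅ * Fk P (s - j) u ∅) :=
    sum_le_sum fun s _ => Fk_split hP hK u ρ hρ hKP s u ∅
  have h2 : ∑ s ∈ range H, ∑ j ∈ range s, Gk K u j u ∅ * Fk P (s - j) u ∅ ≤
      (∑ j ∈ range H, Gk K u j u ∅) * S := by
    have e1 : ∀ s ∈ range H, ∑ j ∈ range s, Gk K u j u ∅ * Fk P (s - j) u ∅ =
        ∑ j ∈ range H, if j < s then Gk K u j u ∅ * Fk P (s - j) u ∅ else 0 := by
      intro s hs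
      rw [← sum_filter]
      refine sum_congr ?_ fun _ _ => rfl
      ext j
      simp only [mem_range, mem_filter] at hs ⊢
      omega
    rw [sum_congr rfl e1, sum_comm, sum_mul]
    refine sum_le_sum fun j _ => ?_
    have hGj := Gk_nonneg hK u j u ∅
    have e2 : ∑ s ∈ range H, (if j < s then Gk K u j u ∅ * Fk P (s - j) u ∅ else 0) =
        Gk K u j u ∅ * ∑ s ∈ range H, (if j < s then Fk P (s - j) u ∅ else 0) := by
      rw [mul_sum]
      refine sum_congr rfl fun s _ => ?_
      split_ifs <;> simp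
    rw [e2]
    refine mul_le_mul_of_nonneg_left ?_ hGj
    rw [← sum_filter]
    have e3 : ∑ s ∈ range H with j < s, Fk P (s - j) u ∅ =
        ∑ r ∈ ((range H).filter (fun s => j < s)).image (fun s => s - j), Fk P r u ∅ := by
      rw [sum_image]
      intro a ha b hb hab
      simp only [coe_filter, mem_range, Set.mem_ofPred_eq] at ha hb hab
      omega
    rw [e3, hS]
    refine sum_le_sum_of_subset_of_nonneg ?_ fun r _ _ => Fk_nonneg hP r u ∅
    intro r hr
    simp only [mem_image, mem_filter, mem_range] at hr ⊢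
    omega
  have h3 := sum_Fk_le hK hw hw1 H u ∅
  rw [sum_add_distrib, ← mul_sum] at h1
  have h4 : ρ * ∑ s ∈ range H, ∑ j ∈ range s, Gk K u j u ∅ * Fk P (s - j) u ∅ ≤
      (ρ * ∑ j ∈ range H, Gk K u j u ∅) * S := by
    rw [mul_assoc]
    exact mul_le_mul_of_nonneg_left h2 hρ
  have h5 : (ρ * ∑ j ∈ range H, Gk K u j u ∅) * S ≤ 1 / 2 * S := mul_le_mul_of_nonneg_right hG hS0
  linarith

end Pool.Agent.Speedup
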