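import Mathlib
import Pool.Agent.Speedup.Defs
import Pool.Agent.Speedup.Paths
import Pool.Agent.Speedup.Basic
import Pool.Agent.Speedup.Dynkin1

set_option autoImplicit false
set_option linter.unusedSectionVars false

/-!
Polynomials `∑ a_n z^n` (`n` ranging over `{0..m}^V`), the positive operators
`z^n ↦ z^n / (D x + κ n x)`, and a lower bound for the Neumann sums.
-/

open Finset Matrix MeasureTheory

namespace Pool.Agent.Speedup

variable {V : Type} [Fintype V] [DecidableEq V]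

/-- exponents -/
def expo (V : Type) [Fintype V] [DecidableEq V] (m : ℕ) : Finset (V → ℕ) :=
  Fintype.piFinset (fun _ : V => range (m + 1))

/-- evaluation of the polynomial with coefficients `a` -/
noncomputable def ev (m : ℕ) (a : (V → ℕ) → ℝ) (z : V → ℝ) : ℝ :=
  ∑ n ∈ expo V m, a n * ∏ x, z x ^ n x

/-- nonnegative on the cube -/
def PosC (m : ℕ) (a : (V → ℕ) → ℝ) : Prop :=
  ∀ z : V → ℝ, (∀ x, 0 ≤ z x ∧ z x ≤ 1) → 0 ≤ ev m a z

lemma ev_add (m : ℕ) (a b : (V → ℕ) → ℝ) (z : V → ℝ) :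
    ev m (fun n => a n + b n) z = ev m a z + ev m b z := by
  simp only [ev, add_mul, sum_add_distrib]

lemma ev_sub (m : ℕ) (a b : (V → ℕ) → ℝ) (z : V → ℝ) :
    ev m (fun n => a n - b n) z = ev m a z - ev m b z := by
  simp only [ev, sub_mul, sum_sub_distrib]

lemma ev_smul (m : ℕ) (c : ℝ) (a : (V → ℕ) → ℝ) (z : V → ℝ) :
    ev m (fun n => c * a n) z = c * ev m a z := by
  simp only [ev, mul_assoc, mul_sum]

lemma ev_sum {ι : Type*} (s : Finset ι) (m : ℕ) (a : ι → (V → ℕ) → ℝ) (z : V → ℝ) :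
    ev m (fun n => ∑ i ∈ s, a i n) z = ∑ i ∈ s, ev m (a i) z := by
  simp only [ev, sum_mul]
  rw [sum_comm]

/-- the operator `T_x` -/
noncomputable def Tx (D : V → ℝ) (κ : ℝ) (x : V) (a : (V → ℕ) → ℝ) (n : V → ℕ) : ℝ :=
  (D x + κ * n x)⁻¹ * a n

lemma prod_update (z : V → ℝ) (x : V) (e : ℝ) (n : V → ℕ) :
    ∏ y, (Function.update z x (z x * e)) y ^ n y = (∏ y, z y ^ n y) * e ^ n x := by
  rw [← mul_prod_erase univ _ (mem_univ x), ← mul_prod_erase univ (fun y => z y ^ n y) (mem_univ x)]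
  rw [Function.update_self]
  have : ∏ y ∈ univ.erase x, (Function.update z x (z x * e)) y ^ n y = ∏ y ∈ univ.erase x, z y ^ n y := by
    refine prod_congr rfl fun y hy => ?_
    rw [Function.update_of_ne (ne_of_mem_erase hy)]
  rw [this, mul_pow]
  ring

lemma integral_exp_neg_mul {b : ℝ} (hb : 0 < b) :
    ∫ s in Set.Ioi (0 : ℝ), Real.exp (-b * s) = b⁻¹ := by
  rw [integral_exp_mul_Ioi (by linarith)]
  simp

lemma ev_T {D : V → ℝ} (hD : ∀ x, 0 < D x) {κ : ℝ} (hκ : 0 ≤ κ) (m : ℕ) (x : V)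
    (a : (V → ℕ) → ℝ) (z : V → ℝ) :
    ev m (Tx D κ x a) z = ∫ s in Set.Ioi (0 : ℝ), Real.exp (-(D x) * s) *
      ev m a (Function.update z x (z x * Real.exp (-(κ * s)))) := by
  have hb : ∀ n : V → ℕ, 0 < D x + κ * n x := fun n => by
    have := hD x
    positivity
  have h1 : ∀ s : ℝ, Real.exp (-(D x) * s) *
      ev m a (Function.update z x (z x * Real.exp (-(κ * s)))) =
      ∑ n ∈ expo V m, (a n * ∏ y, z y ^ n y) * Real.exp (-(D x + κ * n x) * s) := by
    intro s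
    rw [ev, mul_sum]
    refine sum_congr rfl fun n _ => ?_
    rw [prod_update, ← Real.exp_nat_mul]
    have : Real.exp (-(D x + κ * n x) * s) = Real.exp (-(D x) * s) * Real.exp ((n x : ℝ) * -(κ * s)) := by
      rw [← Real.exp_add]
      congr 1
      ring
    rw [this]
    ring
  simp_rw [h1]
  rw [integral_finsetSum]
  · rw [ev]
    refine sum_congr rfl fun n _ => ?_
    rw [integral_const_mul, integral_exp_neg_mul (hb n), Tx]
    ring
  · intro n _
    exact (integrableOn_exp_mul_Ioi (by have := hb n; linarith) 0).const_mul _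

lemma PosC_T {D : V → ℝ} (hD : ∀ x, 0 < D x) {κ : ℝ} (hκ : 0 ≤ κ) {m : ℕ} (x : V)
    {a : (V → ℕ) → ℝ} (ha : PosC m a) : PosC m (Tx D κ x a) := by
  intro z hz
  rw [ev_T hD hκ]
  refine setIntegral_nonneg measurableSet_Ioi fun s hs => ?_
  refine mul_nonneg (Real.exp_pos _).le (ha _ fun y => ?_)
  by_cases hy : y = x
  · subst hy
    rw [Function.update_self]
    have h1 : Real.exp (-(κ * s)) ≤ 1 := by
      rw [Real.exp_le_one_iff]
      have : 0 ≤ κ * s := mul_nonneg hκ (le_of_lt hs)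
      linarith
    have h2 := (Real.exp_pos (-(κ * s))).le
    refine ⟨mul_nonneg (hz y).1 h2, ?_⟩
    calc z y * Real.exp (-(κ * s)) ≤ 1 * 1 := mul_le_mul (hz y).2 h1 h2 zero_le_one
      _ = 1 := one_mul 1
  · rw [Function.update_of_ne hy]
    exact hz y

lemma PosC_add {m : ℕ} {a b : (V → ℕ) → ℝ} (ha : PosC m a) (hb : PosC m b) :
    PosC m (fun n => a n + b n) := fun z hz => by
  rw [ev_add]; exact add_nonneg (ha z hz) (hb z hz)

lemma PosC_smul {m : ℕ} {a : (V → ℕ) → ℝ} {c : ℝ} (hc : 0 ≤ c) (ha : PosC m a) :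
    PosC m (fun n => c * a n) := fun z hz => by
  rw [ev_smul]; exact mul_nonneg hc (ha z hz)

lemma PosC_sum {ι : Type*} {s : Finset ι} {m : ℕ} {a : ι → (V → ℕ) → ℝ}
    (ha : ∀ i ∈ s, PosC m (a i)) : PosC m (fun n => ∑ i ∈ s, a i n) := fun z hz => by
  rw [ev_sum]; exact sum_nonneg fun i hi => ha i hi z hz

/-- Neumann sums applied to a polynomial -/
noncomputable def NN (D : V → ℝ) (c : V → V → ℝ) (κ : ℝ) (l : ℕ) (x y : V)
    (a : (V → ℕ) → ℝ) (n : V → ℕ) : ℝ :=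
  neu (fun v => D v + κ * n v) c l x y * a n

lemma NN_succ (D : V → ℝ) (c : V → V → ℝ) (κ : ℝ) (l : ℕ) (x y : V) (a : (V → ℕ) → ℝ) :
    NN D c κ (l + 1) x y a = fun n => (if x = y then 1 else 0) * Tx D κ x a n +
      ∑ w, c x w * NN D c κ l w y (Tx D κ x a) n := by
  ext n
  simp only [NN, neu, Tx]
  rw [mul_add, add_mul, mul_sum, sum_mul]
  congr 1
  · ring
  · exact sum_congr rfl fun w _ => by ring

lemma PosC_NN {D : V → ℝ} (hD : ∀ x, 0 < D x) {c : V → V → ℝ} (hc : ∀ x y, 0 ≤ c x y) {κ : ℝ}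
    (hκ : 0 ≤ κ) {m : ℕ} (l : ℕ) (x y : V) {a : (V → ℕ) → ℝ} (ha : PosC m a) :
    PosC m (NN D c κ l x y a) := by
  induction l generalizing x a with
  | zero =>
    intro z _
    simp [ev, NN, neu]
  | succ l ih =>
    rw [NN_succ]
    have hT := PosC_T hD hκ x ha
    refine PosC_add (PosC_smul (by split_ifs <;> norm_num) hT) (PosC_sum fun w _ => ?_)
    exact PosC_smul (hc x w) (ih w hT)

/-- coefficients of `1 - ∏_{v ∉ R} (1 - z_v)^m` -/
noncomputable def bcoef (m : ℕ) (R : Finset V) (v : V) (j : ℕ) : ℝ :=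
  if v ∈ R then (if j = 0 then 1 else 0) else (m.choose j) * (-1) ^ j

noncomputable def hc (m : ℕ) (R : Finset V) (n : V → ℕ) : ℝ :=
  (if n = 0 then 1 else 0) - ∏ v, bcoef m R v (n v)

noncomputable def hf (m : ℕ) (R : Finset V) (z : V → ℝ) : ℝ :=
  1 - ∏ v, if v ∈ R then 1 else (1 - z v) ^ m

lemma sum_bcoef (m : ℕ) (R : Finset V) (v : V) (z : ℝ) :
    ∑ j ∈ range (m + 1), bcoef m R v j * z ^ j = if v ∈ R then 1 else (1 - z) ^ m := by
  unfold bcoef
  by_cases h : v ∈ R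
  · simp [h]
  · simp only [h, if_false]
    have := add_pow (-z) 1 m
    rw [neg_add_eq_sub] at this
    rw [this]
    refine sum_congr rfl fun j _ => ?_
    rw [one_pow, mul_one, neg_pow z]
    ring

lemma ev_hc (m : ℕ) (R : Finset V) (z : V → ℝ) : ev m (hc m R) z = hf m R z := by
  unfold hc hf
  rw [ev_sub]
  congr 1
  · rw [ev, Finset.sum_eq_single 0]
    · simp
    · intro n _ hn
      simp [hn]
    · intro h
      exact absurd (by simp [expo]) h
  · rw [ev]
    simp_rw [← prod_mul_distrib]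
    simp_rw [← sum_bcoef]
    rw [prod_univ_sum]
    rfl

lemma fac_mem {z : ℝ} (h0 : 0 ≤ z) (h1 : z ≤ 1) (m : ℕ) : 0 ≤ (1 - z) ^ m ∧ (1 - z) ^ m ≤ 1 :=
  ⟨pow_nonneg (by linarith) m, pow_le_one₀ (by linarith) (by linarith)⟩

lemma hf_anti (m : ℕ) {R S : Finset V} (h : R ⊆ S) {z : V → ℝ} (hz : ∀ x, 0 ≤ z x ∧ z x ≤ 1) :
    hf m S z ≤ hf m R z := by
  unfold hf
  have : (∏ v, if v ∈ R then (1 : ℝ) else (1 - z v) ^ m) ≤ ∏ v, if v ∈ S then 1 else (1 - z v) ^ m := by
    refine prod_le_prod (fun v _ => ?_) (fun v _ => ?_)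
    · split_ifs
      · norm_num
      · exact (fac_mem (hz v).1 (hz v).2 m).1
    · by_cases h1 : v ∈ R
      · rw [if_pos h1, if_pos (h h1)]
      · rw [if_neg h1]
        split_ifs
        · exact (fac_mem (hz v).1 (hz v).2 m).2
        · exact le_rfl
  linarith

lemma hf_univ (m : ℕ) (z : V → ℝ) : hf m (univ : Finset V) z = 0 := by simp [hf]

lemma hf_nonneg (m : ℕ) (R : Finset V) {z : V → ℝ} (hz : ∀ x, 0 ≤ z x ∧ z x ≤ 1) :
    0 ≤ hf m R z := by
  rw [← hf_univ m z]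
  exact hf_anti m (subset_univ R) hz

lemma hf_le_one (m : ℕ) (R : Finset V) {z : V → ℝ} (hz : ∀ x, 0 ≤ z x ∧ z x ≤ 1) :
    hf m R z ≤ 1 := by
  unfold hf
  have : 0 ≤ ∏ v, if v ∈ R then (1 : ℝ) else (1 - z v) ^ m := by
    refine prod_nonneg fun v _ => ?_
    split_ifs
    · norm_num
    · exact (fac_mem (hz v).1 (hz v).2 m).1
  linarith

lemma hf_ge (m : ℕ) {R : Finset V} (hR : R ≠ univ) {z : V → ℝ} {q : ℝ}
    (hz : ∀ x, q ≤ z x ∧ z x ≤ 1) (hq : 0 ≤ q) : 1 - (1 - q) ^ m ≤ hf m R z := by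
  obtain ⟨v, hv⟩ : ∃ v, v ∉ R := by
    by_contra h
    push Not at h
    exact hR (eq_univ_iff_forall.mpr h)
  unfold hf
  have hz' : ∀ x, 0 ≤ z x ∧ z x ≤ 1 := fun x => ⟨hq.trans (hz x).1, (hz x).2⟩
  have h1 : (∏ w, if w ∈ R then (1 : ℝ) else (1 - z w) ^ m) ≤ (1 - z v) ^ m := by
    rw [← mul_prod_erase univ _ (mem_univ v), if_neg hv]
    have h2 : ∏ w ∈ univ.erase v, (if w ∈ R then (1 : ℝ) else (1 - z w) ^ m) ≤ 1 := by
      refine prod_le_one (fun w _ => ?_) (fun w _ => ?_)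
      · split_ifs
        · norm_num
        · exact (fac_mem (hz' w).1 (hz' w).2 m).1
      · split_ifs
        · norm_num
        · exact (fac_mem (hz' w).1 (hz' w).2 m).2
    have h3 := (fac_mem (hz' v).1 (hz' v).2 m).1
    calc (1 - z v) ^ m * ∏ w ∈ univ.erase v, (if w ∈ R then (1 : ℝ) else (1 - z w) ^ m)
        ≤ (1 - z v) ^ m * 1 := mul_le_mul_of_nonneg_left h2 h3
      _ = _ := mul_one _
  have h4 : (1 - z v) ^ m ≤ (1 - q) ^ m :=
    pow_le_pow_left₀ (by linarith [(hz' v).2]) (by linarith [(hz v).1]) m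
  linarith

lemma one_sub_sum_le_prod {ι : Type*} (s : Finset ι) (p : ι → ℝ) (hp : ∀ i ∈ s, 0 ≤ p i ∧ p i ≤ 1) :
    1 - ∑ i ∈ s, (1 - p i) ≤ ∏ i ∈ s, p i := by
  classical
  induction s using Finset.induction_on with
  | empty => simp
  | insert i s hi ih =>
    rw [sum_insert hi, prod_insert hi]
    have h1 := ih fun j hj => hp j (mem_insert_of_mem hj)
    have h2 := hp i (mem_insert_self i s)
    have h3 : ∏ j ∈ s, p j ≤ 1 := prod_le_one (fun j hj => (hp j (mem_insert_of_mem hj)).1)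
      (fun j hj => (hp j (mem_insert_of_mem hj)).2)
    have h4 : 0 ≤ ∏ j ∈ s, p j := prod_nonneg (fun j hj => (hp j (mem_insert_of_mem hj)).1)
    nlinarith

lemma hf_le_sum (m : ℕ) {z : V → ℝ} (hz : ∀ x, 0 ≤ z x ∧ z x ≤ 1) :
    hf m ∅ z ≤ ∑ x, (m : ℝ) * z x := by
  unfold hf
  simp only [notMem_empty, if_false]
  have h1 := one_sub_sum_le_prod univ (fun v => (1 - z v) ^ m) (fun v _ => fac_mem (hz v).1 (hz v).2 m)
  have h2 : ∑ v, (1 - (1 - z v) ^ m) ≤ ∑ x, (m : ℝ) * z x := by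
    refine sum_le_sum fun v _ => ?_
    have := one_add_mul_le_pow (a := -z v) (by linarith [(hz v).2]) m
    rw [← sub_eq_add_neg] at this
    linarith
  linarith

lemma T_hc (D : V → ℝ) (κ : ℝ) (m : ℕ) (R : Finset V) (x : V) (hx : x ∈ R) :
    Tx D κ x (hc m R) = fun n => (D x)⁻¹ * hc m R n := by
  ext n
  unfold Tx
  by_cases h : n x = 0
  · rw [h]; simp
  · have h1 : hc m R n = 0 := by
      unfold hc
      rw [if_neg (fun h0 => h (by rw [h0]; rfl)), prod_eq_zero (mem_univ x), sub_zero]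
      rw [bcoef, if_pos hx, if_neg h]
    rw [h1]; simp

/-- the key lower bound -/
theorem NN_lower {D : V → ℝ} (hD : ∀ x, 0 < D x) {c : V → V → ℝ} (hc0 : ∀ x y, 0 ≤ c x y) {κ : ℝ}
    (hκ : 0 ≤ κ) (m : ℕ) (u : V) {z : V → ℝ} {q : ℝ} (hq : 0 ≤ q)
    (hz : ∀ x, q ≤ z x ∧ z x ≤ 1) (l : ℕ) (x : V) (R : Finset V) :
    (1 - (1 - q) ^ m) * ((D u)⁻¹ * ∑ j ∈ range l, Gk (fun x y => (D x)⁻¹ * c x y) u j x R) ≤
      ev m (NN D c κ l x u (hc m R)) z := by
  have hz' : ∀ x, 0 ≤ z x ∧ z x ≤ 1 := fun x => ⟨hq.trans (hz x).1, (hz x).2⟩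
  induction l generalizing x R with
  | zero => simp [ev, NN, neu]
  | succ l ih =>
    set R' := insert x R with hR'
    have hT : Tx D κ x (hc m R) = fun n => Tx D κ x (fun n => hc m R n - hc m R' n) n +
        (D x)⁻¹ * hc m R' n := by
      have h0 := T_hc D κ m R' x (mem_insert_self x R)
      ext n
      have h1 := congrFun h0 n
      unfold Tx at h1 ⊢
      rw [← h1]
      ring
    have hpos : PosC m (fun n => hc m R n - hc m R' n) := by
      intro z hz
      rw [ev_sub, ev_hc, ev_hc]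
      have := hf_anti m (subset_insert x R) hz
      linarith
    have hposT := PosC_T hD hκ x hpos
    have e1 : (1 - (1 - q) ^ m) * nf R' ≤ hf m R' z := by
      unfold nf
      by_cases h : R' = univ
      · rw [if_pos h, mul_zero]
        exact hf_nonneg m R' hz'
      · rw [if_neg h, mul_one]
        exact hf_ge m h hz hq
    have e2 : (D x)⁻¹ * hf m R' z ≤ ev m (Tx D κ x (hc m R)) z := by
      rw [hT, ev_add, ev_smul, ev_hc]
      have := hposT z hz'
      linarith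
    have e3 : ∀ w, (D x)⁻¹ * ((1 - (1 - q) ^ m) * ((D u)⁻¹ * ∑ j ∈ range l, Gk (fun x y => (D x)⁻¹ * c x y) u j w R')) ≤
        ev m (NN D c κ l w u (Tx D κ x (hc m R))) z := by
      intro w
      have h1 : NN D c κ l w u (Tx D κ x (hc m R)) =
          fun n => NN D c κ l w u (Tx D κ x (fun n => hc m R n - hc m R' n)) n +
            (D x)⁻¹ * NN D c κ l w u (hc m R') n := by
        rw [hT]
        ext n
        simp only [NN]
        ring
      rw [h1, ev_add, ev_smul]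
      have h2 := PosC_NN hD hc0 hκ l w u hposT z hz'
      have h3 := mul_le_mul_of_nonneg_left (ih w R') (inv_nonneg.mpr (hD x).le)
      linarith
    rw [NN_succ, ev_add, ev_smul, ev_sum]
    simp_rw [ev_smul]
    have e4 : ∑ w, c x w * ((D x)⁻¹ * ((1 - (1 - q) ^ m) * ((D u)⁻¹ * ∑ j ∈ range l, Gk (fun x y => (D x)⁻¹ * c x y) u j w R'))) ≤
        ∑ w, c x w * ev m (NN D c κ l w u (Tx D κ x (hc m R))) z :=
      sum_le_sum fun w _ => mul_le_mul_of_nonneg_left (e3 w) (hc0 x w)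
    have e5 : ∑ w, c x w * ((D x)⁻¹ * ((1 - (1 - q) ^ m) * ((D u)⁻¹ * ∑ j ∈ range l, Gk (fun x y => (D x)⁻¹ * c x y) u j w R'))) =
        (1 - (1 - q) ^ m) * ((D u)⁻¹ * ∑ j ∈ range l, Gk (fun x y => (D x)⁻¹ * c x y) u (j + 1) x R) := by
      simp only [Gk, mul_sum]
      rw [sum_comm]
      refine sum_congr rfl fun j _ => sum_congr rfl fun w _ => ?_
      rw [hR']
      ring
    have e6 : (1 - (1 - q) ^ m) * ((D u)⁻¹ * Gk (fun x y => (D x)⁻¹ * c x y) u 0 x R) ≤
        (if x = u then 1 else 0) * ev m (Tx D κ x (hc m R)) z := by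
      rw [Gk]
      by_cases hx : x = u
      · subst hx
        rw [if_pos rfl, if_pos rfl, one_mul]
        refine le_trans ?_ e2
        have := mul_le_mul_of_nonneg_left e1 (inv_nonneg.mpr (hD x).le)
        calc (1 - (1 - q) ^ m) * ((D x)⁻¹ * nf R') = (D x)⁻¹ * ((1 - (1 - q) ^ m) * nf R') := by ring
          _ ≤ _ := this
      · rw [if_neg hx, if_neg hx]
        simp
    rw [sum_range_succ', mul_add, mul_add]
    rw [e5] at e4
    linarith

end Pool.Agent.Speedup
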