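import Mathlib

set_option autoImplicit false
set_option linter.unusedSectionVars false

/-!
Density of the centred Gaussian law with covariance `Λ⁻¹`, and consequences.
-/

open Finset Matrix MeasureTheory ProbabilityTheory WithLp
open scoped ENNReal RealInnerProductSpace MatrixOrder

namespace Pool.Agent.Speedup

variable {V : Type} [Fintype V] [DecidableEq V]

/-- The quadratic form of `Λ` on Euclidean space. -/
noncomputable def qf (Λ : Matrix V V ℝ) (x : EuclideanSpace ℝ V) : ℝ := x.ofLp ⬝ᵥ Λ *ᵥ x.ofLp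

lemma continuous_qf (Λ : Matrix V V ℝ) : Continuous (qf Λ) := by
  unfold qf
  have h1 : Continuous (fun x : EuclideanSpace ℝ V => x.ofLp) := by fun_prop
  simp only [dotProduct, mulVec]
  fun_prop

/-- Unnormalised Gaussian density. -/
noncomputable def gdens (Λ : Matrix V V ℝ) (x : EuclideanSpace ℝ V) : ℝ := Real.exp (-(qf Λ x) / 2)

lemma gdens_pos (Λ : Matrix V V ℝ) (x : EuclideanSpace ℝ V) : 0 < gdens Λ x := Real.exp_pos _

lemma continuous_gdens (Λ : Matrix V V ℝ) : Continuous (gdens Λ) := by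
  unfold gdens
  have := continuous_qf Λ
  fun_prop

/-- square root of the inverse, as a linear map of Euclidean space -/
noncomputable def rootMap (Λ : Matrix V V ℝ) : EuclideanSpace ℝ V →L[ℝ] EuclideanSpace ℝ V :=
  toEuclideanCLM (𝕜 := ℝ) (CFC.sqrt Λ⁻¹)

lemma inner_rootMap {Λ : Matrix V V ℝ} (hΛ : Λ.PosDef) (x y : EuclideanSpace ℝ V) :
    ⟪rootMap Λ x, rootMap Λ y⟫ = x.ofLp ⬝ᵥ Λ⁻¹ *ᵥ y.ofLp := by
  have hS : (Λ⁻¹).PosSemidef := hΛ.inv.posSemidef
  unfold rootMap
  rw [← ContinuousLinearMap.adjoint_inner_right, IsSelfAdjoint.adjoint_eq,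
    ← ContinuousLinearMap.comp_apply, ← ContinuousLinearMap.mul_def, ← map_mul,
      CFC.sqrt_mul_sqrt_self _ hS.nonneg, inner_toEuclideanCLM]
  exact (CFC.sqrt_nonneg Λ⁻¹).isSelfAdjoint.map _

lemma rootMap_sq {Λ : Matrix V V ℝ} (hΛ : Λ.PosDef) (x : EuclideanSpace ℝ V) :
    rootMap Λ (rootMap Λ x) = toLp 2 (Λ⁻¹ *ᵥ x.ofLp) := by
  have hS : (Λ⁻¹).PosSemidef := hΛ.inv.posSemidef
  unfold rootMap
  rw [← ContinuousLinearMap.comp_apply, ← ContinuousLinearMap.mul_def, ← map_mul,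
      CFC.sqrt_mul_sqrt_self _ hS.nonneg]
  rfl

lemma qf_rootMap {Λ : Matrix V V ℝ} (hΛ : Λ.PosDef) (x : EuclideanSpace ℝ V) :
    qf Λ (rootMap Λ x) = ‖x‖ ^ 2 := by
  have hu : IsUnit Λ.det := (Matrix.isUnit_iff_isUnit_det _).mp hΛ.isUnit
  -- injectivity route: qf Λ (R x) = ⟪R x, Λ R x⟫ and R Λ R = 1
  have key : ∀ y : EuclideanSpace ℝ V, toLp 2 (Λ *ᵥ (rootMap Λ (rootMap Λ y)).ofLp) = y := by
    intro y
    rw [rootMap_sq hΛ]
    ext i
    simp [Matrix.mulVec_mulVec, Matrix.mul_nonsing_inv _ hu]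
  have hinj : Function.Injective (rootMap Λ) := by
    intro a b hab
    have := congrArg (fun z => toLp 2 (Λ *ᵥ (rootMap Λ z).ofLp)) hab
    simpa [key] using this
  have hsurj : Function.Surjective (rootMap Λ) :=
    (LinearMap.injective_iff_surjective (f := (rootMap Λ : EuclideanSpace ℝ V →ₗ[ℝ] EuclideanSpace ℝ V))).mp hinj
  obtain ⟨y, rfl⟩ := hsurj x
  have h1 : qf Λ (rootMap Λ (rootMap Λ y)) = ⟪rootMap Λ (rootMap Λ y), toLp 2 (Λ *ᵥ (rootMap Λ (rootMap Λ y)).ofLp)⟫ := by
    rw [qf, PiLp.inner_apply]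
    simp [dotProduct, mul_comm]
  rw [h1, key, rootMap_sq hΛ, ← real_inner_self_eq_norm_sq, inner_rootMap hΛ, PiLp.inner_apply]
  simp [dotProduct, mul_comm]

lemma rootMap_injective {Λ : Matrix V V ℝ} (hΛ : Λ.PosDef) : Function.Injective (rootMap Λ) := by
  intro a b hab
  have h : qf Λ (rootMap Λ (a - b)) = 0 := by
    rw [map_sub, hab, sub_self]
    simp [qf]
  rw [qf_rootMap hΛ] at h
  have : ‖a - b‖ = 0 := by simpa using h
  exact sub_eq_zero.mp (norm_eq_zero.mp this)

lemma rootMap_det_ne_zero {Λ : Matrix V V ℝ} (hΛ : Λ.PosDef) :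
    LinearMap.det (rootMap Λ : EuclideanSpace ℝ V →ₗ[ℝ] EuclideanSpace ℝ V) ≠ 0 := by
  have hinj := rootMap_injective hΛ
  intro h
  have := LinearMap.bot_lt_ker_of_det_eq_zero h
  have hker : LinearMap.ker (rootMap Λ : EuclideanSpace ℝ V →ₗ[ℝ] EuclideanSpace ℝ V) = ⊥ :=
    LinearMap.ker_eq_bot.mpr hinj
  rw [hker] at this
  exact lt_irrefl _ this

/-- change of variables `x = R y`. -/
lemma lintegral_rootMap {Λ : Matrix V V ℝ} (hΛ : Λ.PosDef) (f : EuclideanSpace ℝ V → ℝ≥0∞)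
    (hf : Measurable f) :
    ∫⁻ y, f (rootMap Λ y) =
      ENNReal.ofReal |(LinearMap.det (rootMap Λ : EuclideanSpace ℝ V →ₗ[ℝ] EuclideanSpace ℝ V))⁻¹| *
        ∫⁻ x, f x := by
  have h := MeasureTheory.Measure.map_linearMap_addHaar_eq_smul_addHaar
    (volume : Measure (EuclideanSpace ℝ V)) (rootMap_det_ne_zero hΛ)
  have h2 : ∫⁻ x, f x ∂(Measure.map (rootMap Λ) volume) = ∫⁻ y, f (rootMap Λ y) :=
    lintegral_map hf (rootMap Λ).continuous.measurable
  rw [← h2]
  have h3 : Measure.map (rootMap Λ) (volume : Measure (EuclideanSpace ℝ V)) =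
      ENNReal.ofReal |(LinearMap.det (rootMap Λ : EuclideanSpace ℝ V →ₗ[ℝ] EuclideanSpace ℝ V))⁻¹| • volume := h
  rw [h3, lintegral_smul_measure]
  rfl

lemma integrable_std : Integrable (fun x : EuclideanSpace ℝ V => Real.exp (-‖x‖ ^ 2 / 2)) := by
  have := (GaussianFourier.integrable_cexp_neg_mul_sq_norm_add (V := EuclideanSpace ℝ V)
    (b := (1/2 : ℂ)) (by norm_num) 0 0).norm
  refine this.congr (Filter.Eventually.of_forall fun x => ?_)
  simp [Complex.norm_exp, ← Complex.ofReal_pow]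
  ring_nf

/-- density of the standard Gaussian -/
lemma std_density (f : EuclideanSpace ℝ V → ℝ≥0∞) (hf : Measurable f) :
    (∫⁻ x, f x ∂(stdGaussian (EuclideanSpace ℝ V))) *
        (∫⁻ x : EuclideanSpace ℝ V, ENNReal.ofReal (Real.exp (-‖x‖ ^ 2 / 2))) =
      ∫⁻ x, f x * ENNReal.ofReal (Real.exp (-‖x‖ ^ 2 / 2)) := by
  set g : EuclideanSpace ℝ V → ℝ≥0∞ := fun x => ENNReal.ofReal (Real.exp (-‖x‖ ^ 2 / 2)) with hg
  set c : ℝ≥0∞ := ∫⁻ x : EuclideanSpace ℝ V, g x with hc
  have hmeas : Measurable g := by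
    rw [hg]; fun_prop
  have hcfin : c ≠ ∞ := by
    rw [hc]
    exact (integrable_std (V := V)).lintegral_lt_top.ne
  have hcpos : c ≠ 0 := by
    rw [hc]
    intro h0
    rw [lintegral_eq_zero_iff hmeas] at h0
    have h1 : ∀ x, g x ≠ 0 := fun x => by
      simp only [hg, ne_eq, ENNReal.ofReal_eq_zero, not_le]; exact Real.exp_pos _
    have h2 : (volume : Measure (EuclideanSpace ℝ V)) = 0 := by
      rw [← Measure.measure_univ_eq_zero]
      refine measure_mono_null ?_ (ae_iff.mp h0)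
      intro x _
      exact h1 x
    exact (NeZero.ne (volume : Measure (EuclideanSpace ℝ V))) h2
  set ρ : Measure (EuclideanSpace ℝ V) := c⁻¹ • volume.withDensity g with hρ
  have hprob : IsProbabilityMeasure ρ := by
    constructor
    rw [hρ, Measure.smul_apply, withDensity_apply _ MeasurableSet.univ, Measure.restrict_univ, smul_eq_mul]
    exact ENNReal.inv_mul_cancel hcpos hcfin
  have hcreal : c.toReal = ∫ x : EuclideanSpace ℝ V, Real.exp (-‖x‖ ^ 2 / 2) := by
    rw [hc, integral_eq_lintegral_of_nonneg_ae (Filter.Eventually.of_forall fun x => (Real.exp_pos _).le)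
      (integrable_std (V := V)).aestronglyMeasurable]
  have key : ∀ t : EuclideanSpace ℝ V,
      ∫ x, Complex.exp (⟪x, t⟫ * Complex.I) ∂(volume.withDensity g) =
        (c.toReal : ℂ) * Complex.exp (-‖t‖ ^ 2 / 2) := by
    intro t
    have e1 : ∫ x, Complex.exp (⟪x, t⟫ * Complex.I) ∂(volume.withDensity g) =
        ∫ x : EuclideanSpace ℝ V, Complex.exp (-(1/2 : ℂ) * ‖x‖ ^ 2 + Complex.I * ⟪t, x⟫) := by
      rw [integral_withDensity_eq_integral_toReal_smul hmeas (Filter.Eventually.of_forall fun x => by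
        simp [hg])]
      refine integral_congr_ae (Filter.Eventually.of_forall fun x => ?_)
      simp only [hg]
      rw [ENNReal.toReal_ofReal (Real.exp_pos _).le, Complex.real_smul, Complex.ofReal_exp,
        ← Complex.exp_add, real_inner_comm]
      congr 1
      push_cast
      ring
    have e2 : (c.toReal : ℂ) = ∫ x : EuclideanSpace ℝ V, Complex.exp (-(1/2 : ℂ) * ‖x‖ ^ 2) := by
      rw [hcreal, ← integral_complex_ofReal]
      refine integral_congr_ae (Filter.Eventually.of_forall fun x => ?_)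
      simp only []
      rw [Complex.ofReal_exp]
      congr 1
      push_cast
      ring
    rw [e1, e2, GaussianFourier.integral_cexp_neg_mul_sq_norm_add (by norm_num),
      GaussianFourier.integral_cexp_neg_mul_sq_norm (by norm_num)]
    congr 2
    rw [Complex.I_sq]
    ring
  have heq : ρ = stdGaussian (EuclideanSpace ℝ V) := by
    apply Measure.ext_of_charFun
    ext t
    rw [charFun_stdGaussian, charFun_apply, hρ, integral_smul_measure, key, ENNReal.toReal_inv]
    rw [Complex.real_smul, ← mul_assoc]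
    have : (c.toReal : ℂ) ≠ 0 := by
      rw [Complex.ofReal_ne_zero]
      exact ENNReal.toReal_ne_zero.mpr ⟨hcpos, hcfin⟩
    rw [Complex.ofReal_inv, inv_mul_cancel₀ this, one_mul]
  rw [← heq, hρ, lintegral_smul_measure, lintegral_withDensity_eq_lintegral_mul _ hmeas hf,
    smul_eq_mul, mul_comm, ← mul_assoc, ENNReal.mul_inv_cancel hcpos hcfin, one_mul]
  refine lintegral_congr fun x => ?_
  simp [hg, mul_comm]

/-- density of the centred Gaussian law with covariance `Λ⁻¹` -/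
theorem gauss_density {Λ : Matrix V V ℝ} (hΛ : Λ.PosDef) (f : EuclideanSpace ℝ V → ℝ≥0∞)
    (hf : Measurable f) :
    (∫⁻ x, f x ∂(multivariateGaussian 0 Λ⁻¹)) * (∫⁻ x : EuclideanSpace ℝ V, ENNReal.ofReal (gdens Λ x)) =
      ∫⁻ x, f x * ENNReal.ofReal (gdens Λ x) := by
  have hg : Measurable (fun x : EuclideanSpace ℝ V => ENNReal.ofReal (gdens Λ x)) :=
    (continuous_gdens Λ).measurable.ennreal_ofReal
  have hR : Measurable (rootMap Λ) := (rootMap Λ).continuous.measurable
  have e1 : ∫⁻ x, f x ∂(multivariateGaussian 0 Λ⁻¹) =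
      ∫⁻ x, f (rootMap Λ x) ∂(stdGaussian (EuclideanSpace ℝ V)) := by
    rw [multivariateGaussian, lintegral_map hf (by fun_prop)]
    simp [rootMap]
  have hd : ∀ x, ENNReal.ofReal (gdens Λ (rootMap Λ x)) = ENNReal.ofReal (Real.exp (-‖x‖ ^ 2 / 2)) := by
    intro x
    rw [gdens, qf_rootMap hΛ]
  have e2 := std_density (V := V) (fun x => f (rootMap Λ x)) (hf.comp hR)
  have e3 : ∫⁻ x, f (rootMap Λ x) * ENNReal.ofReal (Real.exp (-‖x‖ ^ 2 / 2)) =
      ENNReal.ofReal |(LinearMap.det (rootMap Λ : EuclideanSpace ℝ V →ₗ[ℝ] EuclideanSpace ℝ V))⁻¹| *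
        ∫⁻ x, f x * ENNReal.ofReal (gdens Λ x) := by
    rw [← lintegral_rootMap hΛ (fun x => f x * ENNReal.ofReal (gdens Λ x)) (hf.mul hg)]
    refine lintegral_congr fun x => ?_
    rw [hd]
  have e4 : ∫⁻ x : EuclideanSpace ℝ V, ENNReal.ofReal (Real.exp (-‖x‖ ^ 2 / 2)) =
      ENNReal.ofReal |(LinearMap.det (rootMap Λ : EuclideanSpace ℝ V →ₗ[ℝ] EuclideanSpace ℝ V))⁻¹| *
        ∫⁻ x, ENNReal.ofReal (gdens Λ x) := by
    rw [← lintegral_rootMap hΛ (fun x => ENNReal.ofReal (gdens Λ x)) hg]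
    refine lintegral_congr fun x => ?_
    rw [hd]
  rw [e3, e4] at e2
  rw [e1]
  set d := ENNReal.ofReal |(LinearMap.det (rootMap Λ : EuclideanSpace ℝ V →ₗ[ℝ] EuclideanSpace ℝ V))⁻¹| with hdd
  have hd0 : d ≠ 0 := by
    rw [hdd]
    simp only [ne_eq, ENNReal.ofReal_eq_zero, not_le]
    exact abs_pos.mpr (inv_ne_zero (rootMap_det_ne_zero hΛ))
  have hdt : d ≠ ∞ := ENNReal.ofReal_ne_top
  have e5 : d * ((∫⁻ x, f (rootMap Λ x) ∂(stdGaussian (EuclideanSpace ℝ V))) *
      ∫⁻ x, ENNReal.ofReal (gdens Λ x)) = d * ∫⁻ x, f x * ENNReal.ofReal (gdens Λ x) := by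
    rw [← e2]; ring
  exact (ENNReal.mul_right_inj hd0 hdt).mp e5

/-- linear image of a centred Gaussian -/
theorem gauss_map {W : Type} [Fintype W] [DecidableEq W] {S : Matrix V V ℝ} (hS : S.PosSemidef)
    (L : Matrix W V ℝ) :
    (multivariateGaussian (0 : EuclideanSpace ℝ V) S).map
        (fun x : EuclideanSpace ℝ V => (toLp 2 (L *ᵥ x.ofLp) : EuclideanSpace ℝ W)) =
      multivariateGaussian (0 : EuclideanSpace ℝ W) (L * S * Lᵀ) := by
  have hcont : Continuous (fun x : EuclideanSpace ℝ V => (toLp 2 (L *ᵥ x.ofLp) : EuclideanSpace ℝ W)) := by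
    apply Continuous.comp (by fun_prop)
    fun_prop
  have hLS : (L * S * Lᵀ).PosSemidef := by
    have := hS.mul_mul_conjTranspose_same L
    rwa [conjTranspose_eq_transpose_of_trivial] at this
  have : IsProbabilityMeasure ((multivariateGaussian (0 : EuclideanSpace ℝ V) S).map
        (fun x : EuclideanSpace ℝ V => (toLp 2 (L *ᵥ x.ofLp) : EuclideanSpace ℝ W))) :=
    Measure.isProbabilityMeasure_map hcont.measurable.aemeasurable
  apply Measure.ext_of_charFun
  ext t
  rw [charFun_multivariateGaussian hLS, charFun_apply, integral_map hcont.measurable.aemeasurable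
    (by fun_prop)]
  have h1 : ∀ x : EuclideanSpace ℝ V, (⟪(toLp 2 (L *ᵥ x.ofLp) : EuclideanSpace ℝ W), t⟫ : ℝ) =
      ⟪x, (toLp 2 (Lᵀ *ᵥ t.ofLp) : EuclideanSpace ℝ V)⟫ := by
    intro x
    simp only [PiLp.inner_apply, RCLike.inner_apply, conj_trivial]
    change t.ofLp ⬝ᵥ (L *ᵥ x.ofLp) = (Lᵀ *ᵥ t.ofLp) ⬝ᵥ x.ofLp
    rw [Matrix.dotProduct_mulVec, Matrix.mulVec_transpose]
  simp_rw [h1]
  rw [← charFun_apply, charFun_multivariateGaussian hS]
  congr 2
  · simp
  · congr 2
    change (Lᵀ *ᵥ t.ofLp) ⬝ᵥ S *ᵥ (Lᵀ *ᵥ t.ofLp) = _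
    rw [Matrix.mulVec_transpose, ← Matrix.mulVec_mulVec, ← Matrix.mulVec_mulVec, Matrix.mulVec_transpose]
    rw [Matrix.dotProduct_mulVec t.ofLp]

lemma measurableSet_exceed {W : Type} [Fintype W] (A : ℝ) :
    MeasurableSet {x : EuclideanSpace ℝ W | ∃ i, A < |x i|} := by
  have : {x : EuclideanSpace ℝ W | ∃ i, A < |x i|} = ⋃ i, {x | A < |x i|} := by
    ext x; simp
  rw [this]
  refine MeasurableSet.iUnion fun i => ?_
  exact measurableSet_lt measurable_const (by fun_prop)

/-- covariance domination: if `S₁ ≤ S₂` then sup-norm tails of `N(0,S₁)` are at most twice those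
of `N(0,S₂)`. -/
theorem gauss_dom {S₁ S₂ : Matrix V V ℝ} (h₁ : S₁.PosSemidef) (h₂ : S₂.PosSemidef)
    (h : (S₂ - S₁).PosSemidef) (A : ℝ) :
    multivariateGaussian (0 : EuclideanSpace ℝ V) S₁ {x | ∃ i, A < |x i|} ≤
      2 * multivariateGaussian (0 : EuclideanSpace ℝ V) S₂ {x | ∃ i, A < |x i|} := by
  set μ := multivariateGaussian (0 : EuclideanSpace ℝ V) S₁ with hμ
  set ν := multivariateGaussian (0 : EuclideanSpace ℝ V) (S₂ - S₁) with hν
  have hsum : (μ.prod ν).map (fun p => p.1 + p.2) = multivariateGaussian (0 : EuclideanSpace ℝ V) S₂ := by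
    have : IsProbabilityMeasure ((μ.prod ν).map (fun p => p.1 + p.2)) :=
      Measure.isProbabilityMeasure_map (by fun_prop)
    apply Measure.ext_of_charFun
    ext t
    rw [charFun_multivariateGaussian h₂]
    have := charFun_conv (μ := μ) (ν := ν) t
    rw [Measure.conv] at this
    rw [this, hμ, hν, charFun_multivariateGaussian h₁, charFun_multivariateGaussian h, ← Complex.exp_add]
    congr 1
    rw [Matrix.sub_mulVec, dotProduct_sub]
    push_cast
    simp
    ring
  have hdiff : (μ.prod ν).map (fun p => p.1 - p.2) = multivariateGaussian (0 : EuclideanSpace ℝ V) S₂ := by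
    have hneg : ν.map (fun x => -x) = ν := by
      have : IsProbabilityMeasure (ν.map (fun x => -x)) :=
        Measure.isProbabilityMeasure_map (by fun_prop)
      apply Measure.ext_of_charFun
      ext t
      rw [charFun_apply, integral_map (by fun_prop) (by fun_prop)]
      have : ∀ x : EuclideanSpace ℝ V, (⟪-x, t⟫ : ℝ) = ⟪x, -t⟫ := by
        intro x; simp
      simp_rw [this]
      rw [← charFun_apply, hν, charFun_multivariateGaussian h, charFun_multivariateGaussian h]
      simp [Matrix.mulVec_neg]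
    have e : (fun p : EuclideanSpace ℝ V × EuclideanSpace ℝ V => p.1 - p.2) =
        (fun p => p.1 + p.2) ∘ (Prod.map id (fun x => -x)) := by
      ext p; simp [sub_eq_add_neg]
    rw [e, ← Measure.map_map (by fun_prop) (by fun_prop)]
    have : (μ.prod ν).map (Prod.map id (fun x => -x)) = μ.prod ν := by
      rw [← Measure.map_prod_map μ ν measurable_id (by fun_prop), Measure.map_id, hneg]
    rw [this, hsum]
  have hm := measurableSet_exceed (W := V) A
  have hsub : (Prod.fst ⁻¹' {x : EuclideanSpace ℝ V | ∃ i, A < |x i|} :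
      Set (EuclideanSpace ℝ V × EuclideanSpace ℝ V)) ⊆
      (fun p => p.1 + p.2) ⁻¹' {x | ∃ i, A < |x i|} ∪ (fun p => p.1 - p.2) ⁻¹' {x | ∃ i, A < |x i|} := by
    intro p hp
    obtain ⟨i, hi⟩ := hp
    by_contra hcon
    simp only [Set.mem_union, Set.mem_preimage, Set.mem_ofPred_eq, PiLp.add_apply, PiLp.sub_apply, not_or,
      not_exists, not_lt] at hcon
    have h1 := hcon.1 i
    have h2 := hcon.2 i
    have h3 : |2 * p.1 i| ≤ |p.1 i + p.2 i| + |p.1 i - p.2 i| := by
      have : 2 * p.1 i = (p.1 i + p.2 i) + (p.1 i - p.2 i) := by ring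
      rw [this]; exact abs_add_le _ _
    rw [abs_mul, abs_two] at h3
    linarith
  have hfst : μ {x | ∃ i, A < |x i|} = (μ.prod ν) (Prod.fst ⁻¹' {x | ∃ i, A < |x i|}) := by
    rw [← Measure.map_apply measurable_fst hm, Measure.map_fst_prod]
    simp
  rw [hfst]
  refine (measure_mono hsub).trans ((measure_union_le _ _).trans ?_)
  rw [← Measure.map_apply (by fun_prop) hm, ← Measure.map_apply (by fun_prop) hm, hsum, hdiff, two_mul]

end Pool.Agent.Speedup
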