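import Mathlib

set_option autoImplicit false
set_option linter.unusedSectionVars false

/-!
Completely monotone functions on the lattice of finite subsets of a finite set.
-/

open Finset Filter Topology

namespace Pool.Agent.Speedup

variable {E : Type} [Fintype E] [DecidableEq E]

/-- Möbius transform. -/
noncomputable def mob (Φ : Finset E → ℝ) (T : Finset E) : ℝ :=
  ∑ S ∈ T.powerset, (-1 : ℝ) ^ (#(T \ S)) * Φ S

/-- indicator of the up-set of `S`. -/
noncomputable def up (S : Finset E) (F : Finset E) : ℝ := if S ⊆ F then 1 else 0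

lemma up_eq_prod (S F : Finset E) : up S F = ∏ e ∈ S, (if e ∈ F then (1 : ℝ) else 0) := by
  unfold up
  split_ifs with h
  · rw [prod_congr rfl (fun e he => if_pos (h he))]; simp
  · obtain ⟨e, he, heF⟩ := Finset.not_subset.mp h
    rw [prod_eq_zero he (if_neg heF)]

lemma mob_prod (y : E → ℝ) (T : Finset E) :
    mob (fun F => ∏ e ∈ F, y e) T = ∏ e ∈ T, (y e - 1) := by
  have h := Finset.prod_add y (fun _ => (-1 : ℝ)) T
  have h1 : ∏ e ∈ T, (y e - 1) = ∏ e ∈ T, (y e + (-1)) := rfl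
  rw [h1, h, mob]
  refine sum_congr rfl fun S _ => ?_
  rw [prod_const, mul_comm]

lemma mob_sum {ι : Type*} (s : Finset ι) (Φ : ι → Finset E → ℝ) (c : ι → ℝ) (T : Finset E) :
    mob (fun F => ∑ i ∈ s, c i * Φ i F) T = ∑ i ∈ s, c i * mob (Φ i) T := by
  unfold mob
  simp only [mul_sum]
  rw [sum_comm]
  exact sum_congr rfl fun i _ => sum_congr rfl fun S _ => by ring

lemma mob_up (S T : Finset E) : mob (up S) T = if T = S then 1 else 0 := by
  by_cases hST : S ⊆ T
  · have h1 : mob (up S) T = ∑ R ∈ T.powerset.filter (fun R => S ⊆ R), (-1 : ℝ) ^ (#(T \ R)) := by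
      rw [mob, sum_filter]
      exact sum_congr rfl fun R _ => by unfold up; split_ifs <;> simp
    have h2 : ∑ R ∈ T.powerset.filter (fun R => S ⊆ R), (-1 : ℝ) ^ (#(T \ R)) =
        ∑ R ∈ (T \ S).powerset, (-1 : ℝ) ^ #R := by
      refine sum_nbij' (fun R => T \ R) (fun R => T \ R) ?_ ?_ ?_ ?_ ?_
      · intro R hR
        simp only [mem_filter, mem_powerset] at hR ⊢
        exact sdiff_subset_sdiff subset_rfl hR.2
      · intro R hR
        simp only [mem_filter, mem_powerset] at hR ⊢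
        refine ⟨sdiff_subset, fun e he => ?_⟩
        refine Finset.mem_sdiff.mpr ?_
        exact ⟨hST he, fun h => (Finset.mem_sdiff.mp (hR h)).2 he⟩
      · intro R hR
        simp only [mem_filter, mem_powerset] at hR
        exact Finset.sdiff_sdiff_eq_self hR.1
      · intro R hR
        simp only [mem_powerset] at hR
        exact Finset.sdiff_sdiff_eq_self (hR.trans sdiff_subset)
      · intro R _; rfl
    have h3 : (∑ R ∈ (T \ S).powerset, (-1 : ℝ) ^ #R) = if T \ S = ∅ then 1 else 0 := by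
      have := Finset.sum_powerset_neg_one_pow_card (x := T \ S)
      have h4 : ((∑ m ∈ (T \ S).powerset, (-1 : ℤ) ^ #m : ℤ) : ℝ) = ((if T \ S = ∅ then 1 else 0 : ℤ) : ℝ) := by
        rw [this]
      push_cast at h4
      rw [h4]
    rw [h1, h2, h3]
    have h5 : T \ S = ∅ ↔ T = S := by
      rw [sdiff_eq_empty_iff_subset]
      exact ⟨fun h => subset_antisymm h hST, fun h => h ▸ subset_rfl⟩
    simp only [h5]
  · have h1 : mob (up S) T = 0 := by
      rw [mob]
      refine sum_eq_zero fun R hR => ?_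
      rw [mem_powerset] at hR
      unfold up
      rw [if_neg fun h => hST (h.trans hR), mul_zero]
    rw [h1, if_neg]
    rintro rfl
    exact hST subset_rfl

/-- Möbius inversion -/
lemma mob_inv (Φ : Finset E → ℝ) (F : Finset E) : Φ F = ∑ T, mob Φ T * up T F := by
  have h1 : ∀ F, Φ F = ∑ S, Φ S * (if F = S then 1 else 0) := fun F => by simp
  have h2 : ∀ S T : Finset E, (∑ S' ∈ T.powerset, (-1 : ℝ) ^ (#(T \ S')) * (if S' = S then 1 else 0)) =
      if S ⊆ T then (-1 : ℝ) ^ (#(T \ S)) else 0 := by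
    intro S T
    simp
  -- ∑_T mob Φ T * up T F = ∑_S Φ S ∑_{S ⊆ T ⊆ F} (-1)^|T \ S|
  have h3 : ∑ T, mob Φ T * up T F = ∑ S, Φ S * ∑ T ∈ F.powerset.filter (fun T => S ⊆ T), (-1 : ℝ) ^ (#(T \ S)) := by
    have : ∀ T : Finset E, mob Φ T * up T F =
        ∑ S, Φ S * (if S ⊆ T ∧ T ⊆ F then (-1 : ℝ) ^ (#(T \ S)) else 0) := by
      intro T
      by_cases hT : T ⊆ F
      · simp only [up, hT, if_true, mul_one, and_true]
        rw [mob, ← Finset.sum_subset (subset_univ T.powerset)]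
        · refine sum_congr rfl fun S hS => ?_
          rw [if_pos (mem_powerset.mp hS)]; ring
        · intro S _ hS
          rw [if_neg (fun h => hS (mem_powerset.mpr h)), mul_zero]
      · simp [up, hT]
    rw [sum_congr rfl fun T _ => this T, sum_comm]
    refine sum_congr rfl fun S _ => ?_
    rw [← mul_sum]
    congr 1
    rw [sum_filter]
    rw [← Finset.sum_subset (subset_univ F.powerset)]
    · refine sum_congr rfl fun T hT => ?_
      rw [mem_powerset] at hT
      simp [hT]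
    · intro T _ hT
      rw [if_neg]
      rintro ⟨_, h⟩
      exact hT (mem_powerset.mpr h)
  have h4 : ∀ S : Finset E, ∑ T ∈ F.powerset.filter (fun T => S ⊆ T), (-1 : ℝ) ^ (#(T \ S)) =
      if F = S then 1 else 0 := by
    intro S
    by_cases hS : S ⊆ F
    · have : ∑ T ∈ F.powerset.filter (fun T => S ⊆ T), (-1 : ℝ) ^ (#(T \ S)) =
          ∑ R ∈ (F \ S).powerset, (-1 : ℝ) ^ #R := by
        refine sum_nbij' (fun T => T \ S) (fun R => R ∪ S) ?_ ?_ ?_ ?_ ?_
        · intro T hT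
          simp only [mem_filter, mem_powerset] at hT ⊢
          exact sdiff_subset_sdiff hT.1 subset_rfl
        · intro R hR
          simp only [mem_filter, mem_powerset] at hR ⊢
          exact ⟨union_subset (hR.trans sdiff_subset) hS, subset_union_right⟩
        · intro T hT
          simp only [mem_filter, mem_powerset] at hT
          exact sdiff_union_of_subset hT.2
        · intro R hR
          simp only [mem_powerset] at hR
          rw [Finset.union_sdiff_right, Finset.sdiff_eq_self_iff_disjoint]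
          exact disjoint_of_subset_left hR sdiff_disjoint
        · intro T _; rfl
      rw [this]
      have h5 := Finset.sum_powerset_neg_one_pow_card (x := F \ S)
      have h6 : ((∑ m ∈ (F \ S).powerset, (-1 : ℤ) ^ #m : ℤ) : ℝ) = ((if F \ S = ∅ then 1 else 0 : ℤ) : ℝ) := by
        rw [h5]
      push_cast at h6
      rw [h6]
      have h7 : F \ S = ∅ ↔ F = S := by
        rw [sdiff_eq_empty_iff_subset]
        exact ⟨fun h => subset_antisymm h hS, fun h => h ▸ subset_rfl⟩
      simp only [h7]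
    · rw [if_neg (fun h : F = S => hS (h ▸ subset_rfl))]
      refine sum_eq_zero fun T hT => ?_
      rw [mem_filter, mem_powerset] at hT
      exact absurd (hT.2.trans hT.1) hS
  rw [h3]
  simp only [h4]
  exact h1 F

lemma up_mul_up (S T F : Finset E) : up S F * up T F = up (S ∪ T) F := by
  unfold up
  by_cases h1 : S ⊆ F <;> by_cases h2 : T ⊆ F <;> simp [h1, h2, union_subset_iff]

/-- the Möbius transform of a product -/
lemma mob_mul (Φ Ψ : Finset E → ℝ) (T : Finset E) :
    mob (fun F => Φ F * Ψ F) T =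
      ∑ T1, ∑ T2, mob Φ T1 * mob Ψ T2 * (if T = T1 ∪ T2 then 1 else 0) := by
  have h1 : (fun F => Φ F * Ψ F) = fun F => ∑ p : Finset E × Finset E,
      (mob Φ p.1 * mob Ψ p.2) * up (p.1 ∪ p.2) F := by
    ext F
    conv_lhs => rw [mob_inv Φ F, mob_inv Ψ F, sum_mul_sum]
    rw [Fintype.sum_prod_type]
    refine sum_congr rfl fun T1 _ => sum_congr rfl fun T2 _ => ?_
    rw [← up_mul_up]; ring
  rw [h1, mob_sum, Fintype.sum_prod_type]
  refine sum_congr rfl fun T1 _ => sum_congr rfl fun T2 _ => ?_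
  rw [mob_up]

/-- completely monotone -/
def CM (Φ : Finset E → ℝ) : Prop := ∀ T, 0 ≤ mob Φ T

lemma CM.mul {Φ Ψ : Finset E → ℝ} (h1 : CM Φ) (h2 : CM Ψ) : CM (fun F => Φ F * Ψ F) := by
  intro T
  rw [mob_mul]
  exact sum_nonneg fun T1 _ => sum_nonneg fun T2 _ =>
    mul_nonneg (mul_nonneg (h1 T1) (h2 T2)) (by split_ifs <;> norm_num)

lemma CM_up (S : Finset E) : CM (up S) := by
  intro T
  rw [mob_up]
  split_ifs <;> norm_num

lemma CM_sum {ι : Type*} (s : Finset ι) {Φ : ι → Finset E → ℝ} {c : ι → ℝ}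
    (hc : ∀ i ∈ s, 0 ≤ c i) (hΦ : ∀ i ∈ s, CM (Φ i)) : CM (fun F => ∑ i ∈ s, c i * Φ i F) := by
  intro T
  rw [mob_sum]
  exact sum_nonneg fun i hi => mul_nonneg (hc i hi) (hΦ i hi T)

lemma CM_sum' {ι : Type*} (s : Finset ι) {Φ : ι → Finset E → ℝ}
    (hΦ : ∀ i ∈ s, CM (Φ i)) : CM (fun F => ∑ i ∈ s, Φ i F) := by
  have := CM_sum s (c := fun _ => 1) (fun _ _ => zero_le_one) hΦ
  simpa using this

lemma CM.add {Φ Ψ : Finset E → ℝ} (h1 : CM Φ) (h2 : CM Ψ) : CM (fun F => Φ F + Ψ F) := by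
  have := CM_sum' (univ : Finset Bool) (Φ := fun b => if b then Φ else Ψ) (fun b _ => by
    cases b <;> simpa)
  simpa using this

lemma CM.const_mul {Φ : Finset E → ℝ} (h : CM Φ) {c : ℝ} (hc : 0 ≤ c) : CM (fun F => c * Φ F) := by
  have := CM_sum (univ : Finset Unit) (c := fun _ => c) (Φ := fun _ => Φ) (fun _ _ => hc) (fun _ _ => h)
  simpa using this

lemma CM_const {c : ℝ} (hc : 0 ≤ c) : CM (fun _ : Finset E => c) := by
  have := (CM_up (∅ : Finset E)).const_mul hc
  simpa [up] using this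

lemma CM.pow {Φ : Finset E → ℝ} (h : CM Φ) (n : ℕ) : CM (fun F => Φ F ^ n) := by
  induction n with
  | zero => simpa using CM_const (E := E) zero_le_one
  | succ n ih =>
    have := ih.mul h
    simpa [pow_succ] using this

lemma CM_prod {ι : Type*} (s : Finset ι) {Φ : ι → Finset E → ℝ}
    (hΦ : ∀ i ∈ s, CM (Φ i)) : CM (fun F => ∏ i ∈ s, Φ i F) := by
  classical
  induction s using Finset.induction_on with
  | empty => simpa using CM_const (E := E) zero_le_one
  | insert i s hi ih =>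
    simp only [prod_insert hi]
    exact (hΦ i (mem_insert_self _ _)).mul (ih fun j hj => hΦ j (mem_insert_of_mem hj))

lemma mob_tendsto {ι : Type*} {l : Filter ι} {Φ : ι → Finset E → ℝ} {Ψ : Finset E → ℝ}
    (h : ∀ F, Tendsto (fun i => Φ i F) l (𝓝 (Ψ F))) (T : Finset E) :
    Tendsto (fun i => mob (Φ i) T) l (𝓝 (mob Ψ T)) := by
  unfold mob
  exact tendsto_finsetSum _ fun S _ => (h S).const_mul _

lemma CM_lim {ι : Type*} {l : Filter ι} [l.NeBot] {Φ : ι → Finset E → ℝ} {Ψ : Finset E → ℝ}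
    (hΦ : ∀ i, CM (Φ i)) (h : ∀ F, Tendsto (fun i => Φ i F) l (𝓝 (Ψ F))) : CM Ψ := fun T =>
  ge_of_tendsto' (mob_tendsto h T) fun i => hΦ i T

lemma exp_tendsto (x : ℝ) :
    Tendsto (fun n => ∑ i ∈ range n, ((Nat.factorial i : ℝ))⁻¹ * x ^ i) atTop (𝓝 (Real.exp x)) := by
  have := (NormedSpace.expSeries_div_hasSum_exp (𝔸 := ℝ) x).tendsto_sum_nat
  rw [← Real.exp_eq_exp_ℝ] at this
  refine this.congr fun n => sum_congr rfl fun i _ => by rw [div_eq_inv_mul]

lemma CM.exp {Φ : Finset E → ℝ} (h : CM Φ) : CM (fun F => Real.exp (Φ F)) := by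
  refine CM_lim (l := atTop) (Φ := fun n F => ∑ i ∈ range n, ((Nat.factorial i : ℝ))⁻¹ * Φ F ^ i)
    (fun n => ?_) (fun F => exp_tendsto (Φ F))
  exact CM_sum _ (fun i _ => by positivity) (fun i _ => h.pow i)

/-- value on the whole set -/
lemma CM.apply_univ (Φ : Finset E → ℝ) : Φ univ = ∑ T, mob Φ T := by
  rw [mob_inv Φ univ]
  exact sum_congr rfl fun T _ => by simp [up]

lemma CM.nonneg {Φ : Finset E → ℝ} (h : CM Φ) (F : Finset E) : 0 ≤ Φ F := by
  rw [mob_inv Φ F]
  exact sum_nonneg fun T _ => mul_nonneg (h T) (by unfold up; split_ifs <;> norm_num)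

section CU

variable (U : Finset (Finset E))

/-- mass of the Möbius transform on the family `U`. -/
noncomputable def CU (Φ : Finset E → ℝ) : ℝ := ∑ T ∈ U, mob Φ T

lemma CU_nonneg {Φ : Finset E → ℝ} (h : CM Φ) : 0 ≤ CU U Φ := sum_nonneg fun T _ => h T

lemma CU_sum {ι : Type*} (s : Finset ι) (Φ : ι → Finset E → ℝ) (c : ι → ℝ) :
    CU U (fun F => ∑ i ∈ s, c i * Φ i F) = ∑ i ∈ s, c i * CU U (Φ i) := by
  unfold CU
  simp only [mob_sum, mul_sum]
  rw [sum_comm]

lemma CU_tendsto {ι : Type*} {l : Filter ι} {Φ : ι → Finset E → ℝ} {Ψ : Finset E → ℝ}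
    (h : ∀ F, Tendsto (fun i => Φ i F) l (𝓝 (Ψ F))) :
    Tendsto (fun i => CU U (Φ i)) l (𝓝 (CU U Ψ)) :=
  tendsto_finsetSum _ fun T _ => mob_tendsto h T

lemma CU_up (S : Finset E) : CU U (up S) = if S ∈ U then 1 else 0 := by
  unfold CU
  simp only [mob_up]
  simp

variable (hU : ∀ S ∈ U, ∀ T, S ⊆ T → T ∈ U)
include hU

lemma CU_mul_ge {Φ Ψ : Finset E → ℝ} (h1 : CM Φ) (h2 : CM Ψ) :
    Φ univ * CU U Ψ ≤ CU U (fun F => Φ F * Ψ F) := by
  have e1 : CU U (fun F => Φ F * Ψ F) =
      ∑ T1, ∑ T2, mob Φ T1 * mob Ψ T2 * (if T1 ∪ T2 ∈ U then 1 else 0) := by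
    unfold CU
    simp only [mob_mul]
    rw [sum_comm]
    refine sum_congr rfl fun T1 _ => ?_
    rw [sum_comm]
    refine sum_congr rfl fun T2 _ => ?_
    rw [← mul_sum]
    congr 1
    simp
  have e2 : Φ univ * CU U Ψ = ∑ T1, ∑ T2, mob Φ T1 * mob Ψ T2 * (if T2 ∈ U then 1 else 0) := by
    rw [CM.apply_univ Φ, CU, sum_mul]
    refine sum_congr rfl fun T1 _ => ?_
    rw [mul_sum]
    have : ∑ T2, mob Φ T1 * mob Ψ T2 * (if T2 ∈ U then (1 : ℝ) else 0) =
        ∑ T2, if T2 ∈ U then mob Φ T1 * mob Ψ T2 else 0 :=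
      sum_congr rfl fun T2 _ => by split_ifs <;> simp
    rw [this, ← sum_filter]
    simp
  rw [e1, e2]
  refine sum_le_sum fun T1 _ => sum_le_sum fun T2 _ => ?_
  refine mul_le_mul_of_nonneg_left ?_ (mul_nonneg (h1 T1) (h2 T2))
  by_cases h : T2 ∈ U
  · rw [if_pos h, if_pos (hU T2 h _ subset_union_right)]
  · rw [if_neg h]
    split_ifs <;> norm_num

lemma CU_up_mul {S : Finset E} (hS : S ∈ U) {Ψ : Finset E → ℝ} (h2 : CM Ψ) :
    Ψ univ ≤ CU U (fun F => up S F * Ψ F) := by
  have := CU_mul_ge U hU h2 (CM_up S)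
  rw [CU_up, if_pos hS, mul_one] at this
  have e : (fun F => Ψ F * up S F) = fun F => up S F * Ψ F := by
    ext F; ring
  rwa [e] at this

end CU

end Pool.Agent.Speedup
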