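import Mathlib

set_option autoImplicit false
set_option linter.unusedSectionVars false

/-!
Sign sums.
-/

open Finset

namespace Pool.Agent.Speedup

variable {E G : Type} [Fintype E] [DecidableEq E] [Group G] [Fintype G] [DecidableEq G]

section
variable (sg : G → E → ℝ) (hmul : ∀ σ τ e, sg (σ * τ) e = sg σ e * sg τ e)
  (hpm : ∀ σ e, sg σ e = 1 ∨ sg σ e = -1)

include hmul hpm

lemma char_sum_nonneg (S : Finset E) : 0 ≤ ∑ σ, ∏ e ∈ S, sg σ e := by
  by_cases h : ∀ σ, ∏ e ∈ S, sg σ e = 1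
  · rw [sum_congr rfl fun σ _ => h σ]; simp
  · push Not at h
    obtain ⟨τ, hτ⟩ := h
    have h1 : ∑ σ, ∏ e ∈ S, sg (τ * σ) e = ∑ σ, ∏ e ∈ S, sg σ e :=
      Equiv.sum_comp (Equiv.mulLeft τ) (fun σ => ∏ e ∈ S, sg σ e)
    have h2 : ∑ σ, ∏ e ∈ S, sg (τ * σ) e = (∏ e ∈ S, sg τ e) * ∑ σ, ∏ e ∈ S, sg σ e := by
      rw [mul_sum]
      refine sum_congr rfl fun σ _ => ?_
      rw [← prod_mul_distrib]
      exact prod_congr rfl fun e _ => hmul τ σ e
    have h3 : (∏ e ∈ S, sg τ e - 1) * ∑ σ, ∏ e ∈ S, sg σ e = 0 := by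
      rw [sub_mul, one_mul, ← h2, h1, sub_self]
    rcases mul_eq_zero.mp h3 with h4 | h4
    · exact absurd (sub_eq_zero.mp h4) hτ
    · rw [h4]

lemma sign_sum_nonneg (T : Finset E) (c d : E → ℝ) (hc : ∀ e, 0 ≤ c e) (hd : ∀ e, 0 ≤ d e) :
    0 ≤ ∑ σ, ∏ e ∈ T, (c e + d e * sg σ e) := by
  have h1 : ∀ σ, ∏ e ∈ T, (c e + d e * sg σ e) =
      ∑ t ∈ T.powerset, (∏ i ∈ T \ t, c i) * (∏ i ∈ t, d i) * ∏ i ∈ t, sg σ i := by
    intro σ
    rw [prod_congr rfl fun e _ => add_comm (c e) (d e * sg σ e), Finset.prod_add]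
    refine sum_congr rfl fun t _ => ?_
    rw [prod_mul_distrib]; ring
  rw [sum_congr rfl fun σ _ => h1 σ, sum_comm]
  refine sum_nonneg fun t _ => ?_
  rw [← mul_sum]
  exact mul_nonneg (mul_nonneg (prod_nonneg fun i _ => hc i) (prod_nonneg fun i _ => hd i))
    (char_sum_nonneg sg hmul hpm t)

omit hmul in
lemma exp_sign (J : ℝ) (σ : G) (e : E) :
    Real.exp (sg σ e * J) - 1 = (Real.cosh J - 1) + Real.sinh J * sg σ e := by
  rcases hpm σ e with h | h
  · rw [h, one_mul, ← Real.cosh_add_sinh]; ring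
  · rw [h, neg_one_mul, ← Real.cosh_sub_sinh]; ring

lemma sign_exp_nonneg (T : Finset E) (J : E → ℝ) (hJ : ∀ e, 0 ≤ J e) :
    0 ≤ ∑ σ, ∏ e ∈ T, (Real.exp (sg σ e * J e) - 1) := by
  simp only [exp_sign sg hpm]
  exact sign_sum_nonneg sg hmul hpm T (fun e => Real.cosh (J e) - 1) (fun e => Real.sinh (J e))
    (fun e => by linarith [Real.one_le_cosh (J e)]) (fun e => Real.sinh_nonneg_iff.mpr (hJ e))

lemma prod_union_expand (U : Finset (Finset E)) (a b : E → ℝ) :
    ∑ W ∈ U, ∏ e ∈ W, (a e + b e + a e * b e) =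
      ∑ T1, ∑ T2, (∏ e ∈ T1, a e) * (∏ e ∈ T2, b e) * (if T1 ∪ T2 ∈ U then 1 else 0) := by
  have h1 : ∀ W : Finset E, ∏ e ∈ W, (a e + b e + a e * b e) =
      ∑ T1, ∑ T2, (∏ e ∈ T1, a e) * (∏ e ∈ T2, b e) * (if W = T1 ∪ T2 then 1 else 0) := by
    intro W
    -- expand over the choice `{a, b, ab}`: first choose `T1` (edges with a), then `T2`
    have e1 : ∏ e ∈ W, (a e + b e + a e * b e) = ∏ e ∈ W, (a e * (1 + b e) + b e) :=
      prod_congr rfl fun e _ => by ring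
    rw [e1, Finset.prod_add]
    have e2 : ∀ T1 ∈ W.powerset, (∏ i ∈ T1, a i * (1 + b i)) * ∏ i ∈ W \ T1, b i =
        ∑ T2, (∏ e ∈ T1, a e) * (∏ e ∈ T2, b e) * (if W = T1 ∪ T2 then 1 else 0) := by
      intro T1 hT1
      rw [mem_powerset] at hT1
      rw [prod_mul_distrib, Finset.prod_one_add, mul_sum, sum_mul]
      have e3 : ∀ t ∈ T1.powerset, (∏ i ∈ T1, a i) * (∏ i ∈ t, b i) * ∏ i ∈ W \ T1, b i =
          (∏ i ∈ T1, a i) * (∏ i ∈ t ∪ (W \ T1), b i) := by
        intro t ht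
        rw [mem_powerset] at ht
        rw [prod_union (disjoint_of_subset_left ht disjoint_sdiff), mul_assoc]
      rw [sum_congr rfl e3]
      have e4 : ∑ T2, (∏ e ∈ T1, a e) * (∏ e ∈ T2, b e) * (if W = T1 ∪ T2 then (1 : ℝ) else 0) =
          ∑ T2 ∈ univ.filter (fun T2 => W = T1 ∪ T2), (∏ e ∈ T1, a e) * (∏ e ∈ T2, b e) := by
        rw [sum_filter]
        exact sum_congr rfl fun T2 _ => by split_ifs <;> simp
      rw [e4]
      refine sum_nbij' (fun t => t ∪ (W \ T1)) (fun T2 => T2 ∩ T1) ?_ ?_ ?_ ?_ ?_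
      · intro t ht
        rw [mem_powerset] at ht
        rw [mem_filter]
        refine ⟨mem_univ _, ?_⟩
        rw [← union_assoc, union_eq_left.mpr ht, union_sdiff_of_subset hT1]
      · intro T2 _
        rw [mem_powerset]
        exact inter_subset_right
      · intro t ht
        rw [mem_powerset] at ht
        ext e
        simp only [mem_inter, mem_union, mem_sdiff]
        constructor
        · rintro ⟨h | h, h'⟩
          · exact h
          · exact absurd h' h.2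
        · intro h
          exact ⟨Or.inl h, ht h⟩
      · intro T2 hT2
        rw [mem_filter] at hT2
        have h := hT2.2
        ext e
        simp only [mem_inter, mem_union, mem_sdiff]
        constructor
        · rintro (h' | ⟨h', h''⟩)
          · exact h'.1
          · rw [h, mem_union] at h'
            exact h'.resolve_left h''
        · intro he
          by_cases h1 : e ∈ T1
          · exact Or.inl ⟨he, h1⟩
          · exact Or.inr ⟨by rw [h]; exact mem_union_right _ he, h1⟩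
      · intro t _; rfl
    rw [sum_congr rfl e2]
    refine Finset.sum_subset (subset_univ _) fun T1 _ hT1 => ?_
    refine sum_eq_zero fun T2 _ => ?_
    rw [if_neg, mul_zero]
    rintro rfl
    exact hT1 (mem_powerset.mpr subset_union_left)
  rw [sum_congr rfl fun W _ => h1 W, sum_comm]
  refine sum_congr rfl fun T1 _ => ?_
  rw [sum_comm]
  refine sum_congr rfl fun T2 _ => ?_
  rw [← mul_sum]
  congr 1
  simp

/-- the key sign inequality -/
theorem sign_key (U : Finset (Finset E)) (hU : ∀ S ∈ U, ∀ T, S ⊆ T → T ∈ U)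
    (hU1 : ∀ S ∈ U, ∀ σ : G, σ ≠ 1 → ∃ e ∈ S, sg σ e = -1) (J : E → ℝ) (hJ : ∀ e, 0 ≤ J e) :
    ∑ σ, ∑ T ∈ U, ∏ e ∈ T, (Real.exp (sg σ e * J e) - 1) ≤ Real.exp (∑ e, J e) := by
  have hone : ∀ e, sg 1 e = 1 := by
    intro e
    have h := hmul 1 1 e
    rw [mul_one] at h
    rcases hpm 1 e with h1 | h1
    · exact h1
    · rw [h1] at h; norm_num at h
  have hexp : Real.exp (∑ e, J e) = ∑ T' : Finset E, ∏ e ∈ T', (Real.exp (J e) - 1) := by
    rw [Real.exp_sum]
    have : ∏ e, Real.exp (J e) = ∏ e, (1 + (Real.exp (J e) - 1)) :=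
      prod_congr rfl fun e _ => by ring
    rw [this, Finset.prod_one_add, powerset_univ]
  have step1 : Real.exp (∑ e, J e) * ∑ σ, ∑ T ∈ U, ∏ e ∈ T, (Real.exp (sg σ e * J e) - 1) =
      ∑ T1 : Finset E, ∑ T2 : Finset E, (∏ e ∈ T1, (Real.exp (J e) - 1)) *
        (∑ σ, ∏ e ∈ T2, (Real.exp (sg σ e * J e) - 1)) * (if T2 ∈ U then 1 else 0) := by
    rw [hexp, sum_mul]
    refine sum_congr rfl fun T1 _ => ?_
    rw [sum_comm, mul_sum]
    have : ∑ T2 : Finset E, (∏ e ∈ T1, (Real.exp (J e) - 1)) *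
        (∑ σ, ∏ e ∈ T2, (Real.exp (sg σ e * J e) - 1)) * (if T2 ∈ U then (1 : ℝ) else 0) =
        ∑ T2 : Finset E, if T2 ∈ U then (∏ e ∈ T1, (Real.exp (J e) - 1)) *
        (∑ σ, ∏ e ∈ T2, (Real.exp (sg σ e * J e) - 1)) else 0 :=
      sum_congr rfl fun T2 _ => by split_ifs <;> simp
    rw [this, ← sum_filter]
    simp
  have step2 : ∑ T1 : Finset E, ∑ T2 : Finset E, (∏ e ∈ T1, (Real.exp (J e) - 1)) *
        (∑ σ, ∏ e ∈ T2, (Real.exp (sg σ e * J e) - 1)) * (if T2 ∈ U then (1 : ℝ) else 0) ≤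
      ∑ T1 : Finset E, ∑ T2 : Finset E, (∏ e ∈ T1, (Real.exp (J e) - 1)) *
        (∑ σ, ∏ e ∈ T2, (Real.exp (sg σ e * J e) - 1)) * (if T1 ∪ T2 ∈ U then 1 else 0) := by
    refine sum_le_sum fun T1 _ => sum_le_sum fun T2 _ => ?_
    refine mul_le_mul_of_nonneg_left ?_ (mul_nonneg (prod_nonneg fun e _ => ?_)
      (sign_exp_nonneg sg hmul hpm T2 J hJ))
    · by_cases h : T2 ∈ U
      · rw [if_pos h, if_pos (hU T2 h _ subset_union_right)]
      · rw [if_neg h]; split_ifs <;> norm_num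
    · have := Real.one_le_exp (hJ e); linarith
  have step3 : ∑ T1 : Finset E, ∑ T2 : Finset E, (∏ e ∈ T1, (Real.exp (J e) - 1)) *
        (∑ σ, ∏ e ∈ T2, (Real.exp (sg σ e * J e) - 1)) * (if T1 ∪ T2 ∈ U then (1 : ℝ) else 0) =
      ∑ σ, ∑ W ∈ U, ∏ e ∈ W, (Real.exp (J e * (1 + sg σ e)) - 1) := by
    have e1 : ∀ σ, ∑ W ∈ U, ∏ e ∈ W, (Real.exp (J e * (1 + sg σ e)) - 1) =
        ∑ T1, ∑ T2, (∏ e ∈ T1, (Real.exp (J e) - 1)) *
          (∏ e ∈ T2, (Real.exp (sg σ e * J e) - 1)) * (if T1 ∪ T2 ∈ U then (1 : ℝ) else 0) := by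
      intro σ
      rw [← prod_union_expand sg hmul hpm]
      refine sum_congr rfl fun W _ => prod_congr rfl fun e _ => ?_
      rw [mul_add, mul_one, Real.exp_add, mul_comm (J e) (sg σ e)]
      ring
    rw [Finset.sum_congr (s₂ := (univ : Finset G)) rfl fun σ _ => e1 σ]
    symm
    rw [sum_comm]
    refine sum_congr rfl fun T1 _ => ?_
    rw [sum_comm]
    refine sum_congr rfl fun T2 _ => ?_
    rw [← sum_mul, ← mul_sum]
  have step4 : ∑ σ, ∑ W ∈ U, ∏ e ∈ W, (Real.exp (J e * (1 + sg σ e)) - 1) ≤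
      Real.exp (∑ e, J e) * Real.exp (∑ e, J e) := by
    rw [Finset.sum_eq_single (1 : G)]
    · have e2 : ∑ W ∈ U, ∏ e ∈ W, (Real.exp (J e * (1 + sg 1 e)) - 1) ≤
          ∑ W : Finset E, ∏ e ∈ W, (Real.exp (J e * (1 + sg 1 e)) - 1) := by
        refine Finset.sum_le_sum_of_subset_of_nonneg (subset_univ _) fun W _ _ =>
          prod_nonneg fun e _ => ?_
        rw [hone]
        have := Real.one_le_exp (x := J e * (1 + 1)) (by linarith [hJ e])
        linarith
      refine e2.trans (le_of_eq ?_)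
      rw [← Real.exp_add, ← two_mul, mul_sum, Real.exp_sum]
      have : ∏ e, Real.exp (2 * J e) = ∏ e, (1 + (Real.exp (J e * (1 + sg 1 e)) - 1)) :=
        prod_congr rfl fun e _ => by rw [hone]; ring_nf
      rw [this, Finset.prod_one_add, powerset_univ]
    · intro σ _ hσ
      refine sum_eq_zero fun W hW => ?_
      obtain ⟨e, he, h⟩ := hU1 W hW σ hσ
      refine prod_eq_zero he ?_
      rw [h]; simp
    · intro h; exact absurd (mem_univ _) h
  have hpos := Real.exp_pos (∑ e, J e)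
  have := step1.trans_le (step2.trans (step3.trans_le step4))
  exact le_of_mul_le_mul_left this hpos

end

end Pool.Agent.Speedup
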