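import Mathlib
import Pool.Agent.Speedup.Defs
import Pool.Agent.Speedup.Basic
import Pool.Agent.Speedup.Gauss
import Pool.Agent.Speedup.Mobius
import Pool.Agent.Speedup.Sign

set_option autoImplicit false
set_option linter.unusedSectionVars false

/-!
The partition function over edge subsets.
-/

open Finset Matrix MeasureTheory ProbabilityTheory WithLp
open scoped ENNReal RealInnerProductSpace

namespace Pool.Agent.Speedup

variable {V : Type} [Fintype V] [DecidableEq V]

/-- `inl e`: edge of the graph (loops allowed), `inr (inl x)`: ghost edge at `x`,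
`inr (inr ())`: starting edge. -/
abbrev Edg (V : Type) := Sym2 V ⊕ (V ⊕ Unit)

/-- sign of an edge -/
noncomputable def sgE (u : V) (σ : V → ℤˣ) : Edg V → ℝ
  | Sum.inl e => Sym2.lift ⟨fun x y => ((σ x : ℤ) : ℝ) * ((σ y : ℤ) : ℝ), fun _ _ => mul_comm _ _⟩ e
  | Sum.inr (Sum.inl x) => ((σ x : ℤ) : ℝ)
  | Sum.inr (Sum.inr _) => ((σ u : ℤ) : ℝ)

lemma sgE_mul (u : V) (σ τ : V → ℤˣ) (e : Edg V) : sgE u (σ * τ) e = sgE u σ e * sgE u τ e := by
  rcases e with e | x | _
  · induction e with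
    | _ x y =>
      simp only [sgE, Sym2.lift_mk, Pi.mul_apply, Units.val_mul, Int.cast_mul]
      ring
  · simp [sgE]
  · simp [sgE]

lemma unit_cast (a : ℤˣ) : ((a : ℤ) : ℝ) = 1 ∨ ((a : ℤ) : ℝ) = -1 := by
  rcases Int.units_eq_one_or a with h | h <;> simp [h]

lemma sgE_pm (u : V) (σ : V → ℤˣ) (e : Edg V) : sgE u σ e = 1 ∨ sgE u σ e = -1 := by
  rcases e with e | x | _
  · induction e with
    | _ x y =>
      simp only [sgE, Sym2.lift_mk]
      rcases unit_cast (σ x) with h1 | h1 <;> rcases unit_cast (σ y) with h2 | h2 <;> simp [h1, h2]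
  · exact unit_cast _
  · exact unit_cast _

/-- edge weights of the field -/
noncomputable def Je (C : V → V → ℝ) (b : V → ℝ) (a : ℝ) (u : V) (r : EuclideanSpace ℝ V) : Edg V → ℝ
  | Sum.inl e => (1 / 2) * ∑ x, ∑ y, if s(x, y) = e then C x y * (r x * r y) else 0
  | Sum.inr (Sum.inl x) => b x * r x
  | Sum.inr (Sum.inr _) => a * r u

/-- conductances restricted to `F` -/
noncomputable def CF (C : V → V → ℝ) (F : Finset (Edg V)) (x y : V) : ℝ :=
  if (Sum.inl s(x, y) : Edg V) ∈ F then C x y else 0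

/-- source restricted to `F` -/
noncomputable def bF (b : V → ℝ) (a : ℝ) (u : V) (F : Finset (Edg V)) (x : V) : ℝ :=
  (if (Sum.inr (Sum.inl x) : Edg V) ∈ F then b x else 0) +
    (if x = u ∧ (Sum.inr (Sum.inr ()) : Edg V) ∈ F then a else 0)

lemma sum_Je (C : V → V → ℝ) (b : V → ℝ) (a : ℝ) (u : V) (r : EuclideanSpace ℝ V)
    (F : Finset (Edg V)) :
    ∑ e ∈ F, Je C b a u r e =
      (1 / 2) * ∑ x, ∑ y, CF C F x y * (r x * r y) + ∑ x, bF b a u F x * r x := by
  have h1 : ∑ e ∈ F, Je C b a u r e = ∑ e : Edg V, if e ∈ F then Je C b a u r e else 0 := by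
    rw [← sum_filter]; simp
  rw [h1, Fintype.sum_sum_type, Fintype.sum_sum_type]
  have h2 : ∑ e : Sym2 V, (if (Sum.inl e : Edg V) ∈ F then Je C b a u r (Sum.inl e) else 0) =
      (1 / 2) * ∑ x, ∑ y, CF C F x y * (r x * r y) := by
    have e1 : ∀ e : Sym2 V, (if (Sum.inl e : Edg V) ∈ F then Je C b a u r (Sum.inl e) else 0) =
        (1 / 2) * ∑ x, ∑ y, if s(x, y) = e then (if (Sum.inl e : Edg V) ∈ F then C x y * (r x * r y) else 0)
          else 0 := by
      intro e
      by_cases he : (Sum.inl e : Edg V) ∈ F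
      · simp only [he, if_true]; rfl
      · simp [he]
    rw [sum_congr rfl fun e _ => e1 e, ← mul_sum]
    congr 1
    rw [sum_comm]
    refine sum_congr rfl fun x _ => ?_
    rw [sum_comm]
    refine sum_congr rfl fun y _ => ?_
    rw [Finset.sum_ite_eq univ s(x, y) (fun e => if (Sum.inl e : Edg V) ∈ F then C x y * (r x * r y) else 0)]
    simp only [mem_univ, if_true, CF]
    split_ifs <;> simp
  rw [h2]
  congr 1
  simp only [bF, add_mul, sum_add_distrib]
  congr 1
  · refine sum_congr rfl fun x _ => ?_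
    simp only [Je]
    split_ifs <;> simp
  · simp only [Je, univ_unique, sum_singleton]
    by_cases h : (Sum.inr (Sum.inr ()) : Edg V) ∈ F
    · simp [h]
    · simp [h]

/-- coordinatewise sign flip -/
noncomputable def flip (σ : V → ℤˣ) : EuclideanSpace ℝ V ≃ₗᵢ[ℝ] EuclideanSpace ℝ V :=
  LinearIsometryEquiv.piLpCongrRight 2
    (fun x => if σ x = 1 then LinearIsometryEquiv.refl ℝ ℝ else LinearIsometryEquiv.neg ℝ)

lemma flip_apply (σ : V → ℤˣ) (r : EuclideanSpace ℝ V) (x : V) :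
    flip σ r x = ((σ x : ℤ) : ℝ) * r x := by
  unfold flip
  rw [LinearIsometryEquiv.piLpCongrRight_apply]
  change (if σ x = 1 then LinearIsometryEquiv.refl ℝ ℝ else LinearIsometryEquiv.neg ℝ) (r x) = _
  rcases Int.units_eq_one_or (σ x) with h | h
  · simp [h]
  · simp [h]

lemma Je_flip (C : V → V → ℝ) (b : V → ℝ) (a : ℝ) (u : V) (σ : V → ℤˣ) (r : EuclideanSpace ℝ V)
    (e : Edg V) : Je C b a u (flip σ r) e = sgE u σ e * Je C b a u r e := by
  rcases e with e | x | _
  · induction e with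
    | _ v w =>
      simp only [Je]
      rw [mul_left_comm]
      congr 1
      rw [mul_sum]
      refine sum_congr rfl fun x _ => ?_
      rw [mul_sum]
      refine sum_congr rfl fun y _ => ?_
      split_ifs with h
      · rw [flip_apply, flip_apply, ← h]
        simp only [sgE, Sym2.lift_mk]
        ring
      · simp
  · simp only [Je, flip_apply, sgE]; ring
  · simp only [Je, flip_apply, sgE]; ring

/-- diagonal Gaussian factor -/
noncomputable def base (D : V → ℝ) (r : EuclideanSpace ℝ V) : ℝ := Real.exp (-(∑ x, D x * r x ^ 2) / 2)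

lemma base_pos (D : V → ℝ) (r : EuclideanSpace ℝ V) : 0 < base D r := Real.exp_pos _

lemma unit_sq (a : ℤˣ) : ((a : ℤ) : ℝ) ^ 2 = 1 := by
  rcases unit_cast a with h | h <;> simp [h]

lemma base_flip (D : V → ℝ) (σ : V → ℤˣ) (r : EuclideanSpace ℝ V) : base D (flip σ r) = base D r := by
  unfold base
  simp only [flip_apply, mul_pow, unit_sq, one_mul]

lemma continuous_base (D : V → ℝ) : Continuous (base D) := by
  unfold base; fun_prop

lemma continuous_Je (C : V → V → ℝ) (b : V → ℝ) (a : ℝ) (u : V) (e : Edg V) :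
    Continuous (fun r => Je C b a u r e) := by
  rcases e with e | x | _
  · simp only [Je]
    refine continuous_const.mul (continuous_finsetSum _ fun x _ => continuous_finsetSum _ fun y _ => ?_)
    split_ifs
    · fun_prop
    · fun_prop
  · simp only [Je]; fun_prop
  · simp only [Je]; fun_prop

/-- all-nonnegative version -/
noncomputable def absE (r : EuclideanSpace ℝ V) : EuclideanSpace ℝ V := toLp 2 (fun x => |r x|)

lemma absE_nonneg (r : EuclideanSpace ℝ V) (x : V) : 0 ≤ absE r x := abs_nonneg _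

/-- signs of a vector -/
noncomputable def sgn (r : EuclideanSpace ℝ V) (x : V) : ℤˣ := if 0 ≤ r x then 1 else -1

lemma flip_sgn (r : EuclideanSpace ℝ V) : flip (sgn r) (absE r) = r := by
  ext x
  rw [flip_apply]
  simp only [sgn, absE]
  split_ifs with h
  · simp [abs_of_nonneg h]
  · simp [abs_of_neg (not_le.mp h)]

lemma flip_flip (σ τ : V → ℤˣ) (r : EuclideanSpace ℝ V) : flip σ (flip τ r) = flip (σ * τ) r := by
  ext x
  simp only [flip_apply, Pi.mul_apply, Units.val_mul, Int.cast_mul]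
  ring

lemma flip_one (r : EuclideanSpace ℝ V) : flip (1 : V → ℤˣ) r = r := by
  ext x; simp [flip_apply]

lemma sum_flip_abs {M : Type*} [AddCommMonoid M] (g : EuclideanSpace ℝ V → M) (r : EuclideanSpace ℝ V) :
    ∑ σ : V → ℤˣ, g (flip σ r) = ∑ σ : V → ℤˣ, g (flip σ (absE r)) := by
  conv_lhs => rw [← flip_sgn r]
  simp only [flip_flip]
  exact Equiv.sum_comp (Equiv.mulRight (sgn r)) (fun σ => g (flip σ (absE r)))

lemma integral_flip (σ : V → ℤˣ) (g : EuclideanSpace ℝ V → ℝ) : ∫ r, g (flip σ r) = ∫ r, g r :=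
  (LinearIsometryEquiv.measurePreserving (flip σ)).integral_comp
    (flip σ).toHomeomorph.measurableEmbedding g

lemma integrable_flip (σ : V → ℤˣ) {g : EuclideanSpace ℝ V → ℝ} (hg : Integrable g) :
    Integrable (fun r => g (flip σ r)) :=
  ((LinearIsometryEquiv.measurePreserving (flip σ)).integrable_comp_emb
    (flip σ).toHomeomorph.measurableEmbedding).mpr hg

lemma symmetrize_le {g Z : EuclideanSpace ℝ V → ℝ} (hg : Integrable g) (hZ : Integrable Z)
    (h : ∀ r, ∑ σ : V → ℤˣ, g (flip σ r) ≤ ∑ σ : V → ℤˣ, Z (flip σ r)) : ∫ r, g r ≤ ∫ r, Z r := by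
  have h1 := integral_mono (integrable_finsetSum univ fun σ _ => integrable_flip σ hg)
    (integrable_finsetSum univ fun σ _ => integrable_flip σ hZ) h
  rw [integral_finsetSum _ fun σ _ => integrable_flip σ hg,
    integral_finsetSum _ fun σ _ => integrable_flip σ hZ] at h1
  simp only [integral_flip, sum_const, nsmul_eq_mul] at h1
  have hc : (0 : ℝ) < ((#(univ : Finset (V → ℤˣ)) : ℕ) : ℝ) := by
    have : 0 < #(univ : Finset (V → ℤˣ)) := Finset.card_pos.mpr ⟨1, mem_univ _⟩
    exact_mod_cast this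
  exact le_of_mul_le_mul_left h1 hc

section Z

variable (D : V → ℝ) (C : V → V → ℝ) (b : V → ℝ) (a : ℝ) (u : V)

/-- partition function -/
noncomputable def AF (F : Finset (Edg V)) : ℝ :=
  ∫ r : EuclideanSpace ℝ V, base D r * ∏ e ∈ F, Real.exp (Je C b a u r e)

lemma weight_eq (F : Finset (Edg V)) (r : EuclideanSpace ℝ V) :
    base D r * ∏ e ∈ F, Real.exp (Je C b a u r e) =
      Real.exp (-(qf (DK D (CF C F)) r) / 2 + ∑ x, bF b a u F x * r x) := by
  rw [← Real.exp_sum, sum_Je, base, ← Real.exp_add, qf, DK_form]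
  congr 1
  ring

variable {D C b a u}

lemma integrable_gdens {Λ : Matrix V V ℝ} (hΛ : Λ.PosDef) : Integrable (gdens Λ) := by
  refine ⟨(continuous_gdens Λ).aestronglyMeasurable, ?_⟩
  rw [hasFiniteIntegral_iff_ofReal (Filter.Eventually.of_forall fun x => (gdens_pos Λ x).le)]
  have h := lintegral_rootMap hΛ (fun x => ENNReal.ofReal (gdens Λ x))
    (continuous_gdens Λ).measurable.ennreal_ofReal
  have h1 : ∫⁻ y : EuclideanSpace ℝ V, ENNReal.ofReal (gdens Λ (rootMap Λ y)) < ∞ := by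
    have : ∀ y, gdens Λ (rootMap Λ y) = Real.exp (-‖y‖ ^ 2 / 2) := fun y => by
      rw [gdens, qf_rootMap hΛ]
    simp only [this]
    exact (integrable_std (V := V)).lintegral_lt_top
  rw [h] at h1
  by_contra hcon
  have htop : ∫⁻ x, ENNReal.ofReal (gdens Λ x) = ∞ := by
    simpa using hcon
  rw [htop, ENNReal.mul_top] at h1
  · exact lt_irrefl _ h1
  · simp only [ne_eq, ENNReal.ofReal_eq_zero, not_le]
    exact abs_pos.mpr (inv_ne_zero (rootMap_det_ne_zero hΛ))

lemma integral_gdens_pos {Λ : Matrix V V ℝ} (hΛ : Λ.PosDef) : 0 < ∫ r, gdens Λ r := by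
  rw [integral_pos_iff_support_of_nonneg (fun r => (gdens_pos Λ r).le) (integrable_gdens hΛ)]
  have : Function.support (gdens Λ) = Set.univ := by
    ext r; simp [(gdens_pos Λ r).ne']
  rw [this]
  exact Measure.measure_univ_pos.mpr (NeZero.ne _)

/-- completing the square -/
lemma complete_square {Λ : Matrix V V ℝ} (hΛ : Λ.PosDef) (c : V → ℝ) (r : EuclideanSpace ℝ V) :
    Real.exp (-(qf Λ r) / 2 + ∑ x, c x * r x) =
      Real.exp ((c ⬝ᵥ Λ⁻¹ *ᵥ c) / 2) * gdens Λ (r - toLp 2 (Λ⁻¹ *ᵥ c)) := by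
  rw [gdens, ← Real.exp_add]
  congr 1
  have h1 : qf Λ (r - toLp 2 (Λ⁻¹ *ᵥ c)) = qf Λ r - 2 * (∑ x, c x * r x) + c ⬝ᵥ Λ⁻¹ *ᵥ c := by
    unfold qf
    have e0 : (r - toLp 2 (Λ⁻¹ *ᵥ c) : EuclideanSpace ℝ V).ofLp = r.ofLp - Λ⁻¹ *ᵥ c := rfl
    rw [e0, mulVec_sub, pd_mulVec_inv hΛ, sub_dotProduct, dotProduct_sub, dotProduct_sub]
    have e1 : (Λ⁻¹ *ᵥ c) ⬝ᵥ Λ *ᵥ r.ofLp = r.ofLp ⬝ᵥ c := by
      rw [pd_comm hΛ, pd_mulVec_inv hΛ]
    have e2 : r.ofLp ⬝ᵥ c = ∑ x, c x * r x := by
      simp only [dotProduct]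
      exact sum_congr rfl fun x _ => mul_comm _ _
    rw [e1, e2, dotProduct_comm (Λ⁻¹ *ᵥ c) c]
    ring
  rw [h1]
  ring

lemma integrable_weight {F : Finset (Edg V)} (hΛ : (DK D (CF C F)).PosDef) :
    Integrable (fun r : EuclideanSpace ℝ V => base D r * ∏ e ∈ F, Real.exp (Je C b a u r e)) := by
  simp only [weight_eq, complete_square hΛ]
  exact ((integrable_gdens hΛ).comp_sub_right _).const_mul _

lemma AF_eq {F : Finset (Edg V)} (hΛ : (DK D (CF C F)).PosDef) :
    AF D C b a u F = Real.exp ((bF b a u F ⬝ᵥ (DK D (CF C F))⁻¹ *ᵥ bF b a u F) / 2) *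
      ∫ r, gdens (DK D (CF C F)) r := by
  rw [AF]
  simp only [weight_eq, complete_square hΛ]
  rw [integral_const_mul, integral_sub_right_eq_self (fun r => gdens (DK D (CF C F)) r)]

variable (hpd : ∀ F, (DK D (CF C F)).PosDef)
include hpd

lemma mob_AF (T : Finset (Edg V)) :
    mob (AF D C b a u) T =
      ∫ r : EuclideanSpace ℝ V, base D r * ∏ e ∈ T, (Real.exp (Je C b a u r e) - 1) := by
  have h1 : ∀ r : EuclideanSpace ℝ V, base D r * ∏ e ∈ T, (Real.exp (Je C b a u r e) - 1) =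
      ∑ S ∈ T.powerset, (-1 : ℝ) ^ (#(T \ S)) * (base D r * ∏ e ∈ S, Real.exp (Je C b a u r e)) := by
    intro r
    rw [← mob_prod, mob, mul_sum]
    exact sum_congr rfl fun S _ => by ring
  simp only [h1]
  rw [integral_finsetSum _ fun S _ => (integrable_weight (hpd S)).const_mul _]
  rw [mob]
  refine sum_congr rfl fun S _ => ?_
  rw [integral_const_mul, AF]

lemma integrable_mob_weight (T : Finset (Edg V)) :
    Integrable (fun r : EuclideanSpace ℝ V =>
      base D r * ∏ e ∈ T, (Real.exp (Je C b a u r e) - 1)) := by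
  have h1 : ∀ r : EuclideanSpace ℝ V, base D r * ∏ e ∈ T, (Real.exp (Je C b a u r e) - 1) =
      ∑ S ∈ T.powerset, (-1 : ℝ) ^ (#(T \ S)) * (base D r * ∏ e ∈ S, Real.exp (Je C b a u r e)) := by
    intro r
    rw [← mob_prod, mob, mul_sum]
    exact sum_congr rfl fun S _ => by ring
  simp only [h1]
  exact integrable_finsetSum _ fun S _ => (integrable_weight (hpd S)).const_mul _

omit hpd in
lemma Je_nonneg (hC : ∀ x y, 0 ≤ C x y) (hb : ∀ x, 0 ≤ b x) (ha : 0 ≤ a)
    {r : EuclideanSpace ℝ V} (hr : ∀ x, 0 ≤ r x) (e : Edg V) : 0 ≤ Je C b a u r e := by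
  rcases e with e | x | _
  · simp only [Je]
    refine mul_nonneg (by norm_num) (sum_nonneg fun x _ => sum_nonneg fun y _ => ?_)
    split_ifs
    · exact mul_nonneg (hC x y) (mul_nonneg (hr x) (hr y))
    · exact le_rfl
  · exact mul_nonneg (hb x) (hr x)
  · exact mul_nonneg ha (hr u)

theorem CM_AF (hC : ∀ x y, 0 ≤ C x y) (hb : ∀ x, 0 ≤ b x) (ha : 0 ≤ a) : CM (AF D C b a u) := by
  intro T
  rw [mob_AF hpd]
  have h0 : (0 : ℝ) = ∫ _ : EuclideanSpace ℝ V, (0 : ℝ) := by simp
  rw [h0]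
  refine symmetrize_le (integrable_zero _ _ _) (integrable_mob_weight hpd T) fun r => ?_
  rw [sum_flip_abs (fun r => base D r * ∏ e ∈ T, (Real.exp (Je C b a u r e) - 1))]
  simp only [sum_const_zero, base_flip, Je_flip, ← mul_sum]
  exact mul_nonneg (base_pos _ _).le (sign_exp_nonneg (sgE u) (sgE_mul u) (sgE_pm u) T _
    (Je_nonneg hC hb ha (absE_nonneg r)))

/-- The connected part is at most the positive part. -/
theorem CU_AF_le (hC : ∀ x y, 0 ≤ C x y) (hb : ∀ x, 0 ≤ b x) (ha : 0 ≤ a)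
    (U : Finset (Finset (Edg V))) (hU : ∀ S ∈ U, ∀ T, S ⊆ T → T ∈ U)
    (hU1 : ∀ S ∈ U, ∀ σ : V → ℤˣ, σ ≠ 1 → ∃ e ∈ S, sgE u σ e = -1) :
    CU U (AF D C b a u) ≤ ∫ r : EuclideanSpace ℝ V,
      {r : EuclideanSpace ℝ V | ∀ x, 0 ≤ r x}.indicator
        (fun r => base D r * ∏ e, Real.exp (Je C b a u r e)) r := by
  have h1 : CU U (AF D C b a u) = ∫ r : EuclideanSpace ℝ V,
      ∑ T ∈ U, base D r * ∏ e ∈ T, (Real.exp (Je C b a u r e) - 1) := by
    rw [integral_finsetSum _ fun T _ => integrable_mob_weight hpd T, CU]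
    exact sum_congr rfl fun T _ => mob_AF hpd T
  rw [h1]
  have hset : MeasurableSet {r : EuclideanSpace ℝ V | ∀ x, 0 ≤ r x} := by
    have : {r : EuclideanSpace ℝ V | ∀ x, 0 ≤ r x} = ⋂ x, {r | 0 ≤ r x} := by ext; simp
    rw [this]
    exact MeasurableSet.iInter fun x => measurableSet_le measurable_const (by fun_prop)
  refine symmetrize_le (integrable_finsetSum _ fun T _ => integrable_mob_weight hpd T)
    ((integrable_weight (hpd univ)).indicator hset) fun r => ?_
  rw [sum_flip_abs (fun r => ∑ T ∈ U, base D r * ∏ e ∈ T, (Real.exp (Je C b a u r e) - 1)),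
    sum_flip_abs (fun r => {r : EuclideanSpace ℝ V | ∀ x, 0 ≤ r x}.indicator
        (fun r => base D r * ∏ e, Real.exp (Je C b a u r e)) r)]
  have h2 : ∑ σ : V → ℤˣ, ∑ T ∈ U, base D (flip σ (absE r)) *
      ∏ e ∈ T, (Real.exp (Je C b a u (flip σ (absE r)) e) - 1) ≤
      base D (absE r) * ∏ e, Real.exp (Je C b a u (absE r) e) := by
    simp only [base_flip, Je_flip, ← mul_sum]
    refine mul_le_mul_of_nonneg_left ?_ (base_pos _ _).le
    rw [← Real.exp_sum]
    exact sign_key (sgE u) (sgE_mul u) (sgE_pm u) U hU hU1 _ (Je_nonneg hC hb ha (absE_nonneg r))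
  refine h2.trans ?_
  have h3 : base D (absE r) * ∏ e, Real.exp (Je C b a u (absE r) e) =
      {r : EuclideanSpace ℝ V | ∀ x, 0 ≤ r x}.indicator
        (fun r => base D r * ∏ e, Real.exp (Je C b a u r e)) (flip 1 (absE r)) := by
    rw [flip_one, Set.indicator_of_mem]
    exact fun x => absE_nonneg r x
  rw [h3]
  refine Finset.single_le_sum (f := fun σ => {r : EuclideanSpace ℝ V | ∀ x, 0 ≤ r x}.indicator
        (fun r => base D r * ∏ e, Real.exp (Je C b a u r e)) (flip σ (absE r))) (fun σ _ => ?_)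
        (mem_univ (1 : V → ℤˣ))
  exact Set.indicator_nonneg (fun r _ => mul_nonneg (base_pos _ _).le
    (prod_nonneg fun e _ => (Real.exp_pos _).le)) _

end Z

/-- real version of the density lemma -/
lemma gauss_density_real {Λ : Matrix V V ℝ} (hΛ : Λ.PosDef) {S : Set (EuclideanSpace ℝ V)}
    (hS : MeasurableSet S) :
    (multivariateGaussian 0 Λ⁻¹).real S * ∫ r, gdens Λ r = ∫ r, S.indicator (gdens Λ) r := by
  have h := gauss_density hΛ (S.indicator 1) (measurable_one.indicator hS)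
  rw [lintegral_indicator_one hS] at h
  have h1 : ∀ r, S.indicator (1 : EuclideanSpace ℝ V → ℝ≥0∞) r * ENNReal.ofReal (gdens Λ r) =
      ENNReal.ofReal (S.indicator (gdens Λ) r) := by
    intro r
    by_cases hr : r ∈ S
    · simp [hr]
    · simp [hr]
  simp only [h1] at h
  rw [← ofReal_integral_eq_lintegral_ofReal (integrable_gdens hΛ)
      (Filter.Eventually.of_forall fun x => (gdens_pos Λ x).le),
    ← ofReal_integral_eq_lintegral_ofReal ((integrable_gdens hΛ).indicator hS)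
      (Filter.Eventually.of_forall fun x => Set.indicator_nonneg (fun x _ => (gdens_pos Λ x).le) x)] at h
  have h2 := congrArg ENNReal.toReal h
  rw [ENNReal.toReal_mul, ENNReal.toReal_ofReal (integral_nonneg fun x => (gdens_pos Λ x).le),
    ENNReal.toReal_ofReal (integral_nonneg fun x =>
      Set.indicator_nonneg (fun x _ => (gdens_pos Λ x).le) x)] at h2
  exact h2

lemma CF_univ (C : V → V → ℝ) : CF C univ = C := by
  ext x y; simp [CF]

lemma bF_univ (b : V → ℝ) (a : ℝ) (u : V) (x : V) : bF b a u univ x = b x + if x = u then a else 0 := by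
  simp [bF]

/-- The positive part of the partition function is the probability that the shifted field is nonnegative. -/
theorem pos_part_eq {D : V → ℝ} {C : V → V → ℝ} (b : V → ℝ) (a : ℝ) (u : V)
    (hΛ : (DK D C).PosDef) :
    ∫ r : EuclideanSpace ℝ V,
      {r : EuclideanSpace ℝ V | ∀ x, 0 ≤ r x}.indicator
        (fun r => base D r * ∏ e, Real.exp (Je C b a u r e)) r =
    AF D C b a u univ * (multivariateGaussian 0 (DK D C)⁻¹).real
      {φ : EuclideanSpace ℝ V | ∀ x, 0 ≤ φ x + ((DK D C)⁻¹ *ᵥ bF b a u univ) x} := by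
  have hΛ' : (DK D (CF C univ)).PosDef := by rw [CF_univ]; exact hΛ
  set c := bF b a u univ with hc
  set h : EuclideanSpace ℝ V := toLp 2 ((DK D C)⁻¹ *ᵥ c) with hh
  have hset : MeasurableSet {φ : EuclideanSpace ℝ V | ∀ x, 0 ≤ φ x + ((DK D C)⁻¹ *ᵥ c) x} := by
    have : {φ : EuclideanSpace ℝ V | ∀ x, 0 ≤ φ x + ((DK D C)⁻¹ *ᵥ c) x} =
        ⋂ x, {φ | 0 ≤ φ x + ((DK D C)⁻¹ *ᵥ c) x} := by ext; simp
    rw [this]
    exact MeasurableSet.iInter fun x => measurableSet_le measurable_const (by fun_prop)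
  rw [AF_eq hΛ', CF_univ, mul_assoc, mul_comm (∫ r, gdens (DK D C) r), gauss_density_real hΛ hset,
    ← integral_const_mul]
  rw [← integral_sub_right_eq_self (fun r => Real.exp (c ⬝ᵥ (DK D C)⁻¹ *ᵥ c / 2) *
    {φ : EuclideanSpace ℝ V | ∀ x, 0 ≤ φ x + ((DK D C)⁻¹ *ᵥ c) x}.indicator (gdens (DK D C)) r) h]
  refine integral_congr_ae (Filter.Eventually.of_forall fun r => ?_)
  simp only []
  have hmem : (r ∈ {r : EuclideanSpace ℝ V | ∀ x, 0 ≤ r x}) ↔
      (r - h ∈ {φ : EuclideanSpace ℝ V | ∀ x, 0 ≤ φ x + ((DK D C)⁻¹ *ᵥ c) x}) := by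
    simp only [Set.mem_ofPred_eq]
    have : ∀ x, (r - h) x + ((DK D C)⁻¹ *ᵥ c) x = r x := by
      intro x
      rw [PiLp.sub_apply, hh]
      simp
    simp only [this]
  by_cases hr : r ∈ {r : EuclideanSpace ℝ V | ∀ x, 0 ≤ r x}
  · rw [Set.indicator_of_mem hr, Set.indicator_of_mem (hmem.mp hr), weight_eq, CF_univ,
      complete_square hΛ]
  · rw [Set.indicator_of_notMem hr, Set.indicator_of_notMem (fun h' => hr (hmem.mpr h')), mul_zero]

end Pool.Agent.Speedup
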