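import Mathlib
import Pool.Agent.Speedup.Defs
import Pool.Agent.Speedup.Paths
import Pool.Agent.Speedup.Basic
import Pool.Agent.Speedup.Gauss
import Pool.Agent.Speedup.Field
import Pool.Agent.Speedup.Dynkin2

set_option autoImplicit false
set_option linter.unusedSectionVars false

/-!
The isomorphism identity for exponentials and the bound for non-covering paths.
-/

open Finset Matrix MeasureTheory ProbabilityTheory WithLp Filter Topology
open scoped ENNReal RealInnerProductSpace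

namespace Pool.Agent.Speedup

variable {V : Type} [Fintype V] [DecidableEq V]

/-- density lemma for nonnegative functions -/
lemma dens_nonneg {Λ : Matrix V V ℝ} (hΛ : Λ.PosDef) {f : EuclideanSpace ℝ V → ℝ}
    (hf : Measurable f) (h0 : ∀ x, 0 ≤ f x) :
    (∫ x, f x ∂(multivariateGaussian 0 Λ⁻¹)) * ∫ x, gdens Λ x = ∫ x, f x * gdens Λ x := by
  have h := gauss_density hΛ (fun x => ENNReal.ofReal (f x)) hf.ennreal_ofReal
  have hg := (continuous_gdens Λ).measurable
  rw [integral_eq_lintegral_of_nonneg_ae (Eventually.of_forall h0) hf.aestronglyMeasurable,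
    integral_eq_lintegral_of_nonneg_ae (Eventually.of_forall fun x => (gdens_pos Λ x).le)
      hg.aestronglyMeasurable,
    integral_eq_lintegral_of_nonneg_ae
      (Eventually.of_forall fun x => mul_nonneg (h0 x) (gdens_pos Λ x).le)
      (hf.mul hg).aestronglyMeasurable, ← ENNReal.toReal_mul, h]
  congr 1
  refine lintegral_congr fun x => ?_
  rw [ENNReal.ofReal_mul (h0 x)]

lemma DK_posDef_add {D : V → ℝ} {c : V → V → ℝ} (h : (DK D c).PosDef)
    (hs : ∀ x y, c x y = c y x) {k : V → ℝ} (hk : ∀ x, 0 ≤ k x) :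
    (DK (fun x => D x + k x) c).PosDef := by
  refine PosDef.of_dotProduct_mulVec_pos (DK_isHermitian hs) fun f hf => ?_
  have h1 := h.dotProduct_mulVec_pos hf
  rw [star_trivial, DK_form] at h1 ⊢
  have h2 : 0 ≤ ∑ x, k x * f x ^ 2 := sum_nonneg fun x _ => mul_nonneg (hk x) (sq_nonneg _)
  simp only [add_mul, sum_add_distrib]
  linarith

lemma gdens_add (D : V → ℝ) (c : V → V → ℝ) (k : V → ℝ) (φ : EuclideanSpace ℝ V) :
    Real.exp (-(∑ x, k x * φ x ^ 2) / 2) * gdens (DK D c) φ =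
      gdens (DK (fun x => D x + k x) c) φ := by
  unfold gdens qf
  rw [DK_form, DK_form, ← Real.exp_add]
  simp only [add_mul, sum_add_distrib]
  congr 1
  ring

/-- one-dimensional marginals -/
lemma integral_marg {S : Matrix V V ℝ} (hS : S.PosSemidef) (u : V) {g : ℝ → ℝ} (hg : Measurable g) :
    ∫ φ : EuclideanSpace ℝ V, g (φ u) ∂(multivariateGaussian 0 S) =
      ∫ x, g x ∂(gaussianReal 0 (S u u).toNNReal) := by
  have h3 := measurePreserving_eval_multivariateGaussian (μ := (0 : EuclideanSpace ℝ V)) hS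
      (i := u)
  have h4 := h3.map_eq
  simp only [PiLp.zero_apply] at h4
  rw [← h4, integral_map h3.measurable.aemeasurable hg.aestronglyMeasurable]

lemma integrable_marg {S : Matrix V V ℝ} (hS : S.PosSemidef) (u : V) {g : ℝ → ℝ}
    (hg : Integrable g (gaussianReal 0 (S u u).toNNReal)) :
    Integrable (fun φ : EuclideanSpace ℝ V => g (φ u)) (multivariateGaussian 0 S) := by
  have h3 := measurePreserving_eval_multivariateGaussian (μ := (0 : EuclideanSpace ℝ V)) hS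
      (i := u)
  have := h3.integrable_comp (g := g)
  simp only [PiLp.zero_apply] at this
  exact (this hg.aestronglyMeasurable).mpr hg

/-- second moments -/
lemma second_moment {S : Matrix V V ℝ} (hS : S.PosSemidef) (u : V) :
    ∫ φ : EuclideanSpace ℝ V, φ u ^ 2 ∂(multivariateGaussian 0 S) = S u u := by
  have h1 := variance_eval_multivariateGaussian (μ := (0 : EuclideanSpace ℝ V)) hS u
  have h2 : ∫ φ : EuclideanSpace ℝ V, φ u ∂(multivariateGaussian 0 S) = 0 := by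
    rw [integral_marg hS u (g := fun x => x) measurable_id]
    exact integral_id_gaussianReal
  rw [variance_of_integral_eq_zero (by fun_prop) h2] at h1
  exact h1

lemma integrable_sq {S : Matrix V V ℝ} (hS : S.PosSemidef) (u : V) :
    Integrable (fun φ : EuclideanSpace ℝ V => φ u ^ 2) (multivariateGaussian 0 S) := by
  refine integrable_marg hS u (g := fun x => x ^ 2) ?_
  exact (memLp_id_gaussianReal 2).integrable_sq

lemma exp_quad_le (k : V → ℝ) (hk : ∀ x, 0 ≤ k x) (φ : EuclideanSpace ℝ V) :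
    Real.exp (-(∑ x, k x * φ x ^ 2) / 2) ≤ 1 := by
  rw [Real.exp_le_one_iff]
  have : 0 ≤ ∑ x, k x * φ x ^ 2 := sum_nonneg fun x _ => mul_nonneg (hk x) (sq_nonneg _)
  linarith

lemma measurable_exp_quad (k : V → ℝ) :
    Measurable (fun φ : EuclideanSpace ℝ V => Real.exp (-(∑ x, k x * φ x ^ 2) / 2)) := by
  fun_prop

section Identity

variable {D : V → ℝ} {c : V → V → ℝ} (h : (DK D c).PosDef) (hs : ∀ x y, c x y = c y x)

include h hs in
/-- the isomorphism identity for exponentials -/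
lemma dynkin_exp {k : V → ℝ} (hk : ∀ x, 0 ≤ k x) (u : V) :
    ∫ φ : EuclideanSpace ℝ V, φ u ^ 2 * Real.exp (-(∑ x, k x * φ x ^ 2) / 2)
        ∂(multivariateGaussian 0 (DK D c)⁻¹) =
      (DK (fun x => D x + k x) c)⁻¹ u u *
        ∫ φ : EuclideanSpace ℝ V, Real.exp (-(∑ x, k x * φ x ^ 2) / 2)
          ∂(multivariateGaussian 0 (DK D c)⁻¹) := by
  have hm := measurable_exp_quad k
  have h' := DK_posDef_add h hs hk
  have e1 := dens_nonneg h (f := fun φ => φ u ^ 2 * Real.exp (-(∑ x, k x * φ x ^ 2) / 2))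
    ((by fun_prop : Measurable (fun φ : EuclideanSpace ℝ V => φ u ^ 2)).mul hm)
    (fun φ => mul_nonneg (sq_nonneg _) (Real.exp_pos _).le)
  have e2 := dens_nonneg h hm (fun φ => (Real.exp_pos _).le)
  have e3 := dens_nonneg h' (f := fun φ => φ u ^ 2) (by fun_prop) (fun φ => sq_nonneg _)
  have e4 := dens_nonneg h' (f := fun φ => 1) (by fun_prop) (fun φ => zero_le_one)
  rw [second_moment h'.inv.posSemidef u] at e3
  simp only [mul_assoc, gdens_add] at e1
  simp only [gdens_add] at e2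
  rw [← e3] at e1
  have hZ := integral_gdens_pos h
  have : (∫ φ : EuclideanSpace ℝ V, φ u ^ 2 * Real.exp (-(∑ x, k x * φ x ^ 2) / 2)
        ∂(multivariateGaussian 0 (DK D c)⁻¹)) * (∫ x, gdens (DK D c) x) =
      ((DK (fun x => D x + k x) c)⁻¹ u u *
        ∫ φ : EuclideanSpace ℝ V, Real.exp (-(∑ x, k x * φ x ^ 2) / 2)
          ∂(multivariateGaussian 0 (DK D c)⁻¹)) * ∫ x, gdens (DK D c) x := by
    rw [e1, mul_assoc, e2]
  exact mul_right_cancel₀ hZ.ne' this

/-- the variables `z` -/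
noncomputable def zz (κ : ℝ) (φ : EuclideanSpace ℝ V) (x : V) : ℝ := Real.exp (-(κ * φ x ^ 2) / 2)

lemma zz_mem {κ : ℝ} (hκ : 0 ≤ κ) (φ : EuclideanSpace ℝ V) (x : V) :
    0 ≤ zz κ φ x ∧ zz κ φ x ≤ 1 := by
  refine ⟨(Real.exp_pos _).le, ?_⟩
  rw [zz, Real.exp_le_one_iff]
  have : 0 ≤ κ * φ x ^ 2 := by positivity
  linarith

lemma prod_zz (κ : ℝ) (φ : EuclideanSpace ℝ V) (n : V → ℕ) :
    ∏ x, zz κ φ x ^ n x = Real.exp (-(∑ x, (κ * n x) * φ x ^ 2) / 2) := by
  simp only [zz, ← Real.exp_nat_mul, ← Real.exp_sum]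
  congr 1
  rw [← sum_neg_distrib, sum_div]
  exact sum_congr rfl fun x _ => by ring

include h hs in
lemma dynkin_mono {κ : ℝ} (hκ : 0 ≤ κ) (n : V → ℕ) (u : V) :
    ∫ φ : EuclideanSpace ℝ V, φ u ^ 2 * ∏ x, zz κ φ x ^ n x ∂(multivariateGaussian 0 (DK D c)⁻¹) =
      (DK (fun x => D x + κ * n x) c)⁻¹ u u *
        ∫ φ : EuclideanSpace ℝ V, ∏ x, zz κ φ x ^ n x ∂(multivariateGaussian 0 (DK D c)⁻¹) := by
  simp only [prod_zz]
  exact dynkin_exp h hs (fun x => by positivity) u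

lemma integrable_prod_zz {κ : ℝ} (hκ : 0 ≤ κ) (n : V → ℕ) (S : Matrix V V ℝ) :
    Integrable (fun φ : EuclideanSpace ℝ V => ∏ x, zz κ φ x ^ n x) (multivariateGaussian 0 S) := by
  simp only [prod_zz]
  refine Integrable.mono' (integrable_const (1 : ℝ)) (measurable_exp_quad _).aestronglyMeasurable
    (Eventually.of_forall fun φ => ?_)
  rw [Real.norm_eq_abs, abs_of_pos (Real.exp_pos _)]
  exact exp_quad_le _ (fun x => by positivity) φ

lemma integrable_sq_prod_zz {κ : ℝ} (hκ : 0 ≤ κ) (n : V → ℕ) {S : Matrix V V ℝ}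
    (hS : S.PosSemidef) (u : V) :
    Integrable (fun φ : EuclideanSpace ℝ V => φ u ^ 2 * ∏ x, zz κ φ x ^ n x)
      (multivariateGaussian 0 S) := by
  simp only [prod_zz]
  refine Integrable.mono' (integrable_sq hS u)
    ((by fun_prop : Measurable (fun φ : EuclideanSpace ℝ V => φ u ^ 2)).mul
      (measurable_exp_quad _)).aestronglyMeasurable
    (Eventually.of_forall fun φ => ?_)
  rw [Real.norm_eq_abs, abs_of_nonneg (mul_nonneg (sq_nonneg _) (Real.exp_pos _).le)]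
  have := exp_quad_le (fun x => κ * n x) (fun x => by positivity) φ
  calc _ ≤ φ u ^ 2 * 1 := mul_le_mul_of_nonneg_left this (sq_nonneg _)
    _ = _ := mul_one _

lemma integral_ev {κ : ℝ} (hκ : 0 ≤ κ) (m : ℕ) (a : (V → ℕ) → ℝ) (S : Matrix V V ℝ) :
    ∫ φ : EuclideanSpace ℝ V, ev m a (zz κ φ) ∂(multivariateGaussian 0 S) =
      ∑ n ∈ expo V m, a n * ∫ φ : EuclideanSpace ℝ V, ∏ x, zz κ φ x ^ n x ∂(multivariateGaussian 0 S) := by
  unfold ev
  rw [integral_finsetSum]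
  · exact sum_congr rfl fun n _ => integral_const_mul _ _
  · intro n _
    exact (integrable_prod_zz hκ n S).const_mul _

lemma integrable_ev {κ : ℝ} (hκ : 0 ≤ κ) (m : ℕ) (a : (V → ℕ) → ℝ) (S : Matrix V V ℝ) :
    Integrable (fun φ : EuclideanSpace ℝ V => ev m a (zz κ φ)) (multivariateGaussian 0 S) := by
  unfold ev
  exact integrable_finsetSum _ fun n _ => (integrable_prod_zz hκ n S).const_mul _

lemma integrable_sq_ev {κ : ℝ} (hκ : 0 ≤ κ) (m : ℕ) (a : (V → ℕ) → ℝ) {S : Matrix V V ℝ}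
    (hS : S.PosSemidef) (u : V) :
    Integrable (fun φ : EuclideanSpace ℝ V => φ u ^ 2 * ev m a (zz κ φ))
      (multivariateGaussian 0 S) := by
  unfold ev
  simp only [mul_sum]
  refine integrable_finsetSum _ fun n _ => ?_
  refine ((integrable_sq_prod_zz hκ n hS u).const_mul (a n)).congr
    (Eventually.of_forall fun φ => ?_)
  simp only []
  ring

lemma integral_sq_ev {κ : ℝ} (hκ : 0 ≤ κ) (m : ℕ) (a : (V → ℕ) → ℝ) {S : Matrix V V ℝ}
    (hS : S.PosSemidef) (u : V) :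
    ∫ φ : EuclideanSpace ℝ V, φ u ^ 2 * ev m a (zz κ φ) ∂(multivariateGaussian 0 S) =
      ∑ n ∈ expo V m, a n *
        ∫ φ : EuclideanSpace ℝ V, φ u ^ 2 * ∏ x, zz κ φ x ^ n x ∂(multivariateGaussian 0 S) := by
  have : ∀ φ : EuclideanSpace ℝ V, φ u ^ 2 * ev m a (zz κ φ) =
      ∑ n ∈ expo V m, a n * (φ u ^ 2 * ∏ x, zz κ φ x ^ n x) := by
    intro φ
    rw [ev, mul_sum]
    exact sum_congr rfl fun n _ => by ring
  simp only [this]
  rw [integral_finsetSum]
  · exact sum_congr rfl fun n _ => integral_const_mul _ _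
  · intro n _
    exact (integrable_sq_prod_zz hκ n hS u).const_mul _

include h hs in
/-- the identity as a limit of Neumann sums -/
lemma tendsto_NN (hD : ∀ x, 0 < D x) (hc0 : ∀ x y, 0 ≤ c x y) {κ : ℝ} (hκ : 0 ≤ κ) (m : ℕ)
    (a : (V → ℕ) → ℝ) (u : V) :
    Tendsto (fun l => ∫ φ : EuclideanSpace ℝ V, ev m (NN D c κ l u u a) (zz κ φ)
        ∂(multivariateGaussian 0 (DK D c)⁻¹)) atTop
      (𝓝 (∫ φ : EuclideanSpace ℝ V, φ u ^ 2 * ev m a (zz κ φ)
        ∂(multivariateGaussian 0 (DK D c)⁻¹))) := by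
  rw [integral_sq_ev hκ m a h.inv.posSemidef u]
  simp only [integral_ev hκ, dynkin_mono h hs hκ, NN]
  refine tendsto_finsetSum _ fun n _ => ?_
  have h1 : Tendsto (fun l => neu (fun v => D v + κ * n v) c l u u) atTop
      (𝓝 ((DK (fun x => D x + κ * n x) c)⁻¹ u u)) :=
    neu_tendsto (DK_posDef_add h hs (fun x => by positivity))
      (fun x => add_pos_of_pos_of_nonneg (hD x) (by positivity)) hc0 u u
  have h2 := (h1.mul_const (a n)).mul_const
    (∫ φ : EuclideanSpace ℝ V, ∏ x, zz κ φ x ^ n x ∂(multivariateGaussian 0 (DK D c)⁻¹))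
  have e : (DK (fun x => D x + κ * n x) c)⁻¹ u u * a n *
      (∫ φ : EuclideanSpace ℝ V, ∏ x, zz κ φ x ^ n x ∂(multivariateGaussian 0 (DK D c)⁻¹)) =
      a n * ((DK (fun x => D x + κ * n x) c)⁻¹ u u *
      (∫ φ : EuclideanSpace ℝ V, ∏ x, zz κ φ x ^ n x ∂(multivariateGaussian 0 (DK D c)⁻¹))) := by
    ring
  rw [e] at h2
  exact h2

lemma measurableSet_small (a : ℝ) : MeasurableSet {φ : EuclideanSpace ℝ V | ∀ x, |φ x| ≤ a} := by
  have : {φ : EuclideanSpace ℝ V | ∀ x, |φ x| ≤ a} = ⋂ x, {φ | |φ x| ≤ a} := by ext; simp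
  rw [this]
  exact MeasurableSet.iInter fun x => measurableSet_le (by fun_prop) measurable_const

lemma measurableSet_exsmall (a : ℝ) : MeasurableSet {φ : EuclideanSpace ℝ V | ∃ x, |φ x| ≤ a} := by
  have : {φ : EuclideanSpace ℝ V | ∃ x, |φ x| ≤ a} = ⋃ x, {φ | |φ x| ≤ a} := by ext; simp
  rw [this]
  exact MeasurableSet.iUnion fun x => measurableSet_le (by fun_prop) measurable_const

include h hs in
/-- bound for the non-covering paths, with the parameters of the test function -/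
lemma nc_bound_aux (hD : ∀ x, 0 < D x) (hc0 : ∀ x y, 0 ≤ c x y) {a : ℝ} (ha : 0 < a) (u : V)
    (L : ℕ) (s m : ℕ) :
    (1 - (1 - Real.exp (-(s : ℝ))) ^ m) *
      ((D u)⁻¹ * ∑ j ∈ range L, Gk (fun x y => (D x)⁻¹ * c x y) u j u ∅) *
      (multivariateGaussian 0 (DK D c)⁻¹).real {φ : EuclideanSpace ℝ V | ∀ x, |φ x| ≤ a} ≤
    ∫ φ : EuclideanSpace ℝ V, {φ : EuclideanSpace ℝ V | ∃ x, |φ x| ≤ 2 * a}.indicator
        (fun φ => φ u ^ 2) φ ∂(multivariateGaussian 0 (DK D c)⁻¹) +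
      ((Fintype.card V : ℝ) * (m * Real.exp (-(4 * s : ℝ)))) * (DK D c)⁻¹ u u := by
  set μ := multivariateGaussian (0 : EuclideanSpace ℝ V) (DK D c)⁻¹ with hμ
  have hS := h.inv.posSemidef
  set κ : ℝ := 2 * s / a ^ 2 with hκd
  have hκ : 0 ≤ κ := by positivity
  set Q : ℝ := (D u)⁻¹ * ∑ j ∈ range L, Gk (fun x y => (D x)⁻¹ * c x y) u j u ∅ with hQ
  set δ : ℝ := 1 - (1 - Real.exp (-(s : ℝ))) ^ m with hδ
  have hK0 : ∀ x y, 0 ≤ (D x)⁻¹ * c x y := fun x y => mul_nonneg (inv_nonneg.mpr (hD x).le) (hc0 x y)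
  have hQ0 : 0 ≤ Q := mul_nonneg (inv_nonneg.mpr (hD u).le)
    (sum_nonneg fun j _ => Gk_nonneg hK0 u j u ∅)
  have hexp1 : Real.exp (-(s : ℝ)) ≤ 1 := by
    rw [Real.exp_le_one_iff]
    have : (0 : ℝ) ≤ s := Nat.cast_nonneg s
    linarith
  have hδ0 : 0 ≤ δ := by
    have := (fac_mem (Real.exp_pos (-(s : ℝ))).le hexp1 m).2
    rw [hδ]; linarith
  have hPos : PosC m (hc m (∅ : Finset V)) := fun z hz => by
    rw [ev_hc]; exact hf_nonneg m ∅ hz
  -- lower bound
  have hlow : δ * Q * μ.real {φ : EuclideanSpace ℝ V | ∀ x, |φ x| ≤ a} ≤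
      ∫ φ : EuclideanSpace ℝ V, φ u ^ 2 * ev m (hc m ∅) (zz κ φ) ∂μ := by
    refine ge_of_tendsto (tendsto_NN h hs hD hc0 hκ m (hc m ∅) u) ?_
    filter_upwards [eventually_ge_atTop L] with l hl
    have hQl : Q ≤ (D u)⁻¹ * ∑ j ∈ range l, Gk (fun x y => (D x)⁻¹ * c x y) u j u ∅ := by
      rw [hQ]
      refine mul_le_mul_of_nonneg_left ?_ (inv_nonneg.mpr (hD u).le)
      exact sum_le_sum_of_subset_of_nonneg (range_subset_range.mpr hl)
        fun j _ _ => Gk_nonneg hK0 u j u ∅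
    have e1 : δ * Q * μ.real {φ : EuclideanSpace ℝ V | ∀ x, |φ x| ≤ a} =
        ∫ φ, {φ : EuclideanSpace ℝ V | ∀ x, |φ x| ≤ a}.indicator (fun _ => δ * Q) φ ∂μ := by
      rw [integral_indicator_const _ (measurableSet_small a), smul_eq_mul, mul_comm]
    rw [e1]
    refine integral_mono ((integrable_const _).indicator (measurableSet_small a))
      (integrable_ev hκ m _ _) fun φ => ?_
    simp only []
    by_cases hφ : φ ∈ {φ : EuclideanSpace ℝ V | ∀ x, |φ x| ≤ a}
    · rw [Set.indicator_of_mem hφ]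
      have hz : ∀ x, Real.exp (-(s : ℝ)) ≤ zz κ φ x ∧ zz κ φ x ≤ 1 := by
        intro x
        refine ⟨?_, (zz_mem hκ φ x).2⟩
        rw [zz, Real.exp_le_exp]
        have h1 : φ x ^ 2 ≤ a ^ 2 := by
          rw [← sq_abs]
          exact pow_le_pow_left₀ (abs_nonneg _) (hφ x) 2
        have h2 : κ * φ x ^ 2 ≤ κ * a ^ 2 := mul_le_mul_of_nonneg_left h1 hκ
        have h3 : κ * a ^ 2 = 2 * s := by rw [hκd]; field_simp
        linarith
      have h1 := NN_lower hD hc0 hκ m u (Real.exp_pos (-(s : ℝ))).le hz l u ∅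
      refine le_trans ?_ h1
      exact mul_le_mul_of_nonneg_left hQl hδ0
    · rw [Set.indicator_of_notMem hφ]
      exact PosC_NN hD hc0 hκ l u u hPos _ (fun x => zz_mem hκ φ x)
  refine hlow.trans ?_
  -- upper bound
  have hsq := integrable_sq hS u
  have e2 : ∫ φ : EuclideanSpace ℝ V, {φ : EuclideanSpace ℝ V | ∃ x, |φ x| ≤ 2 * a}.indicator
        (fun φ => φ u ^ 2) φ ∂μ +
      ((Fintype.card V : ℝ) * (m * Real.exp (-(4 * s : ℝ)))) * (DK D c)⁻¹ u u =
      ∫ φ : EuclideanSpace ℝ V, ({φ : EuclideanSpace ℝ V | ∃ x, |φ x| ≤ 2 * a}.indicator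
        (fun φ => φ u ^ 2) φ + ((Fintype.card V : ℝ) * (m * Real.exp (-(4 * s : ℝ)))) * φ u ^ 2) ∂μ := by
    rw [integral_add (hsq.indicator (measurableSet_exsmall _)) (hsq.const_mul _),
      integral_const_mul, second_moment hS]
  rw [e2]
  refine integral_mono (integrable_sq_ev hκ m _ hS u)
    ((hsq.indicator (measurableSet_exsmall _)).add (hsq.const_mul _)) fun φ => ?_
  simp only []
  rw [ev_hc]
  have hz : ∀ x, 0 ≤ zz κ φ x ∧ zz κ φ x ≤ 1 := fun x => zz_mem hκ φ x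
  have hc1 : 0 ≤ ((Fintype.card V : ℝ) * (m * Real.exp (-(4 * s : ℝ)))) * φ u ^ 2 := by positivity
  by_cases hφ : φ ∈ {φ : EuclideanSpace ℝ V | ∃ x, |φ x| ≤ 2 * a}
  · rw [Set.indicator_of_mem hφ]
    have h1 := hf_le_one m ∅ hz
    have h2 := mul_le_mul_of_nonneg_left h1 (sq_nonneg (φ u))
    simp only [mul_one] at h2
    linarith
  · rw [Set.indicator_of_notMem hφ, zero_add]
    have h1 : hf m ∅ (zz κ φ) ≤ (Fintype.card V : ℝ) * (m * Real.exp (-(4 * s : ℝ))) := by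
      refine (hf_le_sum m hz).trans ?_
      have : ∀ x : V, (m : ℝ) * zz κ φ x ≤ m * Real.exp (-(4 * s : ℝ)) := by
        intro x
        refine mul_le_mul_of_nonneg_left ?_ (Nat.cast_nonneg m)
        rw [zz, Real.exp_le_exp]
        have h1 : 2 * a < |φ x| := by
          by_contra hcon
          exact hφ ⟨x, not_lt.mp hcon⟩
        have h2 : (2 * a) ^ 2 ≤ φ x ^ 2 := by
          rw [← sq_abs (φ x)]
          exact pow_le_pow_left₀ (by linarith) h1.le 2
        have h3 : κ * (2 * a) ^ 2 ≤ κ * φ x ^ 2 := mul_le_mul_of_nonneg_left h2 hκ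
        have h4 : κ * (2 * a) ^ 2 = 8 * s := by rw [hκd]; field_simp; ring
        linarith
      refine (sum_le_sum fun x _ => this x).trans ?_
      rw [sum_const, card_univ, nsmul_eq_mul]
    have h2 := mul_le_mul_of_nonneg_left h1 (sq_nonneg (φ u))
    linarith

include h hs in
/-- bound for the non-covering paths -/
theorem nc_bound (hD : ∀ x, 0 < D x) (hc0 : ∀ x y, 0 ≤ c x y) {a : ℝ} (ha : 0 < a) (u : V)
    (L : ℕ) :
    ((D u)⁻¹ * ∑ j ∈ range L, Gk (fun x y => (D x)⁻¹ * c x y) u j u ∅) *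
      (multivariateGaussian 0 (DK D c)⁻¹).real {φ : EuclideanSpace ℝ V | ∀ x, |φ x| ≤ a} ≤
    ∫ φ : EuclideanSpace ℝ V, {φ : EuclideanSpace ℝ V | ∃ x, |φ x| ≤ 2 * a}.indicator
        (fun φ => φ u ^ 2) φ ∂(multivariateGaussian 0 (DK D c)⁻¹) := by
  -- choose `m = ⌈exp (2 s)⌉`
  set Q : ℝ := (D u)⁻¹ * ∑ j ∈ range L, Gk (fun x y => (D x)⁻¹ * c x y) u j u ∅ with hQ
  set p := (multivariateGaussian 0 (DK D c)⁻¹).real {φ : EuclideanSpace ℝ V | ∀ x, |φ x| ≤ a} with hp
  set B := ∫ φ : EuclideanSpace ℝ V, {φ : EuclideanSpace ℝ V | ∃ x, |φ x| ≤ 2 * a}.indicator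
        (fun φ => φ u ^ 2) φ ∂(multivariateGaussian 0 (DK D c)⁻¹) with hB
  let m : ℕ → ℕ := fun s => ⌈Real.exp (2 * (s : ℝ))⌉₊
  have hmlow : ∀ s : ℕ, Real.exp (2 * (s : ℝ)) ≤ m s := fun s => Nat.le_ceil _
  have hmup : ∀ s : ℕ, (m s : ℝ) ≤ Real.exp (2 * (s : ℝ)) + 1 := fun s =>
    (Nat.ceil_lt_add_one (Real.exp_pos _).le).le
  have key := fun s : ℕ => nc_bound_aux h hs hD hc0 ha u L s (m s)
  have hexp : Tendsto (fun s : ℕ => Real.exp (-(s : ℝ))) atTop (𝓝 0) :=
    Real.tendsto_exp_neg_atTop_nhds_zero.comp tendsto_natCast_atTop_atTop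
  have hlim1 : Tendsto (fun s : ℕ => (1 - Real.exp (-(s : ℝ))) ^ (m s)) atTop (𝓝 0) := by
    have h1 : ∀ s : ℕ, (1 - Real.exp (-(s : ℝ))) ^ (m s) ≤ Real.exp (-(s : ℝ)) := by
      intro s
      have e0 : 1 - Real.exp (-(s : ℝ)) ≤ Real.exp (-Real.exp (-(s : ℝ))) := by
        have := Real.add_one_le_exp (-Real.exp (-(s : ℝ)))
        linarith
      have e00 : 0 ≤ 1 - Real.exp (-(s : ℝ)) := by
        have : Real.exp (-(s : ℝ)) ≤ 1 := by
          rw [Real.exp_le_one_iff]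
          have : (0 : ℝ) ≤ s := Nat.cast_nonneg s
          linarith
        linarith
      have e1 := pow_le_pow_left₀ e00 e0 (m s)
      rw [← Real.exp_nat_mul] at e1
      refine e1.trans ?_
      rw [Real.exp_le_exp]
      have e2 : Real.exp (s : ℝ) ≤ (m s : ℝ) * Real.exp (-(s : ℝ)) := by
        have := mul_le_mul_of_nonneg_right (hmlow s) (Real.exp_pos (-(s : ℝ))).le
        rw [← Real.exp_add] at this
        have e3 : 2 * (s : ℝ) + -(s : ℝ) = s := by ring
        rwa [e3] at this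
      have e3 := Real.add_one_le_exp (s : ℝ)
      linarith
    refine squeeze_zero (fun s => ?_) h1 hexp
    apply pow_nonneg
    have : Real.exp (-(s : ℝ)) ≤ 1 := by
      rw [Real.exp_le_one_iff]
      have : (0 : ℝ) ≤ s := Nat.cast_nonneg s
      linarith
    linarith
  have hlim2 : Tendsto (fun s : ℕ => (m s : ℝ) * Real.exp (-(4 * (s : ℝ)))) atTop (𝓝 0) := by
    have h1 : ∀ s : ℕ, (m s : ℝ) * Real.exp (-(4 * (s : ℝ))) ≤ 2 * Real.exp (-(s : ℝ)) := by
      intro s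
      have e1 := mul_le_mul_of_nonneg_right (hmup s) (Real.exp_pos (-(4 * (s : ℝ)))).le
      refine e1.trans ?_
      rw [add_mul, ← Real.exp_add, one_mul]
      have hs0 : (0 : ℝ) ≤ s := Nat.cast_nonneg s
      have e2 : Real.exp (2 * (s : ℝ) + -(4 * (s : ℝ))) ≤ Real.exp (-(s : ℝ)) := by
        rw [Real.exp_le_exp]; linarith
      have e3 : Real.exp (-(4 * (s : ℝ))) ≤ Real.exp (-(s : ℝ)) := by
        rw [Real.exp_le_exp]; linarith
      linarith
    refine squeeze_zero (fun s => by positivity) h1 ?_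
    have := hexp.const_mul 2
    rwa [mul_zero] at this
  have hL : Tendsto (fun s : ℕ => (1 - (1 - Real.exp (-(s : ℝ))) ^ (m s)) * Q * p) atTop
      (𝓝 ((1 - 0) * Q * p)) := ((hlim1.const_sub 1).mul_const Q).mul_const p
  have hR : Tendsto (fun s : ℕ => B + ((Fintype.card V : ℝ) * (m s * Real.exp (-(4 * s : ℝ)))) *
      (DK D c)⁻¹ u u) atTop (𝓝 (B + ((Fintype.card V : ℝ) * 0) * (DK D c)⁻¹ u u)) :=
    ((hlim2.const_mul _).mul_const _).const_add B
  have := le_of_tendsto_of_tendsto' hL hR key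
  simpa using this

end Identity

end Pool.Agent.Speedup
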