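import Mathlib
import Pool.Agent.Speedup.Defs
import Pool.Agent.Speedup.Paths
import Pool.Agent.Speedup.Basic
import Pool.Agent.Speedup.Gauss
import Pool.Agent.Speedup.Field
import Pool.Agent.Speedup.Dynkin3

set_option autoImplicit false
set_option linter.unusedSectionVars false

/-!
Cover time bound from the Gaussian field.
-/

open Finset Matrix MeasureTheory ProbabilityTheory WithLp Filter Topology
open scoped ENNReal RealInnerProductSpace

namespace Pool.Agent.Speedup

variable {V : Type} [Fintype V] [DecidableEq V]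

/-- standard Gaussian small-ball estimates -/
lemma std_pdf_le (x : ℝ) : gaussianPDFReal 0 1 x ≤ 1 / 2 := by
  rw [gaussianPDFReal_def]
  simp only [NNReal.coe_one, mul_one, sub_zero]
  have h1 : (2 : ℝ) ≤ √(2 * Real.pi) := by
    apply Real.le_sqrt_of_sq_le
    have := Real.pi_gt_three
    linarith
  have h2 : (√(2 * Real.pi))⁻¹ ≤ 1 / 2 := by
    rw [one_div]
    exact inv_anti₀ (by norm_num) h1
  have h3 : Real.exp (-x ^ 2 / 2) ≤ 1 := by
    rw [Real.exp_le_one_iff]
    have := sq_nonneg x
    linarith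
  have h4 : 0 ≤ (√(2 * Real.pi))⁻¹ := by positivity
  calc (√(2 * Real.pi))⁻¹ * Real.exp (-x ^ 2 / 2) ≤ (1 / 2) * 1 :=
        mul_le_mul h2 h3 (Real.exp_pos _).le (by norm_num)
    _ = 1 / 2 := by norm_num

lemma std_pdf_ge {x : ℝ} (hx : |x| ≤ 1 / 50) : 3 / 10 ≤ gaussianPDFReal 0 1 x := by
  rw [gaussianPDFReal_def]
  simp only [NNReal.coe_one, mul_one, sub_zero]
  have h1 : √(2 * Real.pi) ≤ 3 := by
    apply Real.sqrt_le_iff.mpr
    refine ⟨by norm_num, ?_⟩
    have := Real.pi_le_four
    linarith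
  have h0 : 0 < √(2 * Real.pi) := Real.sqrt_pos.mpr (by positivity)
  have h2 : 1 / 3 ≤ (√(2 * Real.pi))⁻¹ := by
    rw [one_div]
    exact inv_anti₀ h0 h1
  have h3 : 9 / 10 ≤ Real.exp (-x ^ 2 / 2) := by
    have h4 := Real.add_one_le_exp (-x ^ 2 / 2)
    have h5 : x ^ 2 ≤ (1 / 50) ^ 2 := by
      rw [← sq_abs]
      exact pow_le_pow_left₀ (abs_nonneg _) hx 2
    norm_num at h5
    linarith
  calc (3 : ℝ) / 10 = (1 / 3) * (9 / 10) := by norm_num
    _ ≤ _ := mul_le_mul h2 h3 (by norm_num) (by positivity)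

lemma std_small_le : (gaussianReal 0 1).real {x | |x| ≤ 1 / 10} ≤ 1 / 10 := by
  have hset : {x : ℝ | |x| ≤ 1 / 10} = Set.Icc (-(1 / 10)) (1 / 10) := by
    ext x; simp only [Set.mem_ofPred_eq, Set.mem_Icc, abs_le]
  rw [hset, measureReal_def, gaussianReal_apply_eq_integral 0 one_ne_zero]
  rw [ENNReal.toReal_ofReal (integral_nonneg fun x => gaussianPDFReal_nonneg _ _ _)]
  have h1 : ∫ x in Set.Icc (-(1 / 10) : ℝ) (1 / 10), gaussianPDFReal 0 1 x ≤
      ∫ x in Set.Icc (-(1 / 10) : ℝ) (1 / 10), (1 / 2 : ℝ) := by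
    refine setIntegral_mono (integrable_gaussianPDFReal 0 1).integrableOn (by simp) fun x => std_pdf_le x
  refine h1.trans ?_
  simp
  norm_num

lemma std_small_ge : 12 / 1000 ≤ (gaussianReal 0 1).real {x | |x| ≤ 1 / 50} := by
  have hset : {x : ℝ | |x| ≤ 1 / 50} = Set.Icc (-(1 / 50)) (1 / 50) := by
    ext x; simp only [Set.mem_ofPred_eq, Set.mem_Icc, abs_le]
  rw [hset, measureReal_def, gaussianReal_apply_eq_integral 0 one_ne_zero]
  rw [ENNReal.toReal_ofReal (integral_nonneg fun x => gaussianPDFReal_nonneg _ _ _)]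
  have h1 : ∫ x in Set.Icc (-(1 / 50) : ℝ) (1 / 50), (3 / 10 : ℝ) ≤
      ∫ x in Set.Icc (-(1 / 50) : ℝ) (1 / 50), gaussianPDFReal 0 1 x := by
    refine setIntegral_mono_on (by simp) (integrable_gaussianPDFReal 0 1).integrableOn
      measurableSet_Icc fun x hx => std_pdf_ge ?_
    rw [abs_le]
    exact hx
  refine le_trans ?_ h1
  simp
  norm_num

lemma std_fourth : ∫ x, x ^ 4 ∂(gaussianReal 0 1) ≤ 48 * (165 / 100) := by
  have h1 : ∀ x : ℝ, x ^ 4 ≤ 24 * (Real.exp (1 * x) + Real.exp ((-1) * x)) := by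
    intro x
    have h2 := Real.pow_div_factorial_le_exp |x| (abs_nonneg x) 4
    have h3 : |x| ^ 4 = x ^ 4 := by
      have : Even 4 := ⟨2, rfl⟩
      exact this.pow_abs x
    have h4 : ((4 : ℕ).factorial : ℝ) = 24 := by norm_num [Nat.factorial]
    rw [h3, h4] at h2
    have h5 : Real.exp |x| ≤ Real.exp (1 * x) + Real.exp ((-1) * x) := by
      rcases abs_cases x with ⟨h, _⟩ | ⟨h, _⟩
      · rw [h, one_mul]
        have := (Real.exp_pos ((-1) * x)).le
        linarith
      · rw [h, neg_one_mul]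
        have := (Real.exp_pos (1 * x)).le
        linarith
    linarith
  have hi : ∀ t : ℝ, Integrable (fun x => Real.exp (t * x)) (gaussianReal 0 1) := fun t =>
    integrable_exp_mul_gaussianReal t
  have hm : ∀ t : ℝ, ∫ x, Real.exp (t * x) ∂(gaussianReal 0 1) = Real.exp (t ^ 2 / 2) := by
    intro t
    have := congrFun (mgf_fun_id_gaussianReal (μ := 0) (v := 1)) t
    rw [mgf] at this
    rw [this]
    simp
  have h4 : Integrable (fun x : ℝ => x ^ 4) (gaussianReal 0 1) := by
    refine Integrable.mono' (((hi 1).add (hi (-1))).const_mul 24)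
      (by fun_prop) (Eventually.of_forall fun x => ?_)
    rw [Real.norm_eq_abs, abs_of_nonneg (by positivity)]
    exact h1 x
  have h5 : ∫ x, x ^ 4 ∂(gaussianReal 0 1) ≤
      ∫ x, 24 * (Real.exp (1 * x) + Real.exp ((-1) * x)) ∂(gaussianReal 0 1) :=
    integral_mono h4 (((hi 1).add (hi (-1))).const_mul 24) h1
  refine h5.trans ?_
  rw [integral_const_mul, integral_add (hi 1) (hi (-1)), hm, hm]
  have h6 : Real.exp (1 ^ 2 / 2) ≤ 165 / 100 := by
    have h7 : Real.exp (1 ^ 2 / 2) ^ 2 ≤ (165 / 100) ^ 2 := by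
      rw [← Real.exp_nat_mul]
      have := Real.exp_one_lt_d9
      norm_num at this ⊢
      linarith
    exact le_of_pow_le_pow_left₀ (by norm_num) (by norm_num) h7
  have h8 : Real.exp ((-1) ^ 2 / 2) ≤ 165 / 100 := by
    norm_num at h6 ⊢
    exact h6
  linarith

lemma std_fourth_int : Integrable (fun x : ℝ => x ^ 4) (gaussianReal 0 1) := by
  have := (memLp_id_gaussianReal (μ := 0) (v := 1) 4).integrable_norm_pow (p := 4) (by norm_num)
  refine this.congr (Eventually.of_forall fun x => ?_)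
  simp only [id, Real.norm_eq_abs]
  have h4 : Even 4 := ⟨2, rfl⟩
  exact h4.pow_abs x

theorem cover_of_field (P : V → V → ℝ) (π : V → ℝ)
    (hP0 : ∀ x y, 0 ≤ P x y) (hP1 : ∀ x, ∑ y, P x y = 1)
    (hπ : ∀ x, 0 < π x) (hsum : ∑ x, π x = 1)
    (hrev : ∀ x y, π x * P x y = π y * P y x)
    (hnet : IsNet (fun x y => π x * P x y)) (u : V) (A : ℝ) (hA : 0 < A)
    (hfield : (multivariateGaussian 0
        (Lam (fun x y => π x * P x y) (fun x => if x = u then (2500 * A ^ 2)⁻¹ else 0))⁻¹ :
          Measure (EuclideanSpace ℝ V)) {φ | ∃ x, A < |φ x - φ u|} ≤ ENNReal.ofReal (1 / 10000000))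
    (H : ℕ) :
    ∑ t ∈ range H, ncov P 1 t u ≤ 2 * (2500 * A ^ 2 + 1) := by
  set t : ℝ := 2500 * A ^ 2 with ht
  have ht0 : 0 < t := by positivity
  set c : V → V → ℝ := fun x y => π x * P x y with hc
  set n : V → ℝ := fun x => if x = u then t⁻¹ else 0 with hn
  set D : V → ℝ := fun x => π x + n x with hDdef
  have hn0 : ∀ x, 0 ≤ n x := fun x => by simp only [hn]; split_ifs <;> positivity
  have hD : ∀ x, 0 < D x := fun x => by have := hπ x; have := hn0 x; simp only [hDdef]; linarith
  have hc0 : ∀ x y, 0 ≤ c x y := hnet.nonneg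
  have hs : ∀ x y, c x y = c y x := hnet.symm
  have hrow : ∀ x, ∑ y, c x y = π x := fun x => by simp only [hc]; rw [← mul_sum, hP1, mul_one]
  have hLam : Lam c n = DK D c := by
    rw [Lam_eq_DK]
    simp only [hrow, hDdef]
  have hpd : (DK D c).PosDef := by
    rw [← hLam]
    exact Lam_posDef hnet hn0 ⟨u, by simp only [hn, if_true]; positivity⟩
  have hinv1 : ∀ x, (DK D c)⁻¹ u x = t := by
    intro x
    have h1 : (DK D c)⁻¹ *ᵥ n = 1 := by
      have := Lam_mulVec_one c n
      rw [hLam] at this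
      rw [← this, pd_inv_mulVec hpd]
    have h2 := congrFun h1 x
    simp only [mulVec, dotProduct, hn, mul_ite, mul_zero, Finset.sum_ite_eq', mem_univ, if_true,
      Pi.one_apply] at h2
    rw [pd_inv_symm' hpd u x]
    field_simp at h2
    exact h2
  rw [hLam] at hfield
  set μ := multivariateGaussian (0 : EuclideanSpace ℝ V) (DK D c)⁻¹ with hμ
  have hS := hpd.inv.posSemidef
  -- the law of `φ u / (50 A)`
  set r : ℝ := 50 * A with hr
  have hr0 : 0 < r := by positivity
  have hlaw : (gaussianReal 0 ((DK D c)⁻¹ u u).toNNReal).map (fun x => x / r) = gaussianReal 0 1 := by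
    rw [gaussianReal_map_div_const, zero_div, hinv1]
    congr 1
    ext
    simp only [NNReal.coe_div, NNReal.coe_mk, NNReal.coe_one]
    rw [Real.coe_toNNReal _ ht0.le, ht, hr]
    field_simp
    norm_num
  have hfun : ∀ g : ℝ → ℝ, Measurable g → ∫ φ, g (φ u / r) ∂μ = ∫ x, g x ∂(gaussianReal 0 1) := by
    intro g hg
    rw [← hlaw, integral_map (by fun_prop) hg.aestronglyMeasurable,
      ← integral_marg hS u (g := fun x => g (x / r)) (by fun_prop)]
  have hprob : ∀ b : ℝ, μ.real {φ | |φ u / r| ≤ b} = (gaussianReal 0 1).real {x | |x| ≤ b} := by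
    intro b
    have hm1 : MeasurableSet {x : ℝ | |x| ≤ b} := measurableSet_le (by fun_prop) measurable_const
    have hm2 : MeasurableSet {φ : EuclideanSpace ℝ V | |φ u / r| ≤ b} :=
      measurableSet_le (by fun_prop) measurable_const
    have h1 := hfun ({x : ℝ | |x| ≤ b}.indicator 1) (measurable_one.indicator hm1)
    rw [integral_indicator_one hm1] at h1
    rw [← h1, ← integral_indicator_one hm2]
    rfl
  -- the exceptional event
  set E : Set (EuclideanSpace ℝ V) := {φ | ∃ x, A < |φ x - φ u|} with hE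
  have hEm : MeasurableSet E := by
    have : E = ⋃ x, {φ | A < |φ x - φ u|} := by ext; simp [hE]
    rw [this]
    exact MeasurableSet.iUnion fun x => measurableSet_lt measurable_const (by fun_prop)
  have hEp : μ.real E ≤ 1 / 10000000 := by
    rw [measureReal_def]
    exact ENNReal.toReal_le_of_le_ofReal (by norm_num) hfield
  -- lower bound for the probability
  have hp : 12 / 1000 - 1 / 10000000 ≤ μ.real {φ : EuclideanSpace ℝ V | ∀ x, |φ x| ≤ 2 * A} := by
    have h1 : {φ : EuclideanSpace ℝ V | |φ u / r| ≤ 1 / 50} ⊆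
        {φ : EuclideanSpace ℝ V | ∀ x, |φ x| ≤ 2 * A} ∪ E := by
      intro φ hφ
      by_cases hφE : φ ∈ E
      · exact Or.inr hφE
      · left
        intro x
        have h2 : |φ x - φ u| ≤ A := by
          by_contra hcon
          exact hφE ⟨x, not_le.mp hcon⟩
        have h3 : |φ u| ≤ A := by
          have : |φ u / r| ≤ 1 / 50 := hφ
          rw [abs_div, abs_of_pos hr0, div_le_iff₀ hr0] at this
          rw [hr] at this
          linarith
        have h4 : |φ x| ≤ |φ x - φ u| + |φ u| := by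
          have := abs_add_le (φ x - φ u) (φ u)
          rwa [sub_add_cancel] at this
        linarith
    have h2 := measureReal_mono (μ := μ) h1 (by finiteness)
    have h3 := measureReal_union_le (μ := μ) {φ : EuclideanSpace ℝ V | ∀ x, |φ x| ≤ 2 * A} E
    rw [hprob] at h2
    have h4 := std_small_ge
    linarith
  -- upper bound for the integral
  have hI4 : Integrable (fun φ : EuclideanSpace ℝ V => (φ u / r) ^ 4) μ := by
    refine integrable_marg hS u (g := fun x => (x / r) ^ 4) ?_
    have h1 := std_fourth_int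
    rw [← hlaw] at h1
    exact (integrable_map_measure (by fun_prop) (by fun_prop)).mp h1
  have hub : ∫ φ : EuclideanSpace ℝ V, {φ : EuclideanSpace ℝ V | ∃ x, |φ x| ≤ 2 * (2 * A)}.indicator
        (fun φ => φ u ^ 2) φ ∂μ ≤ 4 / 1000 * t := by
    have hm2 : MeasurableSet {φ : EuclideanSpace ℝ V | |φ u / r| ≤ 1 / 10} :=
      measurableSet_le (by fun_prop) measurable_const
    have hptw : ∀ φ : EuclideanSpace ℝ V,
        {φ : EuclideanSpace ℝ V | ∃ x, |φ x| ≤ 2 * (2 * A)}.indicator (fun φ => φ u ^ 2) φ ≤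
        {φ : EuclideanSpace ℝ V | |φ u / r| ≤ 1 / 10}.indicator (fun _ => 25 * A ^ 2) φ +
        ((t / 56000) * (φ u / r) ^ 4 + E.indicator (fun _ => 14000 * t) φ) := by
      intro φ
      have hn1 : 0 ≤ (t / 56000) * (φ u / r) ^ 4 := by positivity
      have hn2 : 0 ≤ E.indicator (fun _ => 14000 * t) φ :=
        Set.indicator_nonneg (fun _ _ => by positivity) φ
      have hn3 : 0 ≤ {φ : EuclideanSpace ℝ V | |φ u / r| ≤ 1 / 10}.indicator
          (fun _ => 25 * A ^ 2) φ := Set.indicator_nonneg (fun _ _ => by positivity) φ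
      by_cases hφ : φ ∈ {φ : EuclideanSpace ℝ V | ∃ x, |φ x| ≤ 2 * (2 * A)}
      · rw [Set.indicator_of_mem hφ]
        by_cases hφE : φ ∈ E
        · have e1 : φ u ^ 2 ≤ (t / 56000) * (φ u / r) ^ 4 + 14000 * t := by
            have e2 : φ u ^ 2 = t * (φ u / r) ^ 2 := by
              rw [div_pow, ht, hr]
              field_simp
              ring
            rw [e2]
            have e3 : (φ u / r) ^ 4 = ((φ u / r) ^ 2) ^ 2 := by ring
            rw [e3]
            have e4 := sq_nonneg ((φ u / r) ^ 2 - 28000)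
            have e5 : (φ u / r) ^ 2 ≤ 1 / 56000 * ((φ u / r) ^ 2) ^ 2 + 14000 := by
              nlinarith
            calc t * (φ u / r) ^ 2 ≤ t * (1 / 56000 * ((φ u / r) ^ 2) ^ 2 + 14000) :=
                  mul_le_mul_of_nonneg_left e5 ht0.le
              _ = _ := by ring
          rw [Set.indicator_of_mem hφE]
          linarith
        · have hmem : φ ∈ {φ : EuclideanSpace ℝ V | |φ u / r| ≤ 1 / 10} := by
            obtain ⟨x, hx⟩ := hφ
            have h2 : |φ x - φ u| ≤ A := by
              by_contra hcon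
              exact hφE ⟨x, not_le.mp hcon⟩
            have h3 : |φ u| ≤ |φ x - φ u| + |φ x| := by
              have := abs_sub_abs_le_abs_sub (φ u) (φ x)
              rw [abs_sub_comm (φ u) (φ x)] at this
              linarith
            change |φ u / r| ≤ 1 / 10
            rw [abs_div, abs_of_pos hr0, div_le_iff₀ hr0, hr]
            linarith
          have h5 : φ u ^ 2 ≤ 25 * A ^ 2 := by
            have h6 : |φ u / r| ≤ 1 / 10 := hmem
            rw [abs_div, abs_of_pos hr0, div_le_iff₀ hr0, hr] at h6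
            have h7 : |φ u| ≤ 5 * A := by linarith
            have h8 := pow_le_pow_left₀ (abs_nonneg _) h7 2
            rw [sq_abs] at h8
            linarith
          rw [Set.indicator_of_mem hmem]
          linarith
      · rw [Set.indicator_of_notMem hφ]
        linarith
    have hint1 : Integrable (fun φ => {φ : EuclideanSpace ℝ V | |φ u / r| ≤ 1 / 10}.indicator
        (fun _ => 25 * A ^ 2) φ) μ := (integrable_const _).indicator hm2
    have hint2 : Integrable (fun φ : EuclideanSpace ℝ V => (t / 56000) * (φ u / r) ^ 4) μ :=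
      hI4.const_mul _
    have hint3 : Integrable (fun φ => E.indicator (fun _ => 14000 * t) φ) μ :=
      (integrable_const _).indicator hEm
    have h1 : ∫ φ : EuclideanSpace ℝ V,
        {φ : EuclideanSpace ℝ V | ∃ x, |φ x| ≤ 2 * (2 * A)}.indicator (fun φ => φ u ^ 2) φ ∂μ ≤
        ∫ φ : EuclideanSpace ℝ V,
          ({φ : EuclideanSpace ℝ V | |φ u / r| ≤ 1 / 10}.indicator (fun _ => 25 * A ^ 2) φ +
          ((t / 56000) * (φ u / r) ^ 4 + E.indicator (fun _ => 14000 * t) φ)) ∂μ :=
      integral_mono ((integrable_sq hS u).indicator (measurableSet_exsmall _))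
        (hint1.add (hint2.add hint3)) hptw
    refine h1.trans ?_
    have h23 : Integrable (fun φ : EuclideanSpace ℝ V =>
        (t / 56000) * (φ u / r) ^ 4 + E.indicator (fun _ => 14000 * t) φ) μ := hint2.add hint3
    rw [integral_add hint1 h23, integral_add hint2 hint3,
      integral_indicator_const _ hm2, integral_const_mul, integral_indicator_const _ hEm,
      hfun (fun x => x ^ 4) (by fun_prop), smul_eq_mul, smul_eq_mul, hprob]
    have h2 := std_small_le
    have h3 := std_fourth
    have e1 : (gaussianReal 0 1).real {x | |x| ≤ 1 / 10} * (25 * A ^ 2) ≤ 1 / 10 * (25 * A ^ 2) :=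
      mul_le_mul_of_nonneg_right h2 (by positivity)
    have e2 : t / 56000 * ∫ x, x ^ 4 ∂(gaussianReal 0 1) ≤ t / 56000 * (48 * (165 / 100)) :=
      mul_le_mul_of_nonneg_left h3 (by positivity)
    have e3 : μ.real E * (14000 * t) ≤ 1 / 10000000 * (14000 * t) :=
      mul_le_mul_of_nonneg_right hEp (by positivity)
    have e4 : 1 / 10 * (25 * A ^ 2) = t / 1000 := by rw [ht]; ring
    rw [e4] at e1
    linarith
  -- the bound for non-covering paths
  have hnc := nc_bound hpd hs hD hc0 (a := 2 * A) (by positivity) u H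
  set Q : ℝ := (D u)⁻¹ * ∑ j ∈ range H, Gk (fun x y => (D x)⁻¹ * c x y) u j u ∅ with hQ
  have hK0 : ∀ x y, 0 ≤ (D x)⁻¹ * c x y := fun x y => mul_nonneg (inv_nonneg.mpr (hD x).le) (hc0 x y)
  have hQ0 : 0 ≤ Q := mul_nonneg (inv_nonneg.mpr (hD u).le)
    (sum_nonneg fun j _ => Gk_nonneg hK0 u j u ∅)
  have hQt : Q ≤ t / 2 := by
    have h1 := mul_le_mul_of_nonneg_left hp hQ0
    have h2 := hnc.trans hub
    nlinarith
  -- the killed chain
  have hρ : 0 ≤ n u * (D u)⁻¹ := mul_nonneg (hn0 u) (inv_nonneg.mpr (hD u).le)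
  have hKP : ∀ x y, P x y = (D x)⁻¹ * c x y + if x = u then (n u * (D u)⁻¹) * P u y else 0 := by
    intro x y
    have hDx := (hD x).ne'
    by_cases hx : x = u
    · subst hx
      rw [if_pos rfl]
      simp only [hc]
      have : D x = π x + n x := rfl
      field_simp
      rw [this]
    · rw [if_neg hx, add_zero]
      simp only [hc]
      have : D x = π x := by simp only [hDdef, hn, if_neg hx, add_zero]
      rw [this]
      have := (hπ x).ne'
      field_simp
  set w : V → ℝ := (DK D c)⁻¹ *ᵥ D with hw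
  have hw0 : ∀ x, 0 ≤ w x := fun x =>
    mmatrix_inv_mulVec_nonneg hpd (DK_off hc0) (fun y => (hD y).le) x
  have hw1 : ∀ x, w x = 1 + ∑ y, ((D x)⁻¹ * c x y) * w y := by
    intro x
    have h1 := DK_mulVec D c w x
    rw [hw, pd_mulVec_inv hpd, ← hw] at h1
    have h2 : ∑ y, ((D x)⁻¹ * c x y) * w y = (D x)⁻¹ * ∑ y, c x y * w y := by
      rw [mul_sum]
      exact sum_congr rfl fun y _ => by ring
    rw [h2]
    have := (hD x).ne'
    field_simp
    linarith
  have hwu : w u = t + 1 := by
    have h1 : w u = ∑ x, (DK D c)⁻¹ u x * D x := rfl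
    simp only [h1, hinv1]
    rw [← mul_sum]
    have h2 : ∑ x, D x = 1 + t⁻¹ := by
      simp only [hDdef, sum_add_distrib, hsum]
      congr 1
      simp [hn]
    rw [h2]
    field_simp
  have hfin := sum_ncov_le hP0 hK0 u (n u * (D u)⁻¹) hρ hKP hw0 hw1 H (by
    have h1 : n u * (D u)⁻¹ * ∑ j ∈ range H, Gk (fun x y => (D x)⁻¹ * c x y) u j u ∅ = n u * Q := by
      rw [hQ]; ring
    rw [h1]
    have h2 : n u = t⁻¹ := by simp [hn]
    rw [h2, inv_mul_le_iff₀ ht0]
    linarith)
  rw [hwu] at hfin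
  exact hfin

end Pool.Agent.Speedup
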