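import Mathlib
import Pool.Agent.Speedup.Field
import Pool.Agent.Speedup.Paths

set_option autoImplicit false
set_option linter.unusedSectionVars false

/-!
Inequality (I): a field shifted by the Green function is nonnegative with high probability if
many walkers cover.
-/

open Finset Matrix MeasureTheory ProbabilityTheory WithLp Filter Topology
open scoped ENNReal RealInnerProductSpace

namespace Pool.Agent.Speedup

variable {V : Type} [Fintype V] [DecidableEq V]

lemma CF_eq_up (C : V → V → ℝ) (F : Finset (Edg V)) (x y : V) :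
    CF C F x y = C x y * up {(Sum.inl s(x, y) : Edg V)} F := by
  unfold CF up
  simp only [singleton_subset_iff]
  split_ifs <;> simp

lemma CM_congr {E : Type} [Fintype E] [DecidableEq E] {Φ Ψ : Finset E → ℝ} (h : CM Φ)
    (he : ∀ F, Ψ F = Φ F) : CM Ψ := by
  have : Ψ = Φ := funext he
  rw [this]; exact h

lemma CM_CF {C : V → V → ℝ} (hC : ∀ x y, 0 ≤ C x y) (x y : V) : CM (fun F => CF C F x y) :=
  CM_congr ((CM_up _).const_mul (hC x y)) fun F => CF_eq_up C F x y

lemma CM_neu {D : V → ℝ} {C : V → V → ℝ} (hD : ∀ x, 0 < D x) (hC : ∀ x y, 0 ≤ C x y) (l : ℕ) (x y : V) :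
    CM (fun F => neu D (CF C F) l x y) := by
  induction l generalizing x y with
  | zero => exact CM_const le_rfl
  | succ l ih =>
    simp only [neu]
    refine CM.const_mul (CM.add (CM_const (by split_ifs <;> norm_num)) ?_) (inv_nonneg.mpr (hD x).le)
    exact CM_sum' _ fun z _ => (CM_CF hC x z).mul (ih z y)

lemma CF_nonneg {C : V → V → ℝ} (hC : ∀ x y, 0 ≤ C x y) (F : Finset (Edg V)) (x y : V) :
    0 ≤ CF C F x y := by
  unfold CF; split_ifs
  · exact hC x y
  · exact le_rfl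

lemma CM_green {D : V → ℝ} {C : V → V → ℝ} (hD : ∀ x, 0 < D x) (hC : ∀ x y, 0 ≤ C x y)
    (hpd : ∀ F, (DK D (CF C F)).PosDef) (x y : V) :
    CM (fun F => (DK D (CF C F))⁻¹ x y) :=
  CM_lim (l := atTop) (fun l => CM_neu hD hC l x y)
    fun F => neu_tendsto (hpd F) hD (CF_nonneg hC F) x y

/-- killing probabilities through ghost edges -/
noncomputable def Wf (D : V → ℝ) (C : V → V → ℝ) (n : V → ℝ) (F : Finset (Edg V)) (x : V) : ℝ :=
  ∑ y, (DK D (CF C F))⁻¹ x y * (n y * up {(Sum.inr (Sum.inl y) : Edg V)} F)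

lemma CM_Wf {D : V → ℝ} {C : V → V → ℝ} {n : V → ℝ} (hD : ∀ x, 0 < D x) (hC : ∀ x y, 0 ≤ C x y)
    (hn : ∀ x, 0 ≤ n x) (hpd : ∀ F, (DK D (CF C F)).PosDef) (x : V) :
    CM (fun F => Wf D C n F x) :=
  CM_sum' _ fun y _ => (CM_green hD hC hpd x y).mul ((CM_up _).const_mul (hn y))

lemma Wf_rec {D : V → ℝ} {C : V → V → ℝ} {n : V → ℝ} (hD : ∀ x, 0 < D x)
    {F : Finset (Edg V)} (hpd : (DK D (CF C F)).PosDef) (x : V) :
    Wf D C n F x = (D x)⁻¹ * (n x * up {(Sum.inr (Sum.inl x) : Edg V)} F) +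
      ∑ z, (D x)⁻¹ * C x z * (up {(Sum.inl s(x, z) : Edg V)} F * Wf D C n F z) := by
  have h1 : D x * Wf D C n F x = (n x * up {(Sum.inr (Sum.inl x) : Edg V)} F) +
      ∑ z, C x z * (up {(Sum.inl s(x, z) : Edg V)} F * Wf D C n F z) := by
    unfold Wf
    rw [mul_sum]
    have e1 : ∀ y, D x * ((DK D (CF C F))⁻¹ x y * (n y * up {(Sum.inr (Sum.inl y) : Edg V)} F)) =
        (if x = y then (n y * up {(Sum.inr (Sum.inl y) : Edg V)} F) else 0) +
        ∑ z, CF C F x z * ((DK D (CF C F))⁻¹ z y * (n y * up {(Sum.inr (Sum.inl y) : Edg V)} F)) := by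
      intro y
      rw [← mul_assoc, inv_rec hpd, add_mul, sum_mul]
      congr 1
      · split_ifs <;> simp
      · exact sum_congr rfl fun z _ => by ring
    rw [sum_congr rfl fun y _ => e1 y, sum_add_distrib, sum_ite_eq]
    simp only [mem_univ, if_true]
    congr 1
    rw [sum_comm]
    refine sum_congr rfl fun z _ => ?_
    rw [← mul_sum, CF_eq_up]; ring
  have h2 : Wf D C n F x = (D x)⁻¹ * (D x * Wf D C n F x) := by
    rw [← mul_assoc, inv_mul_cancel₀ (hD x).ne', one_mul]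
  rw [h2, h1, mul_add, mul_sum]
  congr 1
  exact sum_congr rfl fun z _ => by ring

/-- iterate of a matrix on a vector -/
noncomputable def iter (M : V → V → ℝ) (W : V → ℝ) : ℕ → V → ℝ
  | 0 => W
  | (T + 1) => fun x => ∑ z, M x z * iter M W T z

lemma sum_cons {M : Type*} [AddCommMonoid M] {T : ℕ} (g : (Fin (T + 2) → V) → M) :
    ∑ ω, g ω = ∑ z : V, ∑ ω : Fin (T + 1) → V, g (Fin.cons z ω) := by
  rw [← Equiv.sum_comp (Fin.consEquiv (fun _ : Fin (T + 2) => V)), Fintype.sum_prod_type]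
  rfl

lemma pathW_cons (P : V → V → ℝ) {T : ℕ} (z : V) (ω : Fin (T + 1) → V) :
    pathW P (T + 1) (Fin.cons z ω : Fin (T + 2) → V) = P z (ω 0) * pathW P T ω := by
  unfold pathW
  rw [Fin.prod_univ_succ]
  congr 1

lemma iter_path (M : V → V → ℝ) (W : V → ℝ) (T : ℕ) (x : V) :
    iter M W T x = ∑ ω : Fin (T + 1) → V, if ω 0 = x then pathW M T ω * W (ω (Fin.last T)) else 0 := by
  induction T generalizing x with
  | zero =>
    simp only [iter]
    rw [← Equiv.sum_comp (Equiv.funUnique (Fin 1) V).symm]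
    simp [pathW, Equiv.funUnique]
  | succ T ih =>
    rw [sum_cons]
    simp only [Fin.cons_zero, pathW_cons]
    rw [iter]
    have e1 : ∀ z : V, (∑ ω : Fin (T + 1) → V, if z = x then M z (ω 0) * pathW M T ω *
        W ((Fin.cons z ω : Fin (T + 2) → V) (Fin.last (T + 1))) else 0) =
        if z = x then ∑ ω : Fin (T + 1) → V, M z (ω 0) * pathW M T ω * W (ω (Fin.last T)) else 0 := by
      intro z
      split_ifs with h
      · refine sum_congr rfl fun ω _ => ?_
        rw [show Fin.last (T + 1) = (Fin.last T).succ from rfl, Fin.cons_succ]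
      · simp
    rw [sum_congr rfl fun z _ => e1 z]
    simp only [sum_ite_eq', mem_univ, if_true]
    have e2 : ∀ ω : Fin (T + 1) → V, M x (ω 0) * pathW M T ω * W (ω (Fin.last T)) =
        ∑ z, if ω 0 = z then M x z * (pathW M T ω * W (ω (Fin.last T))) else 0 := by
      intro ω
      simp only [sum_ite_eq, mem_univ, if_true]
      ring
    rw [sum_congr rfl fun ω _ => e2 ω, sum_comm]
    refine sum_congr rfl fun z _ => ?_
    rw [ih, mul_sum]
    exact sum_congr rfl fun ω _ => by split_ifs <;> simp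

lemma iter_one {M : V → V → ℝ} (hM : ∀ x, ∑ y, M x y = 1) (T : ℕ) (x : V) :
    iter M (fun _ => 1) T x = 1 := by
  induction T generalizing x with
  | zero => rfl
  | succ T ih => simp [iter, ih, hM]

lemma sum_pathW {P : V → V → ℝ} (hP : ∀ x, ∑ y, P x y = 1) (T : ℕ) (x : V) :
    ∑ ω : Fin (T + 1) → V, (if ω 0 = x then pathW P T ω else 0) = 1 := by
  have := iter_path P (fun _ => 1) T x
  rw [iter_one hP] at this
  simpa using this.symm

lemma pathW_nonneg {P : V → V → ℝ} (hP : ∀ x y, 0 ≤ P x y) (T : ℕ) (ω : Fin (T + 1) → V) :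
    0 ≤ pathW P T ω := prod_nonneg fun _ _ => hP _ _

/-- edges of a path -/
def pedges {T : ℕ} (ω : Fin (T + 1) → V) : Finset (Edg V) :=
  univ.biUnion fun j : Fin T => {(Sum.inl s(ω j.castSucc, ω j.succ) : Edg V)}

lemma up_biUnion {E ι : Type} [Fintype E] [DecidableEq E] (s : Finset ι) (S : ι → Finset E)
    (F : Finset E) : ∏ i ∈ s, up (S i) F = up (s.biUnion S) F := by
  classical
  induction s using Finset.induction_on with
  | empty => simp [up]
  | insert i s hi ih => rw [prod_insert hi, ih, up_mul_up, biUnion_insert]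

lemma iter_up (P : V → V → ℝ) (W : V → ℝ) (F : Finset (Edg V)) (T : ℕ) (x : V) :
    iter (fun x z => P x z * up {(Sum.inl s(x, z) : Edg V)} F) W T x =
      ∑ ω : Fin (T + 1) → V, (if ω 0 = x then pathW P T ω else 0) *
        (up (pedges ω) F * W (ω (Fin.last T))) := by
  rw [iter_path]
  refine sum_congr rfl fun ω _ => ?_
  split_ifs with h
  · have : pathW (fun x z => P x z * up {(Sum.inl s(x, z) : Edg V)} F) T ω =
        pathW P T ω * up (pedges ω) F := by
      unfold pathW pedges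
      rw [prod_mul_distrib, up_biUnion]
    rw [this]; ring
  · simp

section Main

variable {D : V → ℝ} {C : V → V → ℝ} {n : V → ℝ} {P : V → V → ℝ} {c : ℝ}

/-- expansion to `T` steps -/
noncomputable def Sf (D : V → ℝ) (C : V → V → ℝ) (n : V → ℝ) (P : V → V → ℝ) (T : ℕ)
    (F : Finset (Edg V)) (x : V) : ℝ :=
  iter (fun x z => P x z * up {(Sum.inl s(x, z) : Edg V)} F) (Wf D C n F) T x

lemma CM_Sf (hD : ∀ x, 0 < D x) (hC : ∀ x y, 0 ≤ C x y)
    (hn : ∀ x, 0 ≤ n x) (hpd : ∀ F, (DK D (CF C F)).PosDef) (hP : ∀ x y, 0 ≤ P x y) (T : ℕ) (x : V) :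
    CM (fun F => Sf D C n P T F x) := by
  unfold Sf
  induction T generalizing x with
  | zero => exact CM_Wf hD hC hn hpd x
  | succ T ih =>
    simp only [iter]
    exact CM_sum' _ fun z _ => ((CM_up _).const_mul (hP x z)).mul (ih z)

lemma CM_diff (hD : ∀ x, 0 < D x) (hC : ∀ x y, 0 ≤ C x y)
    (hn : ∀ x, 0 ≤ n x) (hpd : ∀ F, (DK D (CF C F)).PosDef) (hP : ∀ x y, 0 ≤ P x y)
    (hc : 0 ≤ c) (hcP : ∀ x y, c * P x y ≤ (D x)⁻¹ * C x y) (T : ℕ) (x : V) :
    CM (fun F => Wf D C n F x - c ^ T * Sf D C n P T F x) := by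
  induction T generalizing x with
  | zero =>
    refine CM_congr (CM_const le_rfl) fun F => ?_
    simp [Sf, iter]
  | succ T ih =>
    have key : ∀ F, Wf D C n F x - c ^ (T + 1) * Sf D C n P (T + 1) F x =
        ((D x)⁻¹ * n x) * up {(Sum.inr (Sum.inl x) : Edg V)} F +
        (∑ z, ((D x)⁻¹ * C x z - c * P x z) *
          (up {(Sum.inl s(x, z) : Edg V)} F * Wf D C n F z) +
        ∑ z, (c * P x z) * (up {(Sum.inl s(x, z) : Edg V)} F *
          (Wf D C n F z - c ^ T * Sf D C n P T F z))) := by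
      intro F
      rw [Wf_rec hD (hpd F) x]
      have e1 : Sf D C n P (T + 1) F x =
          ∑ z, P x z * up {(Sum.inl s(x, z) : Edg V)} F * Sf D C n P T F z := rfl
      rw [e1, mul_sum, ← sum_add_distrib]
      have e2 : ∀ z, ((D x)⁻¹ * C x z - c * P x z) *
          (up {(Sum.inl s(x, z) : Edg V)} F * Wf D C n F z) +
          (c * P x z) * (up {(Sum.inl s(x, z) : Edg V)} F *
          (Wf D C n F z - c ^ T * Sf D C n P T F z)) =
          (D x)⁻¹ * C x z * (up {(Sum.inl s(x, z) : Edg V)} F * Wf D C n F z) -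
          c ^ (T + 1) * (P x z * up {(Sum.inl s(x, z) : Edg V)} F * Sf D C n P T F z) := by
        intro z; ring
      rw [sum_congr rfl fun z _ => e2 z, sum_sub_distrib]
      ring
    refine CM_congr ?_ key
    refine CM.add ((CM_up _).const_mul (mul_nonneg (inv_nonneg.mpr (hD x).le) (hn x))) (CM.add ?_ ?_)
    · exact CM_sum _ (fun z _ => sub_nonneg.mpr (hcP x z))
        fun z _ => (CM_up _).mul (CM_Wf hD hC hn hpd z)
    · exact CM_sum _ (fun z _ => mul_nonneg hc (hP x z)) fun z _ => (CM_up _).mul (ih z)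

/-- connecting edge sets -/
noncomputable def Ucov (u : V) : Finset (Finset (Edg V)) := by
  classical
  exact univ.filter fun S => ∀ σ : V → ℤˣ, σ ≠ 1 → ∃ e ∈ S, sgE u σ e = -1

lemma mem_Ucov {u : V} {S : Finset (Edg V)} :
    S ∈ Ucov u ↔ ∀ σ : V → ℤˣ, σ ≠ 1 → ∃ e ∈ S, sgE u σ e = -1 := by
  simp [Ucov]

lemma Ucov_up {u : V} : ∀ S ∈ Ucov u, ∀ T, S ⊆ T → T ∈ Ucov u := by
  intro S hS T hST
  rw [mem_Ucov] at hS ⊢
  intro σ hσ
  obtain ⟨e, he, h⟩ := hS σ hσ
  exact ⟨e, hST he, h⟩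

lemma cover_mem_Ucov {u : V} {N T : ℕ} (f : Fin N → Fin (T + 1) → V) (hstart : ∀ i, f i 0 = u)
    (hgood : ∀ v, ∃ i j, f i j = v) :
    (univ.biUnion fun i : Fin N => ({(Sum.inr (Sum.inr ()) : Edg V)} ∪ pedges (f i))) ∈ Ucov u := by
  rw [mem_Ucov]
  intro σ hσ
  by_contra hcon
  push Not at hcon
  have h1 : ∀ e ∈ (univ.biUnion fun i : Fin N => ({(Sum.inr (Sum.inr ()) : Edg V)} ∪ pedges (f i))),
      sgE u σ e = 1 := fun e he => (sgE_pm u σ e).resolve_right (hcon e he)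
  apply hσ
  funext v
  obtain ⟨i, j, hij⟩ := hgood v
  have h2 : ∀ j, ((σ (f i j) : ℤ) : ℝ) = 1 := by
    intro j
    induction j using Fin.induction with
    | zero =>
      rw [hstart]
      have := h1 (Sum.inr (Sum.inr ())) (by
        rw [mem_biUnion]
        exact ⟨i, mem_univ _, by simp⟩)
      exact this
    | succ j ih =>
      have := h1 (Sum.inl s(f i j.castSucc, f i j.succ)) (by
        rw [mem_biUnion]
        refine ⟨i, mem_univ _, ?_⟩
        rw [mem_union]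
        right
        rw [pedges, mem_biUnion]
        exact ⟨j, mem_univ _, by simp⟩)
      simp only [sgE, Sym2.lift_mk] at this
      rw [ih, one_mul] at this
      exact this
  have h3 := h2 j
  rw [hij] at h3
  have h4 : (σ v : ℤ) = 1 := by exact_mod_cast h3
  exact Units.ext h4

lemma CU_pow_ge (u : V) (hD : ∀ x, 0 < D x) (hC : ∀ x y, 0 ≤ C x y)
    (hn : ∀ x, 0 ≤ n x) (hpd : ∀ F, (DK D (CF C F)).PosDef) (hP : ∀ x y, 0 ≤ P x y)
    (hP1 : ∀ x, ∑ y, P x y = 1) (hW1 : ∀ x, Wf D C n univ x = 1) (T N : ℕ) :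
    1 - ncov P N T u ≤ CU (Ucov u) (fun F =>
      (up {(Sum.inr (Sum.inr ()) : Edg V)} F * Sf D C n P T F u) ^ N) := by
  classical
  set p : (Fin (T + 1) → V) → ℝ := fun ω => if ω 0 = u then pathW P T ω else 0 with hp
  have hp0 : ∀ ω, 0 ≤ p ω := fun ω => by
    simp only [hp]; split_ifs
    · exact pathW_nonneg hP T ω
    · exact le_rfl
  set Ψ : (Fin N → Fin (T + 1) → V) → Finset (Edg V) → ℝ := fun f F =>
    up (univ.biUnion fun i : Fin N => ({(Sum.inr (Sum.inr ()) : Edg V)} ∪ pedges (f i))) F *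
      ∏ i, Wf D C n F (f i (Fin.last T)) with hΨ
  have hexp : (fun F => (up {(Sum.inr (Sum.inr ()) : Edg V)} F * Sf D C n P T F u) ^ N) =
      fun F => ∑ f : Fin N → Fin (T + 1) → V, (∏ i, p (f i)) * Ψ f F := by
    ext F
    have e1 : up {(Sum.inr (Sum.inr ()) : Edg V)} F * Sf D C n P T F u =
        ∑ ω : Fin (T + 1) → V, p ω * (up ({(Sum.inr (Sum.inr ()) : Edg V)} ∪ pedges ω) F *
          Wf D C n F (ω (Fin.last T))) := by
      rw [Sf, iter_up, mul_sum]
      refine sum_congr rfl fun ω _ => ?_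
      rw [← up_mul_up]; ring
    rw [e1, Fintype.sum_pow]
    refine sum_congr rfl fun f _ => ?_
    rw [prod_mul_distrib, prod_mul_distrib, hΨ, up_biUnion]
  rw [hexp, CU_sum]
  have hΨCM : ∀ f, CM (Ψ f) := fun f =>
    (CM_up _).mul (CM_prod _ fun i _ => CM_Wf hD hC hn hpd _)
  have hlow : ∀ f : Fin N → Fin (T + 1) → V,
      (∏ i, p (f i)) * (if ∃ v, ∀ i j, f i j ≠ v then 0 else 1) ≤ (∏ i, p (f i)) * CU (Ucov u) (Ψ f) := by
    intro f
    by_cases hs : ∀ i, f i 0 = u
    · refine mul_le_mul_of_nonneg_left ?_ (prod_nonneg fun i _ => hp0 _)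
      split_ifs with hv
      · exact CU_nonneg _ (hΨCM f)
      · push Not at hv
        have := CU_up_mul (Ucov u) Ucov_up (cover_mem_Ucov f hs hv)
          (CM_prod univ fun i _ => CM_Wf hD hC hn hpd (f i (Fin.last T)))
        simp only [hW1, prod_const_one] at this
        exact this
    · push Not at hs
      obtain ⟨i, hi⟩ := hs
      have : ∏ i, p (f i) = 0 := prod_eq_zero (mem_univ i) (by simp [hp, hi])
      rw [this, zero_mul, zero_mul]
  refine le_trans (le_of_eq ?_) (sum_le_sum fun f _ => hlow f)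
  have hsum1 : ∑ f : Fin N → Fin (T + 1) → V, ∏ i, p (f i) = 1 := by
    rw [← Fintype.sum_pow, sum_pathW hP1, one_pow]
  have hnc : ncov P N T u = ∑ f : Fin N → Fin (T + 1) → V,
      (∏ i, p (f i)) * (if ∃ v, ∀ i j, f i j ≠ v then 1 else 0) := by
    rw [ncov]
    refine sum_congr rfl fun f _ => ?_
    by_cases hs : ∀ i, f i 0 = u
    · have : ∏ i, p (f i) = ∏ i, pathW P T (f i) := prod_congr rfl fun i _ => by simp [hp, hs i]
      rw [this]
      simp only [hs, implies_true, true_and]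
      split_ifs <;> simp
    · rw [if_neg (fun h => hs h.1)]
      push Not at hs
      obtain ⟨i, hi⟩ := hs
      have : ∏ i, p (f i) = 0 := prod_eq_zero (mem_univ i) (by simp [hp, hi])
      rw [this, zero_mul]
  calc 1 - ncov P N T u = ∑ f : Fin N → Fin (T + 1) → V, ∏ i, p (f i) -
        ∑ f : Fin N → Fin (T + 1) → V,
          (∏ i, p (f i)) * (if ∃ v, ∀ i j, f i j ≠ v then 1 else 0) := by rw [hsum1, hnc]
    _ = _ := by
      rw [← sum_sub_distrib]
      refine sum_congr rfl fun f _ => ?_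
      split_ifs <;> ring

lemma AF_univ_pos {b : V → ℝ} {a : ℝ} {u : V} (hpd : (DK D C).PosDef) : 0 < AF D C b a u univ := by
  have hΛ' : (DK D (CF C univ)).PosDef := by rw [CF_univ]; exact hpd
  rw [AF_eq hΛ']
  exact mul_pos (Real.exp_pos _) (integral_gdens_pos hΛ')

/-- lower bound for the connected part. -/
theorem CU_AF_ge (u : V) {a s ρ : ℝ} (ha : 0 ≤ a) (hs : 0 ≤ s)
    (hD : ∀ x, 0 < D x) (hC : ∀ x y, 0 ≤ C x y)
    (hn : ∀ x, 0 ≤ n x) (hpd : ∀ F, (DK D (CF C F)).PosDef) (hP : ∀ x y, 0 ≤ P x y)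
    (hP1 : ∀ x, ∑ y, P x y = 1) (hW1 : ∀ x, Wf D C n univ x = 1)
    (hc : 0 ≤ c) (hcP : ∀ x y, c * P x y ≤ (D x)⁻¹ * C x y) (T : ℕ)
    (hq : ∀ N, ncov P N T u ≤ 2 * ρ ^ N) :
    AF D C (fun x => s * n x) a u univ *
      (1 - 2 * Real.exp (-(a * s * c ^ T * (1 - ρ)))) ≤ CU (Ucov u) (AF D C (fun x => s * n x) a u) := by
  set v : Finset (Edg V) → ℝ := up {(Sum.inr (Sum.inr ()) : Edg V)} with hv
  set Q1 : Finset (Edg V) → ℝ := fun F => a * s * c ^ T * (v F * Sf D C n P T F u) with hQ1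
  set Q2 : Finset (Edg V) → ℝ := fun F =>
    (s ^ 2 / 2) * (∑ x, ∑ y, (n x * up {(Sum.inr (Sum.inl x) : Edg V)} F) *
      ((DK D (CF C F))⁻¹ x y * (n y * up {(Sum.inr (Sum.inl y) : Edg V)} F))) +
    ((a * s) * (v F * (Wf D C n F u - c ^ T * Sf D C n P T F u)) +
      (a ^ 2 / 2) * (v F * (v F * (DK D (CF C F))⁻¹ u u))) with hQ2
  have hm0 : 0 ≤ a * s * c ^ T := by positivity
  have hCMQ1 : CM Q1 := ((CM_up _).mul (CM_Sf hD hC hn hpd hP T u)).const_mul hm0
  have hCMQ2 : CM Q2 := by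
    refine CM.add (CM.const_mul (CM_sum' _ fun x _ => CM_sum' _ fun y _ => ?_) (by positivity))
      (CM.add (CM.const_mul ((CM_up _).mul (CM_diff hD hC hn hpd hP hc hcP T u)) (by positivity))
        (CM.const_mul ((CM_up _).mul ((CM_up _).mul (CM_green hD hC hpd u u))) (by positivity)))
    exact ((CM_up _).const_mul (hn x)).mul ((CM_green hD hC hpd x y).mul ((CM_up _).const_mul (hn y)))
  have hQ : ∀ F, (bF (fun x => s * n x) a u F ⬝ᵥ (DK D (CF C F))⁻¹ *ᵥ bF (fun x => s * n x) a u F) / 2 =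
      Q2 F + Q1 F := by
    intro F
    set G := (DK D (CF C F))⁻¹ with hG
    have hsym : ∀ x y, G x y = G y x := pd_inv_symm' (hpd F)
    set nF : V → ℝ := fun x => n x * up {(Sum.inr (Sum.inl x) : Edg V)} F with hnF
    have hb : bF (fun x => s * n x) a u F = s • nF + (a * v F) • Pi.single u 1 := by
      ext x
      simp only [bF, Pi.add_apply, Pi.smul_apply, smul_eq_mul, hnF, hv, up, singleton_subset_iff,
        Pi.single_apply]
      by_cases h1 : (Sum.inr (Sum.inl x) : Edg V) ∈ F <;> by_cases h2 : x = u <;>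
        by_cases h3 : (Sum.inr (Sum.inr ()) : Edg V) ∈ F <;> simp [h1, h2, h3]
    have e1 : nF ⬝ᵥ G *ᵥ nF = ∑ x, ∑ y, nF x * (G x y * nF y) := by
      simp only [dotProduct, mulVec, mul_sum]
    have e2 : (Pi.single u (1 : ℝ) : V → ℝ) ⬝ᵥ G *ᵥ nF = Wf D C n F u := by
      rw [single_one_dotProduct]
      rfl
    have e3 : nF ⬝ᵥ G *ᵥ Pi.single u 1 = Wf D C n F u := by
      rw [← e2, hG]
      exact pd_comm (hpd F).inv _ _
    have e4 : (Pi.single u (1 : ℝ) : V → ℝ) ⬝ᵥ G *ᵥ Pi.single u 1 = G u u := by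
      simp
    rw [hb, mulVec_add, mulVec_smul, mulVec_smul, add_dotProduct, dotProduct_add, dotProduct_add,
      smul_dotProduct, smul_dotProduct, smul_dotProduct, smul_dotProduct, dotProduct_smul,
      dotProduct_smul, dotProduct_smul, dotProduct_smul, e1, e2, e3, e4]
    simp only [smul_eq_mul, hQ1, hQ2, hnF]
    ring
  set B : Finset (Edg V) → ℝ := AF D C (fun _ => 0) 0 u with hB
  have hCMB : CM B := CM_AF hpd hC (fun _ => le_rfl) le_rfl
  have hA : ∀ F, AF D C (fun x => s * n x) a u F = (B F * Real.exp (Q2 F)) * Real.exp (Q1 F) := by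
    intro F
    have hb0 : bF (fun _ : V => (0 : ℝ)) 0 u F = 0 := by
      ext x; simp [bF]
    rw [AF_eq (hpd F), hQ, hB, AF_eq (hpd F), hb0, Real.exp_add]
    simp
    ring
  have hAfun : AF D C (fun x => s * n x) a u = fun F => (B F * Real.exp (Q2 F)) * Real.exp (Q1 F) :=
    funext hA
  have hQ1u : Q1 univ = a * s * c ^ T := by
    simp only [hQ1, hv]
    have : Sf D C n P T univ u = 1 := by
      have e : Sf D C n P T univ u = iter P (fun _ => 1) T u := by
        unfold Sf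
        congr 1
        · ext x z; simp [up]
        · ext x; exact hW1 x
      rw [e, iter_one hP1]
    rw [this]
    simp [up]
  have hexp : Real.exp (a * s * c ^ T) - 2 * Real.exp (a * s * c ^ T * ρ) ≤
      CU (Ucov u) (fun F => Real.exp (Q1 F)) := by
    have h1 : Tendsto (fun M => CU (Ucov u) (fun F => ∑ i ∈ range M, ((Nat.factorial i : ℝ))⁻¹ * Q1 F ^ i))
        atTop (𝓝 (CU (Ucov u) (fun F => Real.exp (Q1 F)))) :=
      CU_tendsto _ fun F => exp_tendsto (Q1 F)
    have h2 : Tendsto (fun M => (∑ i ∈ range M, ((Nat.factorial i : ℝ))⁻¹ * (a * s * c ^ T) ^ i) -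
        2 * ∑ i ∈ range M, ((Nat.factorial i : ℝ))⁻¹ * (a * s * c ^ T * ρ) ^ i) atTop
        (𝓝 (Real.exp (a * s * c ^ T) - 2 * Real.exp (a * s * c ^ T * ρ))) :=
      (exp_tendsto _).sub ((exp_tendsto _).const_mul 2)
    refine le_of_tendsto_of_tendsto' h2 h1 fun M => ?_
    rw [CU_sum, mul_sum, ← sum_sub_distrib]
    refine sum_le_sum fun i _ => ?_
    have h3 : CU (Ucov u) (fun F => Q1 F ^ i) = (a * s * c ^ T) ^ i *
        CU (Ucov u) (fun F => (v F * Sf D C n P T F u) ^ i) := by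
      have := CU_sum (Ucov u) (univ : Finset Unit) (fun _ F => (v F * Sf D C n P T F u) ^ i)
        (fun _ => (a * s * c ^ T) ^ i)
      simp only [univ_unique, sum_singleton] at this
      rw [← this]
      congr 1
      ext F
      simp only [hQ1]
      rw [mul_pow]
    rw [h3]
    have h4 := CU_pow_ge u hD hC hn hpd hP hP1 hW1 T i
    have h5 := hq i
    have h6 : 1 - 2 * ρ ^ i ≤ CU (Ucov u) (fun F => (v F * Sf D C n P T F u) ^ i) := by
      refine le_trans (by linarith) h4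
    have h7 : (0 : ℝ) ≤ ((Nat.factorial i : ℝ))⁻¹ * (a * s * c ^ T) ^ i := by positivity
    calc ((Nat.factorial i : ℝ))⁻¹ * (a * s * c ^ T) ^ i - 2 * (((Nat.factorial i : ℝ))⁻¹ * (a * s * c ^ T * ρ) ^ i)
        = (((Nat.factorial i : ℝ))⁻¹ * (a * s * c ^ T) ^ i) * (1 - 2 * ρ ^ i) := by
          rw [mul_pow]; ring
      _ ≤ (((Nat.factorial i : ℝ))⁻¹ * (a * s * c ^ T) ^ i) *
            CU (Ucov u) (fun F => (v F * Sf D C n P T F u) ^ i) := mul_le_mul_of_nonneg_left h6 h7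
      _ = _ := by ring
  have hBQ := hCMB.mul hCMQ2.exp
  have h8 := CU_mul_ge (Ucov u) Ucov_up hBQ hCMQ1.exp
  have h9 : AF D C (fun x => s * n x) a u univ *
      (1 - 2 * Real.exp (-(a * s * c ^ T * (1 - ρ)))) =
      (B univ * Real.exp (Q2 univ)) * (Real.exp (a * s * c ^ T) - 2 * Real.exp (a * s * c ^ T * ρ)) := by
    rw [hA univ, hQ1u]
    have : Real.exp (a * s * c ^ T) * Real.exp (-(a * s * c ^ T * (1 - ρ))) = Real.exp (a * s * c ^ T * ρ) := by
      rw [← Real.exp_add]; congr 1; ring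
    rw [← this]
    ring
  rw [h9, hAfun]
  refine le_trans ?_ h8
  exact mul_le_mul_of_nonneg_left hexp (hBQ.nonneg univ)

end Main

/-- Inequality (I). -/
theorem ineq1 {P : V → V → ℝ} {π n : V → ℝ} {lam a s ρ : ℝ}
    (hP : ∀ x y, 0 ≤ P x y) (hP1 : ∀ x, ∑ y, P x y = 1) (hπ : ∀ x, 0 < π x)
    (hnet : IsNet (fun x y => π x * P x y))
    (hn : ∀ x, 0 ≤ n x) (hn0 : ∃ x, 0 < n x) (hlam : 0 ≤ lam) (hnle : ∀ x, n x ≤ lam * π x)
    (ha : 0 ≤ a) (hs : 0 ≤ s) (u : V) (T : ℕ) (hq : ∀ N, ncov P N T u ≤ 2 * ρ ^ N) :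
    1 - 2 * Real.exp (-(a * s * ((1 + lam)⁻¹) ^ T * (1 - ρ))) ≤
      (multivariateGaussian 0 (Lam (fun x y => π x * P x y) n)⁻¹).real
        {φ : EuclideanSpace ℝ V | ∀ x, 0 ≤ φ x + (a * (Lam (fun x y => π x * P x y) n)⁻¹ x u + s)} := by
  set C : V → V → ℝ := fun x y => π x * P x y with hCdef
  have hC : ∀ x y, 0 ≤ C x y := hnet.nonneg
  set D : V → ℝ := fun x => π x + n x with hDdef
  have hD : ∀ x, 0 < D x := fun x => add_pos_of_pos_of_nonneg (hπ x) (hn x)
  have hLam : Lam C n = DK D C := by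
    rw [Lam_eq_DK]
    congr 1
    ext x
    simp only [hCdef, hDdef, ← mul_sum, hP1, mul_one]
  have hpd0 : (DK D C).PosDef := hLam ▸ Lam_posDef hnet hn hn0
  have hCFsym : ∀ F x y, CF C F x y = CF C F y x := by
    intro F x y
    unfold CF
    rw [Sym2.eq_swap, hnet.symm x y]
  have hpd : ∀ F, (DK D (CF C F)).PosDef := fun F =>
    DK_posDef_of_le hpd0 (hCFsym F) (CF_nonneg hC F) fun x y => by
      unfold CF; split_ifs
      · exact le_rfl
      · exact hC x y
  have hone : (DK D C)⁻¹ *ᵥ n = 1 := by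
    have h1 : DK D C *ᵥ 1 = n := by rw [← hLam]; exact Lam_mulVec_one C n
    rw [← h1, pd_inv_mulVec hpd0]
  have hW1 : ∀ x, Wf D C n univ x = 1 := by
    intro x
    have h1 := congrFun hone x
    simp only [Wf, CF_univ, up, subset_univ, if_true, mul_one]
    exact h1
  have hlam1 : 0 < 1 + lam := by linarith
  have hcP : ∀ x y, (1 + lam)⁻¹ * P x y ≤ (D x)⁻¹ * C x y := by
    intro x y
    have h1 : D x ≤ (1 + lam) * π x := by
      simp only [hDdef]; linarith [hnle x]
    have h2 : (1 + lam)⁻¹ ≤ (D x)⁻¹ * π x := by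
      rw [inv_mul_eq_div, le_div_iff₀ (hD x), inv_mul_le_iff₀ hlam1]
      exact h1
    calc (1 + lam)⁻¹ * P x y ≤ ((D x)⁻¹ * π x) * P x y := mul_le_mul_of_nonneg_right h2 (hP x y)
      _ = (D x)⁻¹ * C x y := by simp only [hCdef]; ring
  have hlow := CU_AF_ge (c := (1 + lam)⁻¹) u ha hs hD hC hn hpd hP hP1 hW1 (inv_nonneg.mpr hlam1.le) hcP T hq
  have hup := CU_AF_le hpd hC (fun x => mul_nonneg hs (hn x)) ha (Ucov u) Ucov_up
    (fun S hS σ hσ => (mem_Ucov.mp hS) σ hσ) (b := fun x => s * n x) (a := a) (u := u)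
  rw [pos_part_eq _ _ _ hpd0] at hup
  have hh : ∀ x, ((DK D C)⁻¹ *ᵥ bF (fun x => s * n x) a u univ) x = a * (DK D C)⁻¹ x u + s := by
    intro x
    have hb : bF (fun x => s * n x) a u univ = s • n + a • Pi.single u 1 := by
      ext x
      rw [bF_univ]
      simp [Pi.single_apply]
    rw [hb, mulVec_add, mulVec_smul, mulVec_smul, hone]
    simp
    ring
  simp only [hh] at hup
  rw [hLam]
  have hpos := AF_univ_pos (b := fun x => s * n x) (a := a) (u := u) hpd0
  exact le_of_mul_le_mul_left (hlow.trans hup) hpos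

end Pool.Agent.Speedup
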