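import Mathlib
import Pool.Agent.Speedup.Paths
import Pool.Agent.Speedup.Ineq1

set_option autoImplicit false
set_option linter.unusedSectionVars false

/-!
Properties of the non-cover probabilities.
-/

open Finset

namespace Pool.Agent.Speedup

variable {V : Type} [Fintype V] [DecidableEq V] {P : V → V → ℝ}

/-- path weight with prescribed start -/
noncomputable def pw (P : V → V → ℝ) (T : ℕ) (u : V) (ω : Fin (T + 1) → V) : ℝ :=
  if ω 0 = u then pathW P T ω else 0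

open Classical in
lemma ncov_eq (P : V → V → ℝ) (N T : ℕ) (u : V) :
    ncov P N T u = ∑ ω : Fin N → Fin (T + 1) → V,
      (∏ i, pw P T u (ω i)) * (if ∃ v, ∀ i j, ω i j ≠ v then 1 else 0) := by
  rw [ncov]
  refine sum_congr rfl fun f _ => ?_
  by_cases hs : ∀ i, f i 0 = u
  · have : ∏ i, pw P T u (f i) = ∏ i, pathW P T (f i) := prod_congr rfl fun i _ => by simp [pw, hs i]
    rw [this]
    simp only [hs, implies_true, true_and]
    split_ifs <;> simp
  · rw [if_neg (fun h => hs h.1)]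
    push Not at hs
    obtain ⟨i, hi⟩ := hs
    have : ∏ i, pw P T u (f i) = 0 := prod_eq_zero (mem_univ i) (by simp [pw, hi])
    rw [this, zero_mul]

lemma pw_nonneg (hP : ∀ x y, 0 ≤ P x y) (T : ℕ) (u : V) (ω : Fin (T + 1) → V) : 0 ≤ pw P T u ω := by
  unfold pw; split_ifs
  · exact pathW_nonneg hP T ω
  · exact le_rfl

lemma sum_pw (hP1 : ∀ x, ∑ y, P x y = 1) (T : ℕ) (u : V) : ∑ ω, pw P T u ω = 1 := sum_pathW hP1 T u

lemma sum_prod_pw (hP1 : ∀ x, ∑ y, P x y = 1) (N T : ℕ) (u : V) :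
    ∑ ω : Fin N → Fin (T + 1) → V, ∏ i, pw P T u (ω i) = 1 := by
  rw [← Fintype.sum_pow, sum_pw hP1, one_pow]

lemma ncov_nonneg (hP : ∀ x y, 0 ≤ P x y) (N T : ℕ) (u : V) : 0 ≤ ncov P N T u := by
  classical
  rw [ncov_eq]
  exact sum_nonneg fun ω _ => mul_nonneg (prod_nonneg fun i _ => pw_nonneg hP _ _ _)
    (by split_ifs <;> norm_num)

lemma ncov_le_one (hP : ∀ x y, 0 ≤ P x y) (hP1 : ∀ x, ∑ y, P x y = 1) (N T : ℕ) (u : V) :
    ncov P N T u ≤ 1 := by
  classical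
  rw [ncov_eq]
  refine le_trans (sum_le_sum fun ω _ => ?_) (sum_prod_pw hP1 N T u).le
  exact mul_le_of_le_one_right (prod_nonneg fun i _ => pw_nonneg hP _ _ _)
    (by split_ifs <;> norm_num)

lemma ncov_add (hP : ∀ x y, 0 ≤ P x y) (N M T : ℕ) (u : V) :
    ncov P (N + M) T u ≤ ncov P N T u * ncov P M T u := by
  classical
  rw [ncov_eq, ncov_eq, ncov_eq, sum_mul_sum,
    ← Equiv.sum_comp (Fin.appendEquiv (α := Fin (T + 1) → V) N M), Fintype.sum_prod_type]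
  refine sum_le_sum fun ω₁ _ => sum_le_sum fun ω₂ _ => ?_
  have e : (Fin.appendEquiv (α := Fin (T + 1) → V) N M) (ω₁, ω₂) = Fin.append ω₁ ω₂ := rfl
  rw [e, Fin.prod_univ_add]
  simp only [Fin.append_left, Fin.append_right]
  have h1 : (0 : ℝ) ≤ ∏ i, pw P T u (ω₁ i) := prod_nonneg fun i _ => pw_nonneg hP _ _ _
  have h2 : (0 : ℝ) ≤ ∏ i, pw P T u (ω₂ i) := prod_nonneg fun i _ => pw_nonneg hP _ _ _
  by_cases h : ∃ v, ∀ i j, (Fin.append ω₁ ω₂ : Fin (N + M) → Fin (T + 1) → V) i j ≠ v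
  · obtain ⟨v, hv⟩ := h
    have h3 : ∃ v, ∀ i j, ω₁ i j ≠ v := ⟨v, fun i j => by
      have := hv (Fin.castAdd M i) j
      rwa [Fin.append_left] at this⟩
    have h4 : ∃ v, ∀ i j, ω₂ i j ≠ v := ⟨v, fun i j => by
      have := hv (Fin.natAdd N i) j
      rwa [Fin.append_right] at this⟩
    rw [if_pos ⟨v, hv⟩, if_pos h3, if_pos h4]
    simp
  · rw [if_neg h, mul_zero]
    exact mul_nonneg (mul_nonneg h1 (by split_ifs <;> norm_num))
      (mul_nonneg h2 (by split_ifs <;> norm_num))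

lemma pw_snoc (P : V → V → ℝ) {t : ℕ} (u v : V) (ω : Fin (t + 1) → V) :
    pw P (t + 1) u (Fin.snoc ω v : Fin (t + 2) → V) = pw P t u ω * P (ω (Fin.last t)) v := by
  unfold pw pathW
  have h0 : (Fin.snoc ω v : Fin (t + 2) → V) 0 = ω 0 := by
    have : (0 : Fin (t + 2)) = Fin.castSucc 0 := rfl
    rw [this, Fin.snoc_castSucc (α := fun _ => V)]
  rw [h0]
  split_ifs with h
  · rw [Fin.prod_univ_castSucc]
    congr 1
    · refine prod_congr rfl fun j _ => ?_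
      rw [Fin.succ_castSucc, Fin.snoc_castSucc (α := fun _ => V), Fin.snoc_castSucc (α := fun _ => V)]
    · rw [Fin.snoc_castSucc (α := fun _ => V)]
      rw [show (Fin.last t).succ = Fin.last (t + 1) from rfl, Fin.snoc_last (α := fun _ => V)]
  · simp

lemma ncov_succ_le (hP : ∀ x y, 0 ≤ P x y) (hP1 : ∀ x, ∑ y, P x y = 1) (N t : ℕ) (u : V) :
    ncov P N (t + 1) u ≤ ncov P N t u := by
  classical
  rw [ncov_eq, ncov_eq]
  let e : (Fin N → V) × (Fin N → Fin (t + 1) → V) ≃ (Fin N → Fin (t + 2) → V) :=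
    (Equiv.arrowProdEquivProdArrow (Fin N) (fun _ => V) (fun _ => Fin (t + 1) → V)).symm.trans
      (Equiv.piCongrRight fun _ => Fin.snocEquiv (fun _ : Fin (t + 2) => V))
  have he : ∀ a b i, e (a, b) i = Fin.snoc (b i) (a i) := fun a b i => rfl
  rw [← Equiv.sum_comp e, Fintype.sum_prod_type, sum_comm]
  refine sum_le_sum fun b _ => ?_
  have h1 : ∀ a : Fin N → V, (∏ i, pw P (t + 1) u (e (a, b) i)) *
      (if ∃ v, ∀ i j, e (a, b) i j ≠ v then (1 : ℝ) else 0) ≤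
      ((∏ i, pw P t u (b i)) * (if ∃ v, ∀ i j, b i j ≠ v then 1 else 0)) *
        ∏ i, P (b i (Fin.last t)) (a i) := by
    intro a
    simp only [he, pw_snoc, prod_mul_distrib]
    have h2 : (0 : ℝ) ≤ ∏ i, pw P t u (b i) := prod_nonneg fun i _ => pw_nonneg hP _ _ _
    have h3 : (0 : ℝ) ≤ ∏ i, P (b i (Fin.last t)) (a i) := prod_nonneg fun i _ => hP _ _
    have h4 : (if ∃ v, ∀ i j, (Fin.snoc (b i) (a i) : Fin (t + 2) → V) j ≠ v then (1 : ℝ) else 0) ≤
        (if ∃ v, ∀ i j, b i j ≠ v then 1 else 0) := by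
      by_cases h : ∃ v, ∀ i j, (Fin.snoc (b i) (a i) : Fin (t + 2) → V) j ≠ v
      · obtain ⟨v, hv⟩ := h
        have : ∃ v, ∀ i j, b i j ≠ v := ⟨v, fun i j => by
          have := hv i j.castSucc
          rwa [Fin.snoc_castSucc (α := fun _ => V)] at this⟩
        rw [if_pos ⟨v, hv⟩, if_pos this]
      · rw [if_neg h]; split_ifs <;> norm_num
    calc _ ≤ ((∏ i, pw P t u (b i)) * ∏ i, P (b i (Fin.last t)) (a i)) *
        (if ∃ v, ∀ i j, b i j ≠ v then (1 : ℝ) else 0) :=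
          mul_le_mul_of_nonneg_left h4 (mul_nonneg h2 h3)
      _ = _ := by ring
  refine (sum_le_sum fun a _ => h1 a).trans ?_
  rw [← mul_sum]
  have h5 : ∑ a : Fin N → V, ∏ i, P (b i (Fin.last t)) (a i) = 1 := by
    have := Finset.prod_univ_sum (fun _ : Fin N => (univ : Finset V)) (fun i v => P (b i (Fin.last t)) v)
    rw [Fintype.piFinset_univ] at this
    rw [← this]
    simp [hP1]
  rw [h5, mul_one]

lemma ncov_antitone (hP : ∀ x y, 0 ≤ P x y) (hP1 : ∀ x, ∑ y, P x y = 1) (N : ℕ) (u : V) :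
    Antitone (fun t => ncov P N t u) := antitone_nat_of_succ_le fun t => ncov_succ_le hP hP1 N t u

lemma ncov_mul (hP : ∀ x y, 0 ≤ P x y) (hP1 : ∀ x, ∑ y, P x y = 1) (k T j : ℕ) (u : V) :
    ncov P (k * j) T u ≤ ncov P k T u ^ j := by
  induction j with
  | zero => simpa using ncov_le_one hP hP1 _ T u
  | succ j ih =>
    rw [mul_add, mul_one, pow_succ]
    exact (ncov_add hP _ _ _ _).trans (mul_le_mul_of_nonneg_right ih (ncov_nonneg hP _ _ _))

lemma ncov_decay (hP : ∀ x y, 0 ≤ P x y) (hP1 : ∀ x, ∑ y, P x y = 1) {k : ℕ} (hk : 1 ≤ k) {T : ℕ} {u : V}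
    (hcov : ncov P k T u ≤ 1 / 2) (N : ℕ) : ncov P N T u ≤ 2 * (1 - 1 / (2 * (k : ℝ))) ^ N := by
  have hk' : (1 : ℝ) ≤ k := by exact_mod_cast hk
  set ρ : ℝ := 1 - 1 / (2 * (k : ℝ)) with hρ
  have h0 : 0 ≤ 1 / (2 * (k : ℝ)) := by positivity
  have h1 : 1 / (2 * (k : ℝ)) ≤ 1 / 2 := by
    apply one_div_le_one_div_of_le <;> linarith
  have hρ0 : 0 ≤ ρ := by rw [hρ]; linarith
  have hρ1 : ρ ≤ 1 := by rw [hρ]; linarith
  have hρk : 1 / 2 ≤ ρ ^ k := by
    have := one_add_mul_le_pow (a := -(1 / (2 * (k : ℝ)))) (by linarith) k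
    have e : 1 + (k : ℝ) * -(1 / (2 * (k : ℝ))) = 1 / 2 := by
      field_simp; norm_num
    rw [e] at this
    rw [hρ, sub_eq_add_neg]; exact this
  have hN : N = k * (N / k) + N % k := (Nat.div_add_mod N k).symm
  have hr : N % k < k := Nat.mod_lt _ (by omega)
  have h2 : ncov P N T u ≤ ncov P (k * (N / k)) T u * ncov P (N % k) T u := by
    conv_lhs => rw [hN]
    exact ncov_add hP _ _ _ _
  have h3 : ncov P N T u ≤ (1 / 2) ^ (N / k) := by
    refine h2.trans ?_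
    refine (mul_le_of_le_one_right (ncov_nonneg hP _ _ _) (ncov_le_one hP hP1 _ _ _)).trans ?_
    refine (ncov_mul hP hP1 k T (N / k) u).trans ?_
    exact pow_le_pow_left₀ (ncov_nonneg hP _ _ _) hcov _
  refine h3.trans ?_
  have h4 : (1 / 2 : ℝ) ^ (N / k) ≤ (ρ ^ k) ^ (N / k) := pow_le_pow_left₀ (by norm_num) hρk _
  have h5 : 1 / 2 ≤ ρ ^ (N % k) := hρk.trans (pow_le_pow_of_le_one hρ0 hρ1 hr.le)
  have h6 : ρ ^ N = (ρ ^ k) ^ (N / k) * ρ ^ (N % k) := by
    rw [← pow_mul, ← pow_add, ← hN]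
  rw [h6]
  have h7 : 0 ≤ (ρ ^ k) ^ (N / k) := by positivity
  nlinarith

end Pool.Agent.Speedup
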