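import Mathlib
import Pool.Agent.Speedup.Cover

set_option autoImplicit false
set_option linter.unusedSectionVars false

/-!
Averaging over the starting point.
-/

open Finset Matrix MeasureTheory ProbabilityTheory WithLp Filter Topology
open scoped ENNReal RealInnerProductSpace

namespace Pool.Agent.Speedup

variable {V : Type} [Fintype V] [DecidableEq V]

lemma gauss_neg {S : Matrix V V ℝ} (hS : S.PosSemidef) :
    (multivariateGaussian (0 : EuclideanSpace ℝ V) S).map (fun x => -x) =
      multivariateGaussian 0 S := by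
  have h := gauss_map hS (-1 : Matrix V V ℝ)
  have e1 : (fun x : EuclideanSpace ℝ V => (toLp 2 ((-1 : Matrix V V ℝ) *ᵥ x.ofLp) : EuclideanSpace ℝ V)) =
      fun x => -x := by
    ext x i
    simp [Matrix.neg_mulVec]
  rw [e1] at h
  rw [h]
  congr 1
  simp

lemma measurableSet_shift (h : V → ℝ) :
    MeasurableSet {φ : EuclideanSpace ℝ V | ∀ x, 0 ≤ φ x + h x} := by
  have : {φ : EuclideanSpace ℝ V | ∀ x, 0 ≤ φ x + h x} = ⋂ x, {φ | 0 ≤ φ x + h x} := by ext; simp
  rw [this]
  exact MeasurableSet.iInter fun x => measurableSet_le measurable_const (by fun_prop)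

lemma measurableSet_bad (h : V → ℝ) :
    MeasurableSet {φ : EuclideanSpace ℝ V | ∃ x, h x < |φ x|} := by
  have : {φ : EuclideanSpace ℝ V | ∃ x, h x < |φ x|} = ⋃ x, {φ | h x < |φ x|} := by ext; simp
  rw [this]
  exact MeasurableSet.iUnion fun x => measurableSet_lt measurable_const (by fun_prop)

/-- two-sided version -/
lemma bad_le {S : Matrix V V ℝ} (hS : S.PosSemidef) (h : V → ℝ) {δ : ℝ}
    (hδ : 1 - δ ≤ (multivariateGaussian (0 : EuclideanSpace ℝ V) S).real
      {φ : EuclideanSpace ℝ V | ∀ x, 0 ≤ φ x + h x}) :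
    (multivariateGaussian (0 : EuclideanSpace ℝ V) S).real {φ | ∃ x, h x < |φ x|} ≤ 2 * δ := by
  set μ := multivariateGaussian (0 : EuclideanSpace ℝ V) S with hμ
  set G : Set (EuclideanSpace ℝ V) := {φ | ∀ x, 0 ≤ φ x + h x} with hG
  have hGm : MeasurableSet G := measurableSet_shift h
  have h1 : μ.real Gᶜ ≤ δ := by
    rw [measureReal_compl hGm]
    have : μ.real Set.univ = 1 := by simp
    rw [this]; linarith
  have h2 : μ.real ((fun x => -x) ⁻¹' Gᶜ) = μ.real Gᶜ := by
    have : μ.map (fun x => -x) = μ := gauss_neg hS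
    conv_rhs => rw [← this]
    rw [map_measureReal_apply (by fun_prop) hGm.compl]
  have hsub : {φ : EuclideanSpace ℝ V | ∃ x, h x < |φ x|} ⊆ Gᶜ ∪ ((fun x => -x) ⁻¹' Gᶜ) := by
    intro φ hφ
    obtain ⟨x, hx⟩ := hφ
    rcases lt_abs.mp hx with h3 | h3
    · right
      simp only [hG, Set.mem_preimage, Set.mem_compl_iff, Set.mem_ofPred_eq, not_forall, not_le]
      refine ⟨x, ?_⟩
      have : (-φ) x = - φ x := rfl
      rw [this]; linarith
    · left
      simp only [hG, Set.mem_compl_iff, Set.mem_ofPred_eq, not_forall, not_le]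
      exact ⟨x, by linarith⟩
  calc μ.real {φ | ∃ x, h x < |φ x|} ≤ μ.real (Gᶜ ∪ ((fun x => -x) ⁻¹' Gᶜ)) :=
        measureReal_mono hsub
    _ ≤ μ.real Gᶜ + μ.real ((fun x => -x) ⁻¹' Gᶜ) := measureReal_union_le _ _
    _ ≤ 2 * δ := by rw [h2]; linarith

/-- Part (B). -/
theorem partB {P : V → V → ℝ} {π n : V → ℝ} {L : ℝ}
    (hP : ∀ x y, 0 ≤ P x y) (hP1 : ∀ x, ∑ y, P x y = 1) (hπ : ∀ x, 0 < π x)
    (hnet : IsNet (fun x y => π x * P x y)) {k T : ℕ} (hk : 1 ≤ k) (hT : 1 ≤ T)
    (hcov : ∀ u, ncov P k T u ≤ 1 / 2)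
    (hn : ∀ x, 0 ≤ n x) (hnle : ∀ x, n x ≤ (1 / (T : ℝ)) * π x) (hN : 0 < ∑ x, n x)
    (hL : 0 < L) :
    (multivariateGaussian 0 (Lam (fun x y => π x * P x y) n)⁻¹).real
        {φ : EuclideanSpace ℝ V | ∃ x, 4 * √(Real.exp 1 * L * k / ∑ x, n x) < |φ x|} ≤
      8 * Real.exp (-(L / 2)) := by
  set C : V → V → ℝ := fun x y => π x * P x y with hCdef
  have hn0 : ∃ x, 0 < n x := by
    by_contra hcon
    push Not at hcon
    have : ∑ x, n x ≤ 0 := sum_nonpos fun x _ => hcon x
    linarith
  have hpd : (Lam C n).PosDef := Lam_posDef hnet hn hn0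
  set N : ℝ := ∑ x, n x with hNdef
  set s : ℝ := √(Real.exp 1 * L * k / N) with hs
  have hk' : (1 : ℝ) ≤ k := by exact_mod_cast hk
  have hT' : (1 : ℝ) ≤ T := by exact_mod_cast hT
  have harg : 0 < Real.exp 1 * L * k / N := by positivity
  have hspos : 0 < s := Real.sqrt_pos.mpr harg
  have hs2 : s ^ 2 = Real.exp 1 * L * k / N := Real.sq_sqrt harg.le
  set a : ℝ := s * N with ha
  have hapos : 0 < a := mul_pos hspos hN
  set G := (Lam C n)⁻¹ with hG
  set μ := multivariateGaussian (0 : EuclideanSpace ℝ V) G with hμ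
  set h : V → V → ℝ := fun u x => a * G x u + s with hh
  -- the failure probability for each start
  have hbad : ∀ u, μ.real {φ | ∃ x, h u x < |φ x|} ≤ 4 * Real.exp (-(L / 2)) := by
    intro u
    have h1 := ineq1 (ρ := 1 - 1 / (2 * (k : ℝ))) (lam := 1 / (T : ℝ)) (a := a) (s := s)
      hP hP1 hπ hnet hn hn0 (by positivity) hnle hapos.le hspos.le u T
      (fun N => ncov_decay hP hP1 hk (hcov u) N)
    have h2 := bad_le hpd.inv.posSemidef (h u) h1
    refine h2.trans ?_
    have h3 : L / 2 ≤ a * s * ((1 + 1 / (T : ℝ))⁻¹) ^ T * (1 - (1 - 1 / (2 * (k : ℝ)))) := by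
      have e1 : a * s = Real.exp 1 * L * k := by
        rw [ha]
        have : s * N * s = s ^ 2 * N := by ring
        rw [this, hs2]; field_simp
      have e2 : (1 + 1 / (T : ℝ)) ^ T ≤ Real.exp 1 := by
        have h4 : 1 + 1 / (T : ℝ) ≤ Real.exp (1 / (T : ℝ)) := by
          have := Real.add_one_le_exp (1 / (T : ℝ)); linarith
        calc (1 + 1 / (T : ℝ)) ^ T ≤ (Real.exp (1 / (T : ℝ))) ^ T :=
              pow_le_pow_left₀ (by positivity) h4 _
          _ = Real.exp 1 := by
            rw [← Real.exp_nat_mul]; congr 1; field_simp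
      have e3 : (Real.exp 1)⁻¹ ≤ ((1 + 1 / (T : ℝ))⁻¹) ^ T := by
        rw [inv_pow]
        exact inv_anti₀ (by positivity) e2
      have e4 : (Real.exp 1 * L * k) * (Real.exp 1)⁻¹ ≤ a * s * ((1 + 1 / (T : ℝ))⁻¹) ^ T := by
        rw [e1]; exact mul_le_mul_of_nonneg_left e3 (by positivity)
      have e5 : (Real.exp 1 * L * k) * (Real.exp 1)⁻¹ = L * k := by
        field_simp
      rw [e5] at e4
      have e6 : (1 : ℝ) - (1 - 1 / (2 * (k : ℝ))) = 1 / (2 * (k : ℝ)) := by ring
      rw [e6]
      calc L / 2 = (L * k) * (1 / (2 * (k : ℝ))) := by field_simp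
        _ ≤ _ := mul_le_mul_of_nonneg_right e4 (by positivity)
    have h4 : Real.exp (-(a * s * ((1 + 1 / (T : ℝ))⁻¹) ^ T * (1 - (1 - 1 / (2 * (k : ℝ)))))) ≤
        Real.exp (-(L / 2)) := Real.exp_le_exp.mpr (by linarith)
    linarith
  -- averaging
  set E : Set (EuclideanSpace ℝ V) := {φ | ∃ x, 4 * s < |φ x|} with hE
  set Bd : V → Set (EuclideanSpace ℝ V) := fun u => {φ | ∃ x, h u x < |φ x|} with hBd
  have hEm : MeasurableSet E := measurableSet_bad _
  have hBm : ∀ u, MeasurableSet (Bd u) := fun u => measurableSet_bad _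
  have hcol : ∀ x, ∑ u, n u * G x u = 1 := by
    intro x
    have h1 : G *ᵥ n = 1 := by
      have h2 : Lam C n *ᵥ 1 = n := Lam_mulVec_one C n
      calc G *ᵥ n = G *ᵥ (Lam C n *ᵥ 1) := by rw [h2]
        _ = 1 := pd_inv_mulVec hpd 1
    have h3 := congrFun h1 x
    simp only [mulVec, dotProduct, Pi.one_apply] at h3
    rw [← h3]
    exact sum_congr rfl fun u _ => mul_comm _ _
  have hpt : ∀ φ, E.indicator (fun _ => N / 2) φ ≤ ∑ u, n u * (Bd u).indicator (fun _ => (1 : ℝ)) φ := by
    intro φ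
    by_cases hφ : φ ∈ E
    · rw [Set.indicator_of_mem hφ]
      obtain ⟨x, hx⟩ := hφ
      have h1 : ∀ u, n u * (1 - h u x / (4 * s)) ≤ n u * (Bd u).indicator (fun _ => (1 : ℝ)) φ := by
        intro u
        refine mul_le_mul_of_nonneg_left ?_ (hn u)
        by_cases hu : φ ∈ Bd u
        · rw [Set.indicator_of_mem hu]
          have : 0 ≤ h u x / (4 * s) := by
            refine div_nonneg ?_ (by positivity)
            exact add_nonneg (mul_nonneg hapos.le
              (mmatrix_inv_nonneg hpd (Lam_off hnet.nonneg n) x u)) hspos.le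
          linarith
        · rw [Set.indicator_of_notMem hu]
          have h2 : |φ x| ≤ h u x := by
            by_contra hcon
            exact hu ⟨x, not_le.mp hcon⟩
          have h3 : 1 ≤ h u x / (4 * s) := by
            rw [one_le_div (by positivity)]; linarith
          linarith
      refine le_trans (le_of_eq ?_) (sum_le_sum fun u _ => h1 u)
      have h2 : ∑ u, n u * (1 - h u x / (4 * s)) =
          N - (a * (∑ u, n u * G x u) + s * N) / (4 * s) := by
        simp only [hh, mul_sub, mul_one, sum_sub_distrib]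
        congr 1
        rw [mul_sum, hNdef, mul_sum, ← sum_add_distrib, sum_div]
        refine sum_congr rfl fun u _ => ?_
        ring
      rw [h2, hcol, ha]
      field_simp
      ring
    · rw [Set.indicator_of_notMem hφ]
      refine sum_nonneg fun u _ => mul_nonneg (hn u) (Set.indicator_nonneg (fun _ _ => zero_le_one) _)
  have hint : ∫ φ, E.indicator (fun _ => N / 2) φ ∂μ ≤
      ∫ φ, ∑ u, n u * (Bd u).indicator (fun _ => (1 : ℝ)) φ ∂μ := by
    refine integral_mono ((integrable_const _).indicator hEm)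
      (integrable_finsetSum _ fun u _ => ((integrable_const _).indicator (hBm u)).const_mul _) hpt
  rw [integral_indicator_const _ hEm, integral_finsetSum _
    fun u _ => ((integrable_const _).indicator (hBm u)).const_mul _] at hint
  simp only [integral_const_mul, integral_indicator_const _ (hBm _), smul_eq_mul, mul_one] at hint
  have h5 : ∑ u, n u * μ.real (Bd u) ≤ N * (4 * Real.exp (-(L / 2))) := by
    rw [hNdef, sum_mul]
    exact sum_le_sum fun u _ => mul_le_mul_of_nonneg_left (hbad u) (hn u)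
  have h6 : μ.real E * (N / 2) ≤ N * (4 * Real.exp (-(L / 2))) := hint.trans h5
  have h7 : μ.real E * (N / 2) ≤ (8 * Real.exp (-(L / 2))) * (N / 2) := by linarith
  exact le_of_mul_le_mul_right h7 (by positivity)

end Pool.Agent.Speedup
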