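import Mathlib
import Pool.Agent.Speedup.Defs

set_option autoImplicit false
set_option linter.unusedSectionVars false
set_option linter.unusedDecidableInType false

/-!
Elementary facts on energies, the Green operator and quantiles, for module StructC.
-/

open Finset Matrix

namespace Pool.Agent.Speedup.StructC

variable {V : Type} [Fintype V] [DecidableEq V] {C : V → V → ℝ}

lemma energy_nonneg (hC : IsNet C) (f : V → ℝ) : 0 ≤ energy C f := by
  unfold energy
  apply mul_nonneg (by norm_num)
  exact sum_nonneg fun x _ => sum_nonneg fun y _ => mul_nonneg (hC.nonneg x y) (sq_nonneg _)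

/-- the bilinear form of the energy -/
noncomputable def bil (C : V → V → ℝ) (f g : V → ℝ) : ℝ :=
  (1 / 2) * ∑ x, ∑ y, C x y * ((f x - f y) * (g x - g y))

lemma energy_add (f g : V → ℝ) :
    energy C (fun x => f x + g x) = energy C f + 2 * bil C f g + energy C g := by
  unfold energy bil
  simp only [mul_sum]
  rw [← sum_add_distrib, ← sum_add_distrib]
  apply sum_congr rfl
  intro x _
  rw [← sum_add_distrib, ← sum_add_distrib]
  apply sum_congr rfl
  intro y _
  ring

lemma energy_smul (t : ℝ) (f : V → ℝ) : energy C (fun x => t * f x) = t ^ 2 * energy C f := by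
  unfold energy
  simp only [mul_sum]
  apply sum_congr rfl
  intro x _
  apply sum_congr rfl
  intro y _
  ring

lemma bil_eq (hC : IsNet C) (f g : V → ℝ) : bil C f g = ∑ x, lapl C f x * g x := by
  have h1 : ∑ x, ∑ y, C x y * ((f x - f y) * (g x - g y)) =
      ∑ x, ∑ y, C x y * (f x - f y) * g x - ∑ x, ∑ y, C x y * (f x - f y) * g y := by
    rw [← sum_sub_distrib]
    apply sum_congr rfl
    intro x _
    rw [← sum_sub_distrib]
    apply sum_congr rfl
    intro y _
    ring
  have h2 : ∑ x, ∑ y, C x y * (f x - f y) * g y = - ∑ x, ∑ y, C x y * (f x - f y) * g x := by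
    rw [sum_comm, ← sum_neg_distrib]
    apply sum_congr rfl
    intro x _
    rw [← sum_neg_distrib]
    apply sum_congr rfl
    intro y _
    rw [hC.symm y x]
    ring
  have h3 : ∑ x, lapl C f x * g x = ∑ x, ∑ y, C x y * (f x - f y) * g x := by
    apply sum_congr rfl
    intro x _
    unfold lapl
    rw [sum_mul]
  unfold bil
  rw [h1, h2, h3]
  ring

lemma energy_eq (hC : IsNet C) (f : V → ℝ) : energy C f = ∑ x, lapl C f x * f x := by
  rw [← bil_eq hC]
  unfold energy bil
  congr 1
  apply sum_congr rfl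
  intro x _
  apply sum_congr rfl
  intro y _
  ring

lemma bil_symm (f g : V → ℝ) : bil C f g = bil C g f := by
  unfold bil
  congr 1
  apply sum_congr rfl
  intro x _
  apply sum_congr rfl
  intro y _
  ring

lemma lapl_symm (hC : IsNet C) (f g : V → ℝ) :
    ∑ x, lapl C f x * g x = ∑ x, lapl C g x * f x := by
  rw [← bil_eq hC, ← bil_eq hC, bil_symm]

lemma lapl_sub (f g : V → ℝ) (x : V) :
    lapl C (fun y => f y - g y) x = lapl C f x - lapl C g x := by
  unfold lapl
  rw [← sum_sub_distrib]
  apply sum_congr rfl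
  intro y _
  ring

lemma lapl_add (f g : V → ℝ) (x : V) :
    lapl C (fun y => f y + g y) x = lapl C f x + lapl C g x := by
  unfold lapl
  rw [← sum_add_distrib]
  apply sum_congr rfl
  intro y _
  ring

lemma lapl_smul (t : ℝ) (f : V → ℝ) (x : V) :
    lapl C (fun y => t * f y) x = t * lapl C f x := by
  unfold lapl
  rw [mul_sum]
  apply sum_congr rfl
  intro y _
  ring

lemma lapl_const (t : ℝ) (x : V) : lapl C (fun _ => t) x = 0 := by
  unfold lapl
  simp

lemma Lam_mulVec (n v : V → ℝ) (x : V) : (Lam C n *ᵥ v) x = lapl C v x + n x * v x := by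
  unfold Lam lapl
  rw [sub_mulVec, Pi.sub_apply, mulVec_diagonal]
  simp only [mulVec, dotProduct, Matrix.of_apply]
  have : ∑ y, C x y * (v x - v y) = (∑ y, C x y) * v x - ∑ y, C x y * v y := by
    rw [sum_mul, ← sum_sub_distrib]
    apply sum_congr rfl
    intro y _
    ring
  rw [this]
  ring

/-- comparison principle -/
lemma compare (hC : IsNet C) {n : V → ℝ} (hn : ∀ x, 0 < n x) {w : V → ℝ}
    (hw : ∀ x, 0 ≤ lapl C w x + n x * w x) (x : V) : 0 ≤ w x := by
  by_contra hx
  push Not at hx
  obtain ⟨m, -, hm⟩ := exists_min_image univ w ⟨x, mem_univ x⟩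
  have hm0 : w m < 0 := lt_of_le_of_lt (hm x (mem_univ x)) hx
  have h1 : lapl C w m ≤ 0 := by
    unfold lapl
    apply sum_nonpos
    intro y _
    have := hm y (mem_univ y)
    exact mul_nonpos_of_nonneg_of_nonpos (hC.nonneg m y) (by linarith)
  have h2 := hw m
  have h3 : n m * w m < 0 := mul_neg_of_pos_of_neg (hn m) hm0
  linarith

lemma compare_pos (hC : IsNet C) {n : V → ℝ} (hn : ∀ x, 0 < n x) {w : V → ℝ}
    (hw : ∀ x, 0 < lapl C w x + n x * w x) (x : V) : 0 < w x := by
  have h0 := compare hC hn (fun x => (hw x).le)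
  rcases (h0 x).eq_or_lt with h | h
  · exfalso
    have h1 : lapl C w x ≤ 0 := by
      unfold lapl
      apply sum_nonpos
      intro y _
      have := h0 y
      exact mul_nonpos_of_nonneg_of_nonpos (hC.nonneg x y) (by linarith)
    have h2 := hw x
    rw [← h] at h2
    simp only [mul_zero, add_zero] at h2
    linarith
  · exact h

/-- the Green operator -/
noncomputable def gr (C : V → V → ℝ) (n b : V → ℝ) : V → ℝ := (Lam C n)⁻¹ *ᵥ b

lemma gr_spec (hC : IsNet C) {n : V → ℝ} (hn : ∀ x, 0 < n x) (b : V → ℝ) (x : V) :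
    lapl C (gr C n b) x + n x * gr C n b x = b x := by
  have hinj : Function.Injective (Lam C n).mulVec := by
    intro v w hvw
    have h1 : ∀ x, lapl C (fun y => v y - w y) x + n x * (v x - w x) = 0 := by
      intro x
      have h2 := congrFun hvw x
      rw [Lam_mulVec, Lam_mulVec] at h2
      rw [lapl_sub]
      linarith
    have h2 : ∀ x, lapl C (fun y => w y - v y) x + n x * (w x - v x) = 0 := by
      intro x
      have h2 := congrFun hvw x
      rw [Lam_mulVec, Lam_mulVec] at h2
      rw [lapl_sub]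
      linarith
    funext x
    have h3 := compare hC hn (fun x => (h1 x).ge) x
    have h4 := compare hC hn (fun x => (h2 x).ge) x
    linarith
  have hu : IsUnit (Lam C n) := Matrix.mulVec_injective_iff_isUnit.mp hinj
  have hd : IsUnit (Lam C n).det := (Matrix.isUnit_iff_isUnit_det _).mp hu
  rw [← Lam_mulVec]
  unfold gr
  rw [mulVec_mulVec, Matrix.mul_nonsing_inv _ hd, one_mulVec]

lemma gr_symm (hC : IsNet C) {n : V → ℝ} (hn : ∀ x, 0 < n x) (a b : V → ℝ) :
    ∑ x, gr C n a x * b x = ∑ x, gr C n b x * a x := by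
  have h1 : ∑ x, gr C n a x * b x =
      ∑ x, (lapl C (gr C n b) x * gr C n a x + n x * gr C n a x * gr C n b x) := by
    apply sum_congr rfl
    intro x _
    rw [← gr_spec hC hn b x]
    ring
  have h2 : ∑ x, gr C n b x * a x =
      ∑ x, (lapl C (gr C n a) x * gr C n b x + n x * gr C n a x * gr C n b x) := by
    apply sum_congr rfl
    intro x _
    rw [← gr_spec hC hn a x]
    ring
  rw [h1, h2, sum_add_distrib, sum_add_distrib, lapl_symm hC]

lemma gr_unique (hC : IsNet C) {n : V → ℝ} (hn : ∀ x, 0 < n x) {b z : V → ℝ}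
    (hz : ∀ x, lapl C z x + n x * z x = b x) (x : V) : z x = gr C n b x := by
  have h1 : ∀ x, lapl C (fun y => z y - gr C n b y) x + n x * (z x - gr C n b x) = 0 := by
    intro x
    rw [lapl_sub]
    have := gr_spec hC hn b x
    have := hz x
    linarith
  have h2 : ∀ x, lapl C (fun y => gr C n b y - z y) x + n x * (gr C n b x - z x) = 0 := by
    intro x
    rw [lapl_sub]
    have := gr_spec hC hn b x
    have := hz x
    linarith
  have h3 := compare hC hn (fun x => (h1 x).ge) x
  have h4 := compare hC hn (fun x => (h2 x).ge) x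
  linarith

lemma gr_nonneg (hC : IsNet C) {n : V → ℝ} (hn : ∀ x, 0 < n x) {b : V → ℝ} (hb : ∀ x, 0 ≤ b x)
    (x : V) : 0 ≤ gr C n b x := by
  apply compare hC hn
  intro x
  rw [gr_spec hC hn]
  exact hb x

/-- Barta's inequality -/
lemma barta (hC : IsNet C) {ρ : V → ℝ} (hρ : ∀ x, 0 < ρ x) (f : V → ℝ) :
    ∑ x, f x ^ 2 * (lapl C ρ x / ρ x) ≤ energy C f := by
  have h1 : ∑ x, f x ^ 2 * (lapl C ρ x / ρ x) =
      ∑ x, ∑ y, C x y * (f x ^ 2 * (1 - ρ y / ρ x)) := by
    apply sum_congr rfl
    intro x _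
    unfold lapl
    rw [sum_div, mul_sum]
    apply sum_congr rfl
    intro y _
    have := (hρ x).ne'
    field_simp
  have h2 : ∑ x, ∑ y, C x y * (f x ^ 2 * (1 - ρ y / ρ x)) =
      ∑ x, ∑ y, C x y * (f y ^ 2 * (1 - ρ x / ρ y)) := by
    rw [sum_comm]
    apply sum_congr rfl
    intro x _
    apply sum_congr rfl
    intro y _
    rw [hC.symm]
  have h3 : ∑ x, f x ^ 2 * (lapl C ρ x / ρ x) =
      (1 / 2) * ∑ x, ∑ y, C x y * (f x ^ 2 * (1 - ρ y / ρ x) + f y ^ 2 * (1 - ρ x / ρ y)) := by
    simp only [mul_add, sum_add_distrib]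
    rw [← h2, h1]
    ring
  rw [h3]
  unfold energy
  apply mul_le_mul_of_nonneg_left _ (by norm_num)
  apply sum_le_sum
  intro x _
  apply sum_le_sum
  intro y _
  apply mul_le_mul_of_nonneg_left _ (hC.nonneg x y)
  have hx := hρ x
  have hy := hρ y
  have h4 : 2 * f x * f y ≤ f x ^ 2 * (ρ y / ρ x) + f y ^ 2 * (ρ x / ρ y) := by
    have h5 : 0 ≤ (f x * ρ y - f y * ρ x) ^ 2 / (ρ x * ρ y) := by positivity
    have h6 : (f x * ρ y - f y * ρ x) ^ 2 / (ρ x * ρ y) =
        f x ^ 2 * (ρ y / ρ x) + f y ^ 2 * (ρ x / ρ y) - 2 * f x * f y := by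
      field_simp
      ring
    linarith
  nlinarith

/-- quantiles -/
lemma exists_quantile [Nonempty V] (g π : V → ℝ) (hsum : ∑ x, π x = 1) {t : ℝ} (ht0 : 0 < t)
    (ht : t ≤ 1) :
    ∃ m : V, t ≤ ∑ x ∈ univ.filter (fun x => g x ≤ g m), π x ∧
      ∑ x ∈ univ.filter (fun x => g x < g m), π x < t := by
  classical
  set S : Finset V := univ.filter fun m => t ≤ ∑ x ∈ univ.filter (fun x => g x ≤ g m), π x with hS
  have hne : S.Nonempty := by
    obtain ⟨m, -, hm⟩ := exists_max_image univ g univ_nonempty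
    refine ⟨m, ?_⟩
    rw [hS, mem_filter]
    refine ⟨mem_univ _, ?_⟩
    rw [filter_true_of_mem (fun x _ => hm x (mem_univ x)), hsum]
    exact ht
  obtain ⟨m, hmS, hm⟩ := exists_min_image S g hne
  refine ⟨m, ?_, ?_⟩
  · rw [hS, mem_filter] at hmS
    exact hmS.2
  · rcases (univ.filter (fun x => g x < g m)).eq_empty_or_nonempty with he | he
    · rw [he, sum_empty]; exact ht0
    · obtain ⟨m', hm', hmax⟩ := exists_max_image _ g he
      rw [mem_filter] at hm'
      have h1 : m' ∉ S := fun h => absurd (hm m' h) (not_le.mpr hm'.2)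
      rw [hS, mem_filter] at h1
      push Not at h1
      have h2 := h1 (mem_univ _)
      have h3 : univ.filter (fun x => g x < g m) = univ.filter (fun x => g x ≤ g m') := by
        ext x
        simp only [mem_filter, mem_univ, true_and]
        constructor
        · intro hx
          exact hmax x (by simp [hx])
        · intro hx
          exact lt_of_le_of_lt hx hm'.2
      rw [h3]
      exact h2

end Pool.Agent.Speedup.StructC
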