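import Mathlib
import Pool.Agent.Speedup.StructC1

set_option autoImplicit false
set_option linter.unusedSectionVars false
set_option linter.unusedDecidableInType false

/-!
The optimal measure and its decomposition, for module StructC.
-/

open Finset Matrix

namespace Pool.Agent.Speedup.StructC

variable {V : Type} [Fintype V] [DecidableEq V] {C : V → V → ℝ}

/-- `π (f = 0) ≥ 1/2` -/
def Half (π f : V → ℝ) : Prop := 1 / 2 ≤ ∑ x ∈ univ.filter (fun x => f x = 0), π x

lemma Half.mono {π f g : V → ℝ} (hπ : ∀ x, 0 < π x) (hf : Half π f) (h : ∀ x, f x = 0 → g x = 0) :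
    Half π g := by
  refine le_trans hf ?_
  apply sum_le_sum_of_subset_of_nonneg
  · intro x hx
    rw [mem_filter] at hx ⊢
    exact ⟨hx.1, h x hx.2⟩
  · intro x _ _
    exact (hπ x).le

lemma Half.exists_zero {π f : V → ℝ} (hf : Half π f) : ∃ x, f x = 0 := by
  by_contra h
  push Not at h
  unfold Half at hf
  rw [filter_false_of_mem (fun x _ => h x), sum_empty] at hf
  linarith

lemma Half.zero {π : V → ℝ} (hsum : ∑ x, π x = 1) : Half π (fun _ => 0) := by
  unfold Half
  rw [filter_true_of_mem (fun x _ => rfl), hsum]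
  norm_num

lemma isClosed_half (π : V → ℝ) (hπ : ∀ x, 0 < π x) : IsClosed {f : V → ℝ | Half π f} := by
  have h1 : {f : V → ℝ | Half π f} =
      ⋃ D ∈ {D : Finset V | 1 / 2 ≤ ∑ x ∈ D, π x}, ⋂ x ∈ D, {f : V → ℝ | f x = 0} := by
    ext f
    simp only [Set.mem_iUnion, Set.mem_iInter, Set.mem_ofPred_eq, exists_prop]
    constructor
    · intro hf
      exact ⟨_, hf, fun x hx => (mem_filter.mp hx).2⟩
    · rintro ⟨D, hD, hf⟩
      refine le_trans hD ?_
      apply sum_le_sum_of_subset_of_nonneg
      · intro x hx
        rw [mem_filter]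
        exact ⟨mem_univ x, hf x hx⟩
      · intro x _ _
        exact (hπ x).le
  rw [h1]
  apply Set.Finite.isClosed_biUnion (Set.toFinite _)
  intro D _
  apply isClosed_biInter
  intro x _
  exact isClosed_eq (continuous_apply x) continuous_const

lemma continuous_energy : Continuous fun f : V → ℝ => energy C f := by
  unfold energy
  fun_prop

lemma eq_zero_of_energy (hC : IsNet C) {π f : V → ℝ} (hf : Half π f) (h : energy C f = 0) (x : V) :
    f x = 0 := by
  obtain ⟨y, hy⟩ := hf.exists_zero
  rw [hC.conn f h x y, hy]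

lemma coercive (hC : IsNet C) (π : V → ℝ) (hπ : ∀ x, 0 < π x) :
    ∃ e : ℝ, 0 < e ∧ ∀ f : V → ℝ, Half π f → e * ‖f‖ ^ 2 ≤ energy C f := by
  set S : Set (V → ℝ) := Metric.sphere 0 1 ∩ {f | Half π f} with hS
  have hScomp : IsCompact S := (isCompact_sphere 0 1).inter_right (isClosed_half π hπ)
  rcases S.eq_empty_or_nonempty with he | hne
  · refine ⟨1, one_pos, fun f hf => ?_⟩
    rcases eq_or_ne f 0 with rfl | hf0
    · simp only [norm_zero]
      have := energy_nonneg hC (0 : V → ℝ)
      linarith
    · exfalso
      have hn : 0 < ‖f‖ := norm_pos_iff.mpr hf0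
      have : (fun x => ‖f‖⁻¹ * f x) ∈ S := by
        refine ⟨?_, hf.mono hπ fun x hx => by rw [hx, mul_zero]⟩
        rw [mem_sphere_zero_iff_norm]
        have : (fun x => ‖f‖⁻¹ * f x) = ‖f‖⁻¹ • f := rfl
        rw [this, norm_smul, norm_inv, norm_norm, inv_mul_cancel₀ hn.ne']
      rw [he] at this
      exact this
  · obtain ⟨f₀, hf₀, hmin⟩ := hScomp.exists_isMinOn hne continuous_energy.continuousOn
    have hpos : 0 < energy C f₀ := by
      rcases (energy_nonneg hC f₀).eq_or_lt with h | h
      · exfalso
        have h1 := eq_zero_of_energy hC hf₀.2 h.symm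
        have h2 : f₀ = 0 := funext h1
        have h3 := mem_sphere_zero_iff_norm.mp hf₀.1
        rw [h2, norm_zero] at h3
        exact zero_ne_one h3
      · exact h
    refine ⟨energy C f₀, hpos, fun f hf => ?_⟩
    rcases eq_or_ne f 0 with rfl | hf0
    · simp only [norm_zero]
      have := energy_nonneg hC (0 : V → ℝ)
      linarith
    · have hn : 0 < ‖f‖ := norm_pos_iff.mpr hf0
      have hmem : (fun x => ‖f‖⁻¹ * f x) ∈ S := by
        refine ⟨?_, hf.mono hπ fun x hx => by rw [hx, mul_zero]⟩
        rw [mem_sphere_zero_iff_norm]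
        have : (fun x => ‖f‖⁻¹ * f x) = ‖f‖⁻¹ • f := rfl
        rw [this, norm_smul, norm_inv, norm_norm, inv_mul_cancel₀ hn.ne']
      have h1 := hmin hmem
      simp only [Set.mem_ofPred_eq] at h1
      rw [energy_smul] at h1
      have h2 : energy C f₀ * ‖f‖ ^ 2 ≤ (‖f‖⁻¹ ^ 2 * energy C f) * ‖f‖ ^ 2 :=
        mul_le_mul_of_nonneg_right h1 (by positivity)
      have h3 : (‖f‖⁻¹ ^ 2 * energy C f) * ‖f‖ ^ 2 = energy C f := by
        field_simp
      linarith

/-- the feasible families -/
def Feas (C : V → V → ℝ) (π : V → ℝ) (N : ℕ) : Set (Fin N → V → ℝ) :=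
  {a | (∀ i, Half π (a i)) ∧ ∑ i, energy C (a i) ≤ 1}

lemma isCompact_feas (hC : IsNet C) (π : V → ℝ) (hπ : ∀ x, 0 < π x) (N : ℕ) :
    IsCompact (Feas C π N) := by
  obtain ⟨e, he, hcoer⟩ := coercive hC π hπ
  apply Metric.isCompact_of_isClosed_isBounded
  · have h1 : Feas C π N = (⋂ i, {a | Half π (a i)}) ∩ {a | ∑ i, energy C (a i) ≤ 1} := by
      ext a
      simp [Feas]
    rw [h1]
    apply IsClosed.inter
    · apply isClosed_iInter
      intro i
      exact IsClosed.preimage (f := fun a : Fin N → V → ℝ => a i) (continuous_apply i)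
        (isClosed_half π hπ)
    · apply isClosed_le _ continuous_const
      apply continuous_finsetSum
      intro i _
      exact continuous_energy.comp (continuous_apply i)
  · rw [isBounded_iff_forall_norm_le]
    refine ⟨Real.sqrt (1 / e), ?_⟩
    rintro a ⟨h1, h2⟩
    rw [pi_norm_le_iff_of_nonneg (Real.sqrt_nonneg _)]
    intro i
    apply Real.le_sqrt_of_sq_le
    have h3 := hcoer (a i) (h1 i)
    have h4 : energy C (a i) ≤ 1 :=
      le_trans (single_le_sum (f := fun i => energy C (a i)) (fun j _ => energy_nonneg hC _)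
        (mem_univ i)) h2
    rw [le_div_iff₀ he]
    linarith

/-- the objective -/
noncomputable def obj {N : ℕ} (π : V → ℝ) (a : Fin N → V → ℝ) : ℝ :=
  ∏ x, (∑ i, a i x ^ 2) ^ (π x)

lemma continuous_obj {N : ℕ} (π : V → ℝ) (hπ : ∀ x, 0 < π x) :
    Continuous (obj (N := N) π) := by
  unfold obj
  apply continuous_finsetProd
  intro x _
  apply Continuous.rpow_const
  · fun_prop
  · intro a
    right
    exact (hπ x).le

lemma obj_pos_iff {N : ℕ} {π : V → ℝ} (hπ : ∀ x, 0 < π x) (a : Fin N → V → ℝ) :
    0 < obj π a ↔ ∀ x, 0 < ∑ i, a i x ^ 2 := by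
  unfold obj
  constructor
  · intro h x
    have h0 : 0 ≤ ∑ i, a i x ^ 2 := sum_nonneg fun i _ => sq_nonneg _
    rcases h0.eq_or_lt with h1 | h1
    · exfalso
      rw [prod_eq_zero (mem_univ x)] at h
      · exact lt_irrefl _ h
      · rw [← h1, Real.zero_rpow (hπ x).ne']
    · exact h1
  · intro h
    exact prod_pos fun x _ => Real.rpow_pos_of_pos (h x) _

lemma exists_feas_pos (hC : IsNet C) (π : V → ℝ) (hπ : ∀ x, 0 < π x) (hsum : ∑ x, π x = 1)
    (hatom : ∀ x, π x ≤ 1 / 2) :
    ∃ a ∈ Feas C π (Fintype.card V + 1), 0 < obj π a := by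
  set N := Fintype.card V + 1 with hN
  set M : ℝ := 1 + ∑ x, energy C (fun y => if y = x then 1 else 0) with hM
  have hM1 : 1 ≤ M := by
    have : 0 ≤ ∑ x, energy C (fun y => if y = x then 1 else 0) :=
      sum_nonneg fun x _ => energy_nonneg hC _
    linarith
  have hN0 : (0 : ℝ) < N := by rw [hN]; positivity
  set δ : ℝ := Real.sqrt (1 / (N * M)) with hδ
  have hδ2 : δ ^ 2 = 1 / (N * M) := Real.sq_sqrt (by positivity)
  have hδ0 : 0 < δ := Real.sqrt_pos.mpr (by positivity)
  set e := Fintype.equivFin V with he
  set a : Fin N → V → ℝ := fun i y => if (i : ℕ) = (e y : ℕ) then δ else 0 with ha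
  have hform : ∀ i : Fin N, (∃ x : V, a i = fun y => δ * (if y = x then 1 else 0)) ∨
      a i = fun _ => 0 := by
    intro i
    by_cases hi : (i : ℕ) < Fintype.card V
    · left
      refine ⟨e.symm ⟨i, hi⟩, ?_⟩
      funext y
      rw [ha]
      simp only
      by_cases h : (i : ℕ) = (e y : ℕ)
      · have : y = e.symm ⟨i, hi⟩ := by
          rw [Equiv.eq_symm_apply]
          exact Fin.ext h.symm
        rw [if_pos h, if_pos this, mul_one]
      · have : y ≠ e.symm ⟨i, hi⟩ := by
          intro h'
          apply h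
          rw [h']
          simp
        rw [if_neg h, if_neg this, mul_zero]
    · right
      funext y
      rw [ha]
      simp only
      rw [if_neg]
      intro h
      have := (e y).2
      omega
  refine ⟨a, ⟨?_, ?_⟩, ?_⟩
  · intro i
    rcases hform i with ⟨x, hx⟩ | h0
    · rw [hx]
      unfold Half
      have h1 : univ.filter (fun y => δ * (if y = x then (1 : ℝ) else 0) = 0) = univ.erase x := by
        ext y
        simp only [mem_filter, mem_univ, true_and, mem_erase, and_true]
        constructor
        · intro h h'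
          rw [if_pos h', mul_one] at h
          exact hδ0.ne' h
        · intro h
          rw [if_neg h, mul_zero]
      rw [h1]
      have h2 := add_sum_erase univ π (mem_univ x)
      have h3 := hatom x
      linarith
    · rw [h0]
      exact Half.zero hsum
  · have h1 : ∀ i : Fin N, energy C (a i) ≤ 1 / N := by
      intro i
      rcases hform i with ⟨x, hx⟩ | h0
      · rw [hx, energy_smul, hδ2]
        have h2 : energy C (fun y => if y = x then 1 else 0) ≤ M := by
          have := single_le_sum (f := fun x => energy C (fun y => if y = x then 1 else 0))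
            (fun j _ => energy_nonneg hC _) (mem_univ x)
          linarith
        calc 1 / (N * M) * energy C (fun y => if y = x then 1 else 0) ≤ 1 / (N * M) * M := by
              apply mul_le_mul_of_nonneg_left h2 (by positivity)
          _ = 1 / N := by
              have : M ≠ 0 := by linarith
              field_simp
      · rw [h0]
        have : energy C (fun _ : V => (0 : ℝ)) = 0 := by simp [energy]
        rw [this]
        positivity
    calc ∑ i, energy C (a i) ≤ ∑ _i : Fin N, (1 : ℝ) / N := sum_le_sum fun i _ => h1 i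
      _ = 1 := by
        rw [sum_const, card_univ, Fintype.card_fin, nsmul_eq_mul]
        field_simp
  · rw [obj_pos_iff hπ]
    intro x
    have hlt : (e x : ℕ) < N := by
      have := (e x).2
      omega
    have h1 : 0 < a ⟨e x, hlt⟩ x ^ 2 := by
      have : a ⟨e x, hlt⟩ x = δ := by simp [ha]
      rw [this]
      positivity
    exact lt_of_lt_of_le h1 (single_le_sum (f := fun i => a i x ^ 2) (fun i _ => sq_nonneg _)
      (mem_univ _))

/-- conic Caratheodory: one of the vectors of a feasible family may be taken to be zero. -/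
lemma exists_zero_vector (π : V → ℝ) (hπ : ∀ x, 0 < π x)
    {a : Fin (Fintype.card V + 1) → V → ℝ} (ha : a ∈ Feas C π (Fintype.card V + 1)) :
    ∃ b ∈ Feas C π (Fintype.card V + 1), (∀ x, ∑ i, b i x ^ 2 = ∑ i, a i x ^ 2) ∧
      ∃ i₀, ∀ x, b i₀ x = 0 := by
  have hdep : ¬ LinearIndependent ℝ (fun i : Fin (Fintype.card V + 1) => fun x => a i x ^ 2) := by
    intro h
    have := h.fintype_card_le_finrank
    rw [Fintype.card_fin, Module.finrank_fintype_fun_eq_card] at this
    omega
  rw [Fintype.not_linearIndependent_iff] at hdep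
  have key : ∀ g : Fin (Fintype.card V + 1) → ℝ, (∀ x, ∑ i, g i * a i x ^ 2 = 0) →
      (∃ i, g i ≠ 0) → ∑ i, g i * energy C (a i) ≤ 0 →
      ∃ b ∈ Feas C π (Fintype.card V + 1), (∀ x, ∑ i, b i x ^ 2 = ∑ i, a i x ^ 2) ∧
      ∃ i₀, ∀ x, b i₀ x = 0 := by
    intro g hg hne hE
    obtain ⟨i₀, -, hi₀⟩ := exists_min_image univ g univ_nonempty
    rcases le_or_gt 0 (g i₀) with h | h
    · -- all nonnegative
      obtain ⟨i₁, hi₁⟩ := hne
      refine ⟨a, ha, fun x => rfl, i₁, fun x => ?_⟩
      have h1 : ∀ i, 0 ≤ g i := fun i => h.trans (hi₀ i (mem_univ i))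
      have h2 := (sum_eq_zero_iff_of_nonneg
        (fun i _ => mul_nonneg (h1 i) (sq_nonneg (a i x)))).mp (hg x) i₁ (mem_univ _)
      rcases mul_eq_zero.mp h2 with h3 | h3
      · exact absurd h3 hi₁
      · exact pow_eq_zero_iff (two_ne_zero) |>.mp h3
    · set τ : ℝ := -(g i₀)⁻¹ with hτ
      have hτ0 : 0 < τ := by
        rw [hτ, neg_pos]
        exact inv_lt_zero.mpr h
      have hcoef : ∀ i, 0 ≤ 1 + τ * g i := by
        intro i
        have h1 := hi₀ i (mem_univ i)
        have h2 : τ * g i₀ ≤ τ * g i := mul_le_mul_of_nonneg_left h1 hτ0.le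
        have h3 : τ * g i₀ = -1 := by
          rw [hτ, neg_mul, inv_mul_cancel₀ h.ne]
        linarith
      have hcoef0 : 1 + τ * g i₀ = 0 := by
        rw [hτ, neg_mul, inv_mul_cancel₀ h.ne]
        ring
      refine ⟨fun i x => Real.sqrt (1 + τ * g i) * a i x, ⟨?_, ?_⟩, ?_, i₀, ?_⟩
      · intro i
        exact (ha.1 i).mono hπ fun x hx => by
          show Real.sqrt (1 + τ * g i) * a i x = 0
          rw [hx, mul_zero]
      · have h1 : ∑ i, energy C (fun x => Real.sqrt (1 + τ * g i) * a i x) =
            ∑ i, energy C (a i) + τ * ∑ i, g i * energy C (a i) := by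
          rw [mul_sum, ← sum_add_distrib]
          apply sum_congr rfl
          intro i _
          rw [energy_smul, Real.sq_sqrt (hcoef i)]
          ring
        rw [h1]
        have h2 := ha.2
        have h3 : τ * ∑ i, g i * energy C (a i) ≤ 0 :=
          mul_nonpos_of_nonneg_of_nonpos hτ0.le hE
        linarith
      · intro x
        have h1 : ∑ i, (Real.sqrt (1 + τ * g i) * a i x) ^ 2 =
            ∑ i, a i x ^ 2 + τ * ∑ i, g i * a i x ^ 2 := by
          rw [mul_sum, ← sum_add_distrib]
          apply sum_congr rfl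
          intro i _
          rw [mul_pow, Real.sq_sqrt (hcoef i)]
          ring
        rw [h1, hg x]
        ring
      · intro x
        simp only
        rw [hcoef0, Real.sqrt_zero, zero_mul]
  obtain ⟨g, hg, hne⟩ := hdep
  have hg' : ∀ x, ∑ i, g i * a i x ^ 2 = 0 := by
    intro x
    have := congrFun hg x
    simpa [Finset.sum_apply] using this
  rcases le_total (∑ i, g i * energy C (a i)) 0 with h | h
  · exact key g hg' hne h
  · apply key (fun i => - g i)
    · intro x
      have := hg' x
      simp only [neg_mul, sum_neg_distrib, this, neg_zero]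
    · obtain ⟨i, hi⟩ := hne
      exact ⟨i, neg_ne_zero.mpr hi⟩
    · simp only [neg_mul, sum_neg_distrib]
      linarith

theorem exists_opt (hC : IsNet C) (π : V → ℝ) (hπ : ∀ x, 0 < π x) (hsum : ∑ x, π x = 1)
    (hatom : ∀ x, π x ≤ 1 / 2) :
    ∃ (N : ℕ) (a : Fin N → V → ℝ), a ∈ Feas C π N ∧ (∀ x, 0 < ∑ i, a i x ^ 2) ∧
      ∀ f : V → ℝ, Half π f → ∑ x, (π x / ∑ i, a i x ^ 2) * f x ^ 2 ≤ energy C f := by
  obtain ⟨a₀, ha₀, hpos₀⟩ := exists_feas_pos hC π hπ hsum hatom
  obtain ⟨a₁, ha₁, hmax₁⟩ := (isCompact_feas hC π hπ (Fintype.card V + 1)).exists_isMaxOn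
    ⟨a₀, ha₀⟩ (continuous_obj π hπ).continuousOn
  obtain ⟨b, hb, hbq, i₀, hi₀⟩ := exists_zero_vector π hπ ha₁
  have hobj : obj π b = obj π a₁ := by
    unfold obj
    apply prod_congr rfl
    intro x _
    rw [hbq x]
  have hmax : ∀ c ∈ Feas C π (Fintype.card V + 1), obj π c ≤ obj π b := by
    intro c hc
    rw [hobj]
    exact hmax₁ hc
  have hbpos : ∀ x, 0 < ∑ i, b i x ^ 2 := by
    rw [← obj_pos_iff hπ]
    exact lt_of_lt_of_le hpos₀ (hmax a₀ ha₀)
  refine ⟨_, b, hb, hbpos, ?_⟩
  set q : V → ℝ := fun x => ∑ i, b i x ^ 2 with hq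
  have hq0 : ∀ x, 0 < q x := hbpos
  -- the normalised statement
  have key : ∀ f : V → ℝ, Half π f → energy C f ≤ 1 → ∑ x, π x * (f x ^ 2 / q x - 1) ≤ 0 := by
    intro f hf hE
    have hs : ∀ s ∈ Set.Ioo (0 : ℝ) 1,
        ∑ x, π x * ((f x ^ 2 / q x - 1) / (1 + s * (f x ^ 2 / q x - 1))) ≤ 0 := by
      rintro s ⟨hs0, hs1⟩
      set c : Fin (Fintype.card V + 1) → V → ℝ := fun i x =>
        if i = i₀ then Real.sqrt s * f x else Real.sqrt (1 - s) * b i x with hc
      have hcq : ∀ x, ∑ i, c i x ^ 2 = (1 - s) * q x + s * f x ^ 2 := by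
        intro x
        have h1 : ∀ i, c i x ^ 2 = (1 - s) * b i x ^ 2 + if i = i₀ then s * f x ^ 2 else 0 := by
          intro i
          rw [hc]
          simp only
          split_ifs with h
          · rw [h, hi₀ x, mul_pow, Real.sq_sqrt hs0.le]
            ring
          · rw [mul_pow, Real.sq_sqrt (by linarith)]
            ring
        simp only [h1, sum_add_distrib, sum_ite_eq', mem_univ, if_true]
        rw [← mul_sum]
      have hcF : c ∈ Feas C π (Fintype.card V + 1) := by
        refine ⟨?_, ?_⟩
        · intro i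
          by_cases h : i = i₀
          · have : c i = fun x => Real.sqrt s * f x := by
              funext x; simp [hc, h]
            rw [this]
            exact hf.mono hπ fun x hx => by rw [hx, mul_zero]
          · have : c i = fun x => Real.sqrt (1 - s) * b i x := by
              funext x; simp [hc, h]
            rw [this]
            exact (hb.1 i).mono hπ fun x hx => by rw [hx, mul_zero]
        · have h1 : ∀ i, energy C (c i) = (1 - s) * energy C (b i) +
              if i = i₀ then s * energy C f else 0 := by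
            intro i
            by_cases h : i = i₀
            · have h2 : c i = fun x => Real.sqrt s * f x := by
                funext x; simp [hc, h]
              have h3 : b i = fun _ => 0 := by
                funext x; rw [h, hi₀ x]
              have h4 : energy C (fun _ : V => (0 : ℝ)) = 0 := by simp [energy]
              rw [h2, energy_smul, Real.sq_sqrt hs0.le, h3, h4, if_pos h]
              ring
            · have h2 : c i = fun x => Real.sqrt (1 - s) * b i x := by
                funext x; simp [hc, h]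
              rw [h2, energy_smul, Real.sq_sqrt (by linarith), if_neg h]
              ring
          simp only [h1, sum_add_distrib, sum_ite_eq', mem_univ, if_true]
          rw [← mul_sum]
          have h5 := hb.2
          nlinarith
      have hle := hmax c hcF
      have hcpos : ∀ x, 0 < (1 - s) * q x + s * f x ^ 2 := by
        intro x
        have := hq0 x
        have h1 : 0 < (1 - s) * q x := mul_pos (by linarith) this
        positivity
      -- take logarithms
      have hlog : ∑ x, π x * Real.log ((1 - s) * q x + s * f x ^ 2) ≤ ∑ x, π x * Real.log (q x) := by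
        have h1 : Real.log (obj π c) ≤ Real.log (obj π b) := by
          apply Real.log_le_log _ hle
          rw [obj_pos_iff hπ]
          intro x
          rw [hcq x]
          exact hcpos x
        unfold obj at h1
        rw [Real.log_prod (fun x _ => (Real.rpow_pos_of_pos (by rw [hcq x]; exact hcpos x) _).ne'),
          Real.log_prod (fun x _ => (Real.rpow_pos_of_pos (hbpos x) _).ne')] at h1
        have h2 : ∑ x, Real.log ((∑ i, c i x ^ 2) ^ π x) =
            ∑ x, π x * Real.log ((1 - s) * q x + s * f x ^ 2) := by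
          apply sum_congr rfl
          intro x _
          rw [Real.log_rpow (by rw [hcq x]; exact hcpos x), hcq x]
        have h3 : ∑ x, Real.log ((∑ i, b i x ^ 2) ^ π x) = ∑ x, π x * Real.log (q x) := by
          apply sum_congr rfl
          intro x _
          rw [Real.log_rpow (hbpos x)]
        rw [h2, h3] at h1
        exact h1
      have hterm : ∀ x, s * ((f x ^ 2 / q x - 1) / (1 + s * (f x ^ 2 / q x - 1))) ≤
          Real.log ((1 - s) * q x + s * f x ^ 2) - Real.log (q x) := by
        intro x
        have hqx := hq0 x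
        have h1 : (1 - s) * q x + s * f x ^ 2 = q x * (1 + s * (f x ^ 2 / q x - 1)) := by
          field_simp
          ring
        have h2 : 0 < 1 + s * (f x ^ 2 / q x - 1) := by
          have := hcpos x
          rw [h1] at this
          exact (mul_pos_iff_of_pos_left hqx).mp this
        rw [h1, Real.log_mul hqx.ne' h2.ne', add_sub_cancel_left]
        have h3 := Real.one_sub_inv_le_log_of_pos h2
        have h4 : s * ((f x ^ 2 / q x - 1) / (1 + s * (f x ^ 2 / q x - 1))) =
            1 - (1 + s * (f x ^ 2 / q x - 1))⁻¹ := by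
          generalize f x ^ 2 / q x - 1 = w at h2
          field_simp
          ring
        rw [h4]
        exact h3
      have h5 : s * ∑ x, π x * ((f x ^ 2 / q x - 1) / (1 + s * (f x ^ 2 / q x - 1))) ≤ 0 := by
        rw [mul_sum]
        calc ∑ x, s * (π x * ((f x ^ 2 / q x - 1) / (1 + s * (f x ^ 2 / q x - 1))))
            ≤ ∑ x, (π x * Real.log ((1 - s) * q x + s * f x ^ 2) - π x * Real.log (q x)) := by
              apply sum_le_sum
              intro x _
              have := mul_le_mul_of_nonneg_left (hterm x) (hπ x).le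
              linarith
          _ ≤ 0 := by
              rw [sum_sub_distrib]
              linarith
      by_contra hcon
      push Not at hcon
      have := mul_pos hs0 hcon
      linarith
    -- pass to the limit
    have hlim : Filter.Tendsto (fun s : ℝ =>
        ∑ x, π x * ((f x ^ 2 / q x - 1) / (1 + s * (f x ^ 2 / q x - 1))))
        (nhdsWithin 0 (Set.Ioi 0)) (nhds (∑ x, π x * (f x ^ 2 / q x - 1))) := by
      apply Filter.Tendsto.mono_left _ nhdsWithin_le_nhds
      apply tendsto_finsetSum
      intro x _
      have h1 : ContinuousAt (fun s : ℝ =>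
          π x * ((f x ^ 2 / q x - 1) / (1 + s * (f x ^ 2 / q x - 1)))) 0 := by
        apply ContinuousAt.mul continuousAt_const
        apply ContinuousAt.div continuousAt_const
        · fun_prop
        · simp
      have h2 := h1.tendsto
      simpa using h2
    apply le_of_tendsto hlim
    filter_upwards [Ioo_mem_nhdsGT (show (0 : ℝ) < 1 by norm_num)] with s hs'
    exact hs s hs'
  intro f hf
  rcases (energy_nonneg hC f).eq_or_lt with h0 | h0
  · have h1 := eq_zero_of_energy hC hf h0.symm
    rw [← h0]
    apply le_of_eq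
    apply sum_eq_zero
    intro x _
    rw [h1 x]
    ring
  · set t : ℝ := (Real.sqrt (energy C f))⁻¹ with ht
    have hsq : t ^ 2 = (energy C f)⁻¹ := by
      rw [ht, inv_pow, Real.sq_sqrt h0.le]
    have h2 := key (fun x => t * f x) (hf.mono hπ fun x hx => by rw [hx, mul_zero]) (by
      rw [energy_smul, hsq, inv_mul_cancel₀ h0.ne'])
    have h3 : ∑ x, π x * ((t * f x) ^ 2 / q x - 1) =
        (energy C f)⁻¹ * ∑ x, (π x / q x) * f x ^ 2 - 1 := by
      have h5 : ∀ x, π x * ((t * f x) ^ 2 / q x - 1) =
          (energy C f)⁻¹ * ((π x / q x) * f x ^ 2) - π x := by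
        intro x
        rw [mul_pow, hsq]
        ring
      simp only [h5]
      rw [sum_sub_distrib, hsum, mul_sum]
    rw [h3] at h2
    have h4 : (energy C f)⁻¹ * ∑ x, (π x / q x) * f x ^ 2 ≤ 1 := by linarith
    rw [inv_mul_le_iff₀ h0, mul_one] at h4
    exact h4

end Pool.Agent.Speedup.StructC
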