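import Mathlib
import Pool.Agent.Speedup.StructC2

set_option autoImplicit false
set_option linter.unusedSectionVars false
set_option linter.unusedDecidableInType false

/-!
Random signs, and the estimates for the Green operator, for module StructC.
-/

open Finset Matrix

namespace Pool.Agent.Speedup.StructC

/-! ### random signs -/

/-- sign of a boolean -/
noncomputable def sg (b : Bool) : ℝ := if b then 1 else -1

lemma sum_prod_bool {N : ℕ} {R : Type*} [CommSemiring R] (h : Fin N → Bool → R) :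
    ∑ σ : Fin N → Bool, ∏ k, h k (σ k) = ∏ k, (h k true + h k false) := by
  have h1 := Finset.prod_univ_sum (fun _ : Fin N => (univ : Finset Bool)) h
  rw [Fintype.piFinset_univ] at h1
  rw [← h1]
  apply prod_congr rfl
  intro k _
  rw [Fintype.sum_bool]

lemma signs_cos {N : ℕ} (z : Fin N → ℝ) :
    ∑ σ : Fin N → Bool, Real.cos (∑ i, sg (σ i) * z i) = 2 ^ N * ∏ i, Real.cos (z i) := by
  have h1 : ∑ σ : Fin N → Bool, Complex.exp (∑ i, (sg (σ i) * z i : ℝ) * Complex.I) =
      2 ^ N * ∏ i, Complex.cos (z i) := by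
    simp only [Complex.exp_sum]
    rw [sum_prod_bool (fun k b => Complex.exp ((sg b * z k : ℝ) * Complex.I))]
    have h2 : ∀ k : Fin N, Complex.exp ((sg true * z k : ℝ) * Complex.I) +
        Complex.exp ((sg false * z k : ℝ) * Complex.I) = 2 * Complex.cos (z k) := by
      intro k
      rw [Complex.two_cos]
      simp [sg]
    simp only [h2]
    rw [prod_mul_distrib, prod_const, card_univ, Fintype.card_fin]
  have h2 := congrArg Complex.re h1
  rw [Complex.re_sum] at h2
  have h3 : ∀ σ : Fin N → Bool, (Complex.exp (∑ i, (sg (σ i) * z i : ℝ) * Complex.I)).re =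
      Real.cos (∑ i, sg (σ i) * z i) := by
    intro σ
    rw [← sum_mul, ← Complex.ofReal_sum, Complex.exp_ofReal_mul_I_re]
  simp only [h3] at h2
  rw [h2]
  have h4 : (2 : ℂ) ^ N * ∏ i, Complex.cos (z i) = ((2 ^ N * ∏ i, Real.cos (z i) : ℝ) : ℂ) := by
    push_cast
    rfl
  rw [h4, Complex.ofReal_re]

lemma signs_mul {N : ℕ} (i j : Fin N) :
    ∑ σ : Fin N → Bool, sg (σ i) * sg (σ j) = if i = j then (2 : ℝ) ^ N else 0 := by
  split_ifs with h
  · subst h
    have : ∀ σ : Fin N → Bool, sg (σ i) * sg (σ i) = 1 := by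
      intro σ
      unfold sg
      split_ifs <;> norm_num
    simp only [this, sum_const, card_univ, nsmul_eq_mul, mul_one]
    simp
  · have h1 := sum_prod_bool (N := N) (R := ℝ) (fun k b =>
      (if k = i then sg b else 1) * (if k = j then sg b else 1))
    have h2 : ∀ σ : Fin N → Bool, ∏ k, ((if k = i then sg (σ k) else 1) *
        (if k = j then sg (σ k) else 1)) = sg (σ i) * sg (σ j) := by
      intro σ
      rw [prod_mul_distrib]
      simp
    simp only [h2] at h1
    rw [h1]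
    apply prod_eq_zero (mem_univ i)
    simp [h, sg]

lemma signs_sq {N : ℕ} (z : Fin N → ℝ) :
    ∑ σ : Fin N → Bool, (∑ i, sg (σ i) * z i) ^ 2 = 2 ^ N * ∑ i, z i ^ 2 := by
  have h1 : ∀ σ : Fin N → Bool, (∑ i, sg (σ i) * z i) ^ 2 =
      ∑ i, ∑ j, (z i * z j) * (sg (σ i) * sg (σ j)) := by
    intro σ
    rw [pow_two, sum_mul_sum]
    apply sum_congr rfl
    intro i _
    apply sum_congr rfl
    intro j _
    ring
  simp only [h1]
  rw [sum_comm]
  rw [mul_sum]
  apply sum_congr rfl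
  intro i _
  rw [sum_comm]
  have h2 : ∀ j, ∑ σ : Fin N → Bool, (z i * z j) * (sg (σ i) * sg (σ j)) =
      if i = j then (z i * z j) * 2 ^ N else 0 := by
    intro j
    rw [← mul_sum, signs_mul]
    split_ifs <;> simp
  simp only [h2]
  rw [sum_ite_eq]
  simp only [mem_univ, if_true]
  ring

lemma prod_cos_le {N : ℕ} (z : Fin N → ℝ) (hz : ∀ i, |z i| ≤ 1) (hs : ∑ i, z i ^ 2 ≤ 1) :
    ∏ i, Real.cos (z i) ≤ 1 - (∑ i, z i ^ 2) / 10 := by
  have hpi := Real.pi_gt_three
  have hpi2 := Real.pi_lt_d2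
  have h1 : ∀ i, Real.cos (z i) ≤ Real.exp (-(z i ^ 2 / 5)) := by
    intro i
    have h2 := Real.cos_le_one_sub_mul_cos_sq (x := z i) (by linarith [hz i])
    have h3 : (1 : ℝ) / 5 ≤ 2 / Real.pi ^ 2 := by
      rw [div_le_div_iff₀ (by norm_num) (by positivity)]
      nlinarith
    have h4 := mul_le_mul_of_nonneg_right h3 (sq_nonneg (z i))
    have h5 := Real.add_one_le_exp (-(z i ^ 2 / 5))
    linarith
  have h0 : ∀ i, 0 ≤ Real.cos (z i) := by
    intro i
    apply Real.cos_nonneg_of_mem_Icc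
    have := abs_le.mp (hz i)
    constructor <;> linarith [this.1, this.2]
  have h6 : ∏ i, Real.cos (z i) ≤ Real.exp (-((∑ i, z i ^ 2) / 5)) := by
    calc ∏ i, Real.cos (z i) ≤ ∏ i, Real.exp (-(z i ^ 2 / 5)) :=
          prod_le_prod (fun i _ => h0 i) fun i _ => h1 i
      _ = Real.exp (-((∑ i, z i ^ 2) / 5)) := by
          rw [← Real.exp_sum, sum_neg_distrib, sum_div]
  have hw0 : 0 ≤ ∑ i, z i ^ 2 := sum_nonneg fun i _ => sq_nonneg _
  set w := ∑ i, z i ^ 2 with hw
  have h7 : Real.exp (-(w / 5)) ≤ 1 - w / 10 := by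
    have h8 := Real.add_one_le_exp (w / 5)
    have h9 : Real.exp (-(w / 5)) * Real.exp (w / 5) = 1 := by
      rw [← Real.exp_add]; simp
    have h10 := Real.exp_pos (-(w / 5))
    have h11 : Real.exp (-(w / 5)) * (w / 5 + 1) ≤ 1 :=
      (mul_le_mul_of_nonneg_left h8 h10.le).trans_eq h9
    have h12 : 1 ≤ (1 - w / 10) * (w / 5 + 1) := by nlinarith
    have h13 : Real.exp (-(w / 5)) * (w / 5 + 1) ≤ (1 - w / 10) * (w / 5 + 1) := h11.trans h12
    exact le_of_mul_le_mul_right h13 (by linarith)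
  linarith

/-! ### Green operator -/

variable {V : Type} [Fintype V] [DecidableEq V] {C : V → V → ℝ}

lemma gr_add (n a b : V → ℝ) (x : V) :
    gr C n (fun y => a y + b y) x = gr C n a x + gr C n b x := by
  unfold gr
  have : (fun y => a y + b y) = a + b := rfl
  rw [this, mulVec_add, Pi.add_apply]

lemma gr_smul (n a : V → ℝ) (t : ℝ) (x : V) :
    gr C n (fun y => t * a y) x = t * gr C n a x := by
  unfold gr
  have : (fun y => t * a y) = t • a := rfl
  rw [this, mulVec_smul, Pi.smul_apply, smul_eq_mul]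

variable {ν χ : V → ℝ}

/-- `ρ = 1 - u` -/
noncomputable def rho (C : V → V → ℝ) (ν χ : V → ℝ) (x : V) : ℝ :=
  1 - gr C (fun y => ν y + χ y) χ x

lemma rho_spec (hC : IsNet C) (hν : ∀ x, 0 < ν x) (hχ : ∀ x, 0 ≤ χ x) (x : V) :
    lapl C (rho C ν χ) x + (ν x + χ x) * rho C ν χ x = ν x := by
  have hn : ∀ x, 0 < ν x + χ x := fun x => add_pos_of_pos_of_nonneg (hν x) (hχ x)
  have h1 := gr_spec hC hn χ x
  have h2 : lapl C (rho C ν χ) x = - lapl C (gr C (fun y => ν y + χ y) χ) x := by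
    have : rho C ν χ = fun y => (fun _ => (1 : ℝ)) y - gr C (fun y => ν y + χ y) χ y := rfl
    rw [this, lapl_sub, lapl_const, zero_sub]
  rw [h2]
  unfold rho
  linarith

lemma rho_eq (hC : IsNet C) (hν : ∀ x, 0 < ν x) (hχ : ∀ x, 0 ≤ χ x) (x : V) :
    rho C ν χ x = gr C (fun y => ν y + χ y) ν x := by
  have hn : ∀ x, 0 < ν x + χ x := fun x => add_pos_of_pos_of_nonneg (hν x) (hχ x)
  exact gr_unique hC hn (rho_spec hC hν hχ) x

lemma rho_pos (hC : IsNet C) (hν : ∀ x, 0 < ν x) (hχ : ∀ x, 0 ≤ χ x) (x : V) :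
    0 < rho C ν χ x := by
  have hn : ∀ x, 0 < ν x + χ x := fun x => add_pos_of_pos_of_nonneg (hν x) (hχ x)
  apply compare_pos hC hn
  intro x
  rw [rho_spec hC hν hχ]
  exact hν x

lemma rho_le_one (hC : IsNet C) (hν : ∀ x, 0 < ν x) (hχ : ∀ x, 0 ≤ χ x) (x : V) :
    rho C ν χ x ≤ 1 := by
  have hn : ∀ x, 0 < ν x + χ x := fun x => add_pos_of_pos_of_nonneg (hν x) (hχ x)
  have := gr_nonneg hC hn hχ x
  unfold rho
  linarith

lemma gr_sq_le (hC : IsNet C) (hν : ∀ x, 0 < ν x) (hχ : ∀ x, 0 ≤ χ x) (h : V → ℝ) (x : V) :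
    gr C (fun y => ν y + χ y) (fun y => ν y * h y) x ^ 2 ≤
      rho C ν χ x * gr C (fun y => ν y + χ y) (fun y => ν y * h y ^ 2) x := by
  have hn : ∀ x, 0 < ν x + χ x := fun x => add_pos_of_pos_of_nonneg (hν x) (hχ x)
  set n : V → ℝ := fun y => ν y + χ y with hndef
  have h1 : ∀ t : ℝ, 0 ≤ rho C ν χ x * (t * t) + (-2 * gr C n (fun y => ν y * h y) x) * t +
      gr C n (fun y => ν y * h y ^ 2) x := by
    intro t
    have h2 := gr_nonneg hC hn (b := fun y => ν y * (h y - t) ^ 2)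
      (fun y => mul_nonneg (hν y).le (sq_nonneg _)) x
    have h3 : gr C n (fun y => ν y * (h y - t) ^ 2) x =
        gr C n (fun y => ν y * h y ^ 2) x + ((-2 * t) * gr C n (fun y => ν y * h y) x +
          t ^ 2 * gr C n ν x) := by
      rw [← gr_smul, ← gr_smul, ← gr_add, ← gr_add]
      congr 1
      funext y
      ring
    rw [h3, ← rho_eq hC hν hχ] at h2
    linarith
  have h4 := discrim_le_zero h1
  unfold discrim at h4
  nlinarith

/-- (C1) -/
lemma level_bound (hC : IsNet C) (hν : ∀ x, 0 < ν x) (hχ : ∀ x, 0 ≤ χ x) {H π : V → ℝ}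
    (hH : ∀ x, 0 < H x) (hsub : ∀ x, lapl C H x ≤ ν x * H x) (hπν : ∀ x, ν x * H x ^ 2 = π x)
    (hsum : ∑ x, π x = 1) (hπ : ∀ x, 0 < π x) {δ : ℝ} (hδ : 0 < δ)
    (hχH : ∀ x, χ x * H x ≤ δ * χ x) {ε : ℝ} (hε : 0 < ε) :
    ∃ Z : Finset V, ∑ x ∈ Z, π x ≤ ε ∧
      ∀ x, x ∉ Z → H x ≤ 2 * (Real.sqrt (rho C ν χ x / ε) * H x) + δ := by
  have hn : ∀ x, 0 < ν x + χ x := fun x => add_pos_of_pos_of_nonneg (hν x) (hχ x)
  set n : V → ℝ := fun y => ν y + χ y with hndef
  set G : V → ℝ := gr C n (fun y => ν y * H y) with hG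
  have h1 : ∀ x, H x ≤ 2 * G x + δ := by
    intro x
    have h2 : ∀ x, 0 ≤ lapl C (fun y => (2 * G y + δ * gr C n χ y) - H y) x +
        n x * ((2 * G x + δ * gr C n χ x) - H x) := by
      intro x
      have e1 : lapl C (fun y => (2 * G y + δ * gr C n χ y) - H y) x =
          2 * lapl C G x + δ * lapl C (gr C n χ) x - lapl C H x := by
        rw [lapl_sub (fun y => 2 * G y + δ * gr C n χ y) H,
          lapl_add (fun y => 2 * G y) (fun y => δ * gr C n χ y), lapl_smul, lapl_smul]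
      have e2 := gr_spec hC hn (fun y => ν y * H y) x
      have e3 := gr_spec hC hn χ x
      have e4 := hsub x
      have e5 := hχH x
      rw [e1]
      simp only [hndef] at *
      nlinarith
    have h3 := compare hC hn h2 x
    have h4 : gr C n χ x ≤ 1 := by
      have := (rho_pos hC hν hχ x).le
      unfold rho at this
      linarith
    have h5 : δ * gr C n χ x ≤ δ * 1 := mul_le_mul_of_nonneg_left h4 hδ.le
    linarith
  have h6 : ∑ x, ν x * gr C n π x ≤ 1 := by
    have e1 : ∑ x, ν x * gr C n π x = ∑ x, gr C n ν x * π x := by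
      rw [gr_symm hC hn ν π]
      apply sum_congr rfl
      intro x _
      ring
    rw [e1, ← hsum]
    apply sum_le_sum
    intro x _
    rw [← rho_eq hC hν hχ]
    have := rho_le_one hC hν hχ x
    have := hπ x
    nlinarith
  refine ⟨univ.filter (fun x => π x / ε < ν x * gr C n π x), ?_, ?_⟩
  · calc ∑ x ∈ univ.filter (fun x => π x / ε < ν x * gr C n π x), π x
        ≤ ∑ x ∈ univ.filter (fun x => π x / ε < ν x * gr C n π x), ε * (ν x * gr C n π x) := by
          apply sum_le_sum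
          intro x hx
          have := (mem_filter.mp hx).2
          rw [div_lt_iff₀ hε] at this
          linarith
      _ ≤ ∑ x, ε * (ν x * gr C n π x) := by
          apply sum_le_sum_of_subset_of_nonneg (filter_subset _ _)
          intro x _ _
          exact mul_nonneg hε.le (mul_nonneg (hν x).le (gr_nonneg hC hn (fun y => (hπ y).le) x))
      _ ≤ ε := by
          rw [← mul_sum]
          nlinarith
  · intro x hx
    rw [mem_filter] at hx
    push Not at hx
    have h7 := hx (mem_univ x)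
    have h8 : gr C n π x ≤ H x ^ 2 / ε := by
      rw [← hπν x, mul_div_assoc] at h7
      exact le_of_mul_le_mul_left h7 (hν x)
    have h9 := gr_sq_le hC hν hχ H x
    have h10 : (fun y => ν y * H y ^ 2) = π := funext hπν
    rw [h10] at h9
    have hρ := rho_pos hC hν hχ x
    have h11 : G x ^ 2 ≤ (Real.sqrt (rho C ν χ x / ε) * H x) ^ 2 := by
      rw [mul_pow, Real.sq_sqrt (by positivity)]
      calc G x ^ 2 ≤ rho C ν χ x * gr C n π x := h9
        _ ≤ rho C ν χ x * (H x ^ 2 / ε) := mul_le_mul_of_nonneg_left h8 hρ.le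
        _ = rho C ν χ x / ε * H x ^ 2 := by ring
    have h12 : G x ≤ Real.sqrt (rho C ν χ x / ε) * H x := by
      exact le_of_abs_le (abs_le_of_sq_le_sq h11 (mul_nonneg (Real.sqrt_nonneg _) (hH x).le))
    have := h1 x
    linarith

/-- (C2) -/
lemma barta_bound (hC : IsNet C) (hν : ∀ x, 0 < ν x) (hχ : ∀ x, 0 ≤ χ x) {f : V → ℝ}
    (hf : ∀ x, χ x * f x = 0) :
    ∑ x, ν x * f x ^ 2 * ((1 - rho C ν χ x) / rho C ν χ x) ≤ energy C f := by
  refine le_trans (le_of_eq ?_) (barta hC (rho_pos hC hν hχ) f)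
  apply sum_congr rfl
  intro x _
  have h1 := rho_spec hC hν hχ x
  have h2 := rho_pos hC hν hχ x
  have h3 : lapl C (rho C ν χ) x = ν x * (1 - rho C ν χ x) - χ x * rho C ν χ x := by linarith
  have h4 : f x ^ 2 * χ x = 0 := by
    have := hf x
    calc f x ^ 2 * χ x = f x * (χ x * f x) := by ring
      _ = 0 := by rw [this, mul_zero]
  rw [h3]
  have h5 : f x ^ 2 * ((ν x * (1 - rho C ν χ x) - χ x * rho C ν χ x) / rho C ν χ x) =
      ν x * f x ^ 2 * ((1 - rho C ν χ x) / rho C ν χ x) - f x ^ 2 * χ x := by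
    field_simp
  rw [h5, h4, sub_zero]

end Pool.Agent.Speedup.StructC
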