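import Mathlib
import Pool.Agent.Speedup.StructC3

set_option autoImplicit false
set_option linter.unusedSectionVars false
set_option linter.unusedDecidableInType false

/-!
Module StructC for MP_12e6b8_pr.
-/

open Finset Matrix

namespace Pool.Agent.Speedup

namespace StructC

variable {V : Type} [Fintype V] [DecidableEq V] {C : V → V → ℝ}

lemma var_expand (V0 : Finset V) (π g : V → ℝ) :
    ∑ x ∈ V0, ∑ y ∈ V0, π x * π y * (g x - g y) ^ 2 =
      2 * (∑ x ∈ V0, π x) * (∑ x ∈ V0, π x * g x ^ 2) - 2 * (∑ x ∈ V0, π x * g x) ^ 2 := by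
  have h1 : ∀ x y, π x * π y * (g x - g y) ^ 2 =
      (π x * g x ^ 2) * π y + π x * (π y * g y ^ 2) - 2 * ((π x * g x) * (π y * g y)) := by
    intro x y
    ring
  simp only [h1, sum_add_distrib, sum_sub_distrib, ← mul_sum, ← sum_mul]
  ring

lemma var_lower {π a : V → ℝ} (hπ : ∀ x, 0 < π x) (hsum : ∑ x, π x = 1) (ha : Half π a)
    (V0 : Finset V) :
    (2 * (∑ x ∈ V0, π x) - 1) * ∑ x ∈ V0, π x * a x ^ 2 ≤
      ∑ x ∈ V0, ∑ y ∈ V0, π x * π y * (a x - a y) ^ 2 := by
  rw [var_expand]
  have h1 : (∑ x ∈ V0, π x * a x) ^ 2 ≤ 1 / 2 * ∑ x ∈ V0, π x * a x ^ 2 := by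
    set A := V0.filter (fun x => a x ≠ 0) with hA
    have e1 : ∑ x ∈ V0, π x * a x = ∑ x ∈ A, π x * a x := by
      rw [hA, sum_filter]
      apply sum_congr rfl
      intro x _
      split_ifs with h
      · rfl
      · push Not at h
        rw [h, mul_zero]
    have e2 : (∑ x ∈ A, π x * a x) ^ 2 ≤ (∑ x ∈ A, π x) * ∑ x ∈ A, π x * a x ^ 2 := by
      have := sum_mul_sq_le_sq_mul_sq A (fun x => Real.sqrt (π x)) (fun x => Real.sqrt (π x) * a x)
      have e3 : ∀ x, Real.sqrt (π x) * (Real.sqrt (π x) * a x) = π x * a x := by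
        intro x
        rw [← mul_assoc, Real.mul_self_sqrt (hπ x).le]
      have e4 : ∀ x, Real.sqrt (π x) ^ 2 = π x := fun x => Real.sq_sqrt (hπ x).le
      have e5 : ∀ x, (Real.sqrt (π x) * a x) ^ 2 = π x * a x ^ 2 := by
        intro x
        rw [mul_pow, e4]
      simp only [e3, e4, e5] at this
      exact this
    have e6 : ∑ x ∈ A, π x ≤ 1 / 2 := by
      have e7 : ∑ x ∈ A, π x ≤ ∑ x ∈ univ.filter (fun x => ¬ a x = 0), π x := by
        apply sum_le_sum_of_subset_of_nonneg
        · intro x hx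
          rw [hA, mem_filter] at hx
          rw [mem_filter]
          exact ⟨mem_univ x, hx.2⟩
        · intro x _ _
          exact (hπ x).le
      have e8 := sum_filter_add_sum_filter_not univ (fun x => a x = 0) π
      unfold Half at ha
      rw [hsum] at e8
      linarith
    have e9 : ∑ x ∈ A, π x * a x ^ 2 ≤ ∑ x ∈ V0, π x * a x ^ 2 := by
      apply sum_le_sum_of_subset_of_nonneg (filter_subset _ _)
      intro x _ _
      exact mul_nonneg (hπ x).le (sq_nonneg _)
    have e10 : 0 ≤ ∑ x ∈ A, π x * a x ^ 2 :=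
      sum_nonneg fun x _ => mul_nonneg (hπ x).le (sq_nonneg _)
    rw [e1]
    calc (∑ x ∈ A, π x * a x) ^ 2 ≤ (∑ x ∈ A, π x) * ∑ x ∈ A, π x * a x ^ 2 := e2
      _ ≤ 1 / 2 * ∑ x ∈ A, π x * a x ^ 2 := mul_le_mul_of_nonneg_right e6 e10
      _ ≤ 1 / 2 * ∑ x ∈ V0, π x * a x ^ 2 := mul_le_mul_of_nonneg_left e9 (by norm_num)
  linarith

lemma var_upper {π g : V → ℝ} {V0 : Finset V} (hπ : ∀ x, 0 < π x) (h0 : ∑ x ∈ V0, π x ≤ 1)
    (m : ℝ) :
    ∑ x ∈ V0, ∑ y ∈ V0, π x * π y * (g x - g y) ^ 2 ≤ 2 * ∑ x ∈ V0, π x * (g x - m) ^ 2 := by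
  have h1 := var_expand V0 π (fun x => g x - m)
  have h2 : ∀ x y, g x - m - (g y - m) = g x - g y := by
    intro x y; ring
  simp only [h2] at h1
  rw [h1]
  have h3 : 0 ≤ ∑ x ∈ V0, π x * (g x - m) ^ 2 :=
    sum_nonneg fun x _ => mul_nonneg (hπ x).le (sq_nonneg _)
  have h4 := mul_le_mul_of_nonneg_right h0 h3
  have h5 := sq_nonneg (∑ x ∈ V0, π x * (g x - m))
  nlinarith

lemma energy_pos_neg (hC : IsNet C) (g : V → ℝ) (m : ℝ) :
    energy C (fun x => max (g x - m) 0) + energy C (fun x => max (m - g x) 0) ≤ energy C g := by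
  unfold energy
  rw [← mul_add, ← sum_add_distrib]
  apply mul_le_mul_of_nonneg_left _ (by norm_num)
  apply sum_le_sum
  intro x _
  rw [← sum_add_distrib]
  apply sum_le_sum
  intro y _
  rw [← mul_add]
  apply mul_le_mul_of_nonneg_left _ (hC.nonneg x y)
  beta_reduce
  rcases le_total (g x) m with hx | hx <;> rcases le_total (g y) m with hy | hy
  · rw [max_eq_right (by linarith), max_eq_right (by linarith), max_eq_left (by linarith),
      max_eq_left (by linarith)]
    nlinarith
  · rw [max_eq_right (by linarith), max_eq_left (by linarith), max_eq_left (by linarith),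
      max_eq_right (by linarith)]
    nlinarith
  · rw [max_eq_left (by linarith), max_eq_right (by linarith), max_eq_right (by linarith),
      max_eq_left (by linarith)]
    nlinarith
  · rw [max_eq_left (by linarith), max_eq_left (by linarith), max_eq_right (by linarith),
      max_eq_right (by linarith)]
    nlinarith

lemma energy_cos_sin (hC : IsNet C) (X : V → ℝ) :
    energy C (fun x => Real.cos (X x)) + energy C (fun x => Real.sin (X x)) ≤ energy C X := by
  unfold energy
  rw [← mul_add, ← sum_add_distrib]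
  apply mul_le_mul_of_nonneg_left _ (by norm_num)
  apply sum_le_sum
  intro x _
  rw [← sum_add_distrib]
  apply sum_le_sum
  intro y _
  rw [← mul_add]
  apply mul_le_mul_of_nonneg_left _ (hC.nonneg x y)
  have h1 := Real.one_sub_sq_div_two_le_cos (x := X x - X y)
  rw [Real.cos_sub] at h1
  have h2 := Real.sin_sq_add_cos_sq (X x)
  have h3 := Real.sin_sq_add_cos_sq (X y)
  nlinarith

/-- average of the energy over the signs -/
lemma sum_energy_signs {N : ℕ} (z : Fin N → V → ℝ) :
    ∑ σ : Fin N → Bool, energy C (fun x => ∑ i, sg (σ i) * z i x) =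
      2 ^ N * ∑ i, energy C (z i) := by
  unfold energy
  rw [← mul_sum, ← mul_sum]
  have h1 : ∑ σ : Fin N → Bool, ∑ x, ∑ y, C x y * (∑ i, sg (σ i) * z i x -
      ∑ i, sg (σ i) * z i y) ^ 2 =
      ∑ x, ∑ y, C x y * (2 ^ N * ∑ i, (z i x - z i y) ^ 2) := by
    rw [sum_comm]
    apply sum_congr rfl
    intro x _
    rw [sum_comm]
    apply sum_congr rfl
    intro y _
    rw [← mul_sum]
    congr 1
    rw [← signs_sq]
    apply sum_congr rfl
    intro σ _
    congr 1
    rw [← sum_sub_distrib]
    apply sum_congr rfl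
    intro i _
    ring
  rw [h1]
  have h2 : ∑ i, ∑ x, ∑ y, C x y * (z i x - z i y) ^ 2 =
      ∑ x, ∑ y, C x y * ∑ i, (z i x - z i y) ^ 2 := by
    rw [sum_comm]
    apply sum_congr rfl
    intro x _
    rw [sum_comm]
    apply sum_congr rfl
    intro y _
    rw [mul_sum]
  rw [h2]
  simp only [mul_sum]
  apply sum_congr rfl
  intro x _
  apply sum_congr rfl
  intro y _
  apply sum_congr rfl
  intro i _
  ring

/-- stationarity of the vectors of the optimal decomposition -/
lemma stationary (hC : IsNet C) {π ν : V → ℝ} (hπ : ∀ x, 0 < π x)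
    (h2 : ∀ f : V → ℝ, Half π f → ∑ x, ν x * f x ^ 2 ≤ energy C f) {a : V → ℝ} (ha : Half π a)
    (heq : ∑ x, ν x * a x ^ 2 = energy C a) (x : V) :
    a x * lapl C a x = ν x * a x ^ 2 := by
  rcases eq_or_ne (a x) 0 with h0 | h0
  · rw [h0]; ring
  set e : V → ℝ := fun y => if y = x then 1 else 0 with he
  have h3 : ∀ s : ℝ, 0 ≤ (energy C e - ν x) * (s * s) + (2 * (lapl C a x - ν x * a x)) * s + 0 := by
    intro s
    have h4 : Half π (fun y => a y + s * e y) := by
      apply ha.mono hπ
      intro y hy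
      have : y ≠ x := by
        rintro rfl
        exact h0 hy
      simp [he, hy, this]
    have h5 := h2 _ h4
    have h6 : energy C (fun y => a y + s * e y) =
        energy C a + 2 * (s * lapl C a x) + s ^ 2 * energy C e := by
      rw [energy_add a (fun y => s * e y), energy_smul, bil_eq hC]
      congr 2
      congr 1
      have : ∀ y, lapl C a y * (s * e y) = if y = x then s * lapl C a x else 0 := by
        intro y
        rw [he]
        simp only
        split_ifs with h
        · rw [h]; ring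
        · ring
      simp only [this, sum_ite_eq', mem_univ, if_true]
    have h7 : ∑ y, ν y * (a y + s * e y) ^ 2 =
        ∑ y, ν y * a y ^ 2 + (2 * s * (ν x * a x) + s ^ 2 * ν x) := by
      have : ∀ y, ν y * (a y + s * e y) ^ 2 = ν y * a y ^ 2 +
          if y = x then (2 * s * (ν x * a x) + s ^ 2 * ν x) else 0 := by
        intro y
        rw [he]
        simp only
        split_ifs with h
        · rw [h]; ring
        · ring
      simp only [this, sum_add_distrib, sum_ite_eq', mem_univ, if_true]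
    rw [h6, h7, heq] at h5
    linarith
  have h8 := discrim_le_zero h3
  unfold discrim at h8
  have h9 : lapl C a x - ν x * a x = 0 := by
    by_contra h
    have : 0 < (lapl C a x - ν x * a x) ^ 2 := by positivity
    nlinarith
  have h10 : lapl C a x = ν x * a x := by linarith
  rw [h10]
  ring

end StructC

open StructC

variable {V : Type} [Fintype V] [DecidableEq V]

theorem structC [Nonempty V] (C : V → V → ℝ) (hC : IsNet C) (π : V → ℝ)
    (hπ : ∀ x, 0 < π x) (hsum : ∑ x, π x = 1) (hatom : ∀ x, π x ≤ 1 / 2)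
    (lam : ℝ) (hlam : 0 < lam) :
    ∃ ν : V → ℝ, (∀ x, 0 < ν x) ∧
      (∀ f : V → ℝ, 1 / 2 ≤ ∑ x ∈ univ.filter (fun x => f x = 0), π x →
          ∑ x, ν x * f x ^ 2 ≤ energy C f) ∧
      ∃ B1 B2 : Finset V, (1 / 25000 : ℝ) ≤ ∑ x ∈ B1, π x ∧ (1 / 25000 : ℝ) ≤ ∑ x ∈ B2, π x ∧
        ∀ x ∈ B1, ((Lam C (fun y => ν y + if y ∈ B2 then lam * π y else 0))⁻¹ *ᵥ
            (fun y => if y ∈ B2 then lam * π y else 0)) x ≤ 1 - 1 / 400000 := by
  obtain ⟨N, a, haF, hq0, h2⟩ := exists_opt hC π hπ hsum hatom
  set q : V → ℝ := fun x => ∑ i, a i x ^ 2 with hq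
  set ν : V → ℝ := fun x => π x / q x with hν
  have hq0' : ∀ x, 0 < q x := hq0
  have hν0 : ∀ x, 0 < ν x := fun x => div_pos (hπ x) (hq0' x)
  have h2' : ∀ f : V → ℝ, Half π f → ∑ x, ν x * f x ^ 2 ≤ energy C f := h2
  have hνq : ∀ x, ν x * q x = π x := fun x => div_mul_cancel₀ _ (hq0' x).ne'
  refine ⟨ν, hν0, h2, ?_⟩
  by_contra hcon
  push Not at hcon
  -- the vectors
  have hF1 : ∀ i, ∑ x, ν x * a i x ^ 2 = energy C (a i) := by
    have e1 : ∑ i, ∑ x, ν x * a i x ^ 2 = 1 := by
      rw [sum_comm, ← hsum]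
      apply sum_congr rfl
      intro x _
      rw [← mul_sum]
      exact hνq x
    have e2 : ∑ i, (energy C (a i) - ∑ x, ν x * a i x ^ 2) = 0 := by
      apply le_antisymm
      · rw [sum_sub_distrib, e1]
        have := haF.2
        linarith
      · apply sum_nonneg
        intro i _
        have := h2' (a i) (haF.1 i)
        linarith
    intro i
    have e3 := (sum_eq_zero_iff_of_nonneg (fun i _ => by
      have := h2' (a i) (haF.1 i)
      linarith)).mp e2 i (mem_univ i)
    linarith
  have hF2 : ∀ i x, a i x * lapl C (a i) x = ν x * a i x ^ 2 := fun i x =>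
    stationary hC hπ h2' (haF.1 i) (hF1 i) x
  set H : V → ℝ := fun x => Real.sqrt (q x) with hH
  have hH0 : ∀ x, 0 < H x := fun x => Real.sqrt_pos.mpr (hq0' x)
  have hHq : ∀ x, H x ^ 2 = q x := fun x => Real.sq_sqrt (hq0' x).le
  have hHa : ∀ x, H x ^ 2 = ∑ i, a i x ^ 2 := hHq
  have hπν : ∀ x, ν x * H x ^ 2 = π x := fun x => by rw [hHq, hνq]
  have hsub : ∀ x, lapl C H x ≤ ν x * H x := by
    intro x
    have e1 : H x * lapl C H x ≤ H x * (ν x * H x) := by
      calc H x * lapl C H x = ∑ y, C x y * (H x ^ 2 - H x * H y) := by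
            unfold lapl
            rw [mul_sum]
            apply sum_congr rfl
            intro y _
            ring
        _ ≤ ∑ y, C x y * (∑ i, (a i x ^ 2 - a i x * a i y)) := by
            apply sum_le_sum
            intro y _
            apply mul_le_mul_of_nonneg_left _ (hC.nonneg x y)
            rw [sum_sub_distrib, ← hHa]
            have e2 : (∑ i, a i x * a i y) ^ 2 ≤ (H x * H y) ^ 2 := by
              rw [mul_pow, hHa, hHa]
              exact sum_mul_sq_le_sq_mul_sq _ _ _
            have e3 := abs_le_of_sq_le_sq e2 (mul_nonneg (hH0 x).le (hH0 y).le)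
            have e4 := le_of_abs_le e3
            linarith
        _ = ∑ i, a i x * lapl C (a i) x := by
            unfold lapl
            simp only [mul_sum]
            rw [sum_comm]
            apply sum_congr rfl
            intro i _
            apply sum_congr rfl
            intro y _
            ring
        _ = H x * (ν x * H x) := by
            simp only [hF2]
            rw [← mul_sum, ← hHa]
            ring
    exact le_of_mul_le_mul_left e1 (hH0 x)
  -- the killed regions
  set ε : ℝ := 1 / 25000 with hε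
  have hε0 : 0 < ε := by rw [hε]; norm_num
  set X : Finset V → V → ℝ := fun B y => if y ∈ B then lam * π y else 0 with hX
  have hX0 : ∀ B y, 0 ≤ X B y := by
    intro B y
    rw [hX]
    simp only
    split_ifs
    · exact mul_nonneg hlam.le (hπ y).le
    · exact le_refl _
  set Bad : Finset V → Finset V := fun B => univ.filter (fun x => 1 / 400000 ≤ rho C ν (X B) x)
    with hBad
  have hbad : ∀ B : Finset V, ε ≤ ∑ x ∈ B, π x → ∑ x ∈ Bad B, π x < ε := by
    intro B hB
    by_contra h
    push Not at h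
    obtain ⟨x, hx, hx'⟩ := hcon (Bad B) B h hB
    rw [hBad] at hx
    have e1 := (mem_filter.mp hx).2
    have e2 : rho C ν (X B) x = 1 - ((Lam C (fun y => ν y + if y ∈ B then lam * π y else 0))⁻¹ *ᵥ
            (fun y => if y ∈ B then lam * π y else 0)) x := rfl
    linarith
  have hmono : ∀ {A B : Finset V}, A ⊆ B → ∑ x ∈ A, π x ≤ ∑ x ∈ B, π x := fun h =>
    sum_le_sum_of_subset_of_nonneg h fun x _ _ => (hπ x).le
  -- the level
  obtain ⟨x₀, hx₀, hx₀'⟩ := exists_quantile H π hsum hε0 (by rw [hε]; norm_num)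
  set δ : ℝ := H x₀ with hδ
  have hδ0 : 0 < δ := hH0 x₀
  set B₀ : Finset V := univ.filter (fun x => H x ≤ δ) with hB₀
  obtain ⟨Z, hZ, hZ'⟩ := level_bound hC hν0 (hX0 B₀) hH0 hsub hπν hsum hπ hδ0 (by
    intro x
    rw [hX]
    simp only
    split_ifs with h
    · rw [hB₀, mem_filter] at h
      rw [mul_comm δ]
      exact mul_le_mul_of_nonneg_left h.2 (mul_nonneg hlam.le (hπ x).le)
    · simp) hε0
  set V0 : Finset V := univ.filter (fun x => δ ≤ H x ∧ x ∉ Bad B₀ ∧ x ∉ Z) with hV0
  have hV0low : ∀ x ∈ V0, δ ≤ H x := fun x hx => (mem_filter.mp hx).2.1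
  have hV0up : ∀ x ∈ V0, H x ≤ 2 * δ := by
    intro x hx
    obtain ⟨-, -, h3, h4⟩ := mem_filter.mp hx
    have e1 := hZ' x h4
    have e2 : rho C ν (X B₀) x < 1 / 400000 := by
      by_contra h
      push Not at h
      exact h3 (mem_filter.mpr ⟨mem_univ x, h⟩)
    have e3 : Real.sqrt (rho C ν (X B₀) x / ε) ≤ 1 / 4 := by
      rw [Real.sqrt_le_left (by norm_num)]
      rw [hε]
      have : rho C ν (X B₀) x / (1 / 25000) = 25000 * rho C ν (X B₀) x := by
        field_simp
      rw [this]
      linarith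
    have e4 := mul_le_mul_of_nonneg_right e3 (hH0 x).le
    linarith
  have hV0mass : 1 - 3 * ε ≤ ∑ x ∈ V0, π x := by
    have e1 : (univ : Finset V) ⊆
        V0 ∪ (univ.filter (fun x => H x < δ) ∪ (Bad B₀ ∪ Z)) := by
      intro x _
      by_cases h : x ∈ V0
      · exact mem_union_left _ h
      · apply mem_union_right
        rw [hV0, mem_filter] at h
        push Not at h
        have h' := h (mem_univ x)
        rcases lt_or_ge (H x) δ with h1 | h1
        · exact mem_union_left _ (mem_filter.mpr ⟨mem_univ x, h1⟩)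
        · apply mem_union_right
          by_cases h2 : x ∈ Bad B₀
          · exact mem_union_left _ h2
          · exact mem_union_right _ (h' h1 h2)
    have e2 := hmono e1
    have e3 : ∀ A B : Finset V, ∑ x ∈ A ∪ B, π x ≤ ∑ x ∈ A, π x + ∑ x ∈ B, π x := by
      intro A B
      rw [← sum_union_inter]
      have : 0 ≤ ∑ x ∈ A ∩ B, π x := sum_nonneg fun x _ => (hπ x).le
      linarith
    have e4 := e3 V0 (univ.filter (fun x => H x < δ) ∪ (Bad B₀ ∪ Z))
    have e5 := e3 (univ.filter (fun x => H x < δ)) (Bad B₀ ∪ Z)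
    have e6 := e3 (Bad B₀) Z
    have e7 := hbad B₀ hx₀
    rw [hsum] at e2
    linarith
  have hV0le : ∑ x ∈ V0, π x ≤ 1 := by
    rw [← hsum]
    exact hmono (subset_univ _)
  -- functions vanishing on a big set
  have hsmall : ∀ (f : V → ℝ) (B : Finset V), ε ≤ ∑ x ∈ B, π x → (∀ x ∈ B, f x = 0) →
      (∀ x, |f x| ≤ 2) →
      ∑ x ∈ V0, π x * f x ^ 2 ≤ 4 * δ ^ 2 / 399999 * energy C f + 4 * ε := by
    intro f B hB hf hf2
    have e0 : ∀ x, f x ^ 2 ≤ 4 := by
      intro x
      have := sq_le_sq' (abs_le.mp (hf2 x)).1 (abs_le.mp (hf2 x)).2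
      linarith
    have e1 := barta_bound hC hν0 (hX0 B) (f := f) (by
      intro x
      rw [hX]
      simp only
      split_ifs with h
      · rw [hf x h, mul_zero]
      · rw [zero_mul])
    have e2 : ∑ x ∈ V0 \ Bad B, π x * f x ^ 2 ≤ 4 * δ ^ 2 / 399999 * energy C f := by
      calc ∑ x ∈ V0 \ Bad B, π x * f x ^ 2
          ≤ ∑ x ∈ V0 \ Bad B, 4 * δ ^ 2 / 399999 *
              (ν x * f x ^ 2 * ((1 - rho C ν (X B) x) / rho C ν (X B) x)) := by
            apply sum_le_sum
            intro x hx
            rw [mem_sdiff] at hx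
            have e3 : rho C ν (X B) x < 1 / 400000 := by
              by_contra h
              push Not at h
              exact hx.2 (mem_filter.mpr ⟨mem_univ x, h⟩)
            have e4 := rho_pos hC hν0 (hX0 B) x
            have e5 : (399999 : ℝ) ≤ (1 - rho C ν (X B) x) / rho C ν (X B) x := by
              rw [le_div_iff₀ e4]
              linarith
            have e6 : π x ≤ 4 * δ ^ 2 * ν x := by
              rw [← hπν x]
              have e7 : H x ^ 2 ≤ (2 * δ) ^ 2 :=
                pow_le_pow_left₀ (hH0 x).le (hV0up x hx.1) 2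
              have := mul_le_mul_of_nonneg_left e7 (hν0 x).le
              linarith
            calc π x * f x ^ 2 ≤ (4 * δ ^ 2 * ν x) * f x ^ 2 :=
                  mul_le_mul_of_nonneg_right e6 (sq_nonneg _)
              _ = 4 * δ ^ 2 / 399999 * (ν x * f x ^ 2 * 399999) := by ring
              _ ≤ 4 * δ ^ 2 / 399999 *
                    (ν x * f x ^ 2 * ((1 - rho C ν (X B) x) / rho C ν (X B) x)) := by
                  apply mul_le_mul_of_nonneg_left _ (by positivity)
                  exact mul_le_mul_of_nonneg_left e5 (mul_nonneg (hν0 x).le (sq_nonneg _))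
        _ ≤ ∑ x, 4 * δ ^ 2 / 399999 *
              (ν x * f x ^ 2 * ((1 - rho C ν (X B) x) / rho C ν (X B) x)) := by
            apply sum_le_sum_of_subset_of_nonneg (subset_univ _)
            intro x _ _
            have e4 := rho_pos hC hν0 (hX0 B) x
            have e5 := rho_le_one hC hν0 (hX0 B) x
            apply mul_nonneg (by positivity)
            apply mul_nonneg (mul_nonneg (hν0 x).le (sq_nonneg _))
            exact div_nonneg (by linarith) e4.le
        _ ≤ 4 * δ ^ 2 / 399999 * energy C f := by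
            rw [← mul_sum]
            exact mul_le_mul_of_nonneg_left e1 (by positivity)
    have e3 : ∑ x ∈ V0 ∩ Bad B, π x * f x ^ 2 ≤ 4 * ε := by
      calc ∑ x ∈ V0 ∩ Bad B, π x * f x ^ 2 ≤ ∑ x ∈ V0 ∩ Bad B, 4 * π x := by
            apply sum_le_sum
            intro x _
            have := mul_le_mul_of_nonneg_left (e0 x) (hπ x).le
            linarith
        _ = 4 * ∑ x ∈ V0 ∩ Bad B, π x := by rw [mul_sum]
        _ ≤ 4 * ε := by
            have e4 := hmono (inter_subset_right (s₁ := V0) (s₂ := Bad B))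
            have e5 := hbad B hB
            linarith
    have e4 : ∑ x ∈ V0 ∩ Bad B, π x * f x ^ 2 + ∑ x ∈ V0 \ Bad B, π x * f x ^ 2 =
        ∑ x ∈ V0, π x * f x ^ 2 := sum_inter_add_sum_sdiff V0 (Bad B) _
    have e5 := add_le_add e3 e2
    rw [e4] at e5
    refine e5.trans (le_of_eq (add_comm _ _))
  have hup : ∀ g : V → ℝ, (∀ x, |g x| ≤ 1) →
      ∑ x ∈ V0, ∑ y ∈ V0, π x * π y * (g x - g y) ^ 2 ≤
        8 * δ ^ 2 / 399999 * energy C g + 16 * ε := by
    intro g hg
    obtain ⟨x₁, hx₁, hx₁'⟩ := exists_quantile g π hsum (t := 1 / 2) (by norm_num) (by norm_num)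
    set m := g x₁ with hm
    have hm1 := hg x₁
    have e1 := var_upper (g := g) hπ hV0le m
    have hεhalf : ε ≤ 1 / 2 := by rw [hε]; norm_num
    have e2 := hsmall (fun x => max (g x - m) 0) (univ.filter (fun x => g x ≤ m))
      (hεhalf.trans hx₁) (by
        intro x hx
        have := (mem_filter.mp hx).2
        exact max_eq_right (by linarith)) (by
        intro x
        have h1 := abs_le.mp (hg x)
        have h2 := abs_le.mp hm1
        rw [abs_le]
        constructor
        · have := le_max_right (g x - m) 0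
          linarith
        · exact max_le (by linarith [h1.1, h1.2, h2.1, h2.2]) (by norm_num))
    have hge : 1 / 2 ≤ ∑ x ∈ univ.filter (fun x => m ≤ g x), π x := by
      have e3 := sum_filter_add_sum_filter_not univ (fun x => g x < m) π
      have e4 : univ.filter (fun x => ¬ g x < m) = univ.filter (fun x => m ≤ g x) := by
        ext x
        simp
      rw [e4, hsum] at e3
      linarith
    have e3 := hsmall (fun x => max (m - g x) 0) (univ.filter (fun x => m ≤ g x))
      (hεhalf.trans hge) (by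
        intro x hx
        have := (mem_filter.mp hx).2
        exact max_eq_right (by linarith)) (by
        intro x
        have h1 := abs_le.mp (hg x)
        have h2 := abs_le.mp hm1
        rw [abs_le]
        constructor
        · have := le_max_right (m - g x) 0
          linarith
        · exact max_le (by linarith [h1.1, h1.2, h2.1, h2.2]) (by norm_num))
    have e4 := energy_pos_neg hC g m
    have e5 : ∀ x, (g x - m) ^ 2 = max (g x - m) 0 ^ 2 + max (m - g x) 0 ^ 2 := by
      intro x
      rcases le_total (g x) m with h | h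
      · rw [max_eq_right (by linarith), max_eq_left (by linarith)]
        ring
      · rw [max_eq_left (by linarith), max_eq_right (by linarith)]
        ring
    have e6 : ∑ x ∈ V0, π x * (g x - m) ^ 2 =
        ∑ x ∈ V0, π x * max (g x - m) 0 ^ 2 + ∑ x ∈ V0, π x * max (m - g x) 0 ^ 2 := by
      rw [← sum_add_distrib]
      apply sum_congr rfl
      intro x _
      rw [e5 x]
      ring
    rw [e6] at e1
    have e7 : 4 * δ ^ 2 / 399999 * (energy C (fun x => max (g x - m) 0) +
        energy C (fun x => max (m - g x) 0)) ≤ 4 * δ ^ 2 / 399999 * energy C g :=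
      mul_le_mul_of_nonneg_left e4 (by positivity)
    linarith
  -- random signs
  set z : Fin N → V → ℝ := fun i x => (1 / (4 * δ)) * a i x with hz
  set S : (Fin N → Bool) → V → ℝ := fun σ x => ∑ i, sg (σ i) * z i x with hS
  have hEtot : ∑ σ : Fin N → Bool, energy C (S σ) ≤ 2 ^ N / (16 * δ ^ 2) := by
    have e1 := sum_energy_signs (C := C) z
    have e2 : ∀ i, energy C (z i) = (1 / (4 * δ)) ^ 2 * energy C (a i) := fun i =>
      energy_smul _ _
    rw [hS, e1]
    simp only [e2]
    rw [← mul_sum]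
    have e3 := haF.2
    have e4 : (1 / (4 * δ)) ^ 2 * ∑ i, energy C (a i) ≤ (1 / (4 * δ)) ^ 2 * 1 :=
      mul_le_mul_of_nonneg_left e3 (by positivity)
    have e5 : (2 : ℝ) ^ N * ((1 / (4 * δ)) ^ 2 * ∑ i, energy C (a i)) ≤
        2 ^ N * ((1 / (4 * δ)) ^ 2 * 1) := mul_le_mul_of_nonneg_left e4 (by positivity)
    refine e5.trans (le_of_eq ?_)
    field_simp
    ring
  have hSup : ∀ σ, ∑ x ∈ V0, ∑ y ∈ V0, π x * π y * (2 - 2 * Real.cos (S σ x - S σ y)) ≤
      8 * δ ^ 2 / 399999 * energy C (S σ) + 32 * ε := by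
    intro σ
    have e1 := hup (fun x => Real.cos (S σ x)) (fun x => Real.abs_cos_le_one _)
    have e2 := hup (fun x => Real.sin (S σ x)) (fun x => Real.abs_sin_le_one _)
    have e3 := energy_cos_sin hC (S σ)
    have e4 : ∑ x ∈ V0, ∑ y ∈ V0, π x * π y * (2 - 2 * Real.cos (S σ x - S σ y)) =
        ∑ x ∈ V0, ∑ y ∈ V0, π x * π y * (Real.cos (S σ x) - Real.cos (S σ y)) ^ 2 +
        ∑ x ∈ V0, ∑ y ∈ V0, π x * π y * (Real.sin (S σ x) - Real.sin (S σ y)) ^ 2 := by
      rw [← sum_add_distrib]
      apply sum_congr rfl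
      intro x _
      rw [← sum_add_distrib]
      apply sum_congr rfl
      intro y _
      rw [Real.cos_sub]
      have h2 := Real.sin_sq_add_cos_sq (S σ x)
      have h3 := Real.sin_sq_add_cos_sq (S σ y)
      linear_combination (-(π x * π y)) * h2 - (π x * π y) * h3
    have e5 : 8 * δ ^ 2 / 399999 * (energy C (fun x => Real.cos (S σ x)) +
        energy C (fun x => Real.sin (S σ x))) ≤ 8 * δ ^ 2 / 399999 * energy C (S σ) :=
      mul_le_mul_of_nonneg_left e3 (by positivity)
    rw [e4]
    linarith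
  have hlow : (2 : ℝ) ^ N / 160 ≤ ∑ σ : Fin N → Bool,
      ∑ x ∈ V0, ∑ y ∈ V0, π x * π y * (2 - 2 * Real.cos (S σ x - S σ y)) := by
    have e1 : ∑ σ : Fin N → Bool,
        ∑ x ∈ V0, ∑ y ∈ V0, π x * π y * (2 - 2 * Real.cos (S σ x - S σ y)) =
        ∑ x ∈ V0, ∑ y ∈ V0, π x * π y * (2 * 2 ^ N * (1 - ∏ i, Real.cos (z i x - z i y))) := by
      rw [sum_comm]
      apply sum_congr rfl
      intro x _
      rw [sum_comm]
      apply sum_congr rfl
      intro y _
      rw [← mul_sum]
      congr 1
      have e2 := signs_cos (fun i => z i x - z i y)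
      have e3 : ∀ σ : Fin N → Bool, S σ x - S σ y = ∑ i, sg (σ i) * (z i x - z i y) := by
        intro σ
        rw [hS]
        simp only
        rw [← sum_sub_distrib]
        apply sum_congr rfl
        intro i _
        ring
      simp only [e3]
      rw [sum_sub_distrib, ← mul_sum, e2]
      simp only [sum_const, card_univ, nsmul_eq_mul]
      simp
      ring
    rw [e1]
    have hcomp : ∀ x ∈ V0, ∀ y ∈ V0, (∑ i, (z i x - z i y) ^ 2) / 10 ≤
        1 - ∏ i, Real.cos (z i x - z i y) := by
      intro x hx y hy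
      have f1 : ∀ i, z i x - z i y = (1 / (4 * δ)) * (a i x - a i y) := by
        intro i
        rw [hz]
        ring
      have f2 : ∀ i w, |a i w| ≤ H w := by
        intro i w
        apply abs_le_of_sq_le_sq _ (hH0 w).le
        rw [hHa]
        exact single_le_sum (f := fun i => a i w ^ 2) (fun j _ => sq_nonneg _) (mem_univ i)
      have f3 : ∀ i, |z i x - z i y| ≤ 1 := by
        intro i
        rw [f1, abs_mul, abs_of_pos (by positivity)]
        have g1 : |a i x - a i y| ≤ 4 * δ := by
          have g2 := f2 i x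
          have g3 := f2 i y
          have g4 := hV0up x hx
          have g5 := hV0up y hy
          have g6 := abs_sub (a i x) (a i y)
          linarith
        calc 1 / (4 * δ) * |a i x - a i y| ≤ 1 / (4 * δ) * (4 * δ) :=
              mul_le_mul_of_nonneg_left g1 (by positivity)
          _ = 1 := by field_simp
      have f4 : ∑ i, (z i x - z i y) ^ 2 ≤ 1 := by
        have g1 : ∀ i, (z i x - z i y) ^ 2 ≤ (1 / (16 * δ ^ 2)) * (2 * (a i x ^ 2 + a i y ^ 2)) := by
          intro i
          rw [f1, mul_pow]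
          have : (1 / (4 * δ)) ^ 2 = 1 / (16 * δ ^ 2) := by
            field_simp
            norm_num
          rw [this]
          apply mul_le_mul_of_nonneg_left _ (by positivity)
          nlinarith [sq_nonneg (a i x + a i y)]
        calc ∑ i, (z i x - z i y) ^ 2 ≤ ∑ i, (1 / (16 * δ ^ 2)) * (2 * (a i x ^ 2 + a i y ^ 2)) :=
              sum_le_sum fun i _ => g1 i
          _ = (1 / (16 * δ ^ 2)) * (2 * (H x ^ 2 + H y ^ 2)) := by
              rw [← mul_sum, ← mul_sum, sum_add_distrib, ← hHa, ← hHa]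
          _ ≤ (1 / (16 * δ ^ 2)) * (2 * ((2 * δ) ^ 2 + (2 * δ) ^ 2)) := by
              apply mul_le_mul_of_nonneg_left _ (by positivity)
              have g2 : H x ^ 2 ≤ (2 * δ) ^ 2 := pow_le_pow_left₀ (hH0 x).le (hV0up x hx) 2
              have g3 : H y ^ 2 ≤ (2 * δ) ^ 2 := pow_le_pow_left₀ (hH0 y).le (hV0up y hy) 2
              linarith
          _ = 1 := by
              field_simp
              norm_num
      have f5 := prod_cos_le (fun i => z i x - z i y) f3 f4
      linarith
    have e2 : ∑ x ∈ V0, ∑ y ∈ V0, π x * π y * (2 * 2 ^ N * ((∑ i, (z i x - z i y) ^ 2) / 10)) ≤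
        ∑ x ∈ V0, ∑ y ∈ V0, π x * π y * (2 * 2 ^ N * (1 - ∏ i, Real.cos (z i x - z i y))) := by
      apply sum_le_sum
      intro x hx
      apply sum_le_sum
      intro y hy
      apply mul_le_mul_of_nonneg_left _ (mul_nonneg (hπ x).le (hπ y).le)
      exact mul_le_mul_of_nonneg_left (hcomp x hx y hy) (by positivity)
    refine le_trans ?_ e2
    have e3 : ∑ x ∈ V0, ∑ y ∈ V0, π x * π y * (2 * 2 ^ N * ((∑ i, (z i x - z i y) ^ 2) / 10)) =
        (2 ^ N / (80 * δ ^ 2)) * ∑ i, ∑ x ∈ V0, ∑ y ∈ V0, π x * π y * (a i x - a i y) ^ 2 := by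
      have f0 : ∑ i, ∑ x ∈ V0, ∑ y ∈ V0, π x * π y * (a i x - a i y) ^ 2 =
          ∑ x ∈ V0, ∑ y ∈ V0, ∑ i, π x * π y * (a i x - a i y) ^ 2 := by
        rw [sum_comm]
        apply sum_congr rfl
        intro x _
        rw [sum_comm]
      rw [f0, mul_sum]
      apply sum_congr rfl
      intro x _
      rw [mul_sum]
      apply sum_congr rfl
      intro y _
      have f1 : ∀ i, (z i x - z i y) ^ 2 = (1 / (16 * δ ^ 2)) * (a i x - a i y) ^ 2 := by
        intro i
        rw [hz]
        simp only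
        rw [← mul_sub, mul_pow]
        congr 1
        field_simp
        norm_num
      simp only [f1]
      rw [← mul_sum, ← mul_sum]
      field_simp
      ring
    rw [e3]
    have e4 : δ ^ 2 / 2 ≤ ∑ i, ∑ x ∈ V0, ∑ y ∈ V0, π x * π y * (a i x - a i y) ^ 2 := by
      have f1 : ∑ i, (2 * (∑ x ∈ V0, π x) - 1) * ∑ x ∈ V0, π x * a i x ^ 2 ≤
          ∑ i, ∑ x ∈ V0, ∑ y ∈ V0, π x * π y * (a i x - a i y) ^ 2 :=
        sum_le_sum fun i _ => var_lower hπ hsum (haF.1 i) V0
      refine le_trans ?_ f1
      rw [← mul_sum, sum_comm]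
      have f2 : ∑ x ∈ V0, ∑ i, π x * a i x ^ 2 = ∑ x ∈ V0, π x * H x ^ 2 := by
        apply sum_congr rfl
        intro x _
        rw [← mul_sum, hHa]
      rw [f2]
      have f3 : (∑ x ∈ V0, π x) * δ ^ 2 ≤ ∑ x ∈ V0, π x * H x ^ 2 := by
        rw [sum_mul]
        apply sum_le_sum
        intro x hx
        apply mul_le_mul_of_nonneg_left _ (hπ x).le
        exact pow_le_pow_left₀ hδ0.le (hV0low x hx) 2
      set p := ∑ x ∈ V0, π x with hp
      have f4 : 1 - 3 / 25000 ≤ p := by
        rw [hε] at hV0mass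
        linarith
      have f5 : 0 ≤ 2 * p - 1 := by linarith
      have f6 := mul_le_mul_of_nonneg_left f3 f5
      have f7 : δ ^ 2 / 2 ≤ (2 * p - 1) * (p * δ ^ 2) := by
        have f8 : (1 : ℝ) / 2 ≤ (2 * p - 1) * p := by nlinarith
        have f9 := mul_le_mul_of_nonneg_right f8 (sq_nonneg δ)
        linarith
      linarith
    calc (2 : ℝ) ^ N / 160 = (2 ^ N / (80 * δ ^ 2)) * (δ ^ 2 / 2) := by
          field_simp
          norm_num
      _ ≤ _ := mul_le_mul_of_nonneg_left e4 (by positivity)
  -- conclusion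
  have hfin : ∑ σ : Fin N → Bool,
      ∑ x ∈ V0, ∑ y ∈ V0, π x * π y * (2 - 2 * Real.cos (S σ x - S σ y)) ≤
      8 * δ ^ 2 / 399999 * (2 ^ N / (16 * δ ^ 2)) + 2 ^ N * (32 * ε) := by
    calc _ ≤ ∑ σ : Fin N → Bool, (8 * δ ^ 2 / 399999 * energy C (S σ) + 32 * ε) :=
          sum_le_sum fun σ _ => hSup σ
      _ = 8 * δ ^ 2 / 399999 * ∑ σ : Fin N → Bool, energy C (S σ) + 2 ^ N * (32 * ε) := by
          rw [sum_add_distrib, ← mul_sum]
          simp
      _ ≤ _ := by
          have := mul_le_mul_of_nonneg_left hEtot (show 0 ≤ 8 * δ ^ 2 / 399999 by positivity)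
          linarith
  have hfin2 : 8 * δ ^ 2 / 399999 * (2 ^ N / (16 * δ ^ 2)) = (2 : ℝ) ^ N / 799998 := by
    field_simp
    norm_num
  rw [hfin2, hε] at hfin
  have h2N : (0 : ℝ) < 2 ^ N := by positivity
  linarith

end Pool.Agent.Speedup
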