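import Mathlib
import Pool.Agent.Speedup.PartB
import Pool.Agent.Speedup.StructC

set_option autoImplicit false
set_option linter.unusedSectionVars false

/-!
From the structure theorem to the field with a Poincaré measure, and to the pinned field.
-/

open Finset Matrix MeasureTheory ProbabilityTheory WithLp Filter Topology
open scoped ENNReal RealInnerProductSpace

namespace Pool.Agent.Speedup

variable {V : Type} [Fintype V] [DecidableEq V]

/-- real-valued version of covariance domination. -/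
lemma gauss_dom_real {S₁ S₂ : Matrix V V ℝ} (h₁ : S₁.PosSemidef) (h₂ : S₂.PosSemidef)
    (h : (S₂ - S₁).PosSemidef) (A : ℝ) :
    (multivariateGaussian (0 : EuclideanSpace ℝ V) S₁).real {x | ∃ i, A < |x i|} ≤
      2 * (multivariateGaussian (0 : EuclideanSpace ℝ V) S₂).real {x | ∃ i, A < |x i|} := by
  have h1 := gauss_dom h₁ h₂ h A
  have h2 := ENNReal.toReal_mono (ENNReal.mul_ne_top (by simp) (measure_ne_top _ _)) h1
  rw [ENNReal.toReal_mul] at h2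
  simpa [Measure.real] using h2

lemma psd_sub_of_form {S₁ S₂ : Matrix V V ℝ} (h₁ : S₁.PosSemidef) (h₂ : S₂.PosSemidef)
    (h : ∀ ρ : V → ℝ, ρ ⬝ᵥ S₁ *ᵥ ρ ≤ ρ ⬝ᵥ S₂ *ᵥ ρ) : (S₂ - S₁).PosSemidef := by
  refine PosSemidef.of_dotProduct_mulVec_nonneg (h₂.isHermitian.sub h₁.isHermitian) fun ρ => ?_
  rw [star_trivial, sub_mulVec, dotProduct_sub]
  linarith [h ρ]

lemma Lam_add (C : V → V → ℝ) (ν χ : V → ℝ) :
    Lam C (fun x => ν x + χ x) = Lam C ν + Matrix.diagonal χ := by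
  ext x y
  simp only [Lam, Matrix.sub_apply, Matrix.add_apply, Matrix.diagonal_apply, Matrix.of_apply]
  split_ifs <;> ring

lemma Lam_add_mulVec (C : V → V → ℝ) (ν χ f : V → ℝ) (x : V) :
    (Lam C (fun x => ν x + χ x) *ᵥ f) x = (Lam C ν *ᵥ f) x + χ x * f x := by
  rw [Lam_add, add_mulVec, Pi.add_apply, mulVec_diagonal]

section

variable {C : V → V → ℝ} (hC : IsNet C) {ν χ : V → ℝ} (hν : ∀ x, 0 ≤ ν x) (hν0 : ∃ x, 0 < ν x)
  (hχ : ∀ x, 0 ≤ χ x) (hχ0 : ∃ x, 0 < χ x)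
include hC hν hν0 hχ hχ0

/-- domination of the difference field. -/
lemma field_diff {A δ : ℝ}
    (hA : (multivariateGaussian (0 : EuclideanSpace ℝ V) (Lam C χ)⁻¹).real {x | ∃ i, A < |x i|} ≤ δ) :
    (multivariateGaussian (0 : EuclideanSpace ℝ V) (Lam C ν)⁻¹).real
      {η | ∃ x, A < |η x - ((Lam C (fun x => ν x + χ x))⁻¹ *ᵥ (fun y => χ y * η y)) x|} ≤ 2 * δ := by
  have hpν : (Lam C ν).PosDef := Lam_posDef hC hν hν0
  have hpχ : (Lam C χ).PosDef := Lam_posDef hC hχ hχ0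
  have hpp : (Lam C (fun x => ν x + χ x)).PosDef := Lam_posDef hC (fun x => add_nonneg (hν x) (hχ x))
    (by obtain ⟨x, hx⟩ := hν0; exact ⟨x, add_pos_of_pos_of_nonneg hx (hχ x)⟩)
  set Gp := (Lam C (fun x => ν x + χ x))⁻¹ with hGp
  set Lm : Matrix V V ℝ := Gp * Lam C ν with hLm
  have hmap := gauss_map hpν.inv.posSemidef Lm
  have hpt : ∀ (η : EuclideanSpace ℝ V) x, (Lm *ᵥ η.ofLp) x = η x - (Gp *ᵥ (fun y => χ y * η y)) x := by
    intro η x
    have h1 : Lam C ν *ᵥ η.ofLp = Lam C (fun x => ν x + χ x) *ᵥ η.ofLp - (fun y => χ y * η y) := by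
      ext y
      rw [Pi.sub_apply, Lam_add_mulVec]
      ring
    rw [hLm, ← mulVec_mulVec, h1, mulVec_sub, hGp, pd_inv_mulVec hpp]
    rfl
  have hset : MeasurableSet {x : EuclideanSpace ℝ V | ∃ i, A < |x i|} := measurableSet_exceed A
  have hcont : Measurable (fun x : EuclideanSpace ℝ V => (toLp 2 (Lm *ᵥ x.ofLp) : EuclideanSpace ℝ V)) := by
    apply Continuous.measurable
    apply Continuous.comp (by fun_prop)
    fun_prop
  have h2 : (multivariateGaussian (0 : EuclideanSpace ℝ V) (Lam C ν)⁻¹).real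
      {η | ∃ x, A < |η x - (Gp *ᵥ (fun y => χ y * η y)) x|} =
      (multivariateGaussian (0 : EuclideanSpace ℝ V) (Lm * (Lam C ν)⁻¹ * Lmᵀ)).real
        {x | ∃ i, A < |x i|} := by
    rw [← hmap, map_measureReal_apply hcont hset]
    congr 1
    ext η
    simp only [Set.mem_preimage, Set.mem_ofPred_eq]
    exact exists_congr fun x => by rw [← hpt]
  rw [h2]
  have hS₁ : (Lm * (Lam C ν)⁻¹ * Lmᵀ).PosSemidef := by
    have := hpν.inv.posSemidef.mul_mul_conjTranspose_same Lm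
    rwa [conjTranspose_eq_transpose_of_trivial] at this
  refine (gauss_dom_real hS₁ hpχ.inv.posSemidef (psd_sub_of_form hS₁ hpχ.inv.posSemidef ?_) A).trans
    (by linarith)
  intro ρ
  -- ρ Lm G Lmᵀ ρ = f ⬝ Λ_ν f with f = Gp ρ
  set f := Gp *ᵥ ρ with hf
  have e1 : Lm * (Lam C ν)⁻¹ * Lmᵀ = Gp * Lam C ν * Gp := by
    have hdet := pd_isUnit_det hpν
    rw [hLm, transpose_mul, pd_symm hpν, hGp, pd_inv_symm hpp, Matrix.mul_assoc,
      ← Matrix.mul_assoc (Lam C ν)⁻¹, nonsing_inv_mul _ hdet, Matrix.one_mul]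
  have e2 : ρ ⬝ᵥ (Lm * (Lam C ν)⁻¹ * Lmᵀ) *ᵥ ρ = f ⬝ᵥ Lam C ν *ᵥ f := by
    rw [e1, ← mulVec_mulVec, ← mulVec_mulVec, ← hf, dotProduct_mulVec, ← mulVec_transpose, hGp,
      pd_inv_symm hpp]
  have e3 : f ⬝ᵥ Lam C ν *ᵥ f ≤ f ⬝ᵥ Lam C (fun x => ν x + χ x) *ᵥ f := by
    rw [Lam_form hC.symm, Lam_form hC.symm]
    have : ∑ x, ν x * f x ^ 2 ≤ ∑ x, (ν x + χ x) * f x ^ 2 :=
      sum_le_sum fun x _ => mul_le_mul_of_nonneg_right (by linarith [hχ x]) (sq_nonneg _)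
    linarith
  have e4 : f ⬝ᵥ Lam C (fun x => ν x + χ x) *ᵥ f = ρ ⬝ᵥ Gp *ᵥ ρ := by
    rw [hf, hGp, pd_mulVec_inv hpp, dotProduct_comm]
  have e5 : ρ ⬝ᵥ Gp *ᵥ ρ ≤ ρ ⬝ᵥ (Lam C χ)⁻¹ *ᵥ ρ := by
    refine inv_antitone hpχ hpp (fun g => ?_) ρ
    rw [Lam_form hC.symm, Lam_form hC.symm]
    have : ∑ x, χ x * g x ^ 2 ≤ ∑ x, (ν x + χ x) * g x ^ 2 :=
      sum_le_sum fun x _ => mul_le_mul_of_nonneg_right (by linarith [hν x]) (sq_nonneg _)
    linarith
  rw [e2]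
  linarith

end

/-- deterministic inequality -/
lemma determ {C : V → V → ℝ} (hC : IsNet C) {ν χ₁ χ₂ : V → ℝ} (hν : ∀ x, 0 ≤ ν x)
    (hν0 : ∃ x, 0 < ν x) (hχ₁ : ∀ x, 0 ≤ χ₁ x) (hχ₂ : ∀ x, 0 ≤ χ₂ x) {B1 : Finset V}
    (hB1 : ∀ x, x ∉ B1 → χ₁ x = 0) {c A : ℝ} (hc : 0 < c) (hc1 : c ≤ 1) (hA0 : 0 ≤ A)
    (hu : ∀ x ∈ B1, ((Lam C (fun y => ν y + χ₂ y))⁻¹ *ᵥ χ₂) x ≤ 1 - c) {η : V → ℝ}
    (h1 : ∀ x, |η x - ((Lam C (fun x => ν x + χ₁ x))⁻¹ *ᵥ (fun y => χ₁ y * η y)) x| ≤ A)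
    (h2 : ∀ x, |η x - ((Lam C (fun x => ν x + χ₂ x))⁻¹ *ᵥ (fun y => χ₂ y * η y)) x| ≤ A) (x : V) :
    |η x| ≤ 2 * A / c := by
  have hpp : ∀ {χ : V → ℝ}, (∀ x, 0 ≤ χ x) → (Lam C (fun x => ν x + χ x)).PosDef := fun {χ} hχ =>
    Lam_posDef hC (fun x => add_nonneg (hν x) (hχ x))
    (by obtain ⟨x, hx⟩ := hν0; exact ⟨x, add_pos_of_pos_of_nonneg hx (hχ x)⟩)
  have hG0 : ∀ {χ : V → ℝ} (hχ : ∀ x, 0 ≤ χ x) (x y : V), 0 ≤ (Lam C (fun x => ν x + χ x))⁻¹ x y :=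
    fun {χ} hχ x y => mmatrix_inv_nonneg (hpp hχ) (Lam_off hC.nonneg _) x y
  obtain ⟨x₀, -, hx₀⟩ := exists_max_image univ (fun x => |η x|) ⟨x, mem_univ x⟩
  set M := |η x₀| with hM
  have hM0 : 0 ≤ M := abs_nonneg _
  have hle : ∀ y, |η y| ≤ M := fun y => hx₀ y (mem_univ y)
  -- general bound
  have hgen : ∀ {χ : V → ℝ} (hχ : ∀ x, 0 ≤ χ x) {R : ℝ} (hR : ∀ y, χ y * |η y| ≤ χ y * R) (x : V),
      |((Lam C (fun x => ν x + χ x))⁻¹ *ᵥ (fun y => χ y * η y)) x| ≤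
        R * ((Lam C (fun x => ν x + χ x))⁻¹ *ᵥ χ) x := by
    intro χ hχ R hR x
    simp only [mulVec, dotProduct]
    refine (abs_sum_le_sum_abs _ _).trans ?_
    rw [mul_sum]
    refine sum_le_sum fun y _ => ?_
    rw [abs_mul, abs_mul, abs_of_nonneg (hG0 hχ x y), abs_of_nonneg (hχ y)]
    calc (Lam C (fun x => ν x + χ x))⁻¹ x y * (χ y * |η y|) ≤
        (Lam C (fun x => ν x + χ x))⁻¹ x y * (χ y * R) := mul_le_mul_of_nonneg_left (hR y) (hG0 hχ x y)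
      _ = _ := by ring
  have hone : ∀ {χ : V → ℝ} (_hχ : ∀ x, 0 ≤ χ x) (x : V),
      ((Lam C (fun x => ν x + χ x))⁻¹ *ᵥ χ) x ≤ 1 := by
    intro χ hχ x
    have e1 : (Lam C (fun x => ν x + χ x))⁻¹ *ᵥ (ν + χ) = 1 := by
      have h3 : Lam C (fun x => ν x + χ x) *ᵥ 1 = ν + χ := Lam_mulVec_one C _
      rw [← h3]
      exact pd_inv_mulVec (hpp hχ) 1
    rw [mulVec_add] at e1
    have e2 := congrFun e1 x
    simp only [Pi.add_apply, Pi.one_apply] at e2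
    have e3 := mmatrix_inv_mulVec_nonneg (hpp hχ) (Lam_off hC.nonneg _) hν x
    linarith
  have hstep2 : ∀ y ∈ B1, |η y| ≤ A + M * (1 - c) := by
    intro y hy
    have e1 := hgen hχ₂ (R := M) (fun z => mul_le_mul_of_nonneg_left (hle z) (hχ₂ z)) y
    have e2 := h2 y
    have e3 : |η y| ≤ |η y - ((Lam C (fun x => ν x + χ₂ x))⁻¹ *ᵥ (fun y => χ₂ y * η y)) y| +
        |((Lam C (fun x => ν x + χ₂ x))⁻¹ *ᵥ (fun y => χ₂ y * η y)) y| := by
      have := abs_add_le (η y - ((Lam C (fun x => ν x + χ₂ x))⁻¹ *ᵥ (fun y => χ₂ y * η y)) y)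
        (((Lam C (fun x => ν x + χ₂ x))⁻¹ *ᵥ (fun y => χ₂ y * η y)) y)
      simpa using this
    have e4 := mul_le_mul_of_nonneg_left (hu y hy) hM0
    linarith
  have hR0 : 0 ≤ A + M * (1 - c) := add_nonneg hA0 (mul_nonneg hM0 (by linarith))
  have hstep1 : M ≤ A + (A + M * (1 - c)) := by
    have e1 := hgen hχ₁ (R := A + M * (1 - c)) (fun y => by
      by_cases hy : y ∈ B1
      · exact mul_le_mul_of_nonneg_left (hstep2 y hy) (hχ₁ y)
      · rw [hB1 y hy]; simp) x₀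
    have e2 := h1 x₀
    have e3 : |η x₀| ≤ |η x₀ - ((Lam C (fun x => ν x + χ₁ x))⁻¹ *ᵥ (fun y => χ₁ y * η y)) x₀| +
        |((Lam C (fun x => ν x + χ₁ x))⁻¹ *ᵥ (fun y => χ₁ y * η y)) x₀| := by
      have := abs_add_le (η x₀ - ((Lam C (fun x => ν x + χ₁ x))⁻¹ *ᵥ (fun y => χ₁ y * η y)) x₀)
        (((Lam C (fun x => ν x + χ₁ x))⁻¹ *ᵥ (fun y => χ₁ y * η y)) x₀)
      simpa using this
    have e4 := mul_le_mul_of_nonneg_left (hone hχ₁ x₀) hR0
    linarith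
  refine (hle x).trans ?_
  rw [le_div_iff₀ hc]
  nlinarith

/-- Poincaré inequality with a median. -/
lemma poincare_of_half [Nonempty V] {C : V → V → ℝ} (hC : IsNet C) {π ν : V → ℝ}
    (hsum : ∑ x, π x = 1)
    (h : ∀ f : V → ℝ, 1 / 2 ≤ ∑ x ∈ univ.filter (fun x => f x = 0), π x →
          ∑ x, ν x * f x ^ 2 ≤ energy C f) (hπ : ∀ x, 0 < π x) (f : V → ℝ) :
    ∃ m : ℝ, ∑ x, ν x * (f x - m) ^ 2 ≤ energy C f := by
  obtain ⟨v, hv1, hv2⟩ := StructC.exists_quantile f π hsum (t := 1 / 2) (by norm_num) (by norm_num)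
  set m := f v with hm
  refine ⟨m, ?_⟩
  have h1 := h (fun x => max (f x - m) 0) (by
    refine hv1.trans (sum_le_sum_of_subset_of_nonneg ?_ fun x _ _ => (hπ x).le)
    intro x hx
    simp only [mem_filter, mem_univ, true_and] at hx ⊢
    exact max_eq_right (by linarith))
  have h2 := h (fun x => max (m - f x) 0) (by
    have h3 : ∑ x ∈ univ.filter (fun x => f x < m), π x + ∑ x ∈ univ.filter (fun x => ¬ f x < m), π x = 1 := by
      rw [sum_filter_add_sum_filter_not, hsum]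
    have h4 : 1 / 2 ≤ ∑ x ∈ univ.filter (fun x => ¬ f x < m), π x := by linarith
    refine h4.trans (sum_le_sum_of_subset_of_nonneg ?_ fun x _ _ => (hπ x).le)
    intro x hx
    simp only [mem_filter, mem_univ, true_and, not_lt] at hx ⊢
    exact max_eq_right (by linarith))
  have h5 := StructC.energy_pos_neg hC f m
  have h6 : ∑ x, ν x * (f x - m) ^ 2 =
      ∑ x, ν x * (max (f x - m) 0) ^ 2 + ∑ x, ν x * (max (m - f x) 0) ^ 2 := by
    rw [← sum_add_distrib]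
    refine sum_congr rfl fun x _ => ?_
    rcases le_total (f x) m with hx | hx
    · rw [max_eq_right (by linarith), max_eq_left (by linarith)]; ring
    · rw [max_eq_left (by linarith), max_eq_right (by linarith)]; ring
  rw [h6]
  linarith

/-- existence of a good Poincaré measure -/
theorem kernel [Nonempty V] {P : V → V → ℝ} {π : V → ℝ} {L : ℝ}
    (hP : ∀ x y, 0 ≤ P x y) (hP1 : ∀ x, ∑ y, P x y = 1) (hπ : ∀ x, 0 < π x) (hsum : ∑ x, π x = 1)
    (hnet : IsNet (fun x y => π x * P x y)) {k T : ℕ} (hk : 1 ≤ k) (hT : 1 ≤ T)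
    (hcov : ∀ u, ncov P k T u ≤ 1 / 2) (hL : 0 < L) :
    ∃ ν : V → ℝ, (∀ x, 0 ≤ ν x) ∧ (∃ x, 0 < ν x) ∧
      (∀ f : V → ℝ, ∃ m : ℝ, ∑ x, ν x * (f x - m) ^ 2 ≤ energy (fun x y => π x * P x y) f) ∧
      (multivariateGaussian 0 (Lam (fun x y => π x * P x y) ν)⁻¹).real
        {η : EuclideanSpace ℝ V | ∃ x, 2 * (4 * √(Real.exp 1 * L * k * T * 25000)) / (1 / 400000) < |η x|} ≤
        32 * Real.exp (-(L / 2)) := by
  set C : V → V → ℝ := fun x y => π x * P x y with hCdef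
  have hT' : (1 : ℝ) ≤ T := by exact_mod_cast hT
  have hk' : (1 : ℝ) ≤ k := by exact_mod_cast hk
  set A : ℝ := 4 * √(Real.exp 1 * L * k * T * 25000) with hA
  have hA0 : 0 ≤ A := by positivity
  have hexp0 := Real.exp_pos (-(L / 2))
  -- bound for a measure lam * pi * 1_B
  have hB : ∀ (B : Finset V), (1 / 25000 : ℝ) ≤ ∑ x ∈ B, π x →
      (multivariateGaussian 0 (Lam C (fun y => if y ∈ B then (1 / (T : ℝ)) * π y else 0))⁻¹).real
        {φ : EuclideanSpace ℝ V | ∃ x, A < |φ x|} ≤ 8 * Real.exp (-(L / 2)) := by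
    intro B hBπ
    set n : V → ℝ := fun y => if y ∈ B then (1 / (T : ℝ)) * π y else 0 with hn
    have hnn : ∀ x, 0 ≤ n x := fun x => by
      simp only [hn]; split_ifs
      · have := hπ x; positivity
      · exact le_rfl
    have hnle : ∀ x, n x ≤ (1 / (T : ℝ)) * π x := fun x => by
      simp only [hn]; split_ifs
      · exact le_rfl
      · have := hπ x; positivity
    have hsumn : ∑ x, n x = (1 / (T : ℝ)) * ∑ x ∈ B, π x := by
      simp only [hn]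
      rw [mul_sum, ← sum_filter]
      simp
    have hNlow : 1 / ((T : ℝ) * 25000) ≤ ∑ x, n x := by
      rw [hsumn]
      calc 1 / ((T : ℝ) * 25000) = (1 / (T : ℝ)) * (1 / 25000) := by field_simp
        _ ≤ _ := mul_le_mul_of_nonneg_left hBπ (by positivity)
    have hN : 0 < ∑ x, n x := lt_of_lt_of_le (by positivity) hNlow
    have h1 := partB (L := L) hP hP1 hπ hnet hk hT hcov hnn hnle hN hL
    refine le_trans (measureReal_mono ?_) h1
    intro φ hφ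
    obtain ⟨x, hx⟩ := hφ
    refine ⟨x, lt_of_le_of_lt ?_ hx⟩
    rw [hA]
    refine mul_le_mul_of_nonneg_left (Real.sqrt_le_sqrt ?_) (by norm_num)
    rw [div_le_iff₀ hN]
    have h2 : Real.exp 1 * L * k * T * 25000 * (1 / ((T : ℝ) * 25000)) = Real.exp 1 * L * k := by
      field_simp
    calc Real.exp 1 * L * k = Real.exp 1 * L * k * T * 25000 * (1 / ((T : ℝ) * 25000)) := h2.symm
      _ ≤ _ := mul_le_mul_of_nonneg_left hNlow (by positivity)
  by_cases hatom : ∀ x, π x ≤ 1 / 2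
  · obtain ⟨ν, hν, hpo, B1, B2, hB1, hB2, hu⟩ := structC C hnet π hπ hsum hatom (1 / (T : ℝ)) (by positivity)
    set χ₁ : V → ℝ := fun y => if y ∈ B1 then (1 / (T : ℝ)) * π y else 0 with hχ₁
    set χ₂ : V → ℝ := fun y => if y ∈ B2 then (1 / (T : ℝ)) * π y else 0 with hχ₂
    have hχ₁0 : ∀ x, 0 ≤ χ₁ x := fun x => by
      simp only [hχ₁]; split_ifs
      · have := hπ x; positivity
      · exact le_rfl
    have hχ₂0 : ∀ x, 0 ≤ χ₂ x := fun x => by
      simp only [hχ₂]; split_ifs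
      · have := hπ x; positivity
      · exact le_rfl
    have hex : ∀ {B : Finset V}, (1 / 25000 : ℝ) ≤ ∑ x ∈ B, π x →
        ∃ x, 0 < (if x ∈ B then (1 / (T : ℝ)) * π x else 0) := by
      intro B hB'
      have : B.Nonempty := by
        by_contra hne
        rw [not_nonempty_iff_eq_empty] at hne
        rw [hne, sum_empty] at hB'
        norm_num at hB'
      obtain ⟨x, hx⟩ := this
      refine ⟨x, ?_⟩
      rw [if_pos hx]
      have := hπ x
      positivity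
    have hν0 : ∀ x, 0 ≤ ν x := fun x => (hν x).le
    have hνe : ∃ x, 0 < ν x := ⟨Classical.arbitrary V, hν _⟩
    refine ⟨ν, hν0, hνe, poincare_of_half hnet hsum hpo hπ, ?_⟩
    have h1 := field_diff hnet hν0 hνe hχ₁0 (hex hB1) (hB B1 hB1)
    have h2 := field_diff hnet hν0 hνe hχ₂0 (hex hB2) (hB B2 hB2)
    set E1 : Set (EuclideanSpace ℝ V) :=
      {η | ∃ x, A < |η x - ((Lam C (fun x => ν x + χ₁ x))⁻¹ *ᵥ (fun y => χ₁ y * η y)) x|} with hE1
    set E2 : Set (EuclideanSpace ℝ V) :=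
      {η | ∃ x, A < |η x - ((Lam C (fun x => ν x + χ₂ x))⁻¹ *ᵥ (fun y => χ₂ y * η y)) x|} with hE2
    have hsub : {η : EuclideanSpace ℝ V | ∃ x, 2 * A / (1 / 400000) < |η x|} ⊆ E1 ∪ E2 := by
      intro η hη
      by_contra hcon
      rw [Set.mem_union, not_or] at hcon
      obtain ⟨x, hx⟩ := hη
      have hc1 : ∀ x, |η x - ((Lam C (fun x => ν x + χ₁ x))⁻¹ *ᵥ (fun y => χ₁ y * η y)) x| ≤ A := by
        intro x
        by_contra hx'
        exact hcon.1 ⟨x, not_le.mp hx'⟩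
      have hc2 : ∀ x, |η x - ((Lam C (fun x => ν x + χ₂ x))⁻¹ *ᵥ (fun y => χ₂ y * η y)) x| ≤ A := by
        intro x
        by_contra hx'
        exact hcon.2 ⟨x, not_le.mp hx'⟩
      have := determ hnet hν0 hνe hχ₁0 hχ₂0 (B1 := B1) (fun x hx => if_neg hx) (c := 1 / 400000)
        (by norm_num) (by norm_num) hA0 hu hc1 hc2 x
      linarith
    calc _ ≤ (multivariateGaussian 0 (Lam C ν)⁻¹).real (E1 ∪ E2) := measureReal_mono hsub
      _ ≤ _ := measureReal_union_le _ _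
      _ ≤ _ := by linarith
  · push Not at hatom
    obtain ⟨x₀, hx₀⟩ := hatom
    set ν : V → ℝ := fun y => if y ∈ ({x₀} : Finset V) then (1 / (T : ℝ)) * π y else 0 with hν
    have hν0 : ∀ x, 0 ≤ ν x := fun x => by
      simp only [hν]; split_ifs
      · have := hπ x; positivity
      · exact le_rfl
    refine ⟨ν, hν0, ⟨x₀, ?_⟩, fun f => ⟨f x₀, ?_⟩, ?_⟩
    · simp only [hν, mem_singleton, if_true]
      have := hπ x₀
      positivity
    · have : ∑ x, ν x * (f x - f x₀) ^ 2 = 0 := by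
        refine sum_eq_zero fun x _ => ?_
        by_cases hx : x = x₀
        · rw [hx]; ring
        · simp [hν, hx]
      rw [this]
      exact energy_nonneg hnet.nonneg f
    · have h1 := hB {x₀} (by rw [sum_singleton]; linarith)
      refine le_trans (measureReal_mono ?_) (h1.trans (by linarith))
      intro φ hφ
      obtain ⟨x, hx⟩ := hφ
      refine ⟨x, lt_of_le_of_lt ?_ hx⟩
      rw [le_div_iff₀ (by norm_num)]
      linarith

/-- covariance domination on sum-zero vectors -/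
lemma pinned_form {C : V → V → ℝ} (hC : IsNet C) {ν : V → ℝ} (hν : ∀ x, 0 ≤ ν x) (hν0 : ∃ x, 0 < ν x)
    (hpo : ∀ f : V → ℝ, ∃ m : ℝ, ∑ x, ν x * (f x - m) ^ 2 ≤ energy C f) (u : V) {κ : ℝ} (hκ : 0 < κ)
    (ρ : V → ℝ) (hρ : ∑ x, ρ x = 0) :
    ρ ⬝ᵥ (Lam C (fun x => if x = u then κ else 0))⁻¹ *ᵥ ρ ≤ 2 * (ρ ⬝ᵥ (Lam C ν)⁻¹ *ᵥ ρ) := by
  have hpν : (Lam C ν).PosDef := Lam_posDef hC hν hν0
  have hpu : (Lam C (fun x => if x = u then κ else 0)).PosDef :=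
    Lam_posDef hC (fun x => by split_ifs <;> [exact hκ.le; exact le_rfl]) ⟨u, by simp [hκ]⟩
  set Λ := Lam C (fun x => if x = u then κ else 0) with hΛ
  set f := Λ⁻¹ *ᵥ ρ with hf
  have hΛf : Λ *ᵥ f = ρ := pd_mulVec_inv hpu ρ
  have hfu : f u = 0 := by
    have h1 : (1 : V → ℝ) ⬝ᵥ Λ *ᵥ f = κ * f u := by
      rw [pd_comm hpu, hΛ, Lam_mulVec_one]
      simp [dotProduct, mul_comm]
    have h2 : (1 : V → ℝ) ⬝ᵥ Λ *ᵥ f = 0 := by
      rw [hΛf]; simpa [dotProduct] using hρ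
    have h3 : κ * f u = 0 := by rw [← h1, h2]
    exact (mul_eq_zero.mp h3).resolve_left hκ.ne'
  have hX : ρ ⬝ᵥ f = energy C f := by
    have h1 : f ⬝ᵥ Λ *ᵥ f = energy C f := by
      rw [hΛ, Lam_form hC.symm]
      simp [hfu]
    rw [hΛf, dotProduct_comm] at h1
    exact h1
  obtain ⟨m, hm⟩ := hpo f
  have hX2 : ρ ⬝ᵥ (fun x => f x - m) = energy C f := by
    rw [← hX]
    simp only [dotProduct, mul_sub, sum_sub_distrib, ← sum_mul, hρ, zero_mul, sub_zero]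
  have hcs := pd_cauchy hpν ρ (fun x => f x - m)
  have hE : energy C (fun x => f x - m) = energy C f := by
    unfold energy; simp
  rw [hX2, Lam_form hC.symm, hE] at hcs
  have hE0 : 0 ≤ energy C f := energy_nonneg hC.nonneg f
  have hG0 : 0 ≤ ρ ⬝ᵥ (Lam C ν)⁻¹ *ᵥ ρ := pd_nonneg hpν.inv ρ
  rw [hX]
  rcases hE0.lt_or_eq with h | h
  · have h1 : energy C f * energy C f ≤ (2 * (ρ ⬝ᵥ (Lam C ν)⁻¹ *ᵥ ρ)) * energy C f := by
      calc energy C f * energy C f = energy C f ^ 2 := by ring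
        _ ≤ _ := hcs
        _ ≤ (ρ ⬝ᵥ (Lam C ν)⁻¹ *ᵥ ρ) * (energy C f + energy C f) :=
          mul_le_mul_of_nonneg_left (by linarith) hG0
        _ = _ := by ring
    exact le_of_mul_le_mul_right h1 h
  · rw [← h]; linarith

/-- the pinned field is dominated. -/
theorem pinned {C : V → V → ℝ} (hC : IsNet C) {ν : V → ℝ} (hν : ∀ x, 0 ≤ ν x) (hν0 : ∃ x, 0 < ν x)
    (hpo : ∀ f : V → ℝ, ∃ m : ℝ, ∑ x, ν x * (f x - m) ^ 2 ≤ energy C f) (u : V) {κ : ℝ} (hκ : 0 < κ)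
    {A : ℝ} (hA : 0 < A) :
    (multivariateGaussian 0 (Lam C (fun x => if x = u then κ else 0))⁻¹).real
        {φ : EuclideanSpace ℝ V | ∃ x, 3 * A < |φ x - φ u|} ≤
      2 * (multivariateGaussian 0 (Lam C ν)⁻¹).real {η : EuclideanSpace ℝ V | ∃ x, A < |η x|} := by
  have hpν : (Lam C ν).PosDef := Lam_posDef hC hν hν0
  have hpu : (Lam C (fun x => if x = u then κ else 0)).PosDef :=
    Lam_posDef hC (fun x => by split_ifs <;> [exact hκ.le; exact le_rfl]) ⟨u, by simp [hκ]⟩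
  set Λ := Lam C (fun x => if x = u then κ else 0) with hΛ
  set Δ : Matrix V V ℝ := 1 - Matrix.of (fun _ y => if y = u then (1 : ℝ) else 0) with hΔ
  have hΔv : ∀ (f : V → ℝ) x, (Δ *ᵥ f) x = f x - f u := by
    intro f x
    rw [hΔ, sub_mulVec, Pi.sub_apply, one_mulVec]
    congr 1
    simp [mulVec, dotProduct]
  have hΔt : ∀ ρ : V → ℝ, ∑ x, (Δᵀ *ᵥ ρ) x = 0 := by
    intro ρ
    have h1 : (1 : V → ℝ) ⬝ᵥ (Δᵀ *ᵥ ρ) = 0 := by
      rw [dotProduct_mulVec, ← mulVec_transpose, transpose_transpose]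
      have : Δ *ᵥ (1 : V → ℝ) = 0 := by
        ext x; rw [hΔv]; simp
      rw [this, zero_dotProduct]
    simpa [dotProduct] using h1
  set Δ2 : Matrix V V ℝ := (√2) • Δ with hΔ2
  have hm1 := gauss_map hpu.inv.posSemidef Δ
  have hm2 := gauss_map hpν.inv.posSemidef Δ2
  have hS₁ : (Δ * Λ⁻¹ * Δᵀ).PosSemidef := by
    have := hpu.inv.posSemidef.mul_mul_conjTranspose_same Δ
    rwa [conjTranspose_eq_transpose_of_trivial] at this
  have hS₂ : (Δ2 * (Lam C ν)⁻¹ * Δ2ᵀ).PosSemidef := by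
    have := hpν.inv.posSemidef.mul_mul_conjTranspose_same Δ2
    rwa [conjTranspose_eq_transpose_of_trivial] at this
  have hform : ∀ (L G : Matrix V V ℝ) (ρ : V → ℝ), ρ ⬝ᵥ (L * G * Lᵀ) *ᵥ ρ = (Lᵀ *ᵥ ρ) ⬝ᵥ G *ᵥ (Lᵀ *ᵥ ρ) := by
    intro L G ρ
    rw [← mulVec_mulVec, ← mulVec_mulVec, dotProduct_mulVec, ← mulVec_transpose]
  have hdom := gauss_dom_real hS₁ hS₂ (psd_sub_of_form hS₁ hS₂ fun ρ => by
    rw [hform, hform]
    have h1 := pinned_form hC hν hν0 hpo u hκ (Δᵀ *ᵥ ρ) (hΔt ρ)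
    have h2 : Δ2ᵀ *ᵥ ρ = √2 • (Δᵀ *ᵥ ρ) := by
      rw [hΔ2, transpose_smul, smul_mulVec]
    have h3 : √2 * √2 = 2 := Real.mul_self_sqrt (by norm_num)
    rw [h2, mulVec_smul, smul_dotProduct, dotProduct_smul, smul_eq_mul, smul_eq_mul, ← mul_assoc, h3]
    exact h1) (3 * A)
  have hmeas : ∀ L : Matrix V V ℝ,
      Measurable (fun x : EuclideanSpace ℝ V => (toLp 2 (L *ᵥ x.ofLp) : EuclideanSpace ℝ V)) := by
    intro L
    apply Continuous.measurable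
    apply Continuous.comp (by fun_prop)
    fun_prop
  rw [← hm1, ← hm2, map_measureReal_apply (hmeas _) (measurableSet_exceed _),
    map_measureReal_apply (hmeas _) (measurableSet_exceed _)] at hdom
  have he1 : (fun x : EuclideanSpace ℝ V => (toLp 2 (Δ *ᵥ x.ofLp) : EuclideanSpace ℝ V)) ⁻¹'
      {x | ∃ i, 3 * A < |x i|} = {φ : EuclideanSpace ℝ V | ∃ x, 3 * A < |φ x - φ u|} := by
    ext φ
    simp only [Set.mem_preimage, Set.mem_ofPred_eq]
    exact exists_congr fun x => by rw [hΔv]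
  rw [he1] at hdom
  refine hdom.trans (mul_le_mul_of_nonneg_left (measureReal_mono ?_) (by norm_num))
  intro η hη
  obtain ⟨x, hx⟩ := hη
  by_contra hcon
  have hc : ∀ x, |η x| ≤ A := by
    intro x
    by_contra hx'
    exact hcon ⟨x, not_le.mp hx'⟩
  have h1 : (Δ2 *ᵥ η.ofLp) x = √2 * (η x - η u) := by
    rw [hΔ2, smul_mulVec, Pi.smul_apply, hΔv, smul_eq_mul]
  have h2 : |√2 * (η x - η u)| ≤ 3 * A := by
    rw [abs_mul, abs_of_nonneg (Real.sqrt_nonneg 2)]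
    have h3 : |η x - η u| ≤ 2 * A := by
      have := abs_sub (η x) (η u)
      linarith [hc x, hc u]
    have h4 : √2 ≤ 3 / 2 := by
      rw [Real.sqrt_le_left (by norm_num)]; norm_num
    nlinarith [abs_nonneg (η x - η u), Real.sqrt_nonneg 2]
  have h5 : |(Δ2 *ᵥ η.ofLp) x| ≤ 3 * A := by rw [h1]; exact h2
  exact absurd hx (not_lt.mpr h5)

end Pool.Agent.Speedup
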