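import Mathlib
import Pool.Agent.Speedup.Kernel
import Pool.Agent.Speedup.Dynkin

set_option autoImplicit false
set_option linter.unusedSectionVars false

/-!
Final assembly.
-/

open Finset Matrix MeasureTheory ProbabilityTheory WithLp Filter Topology
open scoped ENNReal

namespace Pool.Agent.Speedup

variable {V : Type} [Fintype V] [DecidableEq V]

lemma isNet_of_irred {P : Matrix V V ℝ} {π : V → ℝ} (hP : ∀ x y, 0 ≤ P x y)
    (hirr : ∀ x y, ∃ n : ℕ, 0 < (P ^ n) x y) (hπ : ∀ x, 0 < π x)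
    (hrev : ∀ x y, π x * P x y = π y * P y x) : IsNet (fun x y => π x * P x y) := by
  refine ⟨hrev, fun x y => mul_nonneg (hπ x).le (hP x y), ?_⟩
  intro f hf
  have h0 : ∀ x y, π x * P x y * (f x - f y) ^ 2 = 0 := by
    have h1 : ∑ x, ∑ y, π x * P x y * (f x - f y) ^ 2 = 0 := by
      unfold energy at hf; linarith
    have hnn : ∀ x y, 0 ≤ π x * P x y * (f x - f y) ^ 2 := fun x y =>
      mul_nonneg (mul_nonneg (hπ x).le (hP x y)) (sq_nonneg _)
    intro x y
    have h2 := (sum_eq_zero_iff_of_nonneg (fun x _ => sum_nonneg fun y _ => hnn x y)).mp h1 x (mem_univ x)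
    exact (sum_eq_zero_iff_of_nonneg (fun y _ => hnn x y)).mp h2 y (mem_univ y)
  have h1 : ∀ x y, 0 < P x y → f x = f y := by
    intro x y hxy
    have h2 := h0 x y
    have h3 : π x * P x y ≠ 0 := (mul_pos (hπ x) hxy).ne'
    have h4 : (f x - f y) ^ 2 = 0 := (mul_eq_zero.mp h2).resolve_left h3
    have h5 : f x - f y = 0 := by simpa using h4
    linarith
  have hPn : ∀ (n : ℕ) x y, 0 ≤ (P ^ n) x y := by
    intro n
    induction n with
    | zero => intro x y; rw [pow_zero, Matrix.one_apply]; split_ifs <;> norm_num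
    | succ n ih =>
      intro x y
      rw [pow_succ', Matrix.mul_apply]
      exact sum_nonneg fun z _ => mul_nonneg (hP x z) (ih z y)
  have h2 : ∀ (n : ℕ) x y, 0 < (P ^ n) x y → f x = f y := by
    intro n
    induction n with
    | zero =>
      intro x y hxy
      rw [pow_zero, Matrix.one_apply] at hxy
      split_ifs at hxy with h
      · rw [h]
      · exact absurd hxy (lt_irrefl _)
    | succ n ih =>
      intro x y hxy
      rw [pow_succ', Matrix.mul_apply] at hxy
      obtain ⟨z, -, hz⟩ := exists_lt_of_sum_lt (by simpa using hxy :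
        ∑ z : V, (0 : ℝ) < ∑ z, P x z * (P ^ n) z y)
      have h3 : 0 < P x z := by
        rcases (hP x z).lt_or_eq with h | h
        · exact h
        · rw [← h, zero_mul] at hz; exact absurd hz (lt_irrefl _)
      have h4 : 0 < (P ^ n) z y := by
        rcases (hPn n z y).lt_or_eq with h | h
        · exact h
        · rw [← h, mul_zero] at hz; exact absurd hz (lt_irrefl _)
      rw [h1 x z h3, ih z y h4]
  intro x y
  obtain ⟨n, hn⟩ := hirr x y
  exact h2 n x y hn

lemma ncov_subsingleton [Subsingleton V] (P : V → V → ℝ) {N : ℕ} (hN : 1 ≤ N) (t : ℕ) (u : V) :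
    ncov P N t u = 0 := by
  rw [ncov]
  refine sum_eq_zero fun ω _ => if_neg ?_
  rintro ⟨-, v, hv⟩
  exact hv ⟨0, hN⟩ 0 (Subsingleton.elim _ _)

lemma ncov_zero [Nontrivial V] {P : V → V → ℝ} (hP1 : ∀ x, ∑ y, P x y = 1) (N : ℕ) (w : V) :
    ncov P N 0 w = 1 := by
  classical
  rw [ncov_eq]
  refine Eq.trans (sum_congr rfl fun ω _ => ?_) (sum_prod_pw hP1 N 0 w)
  by_cases h : ∀ i, ω i 0 = w
  · obtain ⟨v, hv⟩ := exists_ne w
    have h1 : ∃ v, ∀ i j, ω i j ≠ v := ⟨v, fun i j => by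
      have : j = 0 := Fin.ext (by omega)
      rw [this, h i]; exact hv.symm⟩
    rw [if_pos h1, mul_one]
  · push Not at h
    obtain ⟨i, hi⟩ := h
    have : ∏ i, pw P 0 w (ω i) = 0 := prod_eq_zero (mem_univ i) (by simp [pw, hi])
    rw [this, zero_mul]

/-- The real constant appearing in the bound. -/
noncomputable def bconst : ℝ := 2 * (2500 * (9 * ((2 * 4 / (1 / 400000)) ^ 2 * (Real.exp 1 * 60 * 25000))) + 1)

lemma bconst_pos : 0 < bconst := by unfold bconst; positivity

/-- Bound of the cover time of one walker by the time `T` at which `k` walkers cover. -/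
theorem cover_le {P : Matrix V V ℝ} {π : V → ℝ} (hP : ∀ x y, 0 ≤ P x y) (hP1 : ∀ x, ∑ y, P x y = 1)
    (hirr : ∀ x y, ∃ n : ℕ, 0 < (P ^ n) x y) (hπ : ∀ x, 0 < π x) (hsum : ∑ x, π x = 1)
    (hrev : ∀ x y, π x * P x y = π y * P y x) {k T : ℕ} (hk : 1 ≤ k) (hT : 1 ≤ T)
    (hcov : ∀ w, ncov P k T w ≤ 1 / 2) (u : V) (H : ℕ) :
    ∑ t ∈ range H, ncov P 1 t u ≤ bconst * (k * T) := by
  have : Nonempty V := ⟨u⟩
  have hnet := isNet_of_irred hP hirr hπ hrev
  obtain ⟨ν, hν, hν0, hpo, hfield⟩ := kernel (L := 60) hP hP1 hπ hsum hnet hk hT hcov (by norm_num)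
  have hk' : (1 : ℝ) ≤ k := by exact_mod_cast hk
  have hT' : (1 : ℝ) ≤ T := by exact_mod_cast hT
  set b : ℝ := 2 * (4 * √(Real.exp 1 * 60 * k * T * 25000)) / (1 / 400000) with hb
  have hbpos : 0 < b := by positivity
  have hexp : Real.exp (-(60 / 2 : ℝ)) ≤ 1 / 640000000 := by
    have h1 : (2 : ℝ) ^ 30 ≤ Real.exp 30 := by
      have h2 : (2 : ℝ) ≤ Real.exp 1 := by
        have := Real.add_one_le_exp (1 : ℝ); linarith
      calc (2 : ℝ) ^ 30 ≤ (Real.exp 1) ^ 30 := pow_le_pow_left₀ (by norm_num) h2 _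
        _ = Real.exp 30 := by rw [← Real.exp_nat_mul]; norm_num
    rw [show (-(60 / 2 : ℝ)) = -30 by norm_num, Real.exp_neg, inv_eq_one_div]
    apply one_div_le_one_div_of_le (by norm_num)
    refine le_trans ?_ h1
    norm_num
  have hκ : 0 < (2500 * (3 * b) ^ 2)⁻¹ := by positivity
  have hpin := pinned hnet hν hν0 hpo u hκ hbpos
  have hpin2 : (multivariateGaussian 0
      (Lam (fun x y => π x * P x y) (fun x => if x = u then (2500 * (3 * b) ^ 2)⁻¹ else 0))⁻¹ :
        Measure (EuclideanSpace ℝ V)) {φ | ∃ x, 3 * b < |φ x - φ u|} ≤ ENNReal.ofReal (1 / 10000000) := by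
    rw [← ofReal_measureReal]
    apply ENNReal.ofReal_le_ofReal
    refine hpin.trans ?_
    have : 2 * (32 * Real.exp (-(60 / 2 : ℝ))) ≤ 1 / 10000000 := by
      have := hexp
      nlinarith
    linarith
  have hfin := cover_of_field P π hP hP1 hπ hsum hrev hnet u (3 * b) (by positivity) hpin2 H
  refine hfin.trans ?_
  have hb2 : b ^ 2 = (2 * 4 / (1 / 400000)) ^ 2 * (Real.exp 1 * 60 * 25000) * (k * T) := by
    rw [hb, div_pow, mul_pow, mul_pow, Real.sq_sqrt (by positivity)]
    ring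
  have hkT : (1 : ℝ) ≤ (k : ℝ) * T := by nlinarith
  rw [mul_pow, hb2]
  unfold bconst
  nlinarith

/-- Main theorem in terms of `ncov`. -/
theorem main_ncov {P : Matrix V V ℝ} {π : V → ℝ} (hP : ∀ x y, 0 ≤ P x y)
    (hP1 : ∀ x, ∑ y, P x y = 1)
    (hirr : ∀ x y, ∃ n : ℕ, 0 < (P ^ n) x y) (hπ : ∀ x, 0 < π x)
    (hrev : ∀ x y, π x * P x y = π y * P y x) {k : ℕ} (hk : 1 ≤ k) (u : V) :
    ∃ w : V, ∑' t : ℕ, ENNReal.ofReal (ncov P 1 t u) ≤
      ENNReal.ofReal (3 * bconst * k) * ∑' t : ℕ, ENNReal.ofReal (ncov P k t w) := by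
  have hk' : (1 : ℝ) ≤ k := by exact_mod_cast hk
  have hb := bconst_pos
  -- normalise π
  set Z := ∑ x, π x with hZ
  have hZ0 : 0 < Z := sum_pos (fun x _ => hπ x) ⟨u, mem_univ u⟩
  set π' : V → ℝ := fun x => π x / Z with hπ'
  have hπ'0 : ∀ x, 0 < π' x := fun x => div_pos (hπ x) hZ0
  have hsum' : ∑ x, π' x = 1 := by
    rw [hπ', ← sum_div, ← hZ, div_self hZ0.ne']
  have hrev' : ∀ x y, π' x * P x y = π' y * P y x := by
    intro x y
    simp only [hπ']
    rw [div_mul_eq_mul_div, div_mul_eq_mul_div, hrev x y]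
  rcases subsingleton_or_nontrivial V with hV | hV
  · refine ⟨u, ?_⟩
    have : ∑' t : ℕ, ENNReal.ofReal (ncov P 1 t u) = 0 := by
      simp [ncov_subsingleton P le_rfl]
    rw [this]
    exact zero_le
  · obtain ⟨w, -, hw⟩ := exists_max_image univ
      (fun w => ∑' t : ℕ, ENNReal.ofReal (ncov P k t w)) ⟨u, mem_univ u⟩
    refine ⟨w, ?_⟩
    set M := ∑' t : ℕ, ENNReal.ofReal (ncov P k t w) with hM
    by_cases htop : M = ∞
    · rw [htop, ENNReal.mul_top]
      · exact le_top
      · rw [ne_eq, ENNReal.ofReal_eq_zero, not_le]; positivity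
    set m : ℝ := M.toReal with hm
    have hMm : M = ENNReal.ofReal m := (ENNReal.ofReal_toReal htop).symm
    have hm1 : 1 ≤ m := by
      have h1 : ENNReal.ofReal (ncov P k 0 w) ≤ M := ENNReal.le_tsum 0
      rw [ncov_zero hP1, ENNReal.ofReal_one] at h1
      have := ENNReal.toReal_mono htop h1
      simpa using this
    set T : ℕ := ⌈2 * m⌉₊ with hT
    have hT1 : 1 ≤ T := Nat.one_le_ceil_iff.mpr (by linarith)
    have hT2 : 2 * m ≤ T := Nat.le_ceil _
    have hT3 : (T : ℝ) ≤ 3 * m := by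
      have := Nat.ceil_lt_add_one (a := 2 * m) (by linarith)
      linarith
    have hTpos : (0 : ℝ) < T := by linarith
    have hcov : ∀ v, ncov P k T v ≤ 1 / 2 := by
      intro v
      have h1 : ENNReal.ofReal (∑ t ∈ range T, ncov P k t v) ≤ M := by
        rw [ENNReal.ofReal_sum_of_nonneg fun t _ => ncov_nonneg hP k t v]
        exact (ENNReal.sum_le_tsum _).trans (hw v (mem_univ v))
      have h2 : ∑ t ∈ range T, ncov P k t v ≤ m := by
        rw [hMm] at h1
        exact (ENNReal.ofReal_le_ofReal_iff (by linarith)).mp h1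
      have h3 : (T : ℝ) * ncov P k T v ≤ ∑ t ∈ range T, ncov P k t v := by
        have : ∑ t ∈ range T, ncov P k T v ≤ ∑ t ∈ range T, ncov P k t v :=
          sum_le_sum fun t ht => ncov_antitone hP hP1 k v (mem_range.mp ht).le
        simpa using this
      have h4 : (T : ℝ) * ncov P k T v ≤ (T : ℝ) * (1 / 2) := by linarith
      exact le_of_mul_le_mul_left h4 hTpos
    refine ENNReal.tsum_le_of_sum_range_le fun H => ?_
    rw [← ENNReal.ofReal_sum_of_nonneg fun t _ => ncov_nonneg hP 1 t u, hMm,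
      ← ENNReal.ofReal_mul (by positivity)]
    apply ENNReal.ofReal_le_ofReal
    refine (cover_le hP hP1 hirr hπ'0 hsum' hrev' hk hT1 hcov u H).trans ?_
    have h5 : bconst * (k * T) ≤ bconst * (k * (3 * m)) :=
      mul_le_mul_of_nonneg_left (mul_le_mul_of_nonneg_left hT3 (by positivity)) hb.le
    linarith

end Pool.Agent.Speedup
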